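import Mathlib
import Pool.Agent.TH461.SST.Stms

/-!
Project AL: almost all lines.  For `p, q` coprime, almost all lines of the orbit `θ p^i q^j`
contain many far cells.  Definitions and statements of the pieces.

A cell is `(i, j)` (column `i`, line `j`), both integers.  `F i j` means that the cell is far.
-/

set_option autoImplicit false

open Finset Filter Topology

namespace Pool.Agent.TH461.AL

open Pool.Agent.TH461.SST (InT ClusterStmt)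
open Pool.Agent.H706R2 (dZ)

open Classical in
/-- J1: disjoint triangles of bounded total size: for all but `δ R` of the lines `j < R`, every cell
`(x, j)` which lies in no triangle has many cells `(y, j)` in no triangle near it -/
def GeoStmt : Prop :=
  ∀ (l u K δ lam : ℝ) (_ : 0 < l) (_ : 0 < u) (_ : 0 < K) (_ : 0 < δ) (_ : 0 < lam),
    ∃ c : ℝ, 0 < c ∧ ∃ R0 : ℕ, ∀ (R : ℕ) (_ : R0 ≤ R)
    (κ : ℕ) (m n : Fin κ → ℕ) (h : Fin κ → ℝ)
    (_ : ∀ z, (m z : ℝ) * l + (n z : ℝ) * u < h z)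
    (_ : ∀ z z', z ≠ z' → ∀ i j : ℕ, j < R →
      ¬ (InT l u (m z) (n z) (h z) i j ∧ InT l u (m z') (n z') (h z') i j))
    (_ : ∑ z, ((h z - (m z : ℝ) * l - (n z : ℝ) * u) / u + 1) ≤ K * R),
    (((range R).filter (fun j => ∃ x : ℕ, lam * R ≤ x ∧
      (∀ z, ¬ InT l u (m z) (n z) (h z) x j) ∧
      (((range (x + ⌊lam * R⌋₊ + 1)).filter
        (fun y : ℕ => (x : ℝ) ≤ y + lam * R ∧ ∀ z, ¬ InT l u (m z) (n z) (h z) y j)).card : ℝ)
        < c * R)).card : ℝ) ≤ δ * R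

/-- the cell `(i, j)` is far from the integers -/
def Fa (p q : ℕ) (r θ : ℝ) (i j : ℤ) : Prop := r ≤ dZ (θ * (p : ℝ) ^ i * (q : ℝ) ^ j)

/-- `y` is at distance at most `ρ` to the right of a far cell of the line `j` -/
def Ngh (F : ℤ → ℤ → Prop) (ρ : ℝ) (j y : ℤ) : Prop :=
  ∃ i : ℤ, F i j ∧ i ≤ y ∧ (y : ℝ) ≤ i + ρ

open Classical in
/-- the number of such `y` in `[a, b]` -/
noncomputable def mu (F : ℤ → ℤ → Prop) (ρ : ℝ) (j a b : ℤ) : ℕ :=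
  ((Icc a b).filter (fun y => Ngh F ρ j y)).card

/-- below a far cell there is a far cell, at most `k0 t + 1` to the right -/
def Down (F : ℤ → ℤ → Prop) (k0 : ℕ) : Prop :=
  ∀ i j : ℤ, F i j → ∀ t : ℕ, ∃ i' : ℤ, i ≤ i' ∧ i' ≤ i + k0 * t + 1 ∧ F i' (j - t)

/-- if no cell of `[a, b] × {j + 1}` is far but some cell of `[a, b] × {j}` is, then all cells of
`[a, b] × {j}` are far -/
def WallP (F : ℤ → ℤ → Prop) : Prop :=
  ∀ a b j : ℤ, (∀ i, a ≤ i → i ≤ b → ¬ F i (j + 1)) → (∃ i, a ≤ i ∧ i ≤ b ∧ F i j) →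
    ∀ i, a ≤ i → i ≤ b → F i j

open Classical in
/-- J6: around a far cell, for all but `δ T` of the `T` lines below it, the `η T`-neighbourhood of
the far cells of the line has at least `c T` elements, `c` independent of `η` -/
def LineProp (S : Set (ℤ → ℤ → Prop)) (D : ℕ) : Prop :=
  ∀ δ : ℝ, 0 < δ → ∃ c : ℝ, 0 < c ∧ ∀ η : ℝ, 0 < η → ∃ T0 : ℕ, ∀ T : ℕ, T0 ≤ T →
    ∀ F ∈ S, ∀ i j : ℤ, F i j →
      (((range T).filter (fun t : ℕ =>
        (mu F (η * T) (j - t) (i - D * T) (i + D * T) : ℝ) < c * T)).card : ℝ) ≤ δ * T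

open Classical in
/-- J2: the strip of the lines `J + s`, `s < R`; `s` is the last line of the strip for which `y` is
near a far cell (at distance at most `R`) -/
def PointProp (S : Set (ℤ → ℤ → Prop)) (D : ℕ) : Prop :=
  ∀ δ : ℝ, 0 < δ → ∃ c : ℝ, 0 < c ∧ ∀ η : ℝ, 0 < η → η ≤ 1 / 2 → ∃ R0 : ℕ, ∀ R : ℕ, R0 ≤ R →
    ∀ F ∈ S, ∀ (J y : ℤ) (s : ℕ), s < R → Ngh F R (J + s) y →
      (s + 1 < R → ¬ Ngh F R (J + s + 1) y) → ∀ t : ℕ, t ≤ s + 1 →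
        (((range t).filter (fun k : ℕ => (s : ℝ) - k ≤ (1 - δ) * R ∧
          (mu F (η * R) (J + s - k) (y - D * R) (y + D * R) : ℝ) < c * R)).card : ℝ) ≤ δ * t

open Classical in
/-- J3: one level: for all but `δ R` of the lines of a strip of `R` lines, the `η R`-neighbourhood
of the far cells is at least `c` times as large as the `R`-neighbourhood, `c` independent of `η` -/
def LevelProp (S : Set (ℤ → ℤ → Prop)) (D : ℕ) : Prop :=
  ∀ δ : ℝ, 0 < δ → ∃ c : ℝ, 0 < c ∧ ∀ η : ℝ, 0 < η → η ≤ 1 / 2 → ∃ R0 : ℕ, ∀ R : ℕ, R0 ≤ R →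
    ∀ F ∈ S, ∀ J a b : ℤ,
      (((range R).filter (fun t : ℕ =>
        (mu F (η * R) (J + t) (a - D * R) (b + D * R) : ℝ) < c * mu F R (J + t) a b)).card : ℝ)
        ≤ δ * R

open Classical in
/-- J4: all levels: if every line `J + t`, `t < M`, has a far cell in `[a, b]`, then almost all of
these lines have at least `M ^ (1 - ε)` far cells in a larger interval -/
def MultiProp (S : Set (ℤ → ℤ → Prop)) (D : ℕ) : Prop :=
  ∀ ε : ℝ, 0 < ε → ∀ δ : ℝ, 0 < δ → ∃ M0 : ℕ, ∀ M : ℕ, M0 ≤ M → ∀ F ∈ S, ∀ J a b : ℤ,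
    (∀ t : ℕ, t < M → ∃ i : ℤ, a ≤ i ∧ i ≤ b ∧ F i (J + t)) →
      (((range M).filter (fun t : ℕ =>
        (((Icc (a - D * M) (b + D * M)).filter (fun i => F i (J + t))).card : ℝ)
          < (M : ℝ) ^ (1 - ε))).card : ℝ) ≤ δ * M

/-- J1 -/
def J1 : Prop := GeoStmt

/-- J2 -/
def J2 : Prop := ∀ (S : Set (ℤ → ℤ → Prop)) (D k0 : ℕ) (_ : LineProp S D) (_ : ∀ F ∈ S, Down F k0)
  (_ : ∀ F ∈ S, WallP F), PointProp S (D + 1)

/-- J3 -/
def J3 : Prop := ∀ (S : Set (ℤ → ℤ → Prop)) (D : ℕ) (_ : PointProp S D), LevelProp S D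

/-- J4 -/
def J4 : Prop := ∀ (S : Set (ℤ → ℤ → Prop)) (D : ℕ) (_ : LevelProp S D), MultiProp S (4 * D + 8)

/-- J5 -/
def J5 : Prop := ∀ (p q : ℕ) (_ : 2 ≤ p) (_ : 2 ≤ q) (_ : Nat.Coprime p q) (r : ℝ) (_ : 0 < r)
  (_ : ((p : ℝ) + 1) * r ≤ 1) (_ : ((q : ℝ) + 1) * r ≤ 1) (θ : ℝ),
    Down (Fa p q r θ) ⌈Real.log q / Real.log p⌉₊ ∧ WallP (Fa p q r θ)

/-- J6 -/
def J6 : Prop := ∀ (p q : ℕ) (_ : 2 ≤ p) (_ : 2 ≤ q) (_ : Nat.Coprime p q) (r : ℝ) (_ : 0 < r)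
  (_ : ((p : ℝ) + 1) * r ≤ 1) (_ : ((q : ℝ) + 1) * r ≤ 1) (_ : GeoStmt) (_ : ClusterStmt p q)
  (_ : ∀ θ : ℝ, Down (Fa p q r θ) ⌈Real.log q / Real.log p⌉₊),
    ∃ D : ℕ, LineProp {F | ∃ θ : ℝ, F = Fa p q r θ} D

end Pool.Agent.TH461.AL
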