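import Mathlib
import Pool.Agent.TH461.AL.Stms

/-!
Project AL, second part: words instead of digit changes.
-/

set_option autoImplicit false

open Finset Filter Topology

namespace Pool.Agent.TH461.AL

open Pool.Agent.H706R2 (dZ)

open Classical in
/-- J7: if `N θ` is far from the integers (`N` depending on the open set `U` and on `δ`), then for
all but `δ T` of the `t < T` some `θ p^k q^(-t)`, `k ≤ D T`, lies in `U` modulo `1` -/
def J7 : Prop := ∀ (p q : ℕ) (_ : 2 ≤ p) (_ : 2 ≤ q) (_ : Nat.Coprime p q) (r : ℝ) (_ : 0 < r)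
  (U : Set UnitAddCircle) (_ : IsOpen U) (_ : U.Nonempty) (δ : ℝ) (_ : 0 < δ),
    ∃ N : ℕ, 1 ≤ N ∧ ∃ T1 : ℕ, ∀ T : ℕ, T1 ≤ T → ∀ θ : ℝ, r ≤ dZ (N * θ) →
      (((range T).filter (fun t : ℕ =>
        ∀ k : ℕ, k ≤ (⌈Real.log q / Real.log p⌉₊ + 1) * T →
          ((θ * (p : ℝ) ^ k / (q : ℝ) ^ t : ℝ) : UnitAddCircle) ∉ U)).card : ℝ) ≤ δ * T

open Classical in
/-- J8: the last step, from far cells to cells with `G` -/
def J8 : Prop := ∀ (D T1 : ℕ) (δ : ℝ) (_ : 0 < δ), ∃ C0 : ℕ, ∀ (F G : ℤ → ℤ → Prop)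
  (_ : ∀ T : ℕ, T1 ≤ T → ∀ i j : ℤ, F i j →
    (((range T).filter (fun t : ℕ =>
      ¬ ∃ i' : ℤ, i - D * T ≤ i' ∧ i' ≤ i + D * T ∧ G i' (j - t))).card : ℝ) ≤ δ * T)
  (R : ℕ) (J a b : ℤ) (_ : C0 * (1 + Nat.log 2 (b - a).toNat) ≤ R),
    (((range R).filter (fun t : ℕ =>
      (8 * D + 16) * R * ((Icc (a - (D + 1) * R) (b + (D + 1) * R)).filter
        (fun i => G i (J + t))).card < mu F R (J + t) a b)).card : ℝ) ≤ 5 * δ * R

end Pool.Agent.TH461.AL
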