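import Mathlib
import Pool.Agent.TH461.AL.Stms2

/-!
Project AL, third part: all windows, for algebraic numbers and for powers.
-/

set_option autoImplicit false

open Finset Filter Topology

namespace Pool.Agent.TH461.AL

open Pool.Agent.H706R2 (dZ)

open Classical in
/-- the conclusion of `Core.core` -/
def CoreProp (p q : ℕ) (r : ℝ) (D : ℕ) : Prop :=
  ∀ (U : Set UnitAddCircle) (_ : IsOpen U) (_ : U.Nonempty) (ε δ : ℝ) (_ : 0 < ε)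
      (_ : 0 < δ), ∃ N : ℕ, 1 ≤ N ∧ ∀ H : ℕ, ∃ M0 : ℕ, ∀ M : ℕ, M0 ≤ M → ∀ (θ : ℝ) (J a b : ℤ),
        b - a ≤ H * M →
        (∀ t : ℕ, t < M → ∃ i : ℤ, a ≤ i ∧ i ≤ b ∧ Fa p q r (N * θ) i (J + t)) →
          (((range M).filter (fun t : ℕ =>
            (((Icc (a - D * M) (b + D * M)).filter (fun i : ℤ =>
              ((θ * (p : ℝ) ^ i * (q : ℝ) ^ (J + t) : ℝ) : UnitAddCircle) ∈ U)).card : ℝ) <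
                (M : ℝ) ^ (1 - ε))).card : ℝ) ≤ δ * M

open Classical in
/-- J9: all windows -/
def J9 : Prop := ∀ (p q : ℕ) (r : ℝ) (D : ℕ) (_ : CoreProp p q r D) (θ : ℝ) (L Hh : ℕ → ℤ)
  (κ0 R : ℕ) (_ : ∀ n, L (n + 1) ≤ L n ∧ L n ≤ L (n + 1) + κ0)
  (_ : ∀ M : ℕ, 1 ≤ M → Hh M - L (2 * M) ≤ R * M)
  (_ : ∀ (N : ℕ) (_ : 1 ≤ N) (η : ℝ) (_ : 0 < η), ∃ M1 : ℕ, ∀ M : ℕ, M1 ≤ M →
    ∀ n : ℕ, n < 2 * M → ∀ u v : ℤ, L n ≤ u → v ≤ Hh M → η * M ≤ (v : ℝ) - u →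
      ∃ i : ℤ, u ≤ i ∧ i ≤ v ∧ Fa p q r (N * θ) i n)
  (U : Set UnitAddCircle) (_ : IsOpen U) (_ : U.Nonempty) (ε δ η : ℝ) (_ : 0 < ε) (_ : 0 < δ)
  (_ : 0 < η), ∃ M0 : ℕ, ∀ M : ℕ, M0 ≤ M →
    (((range M).filter (fun n : ℕ => ∃ u v : ℤ, L n ≤ u ∧ v ≤ Hh M ∧ η * M ≤ (v : ℝ) - u ∧
      (((Icc u v).filter (fun i : ℤ =>
        ((θ * (p : ℝ) ^ i * (q : ℝ) ^ (n : ℤ) : ℝ) : UnitAddCircle) ∈ U)).card : ℝ) <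
          (M : ℝ) ^ (1 - ε))).card : ℝ) ≤ δ * M

/-- J10: far cells in all windows for algebraic numbers -/
def J10 : Prop := ∀ (p q : ℕ) (_ : 2 ≤ p) (_ : 2 ≤ q) (r : ℝ) (_ : 0 < r)
  (_ : ((p : ℝ) + 1) * r ≤ 1) (ξ : ℝ) (_ : Irrational ξ) (_ : IsAlgebraic ℚ ξ) (R : ℕ)
  (N : ℕ) (_ : 1 ≤ N) (η : ℝ) (_ : 0 < η), ∃ M1 : ℕ, ∀ M : ℕ, M1 ≤ M →
    ∀ n : ℕ, n < 2 * M → ∀ u v : ℤ, 0 ≤ u → v ≤ R * M → η * M ≤ (v : ℝ) - u →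
      ∃ i : ℤ, u ≤ i ∧ i ≤ v ∧ Fa p q r (N * ξ) i n

/-- J11: far cells in all windows for powers -/
def J11 : Prop := ∀ (p q : ℕ) (_ : 2 ≤ p) (_ : 2 ≤ q) (_ : Nat.Coprime p q) (r : ℝ) (_ : 0 < r)
  (_ : ((p : ℝ) + 1) * r ≤ 1) (m : ℕ) (_ : 1 ≤ m)
  (N : ℕ) (_ : 1 ≤ N) (η : ℝ) (_ : 0 < η), ∃ M1 : ℕ, ∀ M : ℕ, M1 ≤ M →
    ∀ n : ℕ, n < 2 * M → ∀ u v : ℤ, -(⌊(n : ℝ) * (Real.log q / Real.log p)⌋₊ : ℤ) ≤ u → v ≤ 0 →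
      η * M ≤ (v : ℝ) - u → ∃ i : ℤ, u ≤ i ∧ i ≤ v ∧ Fa p q r (N * (m : ℝ)) i n

end Pool.Agent.TH461.AL
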