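import Mathlib
import Pool.Agent.TH461.AL.Stms3
import Pool.Agent.TH419.FS.Rid

/-!
Project AL: far cells in all windows for algebraic numbers
(job of helper461, written by helper429).
-/

set_option autoImplicit false

open Finset Filter Topology

namespace Pool.Agent.TH461.AL.Alg

open Pool.Agent.TH461.AL
open Pool.Agent.H706R2 (dZ round_run)

theorem alg : J10 := by
  intro p q hp hq r hr hrp ξ hirr halg R N hN η hη
  have hpR : (2 : ℝ) ≤ p := by exact_mod_cast hp
  have hqR : (2 : ℝ) ≤ q := by exact_mod_cast hq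
  have hp0 : (0 : ℝ) < p := by linarith
  have hq0 : (0 : ℝ) < q := by linarith
  have hlp : 0 < Real.log p := Real.log_pos (by linarith)
  have hlq : 0 < Real.log q := Real.log_pos (by linarith)
  have hr1 : r < 1 := by nlinarith
  -- the number `N ξ`
  have hirr' : Irrational ((N : ℝ) * ξ) := by
    have h1 : (N : ℝ) * ξ = ((N : ℕ) : ℝ) * ξ := rfl
    exact hirr.natCast_mul (by omega)
  have halg' : IsAlgebraic ℚ ((N : ℝ) * ξ) := by
    exact (isAlgebraic_natCast N).mul halg
  set Kc : ℝ := R * Real.log p + 2 * Real.log q + 1 with hKc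
  have hR0 : (0 : ℝ) ≤ R := Nat.cast_nonneg _
  have hKc0 : 0 < Kc := by positivity
  set η' : ℝ := η * Real.log p / (4 * Kc) with hη'
  have hη'0 : 0 < η' := by positivity
  obtain ⟨κ, hκ, hrid⟩ := Pool.Agent.TH419.FS.ridout_units p q hp hq ((N : ℝ) * ξ) halg' hirr' η' hη'0
  set c : ℝ := 3 / 4 * (η * Real.log p) with hc
  have hc0 : 0 < c := by positivity
  obtain ⟨M1, hM1⟩ := exists_nat_gt (-Real.log κ / c)
  refine ⟨M1, fun M hM n hn u v hu hv huv => ?_⟩
  by_contra hcon
  push Not at hcon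
  have hMR : (M1 : ℝ) ≤ M := by exact_mod_cast hM
  have hM0 : (0 : ℝ) < M := by exact_mod_cast (by omega : 0 < M)
  have hlog : -Real.log κ < c * M := by
    rw [div_lt_iff₀ hc0] at hM1
    nlinarith
  obtain ⟨a, rfl⟩ := Int.eq_ofNat_of_zero_le hu
  have hvu : (0 : ℤ) ≤ v - a := by
    have h1 : (0 : ℝ) < (v : ℝ) - ((a : ℤ) : ℝ) := lt_of_lt_of_le (by positivity) huv
    have h2 : (0 : ℝ) < ((v - a : ℤ) : ℝ) := by push_cast; exact_mod_cast h1
    exact_mod_cast h2.le
  obtain ⟨A, hA⟩ := Int.eq_ofNat_of_zero_le hvu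
  have hvA : v = (a : ℤ) + A := by omega
  subst hvA
  set z : ℝ := (N : ℝ) * ξ * (p : ℝ) ^ a * (q : ℝ) ^ n with hz
  have hnear : ∀ k ≤ A, dZ ((p : ℝ) ^ k * z) < r := by
    intro k hk
    have h1 := hcon ((a : ℤ) + k) (by omega) (by omega)
    unfold Fa at h1
    push Not at h1
    have e : (N : ℝ) * ξ * (p : ℝ) ^ ((a : ℤ) + k) * (q : ℝ) ^ ((n : ℕ) : ℤ) =
        (p : ℝ) ^ k * z := by
      rw [show ((a : ℤ) + k) = ((a + k : ℕ) : ℤ) by push_cast; rfl, zpow_natCast, zpow_natCast,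
        hz, pow_add]
      ring
    rw [e] at h1
    exact h1
  have h1 := round_run hrp A hnear
  have h2 := hnear A le_rfl
  have h5 : (p : ℝ) ^ A * dZ z < r := by
    unfold dZ at h2
    rw [h1] at h2
    push_cast at h2
    rw [← mul_sub, abs_mul, abs_of_pos (by positivity)] at h2
    exact h2
  have h3 : κ ≤ ((p : ℝ) ^ a * (q : ℝ) ^ n) ^ η' * dZ z := by
    have h4 := hrid a n (round z)
    have e : (p : ℝ) ^ a * (q : ℝ) ^ n * ((N : ℝ) * ξ) = z := by rw [hz]; ring
    rw [e] at h4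
    exact h4
  set W : ℝ := (p : ℝ) ^ a * (q : ℝ) ^ n with hW
  have hW0 : 0 < W := by positivity
  have hWη : 0 < W ^ η' := Real.rpow_pos_of_pos hW0 _
  have h6 : κ * (p : ℝ) ^ A < W ^ η' := by
    have hpA : (0 : ℝ) < (p : ℝ) ^ A := by positivity
    calc κ * (p : ℝ) ^ A ≤ (W ^ η' * dZ z) * (p : ℝ) ^ A :=
          mul_le_mul_of_nonneg_right h3 hpA.le
      _ = W ^ η' * ((p : ℝ) ^ A * dZ z) := by ring
      _ < W ^ η' * 1 := mul_lt_mul_of_pos_left (h5.trans hr1) hWη
      _ = W ^ η' := mul_one _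
  have h7 := Real.log_lt_log (by positivity) h6
  rw [Real.log_mul hκ.ne' (by positivity), Real.log_pow, Real.log_rpow hW0, hW,
    Real.log_mul (by positivity) (by positivity), Real.log_pow, Real.log_pow] at h7
  -- estimates
  have hA1 : η * M ≤ (A : ℝ) := by
    have h8 := huv
    push_cast at h8
    linarith
  have ha1 : (a : ℝ) ≤ R * M := by
    have h8 : ((a : ℤ) : ℝ) ≤ ((R * M : ℤ) : ℝ) := by
      have h9 : (a : ℤ) ≤ R * M := by omega
      exact_mod_cast h9
    push_cast at h8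
    exact h8
  have hn1 : (n : ℝ) ≤ 2 * M := by
    have h8 : n ≤ 2 * M := by omega
    exact_mod_cast h8
  have h8 : η' * ((a : ℝ) * Real.log p + n * Real.log q) ≤ η * Real.log p / 4 * M := by
    have h9 : (a : ℝ) * Real.log p + n * Real.log q ≤ Kc * M := by
      have e1 := mul_le_mul_of_nonneg_right ha1 hlp.le
      have e2 := mul_le_mul_of_nonneg_right hn1 hlq.le
      rw [hKc]
      nlinarith
    have h10 : η' * Kc = η * Real.log p / 4 := by
      rw [hη']
      field_simp
    calc η' * ((a : ℝ) * Real.log p + n * Real.log q) ≤ η' * (Kc * M) :=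
          mul_le_mul_of_nonneg_left h9 hη'0.le
      _ = (η' * Kc) * M := by ring
      _ = _ := by rw [h10]
  have h11 : η * M * Real.log p ≤ A * Real.log p := mul_le_mul_of_nonneg_right hA1 hlp.le
  rw [hc] at hlog
  nlinarith

end Pool.Agent.TH461.AL.Alg
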