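import Mathlib
import Pool.Agent.TH461.AL.Stms

/-! Project AL: far cells below a far cell, and walls. -/

set_option autoImplicit false

open Finset Filter Topology

namespace Pool.Agent.TH461.AL.Dn

open Pool.Agent.TH461.AL

open Pool.Agent.H706R2 (dZ dZ_le_of_int round_step arc_side)

/-- the value in the cell `(i, j)` -/
private noncomputable def X (p q : ℕ) (θ : ℝ) (i j : ℤ) : ℝ := θ * (p : ℝ) ^ i * (q : ℝ) ^ j

private lemma X_col {p q : ℕ} (hp : 2 ≤ p) (θ : ℝ) (i j : ℤ) :
    X p q θ (i + 1) j = p * X p q θ i j := by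
  have h : (p : ℝ) ≠ 0 := by
    have : 0 < p := by omega
    exact_mod_cast this.ne'
  unfold X
  rw [zpow_add₀ h, zpow_one]
  ring

private lemma X_row {p q : ℕ} (hq : 2 ≤ q) (θ : ℝ) (i j : ℤ) :
    X p q θ i (j + 1) = q * X p q θ i j := by
  have h : (q : ℝ) ≠ 0 := by
    have : 0 < q := by omega
    exact_mod_cast this.ne'
  unfold X
  rw [zpow_add₀ h, zpow_one]
  ring

/-- a step to the right -/
private lemma step_right {p q : ℕ} (hq : 1 ≤ q) {r x : ℝ} (hrp : ((p : ℝ) + 1) * r ≤ 1)
    (hrq : ((q : ℝ) + 1) * r ≤ 1) (h0 : dZ x < r) (h1 : dZ (q * x) < r)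
    (h2 : dZ (p * (q * x)) < r) : dZ (p * x) < r := by
  have e1 := round_step hrq h0 h1
  have e2 := round_step hrp h1 h2
  have hp0 : (0 : ℝ) ≤ p := Nat.cast_nonneg p
  have hq1 : (1 : ℝ) ≤ q := by exact_mod_cast hq
  have h3 : |(p : ℝ) * (q * x) - ((p : ℝ) * (q * round x))| < r := by
    have h4 := h2
    unfold dZ at h4
    rw [e2, e1] at h4
    push_cast at h4
    exact h4
  have h5 := dZ_le_of_int (p * x) (p * round x)
  refine h5.trans_lt (lt_of_le_of_lt ?_ h3)
  have e3 : (p : ℝ) * (q * x) - ((p : ℝ) * (q * round x)) = q * (p * x - p * round x) := by ring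
  rw [e3, abs_mul, abs_of_nonneg (by linarith : (0 : ℝ) ≤ q)]
  push_cast
  exact le_mul_of_one_le_left (abs_nonneg _) hq1

/-- a step to the left -/
private lemma step_left {p q : ℕ} (hp : 1 ≤ p) (hpq : Nat.Coprime p q) {r x : ℝ}
    (hrp : ((p : ℝ) + 1) * r ≤ 1)
    (hrq : ((q : ℝ) + 1) * r ≤ 1) (h0 : dZ (p * x) < r) (h1 : dZ (q * x) < r)
    (h2 : dZ (p * (q * x)) < r) : dZ x < r := by
  have h2' : dZ ((q : ℝ) * (p * x)) < r := by
    have : (q : ℝ) * (p * x) = p * (q * x) := by ring
    rw [this]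
    exact h2
  have e1 := round_step hrq h0 h2'
  have e2 := round_step hrp h1 h2
  have e3 : (q : ℤ) * round ((p : ℝ) * x) = p * round ((q : ℝ) * x) := by
    rw [← e1, ← e2]
    congr 1
    ring
  have hd : (p : ℤ) ∣ round ((p : ℝ) * x) := by
    have h3 : (p : ℤ) ∣ q * round ((p : ℝ) * x) := by
      rw [e3]
      exact dvd_mul_right _ _
    have hc : IsCoprime (p : ℤ) (q : ℤ) := Nat.isCoprime_iff_coprime.2 hpq
    exact hc.dvd_of_dvd_mul_left h3
  obtain ⟨k, hk⟩ := hd
  have hp1 : (1 : ℝ) ≤ p := by exact_mod_cast hp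
  have h3 : |(p : ℝ) * x - p * k| < r := by
    have h4 := h0
    unfold dZ at h4
    rw [hk] at h4
    push_cast at h4
    exact h4
  refine (dZ_le_of_int x k).trans_lt (lt_of_le_of_lt ?_ h3)
  rw [← mul_sub, abs_mul, abs_of_nonneg (by linarith : (0 : ℝ) ≤ p)]
  exact le_mul_of_one_le_left (abs_nonneg _) hp1

theorem down : J5 := by
  intro p q hp hq hpq r hr hrp hrq θ
  have hpR : (1 : ℝ) < p := by exact_mod_cast (by omega : 1 < p)
  have hqR : (1 : ℝ) < q := by exact_mod_cast (by omega : 1 < q)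
  have hF : ∀ i j, Fa p q r θ i j ↔ r ≤ dZ (X p q θ i j) := fun i j => Iff.rfl
  constructor
  · intro i j hij t
    set k0 := ⌈Real.log q / Real.log p⌉₊ with hk0
    have hlp : 0 < Real.log p := Real.log_pos hpR
    have h1 : q ≤ p ^ k0 := by
      have h2 : Real.log q ≤ k0 * Real.log p := by
        rw [← div_le_iff₀ hlp]
        exact Nat.le_ceil _
      rw [← Real.log_pow] at h2
      have h3 := (Real.log_le_log_iff (by linarith) (by positivity)).1 h2
      exact_mod_cast h3
    have h2 : q ^ t ≤ p ^ (k0 * t) := by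
      rw [pow_mul]
      exact Nat.pow_le_pow_left h1 t
    obtain ⟨s, hs, h3⟩ := arc_side (p := q) (q := p) (by omega) (by omega) hrp
      ((hF i j).1 hij) t (k0 * t) h2
    refine ⟨i + s, by omega, ?_, ?_⟩
    · have : (s : ℤ) ≤ k0 * t := by exact_mod_cast hs
      linarith
    · rw [hF]
      have e : X p q θ (i + s) (j - t) = (p : ℝ) ^ s * (X p q θ i j / (q : ℝ) ^ t) := by
        unfold X
        rw [zpow_add₀ (by positivity : (p : ℝ) ≠ 0), zpow_sub₀ (by positivity : (q : ℝ) ≠ 0),
          zpow_natCast, zpow_natCast]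
        ring
      rw [e]
      exact h3
  · intro a b j hnear hfar
    by_contra hcon
    push Not at hcon
    obtain ⟨i1, ha1, hb1, h1⟩ := hcon
    obtain ⟨i2, ha2, hb2, h2⟩ := hfar
    have hn : ∀ i, a ≤ i → i ≤ b → dZ (q * X p q θ i j) < r := by
      intro i hi hi'
      have := hnear i hi hi'
      rw [hF, X_row hq, not_le] at this
      exact this
    rw [hF, not_le] at h1
    have key : ∀ i, a ≤ i → i + 1 ≤ b →
        (dZ (X p q θ i j) < r ↔ dZ (X p q θ (i + 1) j) < r) := by
      intro i hi hi'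
      have h3 := hn i hi (by omega)
      have h4 := hn (i + 1) (by omega) hi'
      rw [X_col hp] at h4 ⊢
      have h5 : dZ ((p : ℝ) * (q * X p q θ i j)) < r := by
        have : (p : ℝ) * (q * X p q θ i j) = q * (p * X p q θ i j) := by ring
        rw [this]
        exact h4
      exact ⟨fun h => step_right (by omega) hrp hrq h h3 h5,
        fun h => step_left (by omega) hpq hrp hrq h h3 h5⟩
    have hall : ∀ n : ℕ, ∀ i, a ≤ i → i + n ≤ b →
        (dZ (X p q θ i j) < r ↔ dZ (X p q θ (i + n) j) < r) := by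
      intro n
      induction n with
      | zero => intro i _ _; simp
      | succ n ih =>
        intro i hi hi'
        push_cast at hi'
        rw [ih i hi (by omega), key (i + n) (by omega) (by omega)]
        push_cast
        rw [add_assoc]
    have hcmp : dZ (X p q θ i2 j) < r := by
      rcases le_total i1 i2 with h | h
      · obtain ⟨n, hn'⟩ := Int.le.dest h
        have := (hall n i1 ha1 (by omega)).1 h1
        rwa [hn'] at this
      · obtain ⟨n, hn'⟩ := Int.le.dest h
        refine (hall n i2 ha2 (by omega)).2 ?_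
        rwa [hn']
    exact absurd ((hF i2 j).1 h2) (not_le.2 hcmp)

end Pool.Agent.TH461.AL.Dn
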