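import Mathlib
import Pool.Agent.TH461.AL.Stms

/-!
# J1: disjoint triangles of bounded total size, almost every line has a gap
-/

set_option autoImplicit false

open Finset Filter Topology

namespace Pool.Agent.TH461.AL.Geo

open Pool.Agent.TH461.AL
open Pool.Agent.TH461.SST (InT)

section
variable {κ : ℕ} {l u : ℝ} {R : ℕ} {m n : Fin κ → ℕ} {h : Fin κ → ℝ}

/-- the size of a triangle -/
noncomputable def sz (l u : ℝ) (m n : Fin κ → ℕ) (h : Fin κ → ℝ) (z : Fin κ) : ℝ :=
  h z - (m z : ℝ) * l - (n z : ℝ) * u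

/-- the line `j` meets the triangle `z` -/
def Mt (l u : ℝ) (m n : Fin κ → ℕ) (h : Fin κ → ℝ) (z : Fin κ) (j : ℕ) : Prop :=
  n z ≤ j ∧ (m z : ℝ) * l + (j : ℝ) * u < h z

/-- the disjointness hypothesis -/
def Dis (l u : ℝ) (R : ℕ) (m n : Fin κ → ℕ) (h : Fin κ → ℝ) : Prop :=
  ∀ z z', z ≠ z' → ∀ i j : ℕ, j < R →
      ¬ (InT l u (m z) (n z) (h z) i j ∧ InT l u (m z') (n z') (h z') i j)

lemma mt_of (hl : 0 < l) {z : Fin κ} {i j : ℕ} (hi : InT l u (m z) (n z) (h z) i j) :
    Mt l u m n h z j := by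
  obtain ⟨h1, h2, h3⟩ := hi
  refine ⟨h2, lt_of_le_of_lt ?_ h3⟩
  have h4 : (m z : ℝ) ≤ i := by exact_mod_cast h1
  nlinarith

open Classical in
lemma lines_le (hu : 0 < u) {z : Fin κ} (hz : 0 < sz l u m n h z) :
    (((range R).filter (fun j => Mt l u m n h z j)).card : ℝ) ≤ sz l u m n h z / u + 1 := by
  have hsub : (range R).filter (fun j => Mt l u m n h z j) ⊆
      Ico (n z) (n z + ⌈sz l u m n h z / u⌉₊) := by
    intro j hj
    rw [mem_filter] at hj
    obtain ⟨-, h1, h2⟩ := hj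
    rw [mem_Ico]
    refine ⟨h1, ?_⟩
    have h3 : ((j : ℝ) - n z) < sz l u m n h z / u := by
      rw [lt_div_iff₀ hu]
      unfold sz
      linarith
    have h4 := h3.trans_le (Nat.le_ceil _)
    have h5 : (j : ℝ) < ((n z + ⌈sz l u m n h z / u⌉₊ : ℕ) : ℝ) := by
      push_cast
      linarith
    exact_mod_cast h5
  have h1 := card_le_card hsub
  rw [Nat.card_Ico, Nat.add_sub_cancel_left] at h1
  have h2 : (((range R).filter (fun j => Mt l u m n h z j)).card : ℝ) ≤
      (⌈sz l u m n h z / u⌉₊ : ℝ) := by exact_mod_cast h1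
  exact h2.trans (Nat.ceil_lt_add_one (div_nonneg hz.le hu.le)).le

open Classical in
lemma cells_le (hl : 0 < l) (hu : 0 < u) {z : Fin κ} (hz : 0 < sz l u m n h z) (I : Finset ℕ)
    (j : ℕ) : ((I.filter (fun y => InT l u (m z) (n z) (h z) y j)).card : ℝ) ≤
      sz l u m n h z / l + 1 := by
  have hsub : I.filter (fun y => InT l u (m z) (n z) (h z) y j) ⊆
      Ico (m z) (m z + ⌈sz l u m n h z / l⌉₊) := by
    intro y hy
    rw [mem_filter] at hy
    obtain ⟨-, h1, h2, h3⟩ := hy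
    rw [mem_Ico]
    refine ⟨h1, ?_⟩
    have h4 : (n z : ℝ) ≤ j := by exact_mod_cast h2
    have h5 : ((y : ℝ) - m z) < sz l u m n h z / l := by
      rw [lt_div_iff₀ hl]
      unfold sz
      nlinarith
    have h6 := h5.trans_le (Nat.le_ceil _)
    have h7 : (y : ℝ) < ((m z + ⌈sz l u m n h z / l⌉₊ : ℕ) : ℝ) := by
      push_cast
      linarith
    exact_mod_cast h7
  have h1 := card_le_card hsub
  rw [Nat.card_Ico, Nat.add_sub_cancel_left] at h1
  have h2 : ((I.filter (fun y => InT l u (m z) (n z) (h z) y j)).card : ℝ) ≤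
      (⌈sz l u m n h z / l⌉₊ : ℝ) := by exact_mod_cast h1
  exact h2.trans (Nat.ceil_lt_add_one (div_nonneg hz.le hl.le)).le

/-- on one side of an uncovered cell there is no large triangle -/
lemma one_side (hl : 0 < l) (hu : 0 < u) (hdis : Dis l u R m n h) {j x D : ℕ} (hj : j < R)
    {T : ℝ} (hT : 0 ≤ T) (hD : 2 * (D : ℝ) * l ≤ T * u)
    (hx : ∀ z, ¬ InT l u (m z) (n z) (h z) x j) (L : Finset (Fin κ))
    (hL : ∀ z ∈ L, n z ≤ j → (n z : ℝ) + T < j) :
    (∀ y, x ≤ y + D → y ≤ x → ∀ z ∈ L, ¬ InT l u (m z) (n z) (h z) y j) ∨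
    (∀ y, x ≤ y → y ≤ x + D → ∀ z ∈ L, ¬ InT l u (m z) (n z) (h z) y j) := by
  by_contra hcon
  push Not at hcon
  obtain ⟨⟨y1, h1, h2, z, hzL, hz⟩, y2, h3, h4, z', hzL', hz'⟩ := hcon
  have hne : z ≠ z' := by
    rintro rfl
    apply hx z
    refine ⟨hz.1.trans h2, hz.2.1, lt_of_le_of_lt ?_ hz'.2.2⟩
    have : (x : ℝ) ≤ y2 := by exact_mod_cast h3
    nlinarith
  have hy12 : (y1 : ℝ) ≤ y2 := by exact_mod_cast h2.trans h3
  have hn1 := hL z hzL hz.2.1
  have hn2 := hL z' hzL' hz'.2.1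
  by_cases hc : m z' ≤ y1
  · refine hdis z z' hne y1 j hj ⟨hz, hc, hz'.2.1, lt_of_le_of_lt ?_ hz'.2.2⟩
    nlinarith
  · push Not at hc
    set j' := max (n z) (n z') with hj'
    have hj'j : j' ≤ j := max_le hz.2.1 hz'.2.1
    have hj'r : (j' : ℝ) + T < j := by
      rcases max_choice (n z) (n z') with e | e
      · rw [hj', e]; exact hn1
      · rw [hj', e]; exact hn2
    have hj'j2 : (j' : ℝ) ≤ j := by exact_mod_cast hj'j
    have hmy : m z' ≤ y2 := hz'.1
    have hmy2 : (m z' : ℝ) ≤ y2 := by exact_mod_cast hmy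
    refine hdis z z' hne (m z') j' (lt_of_le_of_lt hj'j hj) ⟨⟨?_, le_max_left _ _, ?_⟩,
      ⟨le_rfl, le_max_right _ _, ?_⟩⟩
    · exact (hz.1.trans hc.le)
    · have h5 : y2 ≤ y1 + 2 * D := by omega
      have h5' : (y2 : ℝ) ≤ y1 + 2 * D := by exact_mod_cast h5
      have h6 : (m z' : ℝ) * l ≤ (y1 + 2 * D) * l :=
        mul_le_mul_of_nonneg_right (hmy2.trans h5') hl.le
      have h7 : ((j' : ℝ) + T) * u ≤ j * u := mul_le_mul_of_nonneg_right hj'r.le hu.le
      have h8 := hz.2.2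
      nlinarith
    · refine lt_of_le_of_lt ?_ hz'.2.2
      exact add_le_add (mul_le_mul_of_nonneg_right hmy2 hl.le)
        (mul_le_mul_of_nonneg_right hj'j2 hu.le)

open Classical in
/-- the main count -/
lemma core (hl : 0 < l) (hu : 0 < u) (hdis : Dis l u R m n h)
    (hpos : ∀ z, 0 < sz l u m n h z) {K δ lam τ σ T Y c : ℝ} (hK : 0 < K)
    (hsum : ∑ z, (sz l u m n h z / u + 1) ≤ K * R) (hR : 0 < (R : ℝ))
    (hMed : ∑ z ∈ univ.filter (fun z => σ * R < sz l u m n h z ∧ sz l u m n h z ≤ τ * R),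
      (sz l u m n h z / u + 1) ≤ δ * R / 6)
    (hτ : 0 < τ) (hT : 0 ≤ T) (h2 : (K * u / τ) * (T * R + 1) ≤ δ * R / 4)
    (hδ : 0 < δ) (hY : 0 < Y) (hσ : 0 ≤ σ) (h3 : K * R * (σ * R / l + 1) ≤ δ * R / 4 * Y)
    {D : ℕ} (hD1 : (D : ℝ) ≤ lam * R) (hD2 : 2 * (D : ℝ) * l ≤ T * R * u)
    (hD3 : Y + c * R ≤ D + 1) :
    (((range R).filter (fun j => ∃ x : ℕ, lam * R ≤ x ∧
      (∀ z, ¬ InT l u (m z) (n z) (h z) x j) ∧
      (((range (x + ⌊lam * R⌋₊ + 1)).filter
        (fun y : ℕ => (x : ℝ) ≤ y + lam * R ∧ ∀ z, ¬ InT l u (m z) (n z) (h z) y j)).card : ℝ)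
        < c * R)).card : ℝ) ≤ δ * R := by
  set s := sz l u m n h with hs
  set M := univ.filter (fun z => σ * R < s z ∧ s z ≤ τ * R) with hM
  set L := univ.filter (fun z => τ * R < s z) with hL
  set S := univ.filter (fun z => s z ≤ σ * R) with hS
  have hw : ∀ z, 0 ≤ s z / u + 1 := fun z => by
    have := div_nonneg (hpos z).le hu.le
    linarith
  have hv : ∀ z, 0 ≤ s z / l + 1 := fun z => by
    have := div_nonneg (hpos z).le hl.le
    linarith
  -- the number of large triangles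
  have hLc : (L.card : ℝ) ≤ K * u / τ := by
    have h4 : (L.card : ℝ) * (τ * R / u) ≤ K * R := by
      calc (L.card : ℝ) * (τ * R / u) = ∑ z ∈ L, τ * R / u := by rw [sum_const, nsmul_eq_mul]
        _ ≤ ∑ z ∈ L, (s z / u + 1) := by
            refine sum_le_sum fun z hz => ?_
            have h5 := (mem_filter.1 hz).2
            have h6 : τ * R / u ≤ s z / u := div_le_div_of_nonneg_right h5.le hu.le
            linarith
        _ ≤ ∑ z, (s z / u + 1) :=
            sum_le_sum_of_subset_of_nonneg (subset_univ _) fun z _ _ => hw z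
        _ ≤ K * R := hsum
    rw [le_div_iff₀ hτ]
    have h5 : (L.card : ℝ) * (τ * R / u) * u ≤ K * R * u := mul_le_mul_of_nonneg_right h4 hu.le
    have h6 : (L.card : ℝ) * (τ * R / u) * u = (L.card : ℝ) * τ * R := by
      field_simp
    rw [h6] at h5
    have h7 : K * R * u = K * u * R := by ring
    rw [h7] at h5
    exact le_of_mul_le_mul_right h5 hR
  -- the bad lines
  set B1 := (range R).filter (fun j => ∃ z ∈ M, Mt l u m n h z j) with hB1
  set B2 := (range R).filter (fun j => ∃ z ∈ L, n z ≤ j ∧ (j : ℝ) ≤ n z + T * R) with hB2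
  set Nf : ℕ → ℝ := fun j => ∑ z ∈ S.filter (fun z => Mt l u m n h z j), (s z / l + 1) with hNf
  set B3 := (range R).filter (fun j => Y < Nf j) with hB3
  have hc1 : (B1.card : ℝ) ≤ δ * R / 6 := by
    refine le_trans ?_ hMed
    have h4 : B1 ⊆ M.biUnion (fun z => (range R).filter (fun j => Mt l u m n h z j)) := by
      intro j hj
      rw [hB1, mem_filter] at hj
      obtain ⟨hjR, z, hz, hm⟩ := hj
      exact mem_biUnion.2 ⟨z, hz, mem_filter.2 ⟨hjR, hm⟩⟩
    have h5 := (card_le_card h4).trans card_biUnion_le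
    calc (B1.card : ℝ) ≤ ((∑ z ∈ M, ((range R).filter (fun j => Mt l u m n h z j)).card : ℕ) : ℝ) := by
          exact_mod_cast h5
      _ = ∑ z ∈ M, (((range R).filter (fun j => Mt l u m n h z j)).card : ℝ) := by push_cast; rfl
      _ ≤ ∑ z ∈ M, (s z / u + 1) := sum_le_sum fun z _ => lines_le hu (hpos z)
  have hc2 : (B2.card : ℝ) ≤ δ * R / 4 := by
    refine le_trans ?_ h2
    have h4 : B2 ⊆ L.biUnion (fun z => Icc (n z) (n z + ⌊T * R⌋₊)) := by
      intro j hj
      rw [hB2, mem_filter] at hj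
      obtain ⟨-, z, hz, hnj, hjn⟩ := hj
      refine mem_biUnion.2 ⟨z, hz, mem_Icc.2 ⟨hnj, ?_⟩⟩
      have h5 : ((j - n z : ℕ) : ℝ) ≤ T * R := by
        rw [Nat.cast_sub hnj]
        linarith
      have h6 := Nat.le_floor h5
      omega
    have h5 := (card_le_card h4).trans card_biUnion_le
    have h6 : ∑ z ∈ L, (Icc (n z) (n z + ⌊T * R⌋₊)).card = L.card * (⌊T * R⌋₊ + 1) := by
      rw [sum_congr rfl (fun z _ => by
        show (Icc (n z) (n z + ⌊T * R⌋₊)).card = ⌊T * R⌋₊ + 1
        rw [Nat.card_Icc]; omega), sum_const, smul_eq_mul]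
    rw [h6] at h5
    have h7 : (B2.card : ℝ) ≤ (L.card : ℝ) * ((⌊T * R⌋₊ : ℝ) + 1) := by exact_mod_cast h5
    refine h7.trans ?_
    have h8 : (⌊T * R⌋₊ : ℝ) ≤ T * R := Nat.floor_le (mul_nonneg hT hR.le)
    have h9 : 0 ≤ K * u / τ := by positivity
    calc (L.card : ℝ) * ((⌊T * R⌋₊ : ℝ) + 1) ≤ (K * u / τ) * ((⌊T * R⌋₊ : ℝ) + 1) :=
          mul_le_mul_of_nonneg_right hLc (by positivity)
      _ ≤ (K * u / τ) * (T * R + 1) := mul_le_mul_of_nonneg_left (by linarith) h9
  have hc3 : (B3.card : ℝ) ≤ δ * R / 4 := by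
    have h4 : (B3.card : ℝ) * Y ≤ K * R * (σ * R / l + 1) := by
      calc (B3.card : ℝ) * Y = ∑ j ∈ B3, Y := by rw [sum_const, nsmul_eq_mul]
        _ ≤ ∑ j ∈ B3, Nf j := sum_le_sum fun j hj => (mem_filter.1 hj).2.le
        _ ≤ ∑ j ∈ range R, Nf j := sum_le_sum_of_subset_of_nonneg (filter_subset _ _)
            fun j _ _ => sum_nonneg fun z _ => hv z
        _ = ∑ j ∈ range R, ∑ z ∈ S, (if Mt l u m n h z j then (s z / l + 1) else 0) := by
            refine sum_congr rfl fun j _ => ?_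
            rw [hNf]
            simp only
            rw [sum_filter]
        _ = ∑ z ∈ S, ∑ j ∈ range R, (if Mt l u m n h z j then (s z / l + 1) else 0) := sum_comm
        _ = ∑ z ∈ S, (((range R).filter (fun j => Mt l u m n h z j)).card : ℝ) * (s z / l + 1) := by
            refine sum_congr rfl fun z _ => ?_
            rw [← sum_filter, sum_const, nsmul_eq_mul]
        _ ≤ ∑ z ∈ S, (s z / u + 1) * (σ * R / l + 1) := by
            refine sum_le_sum fun z hz => ?_
            have h5 := (mem_filter.1 hz).2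
            have h6 : s z / l ≤ σ * R / l := div_le_div_of_nonneg_right h5 hl.le
            exact mul_le_mul (lines_le hu (hpos z)) (by linarith) (hv z) (hw z)
        _ = (∑ z ∈ S, (s z / u + 1)) * (σ * R / l + 1) := by rw [sum_mul]
        _ ≤ K * R * (σ * R / l + 1) := by
            refine mul_le_mul_of_nonneg_right ?_ (by positivity)
            exact (sum_le_sum_of_subset_of_nonneg (subset_univ _) fun z _ _ => hw z).trans hsum
    exact le_of_mul_le_mul_right (h4.trans h3) hY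
  -- the bad set is covered
  have hcov : (range R).filter (fun j => ∃ x : ℕ, lam * R ≤ x ∧
      (∀ z, ¬ InT l u (m z) (n z) (h z) x j) ∧
      (((range (x + ⌊lam * R⌋₊ + 1)).filter
        (fun y : ℕ => (x : ℝ) ≤ y + lam * R ∧ ∀ z, ¬ InT l u (m z) (n z) (h z) y j)).card : ℝ)
        < c * R) ⊆ B1 ∪ B2 ∪ B3 := by
    intro j hj
    rw [mem_filter] at hj
    obtain ⟨hjR, x, hx1, hx2, hx3⟩ := hj
    by_contra hcon
    rw [mem_union, mem_union] at hcon
    push Not at hcon
    obtain ⟨⟨hn1, hn2⟩, hn3⟩ := hcon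
    have hjR' := mem_range.1 hjR
    have hLj : ∀ z ∈ L, n z ≤ j → (n z : ℝ) + T * R < j := by
      intro z hz hnz
      by_contra hc
      push Not at hc
      exact hn2 (mem_filter.2 ⟨hjR, z, hz, hnz, hc⟩)
    have hNj : Nf j ≤ Y := by
      by_contra hc
      push Not at hc
      exact hn3 (mem_filter.2 ⟨hjR, hc⟩)
    have hfin : ∀ I : Finset ℕ, I.card = D + 1 →
        (∀ y ∈ I, ∀ z ∈ L, ¬ InT l u (m z) (n z) (h z) y j) →
        (∀ y ∈ I, y < x + ⌊lam * R⌋₊ + 1 ∧ (x : ℝ) ≤ y + lam * R) → False := by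
      intro I hIc hIL hIr
      have hcovI : I.filter (fun y => ∃ z, InT l u (m z) (n z) (h z) y j) ⊆
          (S.filter (fun z => Mt l u m n h z j)).biUnion
            (fun z => I.filter (fun y => InT l u (m z) (n z) (h z) y j)) := by
        intro y hy
        rw [mem_filter] at hy
        obtain ⟨hyI, z, hz⟩ := hy
        have hmt := mt_of hl hz
        refine mem_biUnion.2 ⟨z, mem_filter.2 ⟨mem_filter.2 ⟨mem_univ _, ?_⟩, hmt⟩,
          mem_filter.2 ⟨hyI, hz⟩⟩
        by_contra hc1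
        push Not at hc1
        by_cases hc2 : s z ≤ τ * R
        · exact hn1 (mem_filter.2 ⟨hjR, z, mem_filter.2 ⟨mem_univ _, hc1, hc2⟩, hmt⟩)
        · push Not at hc2
          exact hIL y hyI z (mem_filter.2 ⟨mem_univ _, hc2⟩) hz
      have h4 : ((I.filter (fun y => ∃ z, InT l u (m z) (n z) (h z) y j)).card : ℝ) ≤ Y := by
        have h5 := (card_le_card hcovI).trans card_biUnion_le
        calc ((I.filter (fun y => ∃ z, InT l u (m z) (n z) (h z) y j)).card : ℝ)
            ≤ ((∑ z ∈ S.filter (fun z => Mt l u m n h z j),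
                (I.filter (fun y => InT l u (m z) (n z) (h z) y j)).card : ℕ) : ℝ) := by
              exact_mod_cast h5
          _ = ∑ z ∈ S.filter (fun z => Mt l u m n h z j),
                ((I.filter (fun y => InT l u (m z) (n z) (h z) y j)).card : ℝ) := by
              push_cast; rfl
          _ ≤ Nf j := sum_le_sum fun z _ => cells_le hl hu (hpos z) I j
          _ ≤ Y := hNj
      have h5 := card_filter_add_card_filter_not (s := I)
        (fun y => ∃ z, InT l u (m z) (n z) (h z) y j)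
      rw [hIc] at h5
      have h6 : I.filter (fun y => ¬ ∃ z, InT l u (m z) (n z) (h z) y j) ⊆
          (range (x + ⌊lam * R⌋₊ + 1)).filter
            (fun y : ℕ => (x : ℝ) ≤ y + lam * R ∧ ∀ z, ¬ InT l u (m z) (n z) (h z) y j) := by
        intro y hy
        rw [mem_filter] at hy
        have h7 := hIr y hy.1
        exact mem_filter.2 ⟨mem_range.2 h7.1, h7.2, fun z hz => hy.2 ⟨z, hz⟩⟩
      have h7 : ((I.filter (fun y => ¬ ∃ z, InT l u (m z) (n z) (h z) y j)).card : ℝ) < c * R :=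
        lt_of_le_of_lt (by exact_mod_cast card_le_card h6) hx3
      have h8 : ((I.filter (fun y => ∃ z, InT l u (m z) (n z) (h z) y j)).card : ℝ) +
          ((I.filter (fun y => ¬ ∃ z, InT l u (m z) (n z) (h z) y j)).card : ℝ) = D + 1 := by
        exact_mod_cast h5
      linarith
    have hDx : D ≤ x := by
      have : (D : ℝ) ≤ x := hD1.trans hx1
      exact_mod_cast this
    have hDf : D ≤ ⌊lam * R⌋₊ := Nat.le_floor hD1
    rcases one_side hl hu hdis hjR' (T := T * R) (mul_nonneg hT hR.le) hD2 hx2 L hLj with hc | hc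
    · refine hfin (Icc (x - D) x) ?_ ?_ ?_
      · rw [Nat.card_Icc]; omega
      · intro y hy z hz
        rw [mem_Icc] at hy
        exact hc y (by omega) hy.2 z hz
      · intro y hy
        rw [mem_Icc] at hy
        refine ⟨by omega, ?_⟩
        have h4 : x ≤ y + D := by omega
        have h5 : (x : ℝ) ≤ y + D := by exact_mod_cast h4
        linarith
    · refine hfin (Icc x (x + D)) ?_ ?_ ?_
      · rw [Nat.card_Icc]; omega
      · intro y hy z hz
        rw [mem_Icc] at hy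
        exact hc y hy.1 hy.2 z hz
      · intro y hy
        rw [mem_Icc] at hy
        refine ⟨by omega, ?_⟩
        have h5 : (x : ℝ) ≤ y := by exact_mod_cast hy.1
        have h6 : (0 : ℝ) ≤ D := by positivity
        linarith
  have h4 := (card_le_card hcov).trans ((card_union_le _ _).trans
    (Nat.add_le_add_right (card_union_le _ _) _))
  have h5 : (((range R).filter (fun j => ∃ x : ℕ, lam * R ≤ x ∧
      (∀ z, ¬ InT l u (m z) (n z) (h z) x j) ∧
      (((range (x + ⌊lam * R⌋₊ + 1)).filter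
        (fun y : ℕ => (x : ℝ) ≤ y + lam * R ∧ ∀ z, ¬ InT l u (m z) (n z) (h z) y j)).card : ℝ)
        < c * R)).card : ℝ) ≤ (B1.card : ℝ) + B2.card + B3.card := by exact_mod_cast h4
  have h6 : 0 < δ * R := mul_pos hδ hR
  linarith

end

theorem geo : J1 := by
  intro l u K δ lam hl hu hK hδ hlam
  set ρ : ℝ := min (1 / 2) (min (lam * δ * l / (16 * K)) (δ ^ 2 / (256 * K ^ 2))) with hρ
  have hρ0 : 0 < ρ := by
    rw [hρ]
    refine lt_min (by norm_num) (lt_min (by positivity) (by positivity))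
  have hρ1 : ρ ≤ 1 / 2 := min_le_left _ _
  have hρ2 : 16 * K * ρ ≤ lam * δ * l := by
    have h1 : ρ ≤ lam * δ * l / (16 * K) := (min_le_right _ _).trans (min_le_left _ _)
    rw [le_div_iff₀ (by positivity)] at h1
    linarith
  have hρ3 : 256 * K ^ 2 * ρ ≤ δ ^ 2 := by
    have h1 : ρ ≤ δ ^ 2 / (256 * K ^ 2) := (min_le_right _ _).trans (min_le_right _ _)
    rw [le_div_iff₀ (by positivity)] at h1
    linarith
  obtain ⟨k0, hk0⟩ := exists_nat_gt (6 * K / δ)
  have hk0' : 6 * K < k0 * δ := by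
    rw [div_lt_iff₀ hδ] at hk0
    exact hk0
  set c : ℝ := 1 / 2 * min lam (δ * ρ ^ k0 / (16 * K * l)) with hc
  have hc0 : 0 < c := by
    rw [hc]
    refine mul_pos (by norm_num) (lt_min hlam (by positivity))
  refine ⟨c, hc0, ?_⟩
  obtain ⟨R0, hR0⟩ := exists_nat_ge (max (8 * K * u / (ρ ^ k0 * δ)) (8 * K / (δ * c)))
  refine ⟨R0, ?_⟩
  intro R hR κ m n h hpos hdis hsum
  have hRR : (R0 : ℝ) ≤ R := by exact_mod_cast hR
  have hR1 : 8 * K * u / (ρ ^ k0 * δ) ≤ R := ((le_max_left _ _).trans hR0).trans hRR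
  have hR2 : 8 * K / (δ * c) ≤ R := ((le_max_right _ _).trans hR0).trans hRR
  have hRpos : 0 < (R : ℝ) := lt_of_lt_of_le (by positivity) hR1
  have hpos' : ∀ z, 0 < sz l u m n h z := fun z => by
    unfold sz
    linarith [hpos z]
  -- pigeonhole
  obtain ⟨k, hk, hMed⟩ : ∃ k < k0, ∑ z ∈ univ.filter (fun z =>
      ρ * ρ ^ k * R < sz l u m n h z ∧ sz l u m n h z ≤ ρ ^ k * R),
      (sz l u m n h z / u + 1) ≤ δ * R / 6 := by
    by_contra hcon
    push Not at hcon
    have hw : ∀ z, 0 ≤ sz l u m n h z / u + 1 := fun z => by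
      have := div_nonneg (hpos' z).le hu.le
      linarith
    have h1 : ∑ k ∈ range k0, ∑ z ∈ univ.filter (fun z =>
        ρ * ρ ^ k * R < sz l u m n h z ∧ sz l u m n h z ≤ ρ ^ k * R),
        (sz l u m n h z / u + 1) ≤ K * R := by
      rw [← sum_biUnion]
      · refine le_trans (sum_le_sum_of_subset_of_nonneg (subset_univ _) fun z _ _ => hw z) hsum
      · have hlt : ∀ k k' : ℕ, k < k' → Disjoint
            (univ.filter (fun z => ρ * ρ ^ k * R < sz l u m n h z ∧ sz l u m n h z ≤ ρ ^ k * R))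
            (univ.filter (fun z => ρ * ρ ^ k' * R < sz l u m n h z ∧
              sz l u m n h z ≤ ρ ^ k' * R)) := by
          intro k k' hkk
          rw [disjoint_left]
          intro z hz hz'
          rw [mem_filter] at hz hz'
          have h2 : ρ ^ k' ≤ ρ * ρ ^ k := by
            rw [← pow_succ']
            exact pow_le_pow_of_le_one hρ0.le (by linarith) hkk
          have h3 : ρ ^ k' * R ≤ ρ * ρ ^ k * R := mul_le_mul_of_nonneg_right h2 hRpos.le
          linarith [hz.2.1, hz'.2.2]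
        intro a _ b _ hab
        rcases lt_or_gt_of_ne hab with hab | hab
        · exact hlt a b hab
        · exact (hlt b a hab).symm
    have h2 : (k0 : ℝ) * (δ * R / 6) ≤ ∑ k ∈ range k0, ∑ z ∈ univ.filter (fun z =>
        ρ * ρ ^ k * R < sz l u m n h z ∧ sz l u m n h z ≤ ρ ^ k * R),
        (sz l u m n h z / u + 1) := by
      calc (k0 : ℝ) * (δ * R / 6) = ∑ _k ∈ range k0, δ * R / 6 := by
            rw [sum_const, card_range, nsmul_eq_mul]
        _ ≤ _ := sum_le_sum fun k hk => (hcon k (mem_range.1 hk)).le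
    have h3 : 6 * K * R < k0 * δ * R := mul_lt_mul_of_pos_right hk0' hRpos
    linarith
  set τ : ℝ := ρ ^ k with hτ
  have hτ0 : 0 < τ := pow_pos hρ0 _
  have hτ1 : τ ≤ 1 := pow_le_one₀ hρ0.le (by linarith)
  have hτk : ρ ^ k0 ≤ τ := pow_le_pow_of_le_one hρ0.le (by linarith) hk.le
  set d : ℝ := min lam (δ * τ / (16 * K * l)) with hd
  have hd0 : 0 < d := lt_min hlam (by positivity)
  have hcd : 2 * c ≤ d := by
    rw [hc, hd]
    have h1 : δ * ρ ^ k0 / (16 * K * l) ≤ δ * τ / (16 * K * l) := by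
      gcongr
    have h2 := min_le_min_left lam h1
    linarith
  set T : ℝ := δ * τ / (8 * K * u) with hT
  have hT0 : 0 < T := by positivity
  set Y : ℝ := (4 * K / δ) * (ρ * τ * R / l + 1) with hY
  have hY0 : 0 < Y := by positivity
  -- `Y ≤ d R / 2`
  have hYd : Y ≤ d * R / 2 := by
    have h1 : 4 * K / δ * (ρ * τ * R / l) ≤ d * R / 4 := by
      have h2 : 4 * K / δ * (ρ * τ * R / l) = (4 * K * ρ * τ / (δ * l)) * R := by
        field_simp
      rw [h2]
      have h3 : 4 * K * ρ * τ / (δ * l) ≤ d / 4 := by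
        rw [hd, div_le_iff₀ (by positivity)]
        rcases min_choice lam (δ * τ / (16 * K * l)) with e | e
        · rw [e]
          have h4 : 16 * K * ρ * τ ≤ lam * δ * l * 1 :=
            mul_le_mul hρ2 hτ1 hτ0.le (by positivity)
          linarith
        · rw [e]
          have h4 : δ * τ / (16 * K * l) / 4 * (δ * l) = δ ^ 2 * τ / (64 * K) := by
            field_simp
            ring
          rw [h4, le_div_iff₀ (by positivity)]
          have h5 : 256 * K ^ 2 * ρ * τ ≤ δ ^ 2 * τ := mul_le_mul_of_nonneg_right hρ3 hτ0.le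
          linarith
      calc (4 * K * ρ * τ / (δ * l)) * R ≤ d / 4 * R := mul_le_mul_of_nonneg_right h3 hRpos.le
        _ = d * R / 4 := by ring
    have h2 : 4 * K / δ ≤ d * R / 4 := by
      have h3 : 8 * K / (δ * c) * c ≤ R * c := mul_le_mul_of_nonneg_right hR2 hc0.le
      have h4 : 8 * K / (δ * c) * c = 8 * K / δ := by
        field_simp
      rw [h4] at h3
      have h5 : 2 * c * R ≤ d * R := mul_le_mul_of_nonneg_right hcd hRpos.le
      have h6 : 8 * K / δ = 2 * (4 * K / δ) := by ring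
      linarith
    rw [hY, mul_add, mul_one]
    linarith
  -- choice of `D`
  have hdR : 0 ≤ d * R := by positivity
  have hDle : ((⌊d * R⌋₊ : ℕ) : ℝ) ≤ d * R := Nat.floor_le hdR
  have hDge : d * R < (⌊d * R⌋₊ : ℝ) + 1 := Nat.lt_floor_add_one _
  refine core (σ := ρ * τ) (τ := τ) (T := T) (Y := Y) (D := ⌊d * R⌋₊) (K := K) hl hu hdis hpos' hK
    hsum hRpos hMed hτ0 hT0.le ?_ hδ hY0 (by positivity) ?_ ?_ ?_ ?_
  · -- large
    have h1 : K * u / τ * (T * R + 1) = δ * R / 8 + K * u / τ := by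
      rw [hT]
      field_simp
    rw [h1]
    have h2 : K * u / τ ≤ δ * R / 8 := by
      have h3 : K * u / τ ≤ K * u / ρ ^ k0 := by
        gcongr
      have h4 : 8 * K * u / (ρ ^ k0 * δ) * δ ≤ R * δ := mul_le_mul_of_nonneg_right hR1 hδ.le
      have h5 : 8 * K * u / (ρ ^ k0 * δ) * δ = 8 * (K * u / ρ ^ k0) := by
        field_simp
      rw [h5] at h4
      linarith
    linarith
  · -- small
    have h1 : δ * R / 4 * Y = K * R * (ρ * τ * R / l + 1) := by
      rw [hY]
      field_simp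
    rw [h1]
  · refine hDle.trans (mul_le_mul_of_nonneg_right (min_le_left _ _) hRpos.le)
  · have h1 : d * R ≤ δ * τ / (16 * K * l) * R :=
      mul_le_mul_of_nonneg_right (min_le_right _ _) hRpos.le
    have h2 : T * R * u = 2 * (δ * τ / (16 * K * l) * R) * l := by
      rw [hT]
      field_simp
      ring
    rw [h2]
    have h3 := hDle.trans h1
    have h4 := mul_le_mul_of_nonneg_right h3 hl.le
    linarith
  · have h1 : 2 * c * R ≤ d * R := mul_le_mul_of_nonneg_right hcd hRpos.le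
    linarith

end Pool.Agent.TH461.AL.Geo
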