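import Mathlib
import Pool.Agent.TH461.AL.Stms

set_option autoImplicit false

open Finset Filter Topology

namespace Pool.Agent.TH461.AL.Lev

open Pool.Agent.TH461.AL

/-- summation by parts -/
theorem abel_aux (δ : ℝ) (B : ℕ → Prop) [DecidablePred B] (v : ℕ → ℝ) (n : ℕ)
    (hv : ∀ k l, k ≤ l → l < n → v l ≤ v k) (hv0 : ∀ k, k < n → 0 ≤ v k)
    (h : ∀ t ≤ n, (((range t).filter B).card : ℝ) ≤ δ * t) :
    ∀ t ≤ n, ∀ u : ℝ, 0 ≤ u → (∀ k, k < t → u ≤ v k) →
      ∑ k ∈ range t, ((if B k then 1 else 0) - δ) * v k ≤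
        u * ((((range t).filter B).card : ℝ) - δ * t) := by
  intro t
  induction t with
  | zero => intro _ u _ _; simp
  | succ t ih =>
    intro ht u hu0 hu
    have h1 := ih (by omega) (v t) (hv0 t (by omega)) (fun k hk => hv k t hk.le (by omega))
    rw [sum_range_succ]
    have h2 : (((range (t + 1)).filter B).card : ℝ) =
        ((range t).filter B).card + (if B t then 1 else 0) := by
      rw [card_filter, card_filter, sum_range_succ]
      push_cast
      rfl
    have h3 := h (t + 1) ht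
    have h4 : u ≤ v t := hu t (by omega)
    rw [h2] at h3 ⊢
    push_cast at h3 ⊢
    nlinarith

theorem abel (δ : ℝ) (B : ℕ → Prop) [DecidablePred B] (v : ℕ → ℝ) (n : ℕ)
    (hv : ∀ k l, k ≤ l → l < n → v l ≤ v k) (hv0 : ∀ k, k < n → 0 ≤ v k)
    (h : ∀ t ≤ n, (((range t).filter B).card : ℝ) ≤ δ * t) :
    ∑ k ∈ range n, (if B k then v k else 0) ≤ δ * ∑ k ∈ range n, v k := by
  have h1 := abel_aux δ B v n hv hv0 h n le_rfl 0 le_rfl hv0
  rw [zero_mul] at h1
  rw [mul_sum, ← sub_nonpos, ← sum_sub_distrib]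
  refine le_trans (le_of_eq ?_) h1
  refine sum_congr rfl fun k _ => ?_
  split_ifs <;> ring

/-- the weighted double counting -/
theorem count (Y : Finset ℤ) (s : ℤ → ℕ) (R : ℕ) (hs : ∀ y ∈ Y, s y < R) (bad : ℤ → ℕ → Prop)
    [∀ y, DecidablePred (bad y)] (δ : ℝ) (hδ : 0 ≤ δ)
    (h : ∀ y ∈ Y, ∀ t ≤ s y + 1, (((range t).filter (fun k => bad y (s y - k))).card : ℝ) ≤ δ * t) :
    (((range R).filter (fun t => (Y.filter (fun y => t ≤ s y)).Nonempty ∧
      (Y.filter (fun y => t ≤ s y)).card ≤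
        2 * ((Y.filter (fun y => t ≤ s y)).filter (fun y => bad y t)).card)).card : ℝ) ≤
      2 * (δ * R) := by
  set V : ℕ → Finset ℤ := fun t => Y.filter (fun y => t ≤ s y) with hV
  set w : ℕ → ℝ := fun t => 1 / ((V t).card : ℝ) with hw
  have hw0 : ∀ t, 0 ≤ w t := fun t => by rw [hw]; positivity
  have hVanti : ∀ t t', t ≤ t' → V t' ⊆ V t := by
    intro t t' htt y hy
    rw [hV, mem_filter] at hy ⊢
    exact ⟨hy.1, htt.trans hy.2⟩
  -- the estimate for one element
  have h1 : ∀ y ∈ Y, ∑ t ∈ range R, (if t ≤ s y ∧ bad y t then w t else 0) ≤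
      δ * ∑ t ∈ range R, (if t ≤ s y then w t else 0) := by
    intro y hy
    have hsy := hs y hy
    have e1 : ∀ g : ℕ → ℝ, ∑ t ∈ range R, (if t ≤ s y then g t else 0) =
        ∑ k ∈ range (s y + 1), g (s y - k) := by
      intro g
      have e2 := sum_range_reflect g (s y + 1)
      rw [Nat.add_sub_cancel] at e2
      rw [e2, ← sum_filter]
      refine sum_congr ?_ fun _ _ => rfl
      ext t
      rw [mem_filter, mem_range, mem_range]
      omega
    have e3 : ∑ t ∈ range R, (if t ≤ s y ∧ bad y t then w t else 0) =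
        ∑ t ∈ range R, (if t ≤ s y then (if bad y t then w t else 0) else 0) := by
      refine sum_congr rfl fun t _ => ?_
      by_cases a1 : t ≤ s y <;> by_cases a2 : bad y t <;> simp [a1, a2]
    rw [e3, e1, e1]
    refine abel δ (fun k => bad y (s y - k)) (fun k => w (s y - k)) (s y + 1) ?_ ?_ (h y hy)
    · intro k l hkl hl
      rw [hw]
      have b1 : (V (s y - k)).card ≤ (V (s y - l)).card := card_le_card (hVanti _ _ (by omega))
      have b2 : 0 < (V (s y - k)).card := card_pos.2 ⟨y, by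
        rw [hV, mem_filter]
        exact ⟨hy, by omega⟩⟩
      exact one_div_le_one_div_of_le (by exact_mod_cast b2) (by exact_mod_cast b1)
    · intro k _
      exact hw0 _
  have h2 : ∑ t ∈ range R, ∑ y ∈ Y, (if t ≤ s y ∧ bad y t then w t else 0) ≤
      δ * ∑ t ∈ range R, ∑ y ∈ Y, (if t ≤ s y then w t else 0) := by
    rw [sum_comm, sum_comm (s := range R) (t := Y) (f := fun t y => if t ≤ s y then w t else 0),
      mul_sum]
    exact sum_le_sum h1
  have h3 : ∀ t, ∑ y ∈ Y, (if t ≤ s y then w t else 0) ≤ 1 := by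
    intro t
    rw [← sum_filter, sum_const, nsmul_eq_mul]
    change ((V t).card : ℝ) * (1 / ((V t).card : ℝ)) ≤ 1
    rw [mul_one_div]
    exact div_self_le_one _
  have h4 : ∀ t, ∑ y ∈ Y, (if t ≤ s y ∧ bad y t then w t else 0) =
      (((V t).filter (fun y => bad y t)).card : ℝ) * w t := by
    intro t
    rw [← sum_filter, sum_const, nsmul_eq_mul, hV, filter_filter]
  have h5 : ∑ t ∈ range R, (((V t).filter (fun y => bad y t)).card : ℝ) * w t ≤ δ * R := by
    simp_rw [h4] at h2
    refine h2.trans (mul_le_mul_of_nonneg_left ?_ hδ)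
    refine (sum_le_sum fun t _ => h3 t).trans ?_
    simp
  have h6 : (((range R).filter (fun t => (V t).Nonempty ∧
      (V t).card ≤ 2 * ((V t).filter (fun y => bad y t)).card)).card : ℝ) * (1 / 2) ≤ δ * R := by
    refine le_trans ?_ h5
    rw [← nsmul_eq_mul, ← sum_const]
    refine (sum_le_sum fun t ht => ?_).trans (sum_le_sum_of_subset_of_nonneg (filter_subset _ _)
      fun t _ _ => mul_nonneg (Nat.cast_nonneg _) (hw0 t))
    rw [mem_filter] at ht
    obtain ⟨-, hne, hle⟩ := ht
    have c1 : (0 : ℝ) < (V t).card := by exact_mod_cast card_pos.2 hne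
    rw [hw]
    change 1 / 2 ≤ _ * (1 / ((V t).card : ℝ))
    rw [mul_one_div, div_le_div_iff₀ two_pos c1]
    have c2 : ((V t).card : ℝ) ≤ 2 * ((V t).filter (fun y => bad y t)).card := by
      exact_mod_cast hle
    linarith
  linarith

/-- counting pairs of points at distance at most `K` -/
theorem pairs (N M : Finset ℤ) (K : ℕ) (c : ℝ)
    (h : ∀ y ∈ N, c ≤ ((M.filter (fun z => y - K ≤ z ∧ z ≤ y + K)).card : ℝ)) :
    c * N.card ≤ (2 * K + 1) * M.card := by
  have h1 : (N.card : ℝ) * c ≤ ∑ y ∈ N, ((M.filter (fun z => y - K ≤ z ∧ z ≤ y + K)).card : ℝ) := by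
    rw [← nsmul_eq_mul, ← sum_const]
    exact sum_le_sum h
  have h2 : ∑ y ∈ N, (M.filter (fun z => y - K ≤ z ∧ z ≤ y + K)).card =
      ∑ z ∈ M, (N.filter (fun y => y - K ≤ z ∧ z ≤ y + K)).card := by
    simp_rw [card_filter]
    exact sum_comm
  have h3 : ∀ z ∈ M, (N.filter (fun y => y - (K : ℤ) ≤ z ∧ z ≤ y + K)).card ≤ 2 * K + 1 := by
    intro z _
    have h4 : N.filter (fun y => y - (K : ℤ) ≤ z ∧ z ≤ y + K) ⊆ Icc (z - K) (z + K) := by
      intro y hy
      rw [mem_filter] at hy
      rw [mem_Icc]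
      omega
    refine (card_le_card h4).trans ?_
    rw [Int.card_Icc]
    omega
  have h5 : ∑ z ∈ M, (N.filter (fun y => y - (K : ℤ) ≤ z ∧ z ≤ y + K)).card ≤
      M.card * (2 * K + 1) := by
    rw [← smul_eq_mul]
    exact sum_le_card_nsmul _ _ _ h3
  rw [← h2] at h5
  have h6 : (∑ y ∈ N, ((M.filter (fun z => y - K ≤ z ∧ z ≤ y + K)).card : ℝ)) ≤
      M.card * (2 * K + 1) := by exact_mod_cast h5
  linarith

theorem level : J3 := by
  intro S D hP δ hδ
  classical
  by_cases hδ1 : 1 ≤ δ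
  · refine ⟨1, one_pos, fun η _ _ => ⟨0, fun R _ F _ J a b => ?_⟩⟩
    have h1 : (((range R).filter (fun t : ℕ =>
        (mu F (η * R) (J + t) (a - D * R) (b + D * R) : ℝ) < 1 * mu F R (J + t) a b)).card : ℝ)
        ≤ R := by
      have := card_filter_le (range R) (fun t : ℕ =>
        (mu F (η * R) (J + t) (a - D * R) (b + D * R) : ℝ) < 1 * mu F R (J + t) a b)
      rw [card_range] at this
      exact_mod_cast this
    have h2 : (R : ℝ) ≤ δ * R := by
      have : (0 : ℝ) ≤ R := Nat.cast_nonneg R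
      nlinarith
    exact h1.trans h2
  push Not at hδ1
  obtain ⟨c₁, hc₁, hP⟩ := hP (δ / 4) (by positivity)
  refine ⟨c₁ / (2 * (2 * D + 1)), by positivity, fun η hη hη' => ?_⟩
  obtain ⟨R0, hP⟩ := hP η hη hη'
  refine ⟨R0 + 1, fun R hR F hF J a b => ?_⟩
  have hR1 : (1 : ℝ) ≤ R := by exact_mod_cast (by omega : 1 ≤ R)
  -- the last line near a far cell
  set Q : ℤ → ℕ → Prop := fun y s => s < R ∧ Ngh F R (J + s) y with hQ
  set s : ℤ → ℕ := fun y => Nat.findGreatest (Q y) R with hs
  set Y : Finset ℤ := (Icc a b).filter (fun y => ∃ t, Q y t) with hY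
  have hsQ : ∀ y ∈ Y, Q y (s y) := by
    intro y hy
    obtain ⟨t, ht⟩ := (mem_filter.1 hy).2
    exact Nat.findGreatest_spec (P := Q y) ht.1.le ht
  have hle : ∀ y t, Q y t → t ≤ s y := fun y t ht => Nat.le_findGreatest ht.1.le ht
  set bad : ℤ → ℕ → Prop := fun y t => (t : ℝ) ≤ (1 - δ / 4) * R ∧
    (mu F (η * R) (J + t) (y - D * R) (y + D * R) : ℝ) < c₁ * R with hbad
  have hcount := count Y s R (fun y hy => (hsQ y hy).1) bad (δ / 4) (by positivity) (by
    intro y hy t ht
    have h1 := hP R (by omega) F hF J y (s y) (hsQ y hy).1 (hsQ y hy).2 (by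
      intro h2 h3
      have h4 : Q y (s y + 1) := ⟨h2, by push_cast; rw [← add_assoc]; exact h3⟩
      have := hle y _ h4
      omega) t ht
    refine le_trans (Nat.cast_le.2 (card_le_card fun k hk => ?_)) h1
    rw [mem_filter, mem_range] at hk ⊢
    obtain ⟨hk1, hk2, hk3⟩ := hk
    have hks : k ≤ s y := by omega
    rw [Nat.cast_sub hks] at hk2
    rw [Nat.cast_sub hks, ← add_sub_assoc] at hk3
    exact ⟨hk1, hk2, hk3⟩)
  set V : ℕ → Finset ℤ := fun t => Y.filter (fun y => t ≤ s y) with hV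
  -- the late lines
  have hlate : (((range R).filter (fun t : ℕ => (1 - δ / 4) * R < (t : ℝ))).card : ℝ) ≤
      δ / 4 * R := by
    have h1 : (range R).filter (fun t : ℕ => (1 - δ / 4) * R < (t : ℝ)) ⊆
        Ico ⌈(1 - δ / 4) * (R : ℝ)⌉₊ R := by
      intro t ht
      rw [mem_filter, mem_range] at ht
      rw [mem_Ico]
      exact ⟨Nat.ceil_le.2 ht.2.le, ht.1⟩
    have h2 := card_le_card h1
    rw [Nat.card_Ico] at h2
    have h3 : ((R - ⌈(1 - δ / 4) * (R : ℝ)⌉₊ : ℕ) : ℝ) ≤ δ / 4 * R := by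
      rcases le_total ⌈(1 - δ / 4) * (R : ℝ)⌉₊ R with h4 | h4
      · rw [Nat.cast_sub h4]
        have := Nat.le_ceil ((1 - δ / 4) * (R : ℝ))
        linarith
      · rw [Nat.sub_eq_zero_of_le h4]
        have : 0 ≤ δ / 4 * R := by positivity
        push_cast
        linarith
    refine le_trans ?_ h3
    exact_mod_cast h2
  -- the good lines
  have hgood : ∀ t : ℕ, t < R → (t : ℝ) ≤ (1 - δ / 4) * R →
      ¬ ((V t).Nonempty ∧ (V t).card ≤ 2 * ((V t).filter (fun y => bad y t)).card) →
      c₁ / (2 * (2 * D + 1)) * mu F R (J + t) a b ≤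
        mu F (η * R) (J + t) (a - D * R) (b + D * R) := by
    intro t ht htl hn
    have hmuV : mu F R (J + t) a b ≤ (V t).card := by
      refine card_le_card fun y hy => ?_
      rw [mem_filter] at hy
      have h1 : Q y t := ⟨ht, hy.2⟩
      rw [hV, mem_filter, hY, mem_filter]
      exact ⟨⟨hy.1, t, h1⟩, hle y t h1⟩
    rcases (V t).eq_empty_or_nonempty with he | hne
    · rw [he, card_empty] at hmuV
      have h1 : mu F R (J + t) a b = 0 := by omega
      rw [h1]
      simp
    have hlt : 2 * ((V t).filter (fun y => bad y t)).card < (V t).card := by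
      by_contra h1
      exact hn ⟨hne, not_lt.1 h1⟩
    set N : Finset ℤ := (V t).filter (fun y => ¬ bad y t) with hN
    have hcardN : ((V t).filter (fun y => bad y t)).card + N.card = (V t).card :=
      card_filter_add_card_filter_not _
    set M : Finset ℤ := (Icc (a - D * R) (b + D * R)).filter (fun y => Ngh F (η * R) (J + t) y)
      with hM
    have hMmu : mu F (η * R) (J + t) (a - D * R) (b + D * R) = M.card := rfl
    have hpairs := pairs N M (D * R) (c₁ * R) (by
      intro y hy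
      rw [hN, mem_filter] at hy
      have h1 : ¬ ((mu F (η * R) (J + t) (y - D * R) (y + D * R) : ℝ) < c₁ * R) :=
        fun h2 => hy.2 ⟨htl, h2⟩
      refine (not_lt.1 h1).trans (Nat.cast_le.2 (card_le_card fun z hz => ?_))
      have hyab : a ≤ y ∧ y ≤ b := by
        have := (mem_filter.1 (mem_filter.1 hy.1).1).1
        exact mem_Icc.1 this
      rw [mem_filter, mem_Icc] at hz
      rw [mem_filter, hM, mem_filter, mem_Icc]
      push_cast
      exact ⟨⟨⟨by linarith [hz.1.1, hyab.1], by linarith [hz.1.2, hyab.2]⟩, hz.2⟩,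
        hz.1.1, hz.1.2⟩)
    rw [hMmu]
    have hR0 : (0 : ℝ) < 2 * D * R + 1 := by positivity
    have h2 : (mu F R (J + t) a b : ℝ) ≤ 2 * N.card := by
      have : mu F R (J + t) a b ≤ 2 * N.card := by omega
      exact_mod_cast this
    push_cast at hpairs
    have h3 : c₁ / (2 * (2 * D + 1)) * (mu F R (J + t) a b : ℝ) ≤ c₁ / (2 * D + 1) * N.card := by
      calc c₁ / (2 * (2 * D + 1)) * (mu F R (J + t) a b : ℝ)
          ≤ c₁ / (2 * (2 * D + 1)) * (2 * N.card) :=
            mul_le_mul_of_nonneg_left h2 (by positivity)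
        _ = c₁ / (2 * D + 1) * N.card := by
            field_simp
    refine h3.trans ?_
    have h4 : c₁ / (2 * D + 1) * N.card * (2 * D * R + 1) ≤ c₁ * R * N.card := by
      have h5 : (2 * (D : ℝ) * R + 1) / (2 * D + 1) ≤ R := by
        rw [div_le_iff₀ (by positivity)]
        nlinarith
      calc c₁ / (2 * D + 1) * N.card * (2 * D * R + 1)
          = c₁ * N.card * ((2 * (D : ℝ) * R + 1) / (2 * D + 1)) := by
            field_simp
        _ ≤ c₁ * N.card * R := mul_le_mul_of_nonneg_left h5 (by positivity)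
        _ = c₁ * R * N.card := by ring
    have h6 : c₁ / (2 * D + 1) * N.card * (2 * D * R + 1) ≤ M.card * (2 * D * R + 1) := by
      nlinarith
    exact le_of_mul_le_mul_right h6 hR0
  -- the end
  have hsub : (range R).filter (fun t : ℕ =>
      (mu F (η * R) (J + t) (a - D * R) (b + D * R) : ℝ) <
        c₁ / (2 * (2 * D + 1)) * mu F R (J + t) a b) ⊆
      (range R).filter (fun t : ℕ => (1 - δ / 4) * R < (t : ℝ)) ∪
      (range R).filter (fun t => (V t).Nonempty ∧
        (V t).card ≤ 2 * ((V t).filter (fun y => bad y t)).card) := by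
    intro t ht
    rw [mem_filter] at ht
    rw [mem_union, mem_filter, mem_filter]
    by_cases h1 : (1 - δ / 4) * R < (t : ℝ)
    · exact Or.inl ⟨ht.1, h1⟩
    · by_cases h2 : (V t).Nonempty ∧
        (V t).card ≤ 2 * ((V t).filter (fun y => bad y t)).card
      · exact Or.inr ⟨ht.1, h2⟩
      · exact absurd ht.2 (not_lt.2 (hgood t (mem_range.1 ht.1) (not_lt.1 h1) h2))
  have h1 := (card_le_card hsub).trans (card_union_le _ _)
  have h2 : (((range R).filter (fun t : ℕ =>
      (mu F (η * R) (J + t) (a - D * R) (b + D * R) : ℝ) <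
        c₁ / (2 * (2 * D + 1)) * mu F R (J + t) a b)).card : ℝ) ≤
      δ / 4 * R + 2 * (δ / 4 * R) := by
    refine le_trans ?_ (add_le_add hlate hcount)
    exact_mod_cast h1
  refine le_trans (le_of_eq ?_) (h2.trans ?_)
  · congr 2
  · have : 0 ≤ δ * R := by positivity
    linarith

end Pool.Agent.TH461.AL.Lev
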