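import Mathlib
import Pool.Agent.TH461.AL.Stms
import Pool.Agent.TH461.SST.Window

/-!
Project AL of helper461, job J6 (written by helper615): the lines below a far cell.
-/

set_option autoImplicit false

open Finset Filter Topology

namespace Pool.Agent.TH461.AL.Lin

open Pool.Agent.TH461.AL
open Pool.Agent.TH461.SST (InT ClusterStmt Far)
open Pool.Agent.TH461.SST.Tri
open Pool.Agent.H706R2 (dZ)

/-- far cells after a shift of the origin -/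
theorem fa_iff {p q : ℕ} (hp : 2 ≤ p) (hq : 2 ≤ q) (r θ : ℝ) (i0 j0 : ℤ) (k : ℤ) (x b : ℕ) :
    Far p q r (θ * (p : ℝ) ^ i0 * (q : ℝ) ^ j0 + k) x b ↔ Fa p q r θ (i0 + x) (j0 + b) := by
  rw [far_shift]
  unfold Far Fa
  have hp0 : (p : ℝ) ≠ 0 := by positivity
  have hq0 : (q : ℝ) ≠ 0 := by positivity
  rw [zpow_add₀ hp0, zpow_add₀ hq0, zpow_natCast, zpow_natCast]
  have e : θ * (p : ℝ) ^ i0 * (q : ℝ) ^ j0 * (p : ℝ) ^ x * (q : ℝ) ^ b =
      θ * ((p : ℝ) ^ i0 * (p : ℝ) ^ x) * ((q : ℝ) ^ j0 * (q : ℝ) ^ b) := by ring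
  rw [e]

open Classical in
/-- the lines of a window -/
theorem win {p q : ℕ} (hp : 2 ≤ p) (hq : 2 ≤ q) (hpq : Nat.Coprime p q) {r : ℝ} (hr : 0 < r)
    (hrp : ((p : ℝ) + 1) * r ≤ 1) (hgeo : GeoStmt) (hcl : ClusterStmt p q) {δ lam : ℝ}
    (hδ : 0 < δ) (hlam : 0 < lam) :
    ∃ c : ℝ, 0 < c ∧ ∀ η : ℝ, 0 < η → ∃ R0 : ℕ, ∀ R C : ℕ, R0 ≤ R →
      (R : ℝ) * Real.log q ≤ C * Real.log p →
      (C : ℝ) * Real.log p ≤ R * Real.log q + Real.log p →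
      ∀ (θ : ℝ) (i0 j0 : ℤ), ∃ B : Finset ℕ, (B.card : ℝ) ≤ δ * R ∧
        ∀ b : ℕ, b < R → b ∉ B → ∀ x : ℕ, (lam + η) * R ≤ x → (x : ℝ) + lam * R < C →
          Fa p q r θ (i0 + x) (j0 + b) →
          c * R ≤ (((range C).filter
            (fun y : ℕ => Ngh (Fa p q r θ) (η * R) (j0 + b) (i0 + y))).card : ℝ) := by
  have hl := log_pos' hp
  have hu := log_pos' hq
  obtain ⟨l, hle⟩ : ∃ l : ℝ, l = Real.log p := ⟨_, rfl⟩
  obtain ⟨u, hue⟩ : ∃ u : ℝ, u = Real.log q := ⟨_, rfl⟩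
  obtain ⟨c, hc, R1, hG⟩ := hgeo (Real.log p) (Real.log q) 6 δ lam hl hu (by norm_num) hδ hlam
  refine ⟨c, hc, fun η hη => ?_⟩
  obtain ⟨K, hK, R2, hR2, hW⟩ := window hp hq hpq hr hrp hcl hη
  refine ⟨max (max R1 R2) ⌈2 * Real.log p / Real.log q + K⌉₊, ?_⟩
  intro R C hR hC1 hC2 θ i0 j0
  have hRR1 : R1 ≤ R := (le_max_left _ _).trans ((le_max_left _ _).trans hR)
  have hRR2 : R2 ≤ R := (le_max_right _ _).trans ((le_max_left _ _).trans hR)
  have hRR3 : 2 * Real.log p / Real.log q + K ≤ R := by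
    refine (Nat.le_ceil _).trans ?_
    exact_mod_cast (le_max_right _ _).trans hR
  obtain ⟨k, hk1, hk2⟩ := exists_shift (θ * (p : ℝ) ^ i0 * (q : ℝ) ^ j0)
  obtain ⟨θ', hθ'⟩ : ∃ θ' : ℝ, θ' = θ * (p : ℝ) ^ i0 * (q : ℝ) ^ j0 + k := ⟨_, rfl⟩
  rw [← hθ'] at hk1 hk2
  obtain ⟨N, hN⟩ : ∃ N : ℝ, N = C * Real.log p + R * Real.log q := ⟨_, rfl⟩
  obtain ⟨Z, hZ, hZc, hZs, hZw⟩ := hW R C hRR2 hC1 hC2 θ' hk1 hk2 N hN
  obtain ⟨e, -⟩ : ∃ e : Fin Z.card ≃ Z, e = Z.equivFin.symm := ⟨_, rfl⟩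
  have h1 : ∀ z : Fin Z.card, ((e z).1.2.1 : ℝ) * Real.log p + ((e z).1.2.2 : ℝ) * Real.log q <
      lev p q r θ' N (e z).1 := by
    intro z
    have h := (hZ (e z).1 (e z).2).2.2.2
    unfold size at h
    linarith
  have h2 : ∀ z z' : Fin Z.card, z ≠ z' → ∀ i j : ℕ, j < R →
      ¬ (InT (Real.log p) (Real.log q) (e z).1.2.1 (e z).1.2.2 (lev p q r θ' N (e z).1) i j ∧
        InT (Real.log p) (Real.log q) (e z').1.2.1 (e z').1.2.2
          (lev p q r θ' N (e z').1) i j) := by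
    intro z z' hne i j _ h
    have ha := ((inT_iff hp hq hr).1 h.1).2
    have hb := ((inT_iff hp hq hr).1 h.2).2
    apply hne
    apply e.injective
    apply Subtype.ext
    exact cap_unique hp hq hpq hr hrp (hZ _ (e z).2).1 (hZ _ (e z').2).1 ha hb
  have h3 : ∑ z : Fin Z.card, ((lev p q r θ' N (e z).1 - ((e z).1.2.1 : ℝ) * Real.log p -
      ((e z).1.2.2 : ℝ) * Real.log q) / Real.log q + 1) ≤ 6 * R := by
    have e1 : ∑ z : Fin Z.card, ((lev p q r θ' N (e z).1 - ((e z).1.2.1 : ℝ) * Real.log p -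
      ((e z).1.2.2 : ℝ) * Real.log q) / Real.log q + 1) =
        ∑ t ∈ Z, (size p q r θ' N t / Real.log q + 1) := by
      rw [← Finset.sum_coe_sort Z, ← Equiv.sum_comp e]
      rfl
    rw [e1, Finset.sum_add_distrib, ← Finset.sum_div, Finset.sum_const, nsmul_eq_mul, mul_one]
    have e2 : (∑ t ∈ Z, size p q r θ' N t) / Real.log q ≤ 2 * N / Real.log q :=
      div_le_div_of_nonneg_right hZs hu.le
    have e3 : 2 * N / Real.log q ≤ 4 * R + 2 * Real.log p / Real.log q := by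
      rw [div_le_iff₀ hu, add_mul, div_mul_cancel₀ _ hu.ne', hN]
      linarith
    have e4 : (0 : ℝ) ≤ R := Nat.cast_nonneg R
    linarith
  have hGG := hG R hRR1 Z.card (fun z => (e z).1.2.1) (fun z => (e z).1.2.2)
    (fun z => lev p q r θ' N (e z).1) h1 h2 h3
  refine ⟨_, hGG, ?_⟩
  intro b hb hbB x hx1 hx2 hfa
  have hfar : Far p q r θ' x b := by
    rw [hθ', fa_iff hp hq]
    exact hfa
  rw [Finset.mem_filter] at hbB
  push Not at hbB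
  have hlamR : 0 ≤ lam * R := by positivity
  have hηR : 0 ≤ η * R := by positivity
  have h4 := hbB (Finset.mem_range.2 hb) x (by linarith) (fun z hin =>
    (((inT_iff hp hq hr).1 hin).2.not_far hp hq hr hrp) hfar)
  refine h4.trans ?_
  have h5 : ((range (x + ⌊lam * R⌋₊ + 1)).filter (fun y : ℕ => (x : ℝ) ≤ y + lam * R ∧
      ∀ z : Fin Z.card, ¬ InT (Real.log p) (Real.log q) (e z).1.2.1 (e z).1.2.2
        (lev p q r θ' N (e z).1) y b)) ⊆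
      (range C).filter (fun y : ℕ => Ngh (Fa p q r θ) (η * R) (j0 + b) (i0 + y)) := by
    intro y hy
    rw [Finset.mem_filter, Finset.mem_range] at hy
    obtain ⟨hy1, hy2, hy3⟩ := hy
    have hy4 : (y : ℝ) ≤ x + lam * R := by
      have ha : y ≤ x + ⌊lam * R⌋₊ := by omega
      have hb' : (y : ℝ) ≤ x + (⌊lam * R⌋₊ : ℝ) := by exact_mod_cast ha
      have hc' := Nat.floor_le hlamR
      linarith
    have hyC : y < C := by
      have : (y : ℝ) < C := by linarith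
      exact_mod_cast this
    rw [Finset.mem_filter, Finset.mem_range]
    refine ⟨hyC, ?_⟩
    obtain ⟨i', hi1, hi2, hi3⟩ := hZw (y, b) (by
      rw [Finset.mem_product, Finset.mem_range, Finset.mem_range]
      exact ⟨hyC, hb⟩) (by
      show η * R ≤ (y : ℝ)
      linarith) (by
      intro t ht hin
      obtain ⟨z, hz⟩ := e.surjective ⟨t, ht⟩
      apply hy3 z
      rw [hz]
      exact hin)
    refine ⟨i0 + i', ?_, ?_, ?_⟩
    · rw [← fa_iff hp hq r θ i0 j0 k, ← hθ']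
      exact hi3
    · have : i' ≤ y := hi1
      omega
    · have h6 : (y : ℝ) ≤ i' + η * R := hi2
      push_cast
      linarith
  exact_mod_cast Finset.card_le_card h5

theorem line : J6 := by
  classical
  intro p q hp hq hpq r hr hrp hrq hgeo hcl hdown
  have hl := log_pos' hp
  have hu := log_pos' hq
  obtain ⟨κ, hκ⟩ : ∃ κ : ℝ, κ = Real.log q / Real.log p := ⟨_, rfl⟩
  have hκ0 : 0 < κ := by
    rw [hκ]
    exact div_pos hu hl
  obtain ⟨k0, hk0⟩ : ∃ k0 : ℕ, k0 = ⌈Real.log q / Real.log p⌉₊ := ⟨_, rfl⟩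
  rw [← hk0] at hdown
  obtain ⟨m0, hm0⟩ : ∃ m0 : ℕ, m0 = ⌈8 * ((k0 : ℝ) + 1) / κ⌉₊ + 1 := ⟨_, rfl⟩
  have hm1 : 1 ≤ m0 := by omega
  have hm1' : (1 : ℝ) ≤ m0 := by exact_mod_cast hm1
  have hm0' : (0 : ℝ) < m0 := by linarith
  have hm2 : 8 * ((k0 : ℝ) + 1) ≤ κ * m0 := by
    have h1 : 8 * ((k0 : ℝ) + 1) / κ ≤ m0 := by
      refine (Nat.le_ceil _).trans ?_
      rw [hm0]
      push_cast
      linarith
    rw [div_le_iff₀ hκ0] at h1
    linarith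
  refine ⟨⌈(m0 : ℝ) * κ⌉₊ + 1, fun δ hδ => ?_⟩
  obtain ⟨c, hc, hwin⟩ := win hp hq hpq hr hrp hgeo hcl (δ := δ / m0) (lam := κ / 8)
    (by positivity) (by positivity)
  refine ⟨c, hc, fun η hη => ?_⟩
  obtain ⟨η', hη'⟩ : ∃ η' : ℝ, η' = min (η / m0) (κ / 8) := ⟨_, rfl⟩
  have hη'0 : 0 < η' := by
    rw [hη']
    exact lt_min (by positivity) (by positivity)
  have hη'1 : η' ≤ η / m0 := by rw [hη']; exact min_le_left _ _
  have hη'2 : η' ≤ κ / 8 := by rw [hη']; exact min_le_right _ _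
  obtain ⟨R0, hR0⟩ := hwin η' hη'0
  refine ⟨max R0 1, fun T hT F hF i j hij => ?_⟩
  obtain ⟨θ, rfl⟩ := hF
  have hT1 : 1 ≤ T := (le_max_right _ _).trans hT
  have hT1' : (1 : ℝ) ≤ T := by exact_mod_cast hT1
  obtain ⟨R, hRe⟩ : ∃ R : ℕ, R = m0 * T := ⟨_, rfl⟩
  have hRT : T ≤ R := by
    rw [hRe]
    exact Nat.le_mul_of_pos_left T hm1
  have hRe' : (R : ℝ) = m0 * T := by
    rw [hRe]
    push_cast
    ring
  have hRR0 : R0 ≤ R := (le_max_left _ _).trans (hT.trans hRT)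
  obtain ⟨C, hCe⟩ : ∃ C : ℕ, C = ⌈(R : ℝ) * Real.log q / Real.log p⌉₊ := ⟨_, rfl⟩
  have hC1 : (R : ℝ) * κ ≤ C := by
    rw [hκ, hCe, ← mul_div_assoc]
    exact Nat.le_ceil _
  have hC2 : (C : ℝ) ≤ R * κ + 1 := by
    have h1 : (0 : ℝ) ≤ (R : ℝ) * Real.log q / Real.log p := by positivity
    have h2 := (Nat.ceil_lt_add_one h1).le
    rw [hκ, hCe, ← mul_div_assoc]
    exact h2
  have hκl : κ * Real.log p = Real.log q := by
    rw [hκ]
    exact div_mul_cancel₀ _ hl.ne'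
  have hC3 : (R : ℝ) * Real.log q ≤ C * Real.log p := by
    have h := mul_le_mul_of_nonneg_right hC1 hl.le
    rw [mul_assoc, hκl] at h
    exact h
  have hC4 : (C : ℝ) * Real.log p ≤ R * Real.log q + Real.log p := by
    have h := mul_le_mul_of_nonneg_right hC2 hl.le
    rw [add_mul, mul_assoc, hκl, one_mul] at h
    exact h
  obtain ⟨B, hBc, hBb⟩ := hR0 R C hRR0 hC3 hC4 θ (i - ((C / 2 : ℕ) : ℤ)) (j - ((R : ℤ) - 1))
  have hkT : ((k0 : ℝ) + 1) * T ≤ C / 8 := by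
    have h1 := mul_le_mul_of_nonneg_right hm2 (show (0 : ℝ) ≤ T by linarith)
    have h2 : κ * m0 * T = R * κ := by
      rw [hRe']
      ring
    linarith
  have hC8 : (8 : ℝ) ≤ C := by
    have h1 : (1 : ℝ) ≤ ((k0 : ℝ) + 1) * T := by
      have : (0 : ℝ) ≤ k0 := Nat.cast_nonneg k0
      nlinarith
    linarith
  have hCD : C ≤ (⌈(m0 : ℝ) * κ⌉₊ + 1) * T := by
    have h1 : (C : ℝ) ≤ ((⌈(m0 : ℝ) * κ⌉₊ : ℝ) + 1) * T := by
      have h2 := Nat.le_ceil ((m0 : ℝ) * κ)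
      have h3 : (m0 : ℝ) * κ * T ≤ (⌈(m0 : ℝ) * κ⌉₊ : ℝ) * T :=
        mul_le_mul_of_nonneg_right h2 (by linarith)
      have h4 : (R : ℝ) * κ = m0 * κ * T := by
        rw [hRe']
        ring
      linarith
    exact_mod_cast h1
  have hCh1 : ((C : ℝ) - 1) / 2 ≤ ((C / 2 : ℕ) : ℝ) := by
    have h1 : C ≤ 2 * (C / 2) + 1 := by omega
    have h2 : (C : ℝ) ≤ 2 * ((C / 2 : ℕ) : ℝ) + 1 := by exact_mod_cast h1
    linarith
  have hCh2 : ((C / 2 : ℕ) : ℝ) ≤ (C : ℝ) / 2 := by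
    have h1 : 2 * (C / 2) ≤ C := by omega
    have h2 : 2 * ((C / 2 : ℕ) : ℝ) ≤ (C : ℝ) := by exact_mod_cast h1
    linarith
  have hmaps : ∀ t ∈ (range T).filter (fun t : ℕ =>
      (mu (Fa p q r θ) (η * T) (j - t) (i - ((⌈(m0 : ℝ) * κ⌉₊ + 1 : ℕ) : ℤ) * T)
        (i + ((⌈(m0 : ℝ) * κ⌉₊ + 1 : ℕ) : ℤ) * T) : ℝ) < c * T), R - 1 - t ∈ B := by
    intro t ht
    rw [Finset.mem_filter, Finset.mem_range] at ht
    obtain ⟨htT, hmu⟩ := ht
    by_contra hcon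
    obtain ⟨i', h1, h2, h3⟩ := hdown θ i j hij t
    obtain ⟨x, hx⟩ : ∃ x : ℕ, (x : ℤ) = i' - (i - ((C / 2 : ℕ) : ℤ)) :=
      ⟨(i' - (i - ((C / 2 : ℕ) : ℤ))).toNat, Int.toNat_of_nonneg (by omega)⟩
    have hxl : ((C / 2 : ℕ) : ℝ) ≤ x := by
      have : ((C / 2 : ℕ) : ℤ) ≤ x := by omega
      exact_mod_cast this
    have hxu : (x : ℝ) ≤ ((C / 2 : ℕ) : ℝ) + ((k0 : ℝ) + 1) * T := by
      have h4 : (x : ℤ) ≤ ((C / 2 : ℕ) : ℤ) + (k0 * t + 1) := by omega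
      have h5 : (x : ℝ) ≤ ((C / 2 : ℕ) : ℝ) + ((k0 : ℝ) * t + 1) := by exact_mod_cast h4
      have h6 : (t : ℝ) ≤ T := by exact_mod_cast htT.le
      have h7 : (k0 : ℝ) * t ≤ k0 * T := mul_le_mul_of_nonneg_left h6 (Nat.cast_nonneg k0)
      linarith
    have hb : R - 1 - t < R := by omega
    have hbj : j - ((R : ℤ) - 1) + ((R - 1 - t : ℕ) : ℤ) = j - t := by omega
    have hxi : i - ((C / 2 : ℕ) : ℤ) + (x : ℤ) = i' := by omega
    have h8 := hBb (R - 1 - t) hb hcon x (by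
      have h9 : (κ / 8 + η') * R ≤ (κ / 8 + κ / 8) * R :=
        mul_le_mul_of_nonneg_right (by linarith) (Nat.cast_nonneg R)
      linarith) (by linarith) (by
      rw [hbj, hxi]
      exact h3)
    rw [hbj] at h8
    have h10 : (((range C).filter (fun y : ℕ =>
        Ngh (Fa p q r θ) (η' * R) (j - t) (i - ((C / 2 : ℕ) : ℤ) + y))).card) ≤
        mu (Fa p q r θ) (η * T) (j - t) (i - ((⌈(m0 : ℝ) * κ⌉₊ + 1 : ℕ) : ℤ) * T)
        (i + ((⌈(m0 : ℝ) * κ⌉₊ + 1 : ℕ) : ℤ) * T) := by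
      unfold mu
      apply Finset.card_le_card_of_injOn (fun y : ℕ => i - ((C / 2 : ℕ) : ℤ) + (y : ℤ))
      · intro y hy
        rw [Finset.mem_coe, Finset.mem_filter, Finset.mem_range] at hy
        obtain ⟨hy1, i'', hy2, hy3, hy4⟩ := hy
        rw [Finset.mem_coe, Finset.mem_filter, Finset.mem_Icc]
        beta_reduce
        have hCD' : (C : ℤ) ≤ ((⌈(m0 : ℝ) * κ⌉₊ + 1 : ℕ) : ℤ) * T := by exact_mod_cast hCD
        refine ⟨⟨by omega, by omega⟩, i'', hy2, hy3, hy4.trans ?_⟩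
        have h11 : η' * R ≤ η * T := by
          rw [hRe']
          have h12 := mul_le_mul_of_nonneg_right hη'1 (show (0 : ℝ) ≤ m0 * T by positivity)
          have h13 : η / m0 * (m0 * T) = η * T := by
            field_simp
          linarith
        linarith
      · intro y _ y' _ h
        have h' : i - ((C / 2 : ℕ) : ℤ) + (y : ℤ) = i - ((C / 2 : ℕ) : ℤ) + (y' : ℤ) := h
        omega
    have h14 : (((range C).filter (fun y : ℕ =>
        Ngh (Fa p q r θ) (η' * R) (j - t) (i - ((C / 2 : ℕ) : ℤ) + y))).card : ℝ) ≤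
        mu (Fa p q r θ) (η * T) (j - t) (i - ((⌈(m0 : ℝ) * κ⌉₊ + 1 : ℕ) : ℤ) * T)
        (i + ((⌈(m0 : ℝ) * κ⌉₊ + 1 : ℕ) : ℤ) * T) := by exact_mod_cast h10
    have h15 : (T : ℝ) ≤ R := by exact_mod_cast hRT
    have h16 : c * T ≤ c * R := mul_le_mul_of_nonneg_left h15 hc.le
    linarith
  have hinj : Set.InjOn (fun t : ℕ => R - 1 - t) ((range T).filter (fun t : ℕ =>
      (mu (Fa p q r θ) (η * T) (j - t) (i - ((⌈(m0 : ℝ) * κ⌉₊ + 1 : ℕ) : ℤ) * T)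
        (i + ((⌈(m0 : ℝ) * κ⌉₊ + 1 : ℕ) : ℤ) * T) : ℝ) < c * T)) := by
    intro t ht t' ht' h
    rw [Finset.mem_coe, Finset.mem_filter, Finset.mem_range] at ht ht'
    have h' : R - 1 - t = R - 1 - t' := h
    omega
  have hcard := Finset.card_le_card_of_injOn (fun t : ℕ => R - 1 - t) hmaps hinj
  have hcard' : (((range T).filter (fun t : ℕ =>
      (mu (Fa p q r θ) (η * T) (j - t) (i - ((⌈(m0 : ℝ) * κ⌉₊ + 1 : ℕ) : ℤ) * T)
        (i + ((⌈(m0 : ℝ) * κ⌉₊ + 1 : ℕ) : ℤ) * T) : ℝ) < c * T)).card : ℝ) ≤ B.card := by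
    exact_mod_cast hcard
  refine le_trans (le_of_eq ?_) (hcard'.trans (hBc.trans (le_of_eq ?_)))
  · congr!
  · rw [hRe']
    field_simp

end Pool.Agent.TH461.AL.Lin
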