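import Mathlib
import Pool.Agent.TH461.AL.Stms

/-!
# All levels: Markov inequality and choice of scales
(project AL of helper461, file by helper267)
-/

set_option autoImplicit false

open Finset Filter Topology

namespace Pool.Agent.TH461.AL.Mul

open Pool.Agent.TH461.AL

lemma mu_mono {F : ℤ → ℤ → Prop} {ρ : ℝ} {j a b a' b' : ℤ} (ha : a' ≤ a) (hb : b ≤ b') :
    mu F ρ j a b ≤ mu F ρ j a' b' := by
  classical
  unfold mu
  apply Finset.card_le_card
  intro y hy
  rw [Finset.mem_filter, Finset.mem_Icc] at hy ⊢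
  exact ⟨⟨ha.trans hy.1.1, hy.1.2.trans hb⟩, hy.2⟩

/-- the neighbourhood of the smaller scale is not much smaller -/
lemma always {F : ℤ → ℤ → Prop} {r H : ℕ} {j a b a' b' : ℤ} (hr : 1 ≤ r)
    (ha : a' ≤ a - (H * r : ℕ)) (hb : b ≤ b') :
    mu F ((H * r : ℕ) : ℝ) j a b ≤ (H + 1) * mu F (r : ℝ) j a' b' := by
  classical
  unfold mu
  have hr0 : (0 : ℤ) < (r : ℤ) := by exact_mod_cast hr
  have hsub : (Icc a b).filter (fun y => Ngh F ((H * r : ℕ) : ℝ) j y) ⊆
      ((range (H + 1)) ×ˢ ((Icc a' b').filter (fun y => Ngh F (r : ℝ) j y))).image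
        (fun p : ℕ × ℤ => p.2 + (p.1 : ℤ) * r) := by
    intro y hy
    rw [mem_filter, mem_Icc] at hy
    obtain ⟨⟨h1, h2⟩, i, hF, hi, hy2⟩ := hy
    have hy3 : y ≤ i + (H * r : ℕ) := by exact_mod_cast hy2
    obtain ⟨m, hm⟩ : ∃ m : ℤ, m = (y - i) / r := ⟨_, rfl⟩
    have e1 := Int.emod_add_mul_ediv (y - i) r
    have e2 := Int.emod_nonneg (y - i) hr0.ne'
    have e3 := Int.emod_lt_of_pos (y - i) hr0
    rw [← hm] at e1
    have hm0 : 0 ≤ m := by rw [hm]; exact Int.ediv_nonneg (by omega) hr0.le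
    have hmH : m ≤ H := by
      rw [hm]
      have h3 : (y - i) / r ≤ ((H : ℤ) * r) / r := by
        apply Int.ediv_le_ediv hr0
        push_cast at hy3
        linarith
      rwa [Int.mul_ediv_cancel _ hr0.ne'] at h3
    have e4 : m * r ≤ H * r := mul_le_mul_of_nonneg_right hmH hr0.le
    have e5 : 0 ≤ m * r := mul_nonneg hm0 hr0.le
    have e6 : (r : ℤ) * m = m * r := mul_comm _ _
    push_cast at ha
    rw [mem_image]
    refine ⟨(m.toNat, y - m * r), ?_, ?_⟩
    · rw [mem_product, mem_range, mem_filter, mem_Icc]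
      refine ⟨by show m.toNat < H + 1; omega, ⟨by show a' ≤ y - m * r; linarith,
        by show y - m * r ≤ b'; linarith⟩, i, hF, by show i ≤ y - m * r; linarith, ?_⟩
      have h4 : y - m * r ≤ i + r := by linarith
      show ((y - m * r : ℤ) : ℝ) ≤ i + r
      exact_mod_cast h4
    · show y - m * r + (m.toNat : ℤ) * r = y
      rw [Int.toNat_of_nonneg hm0]
      ring
  refine (Finset.card_le_card hsub).trans (Finset.card_image_le.trans ?_)
  rw [Finset.card_product, Finset.card_range]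

open Classical in
/-- from neighbourhoods to far cells -/
lemma last {F : ℤ → ℤ → Prop} {r : ℕ} {j a b a' b' : ℤ} (ha : a' ≤ a - r) (hb : b ≤ b') :
    mu F (r : ℝ) j a b ≤ (r + 1) * ((Icc a' b').filter (fun i => F i j)).card := by
  unfold mu
  have hsub : (Icc a b).filter (fun y => Ngh F (r : ℝ) j y) ⊆
      ((range (r + 1)) ×ˢ ((Icc a' b').filter (fun i => F i j))).image
        (fun p : ℕ × ℤ => p.2 + (p.1 : ℤ)) := by
    intro y hy
    rw [mem_filter, mem_Icc] at hy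
    obtain ⟨⟨h1, h2⟩, i, hF, hi, hy2⟩ := hy
    have hy3 : y ≤ i + r := by exact_mod_cast hy2
    rw [mem_image]
    refine ⟨((y - i).toNat, i), ?_, ?_⟩
    · rw [mem_product, mem_range, mem_filter, mem_Icc]
      refine ⟨by show (y - i).toNat < r + 1; omega, ⟨by show a' ≤ i; omega,
        by show i ≤ b'; omega⟩, hF⟩
    · show i + ((y - i).toNat : ℤ) = y
      omega
  refine (Finset.card_le_card hsub).trans (Finset.card_image_le.trans ?_)
  rw [Finset.card_product, Finset.card_range]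

/-- the largest scale -/
lemma top {F : ℤ → ℤ → Prop} {r : ℕ} {j a b i : ℤ} (h1 : a ≤ i) (h2 : i ≤ b) (hF : F i j) :
    r ≤ mu F (r : ℝ) j a (b + r) := by
  classical
  unfold mu
  have h3 : (Icc i (i + r)).card = r + 1 := by
    rw [Int.card_Icc]
    omega
  have h4 : (Icc i (i + r)).card ≤ ((Icc a (b + r)).filter (fun y => Ngh F (r : ℝ) j y)).card := by
    apply Finset.card_le_card
    intro y hy
    rw [mem_Icc] at hy
    rw [mem_filter, mem_Icc]
    refine ⟨⟨by omega, by omega⟩, i, hF, hy.1, ?_⟩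
    have := hy.2
    exact_mod_cast this
  omega

open Classical in
/-- one level, for `M` lines -/
lemma level {F : ℤ → ℤ → Prop} {η c δ : ℝ} {R D M : ℕ} {J a b : ℤ} (hδ : 0 ≤ δ) (hR : 1 ≤ R)
    (hRM : R ≤ M)
    (h : ∀ J : ℤ, (((range R).filter (fun t : ℕ =>
        (mu F (η * R) (J + t) (a - D * R) (b + D * R) : ℝ) < c * mu F R (J + t) a b)).card : ℝ)
        ≤ δ * R) :
    (((range M).filter (fun t : ℕ =>
        (mu F (η * R) (J + t) (a - D * R) (b + D * R) : ℝ) < c * mu F R (J + t) a b)).card : ℝ)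
        ≤ 2 * δ * M := by
  obtain ⟨P, hP⟩ : ∃ P : ℤ → Prop, P = fun j : ℤ =>
    (mu F (η * R) j (a - D * R) (b + D * R) : ℝ) < c * mu F R j a b := ⟨_, rfl⟩
  have h' : ∀ J : ℤ, (((range R).filter (fun t : ℕ => P (J + t))).card : ℝ) ≤ δ * R := by
    intro J
    rw [hP]
    exact h J
  have goal' : (((range M).filter (fun t : ℕ => P (J + t))).card : ℝ) ≤ 2 * δ * M := by
    have hsub : (range M).filter (fun t : ℕ => P (J + t)) ⊆
        (range (M / R + 1)).biUnion (fun m => ((range R).filter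
          (fun t : ℕ => P ((J + (m * R : ℕ)) + t))).image (fun t => m * R + t)) := by
      intro t ht
      rw [mem_filter, mem_range] at ht
      rw [mem_biUnion]
      refine ⟨t / R, ?_, ?_⟩
      · rw [mem_range]
        have := Nat.div_le_div_right (c := R) ht.1.le
        omega
      · rw [mem_image]
        refine ⟨t % R, ?_, ?_⟩
        · rw [mem_filter, mem_range]
          refine ⟨Nat.mod_lt _ hR, ?_⟩
          have h1 : J + ((t / R * R : ℕ) : ℤ) + ((t % R : ℕ) : ℤ) = J + (t : ℤ) := by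
            have h2 : t / R * R + t % R = t := Nat.div_add_mod' t R
            have h3 : ((t / R * R : ℕ) : ℤ) + ((t % R : ℕ) : ℤ) = (t : ℤ) := by exact_mod_cast h2
            rw [add_assoc, h3]
          rw [h1]
          exact ht.2
        · exact Nat.div_add_mod' t R
    have h1 : (((range M).filter (fun t : ℕ => P (J + t))).card : ℝ) ≤
        ∑ m ∈ range (M / R + 1), (δ * R) := by
      have h2 := (Finset.card_le_card hsub).trans Finset.card_biUnion_le
      calc (((range M).filter (fun t : ℕ => P (J + t))).card : ℝ) ≤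
          ((∑ m ∈ range (M / R + 1), (((range R).filter
            (fun t : ℕ => P ((J + (m * R : ℕ)) + t))).image (fun t => m * R + t)).card : ℕ) : ℝ) := by
            exact_mod_cast h2
        _ = ∑ m ∈ range (M / R + 1), ((((range R).filter
            (fun t : ℕ => P ((J + (m * R : ℕ)) + t))).image (fun t => m * R + t)).card : ℝ) := by
            push_cast
            rfl
        _ ≤ ∑ m ∈ range (M / R + 1), (δ * R) := by
            refine Finset.sum_le_sum fun m _ => ?_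
            refine le_trans ?_ (h' (J + (m * R : ℕ)))
            exact_mod_cast Finset.card_image_le
    rw [Finset.sum_const, Finset.card_range, nsmul_eq_mul] at h1
    have h3 : ((M / R : ℕ) : ℝ) * R ≤ M := by exact_mod_cast Nat.div_mul_le_self M R
    have h4 : (R : ℝ) ≤ M := by exact_mod_cast hRM
    refine h1.trans ?_
    push_cast
    nlinarith [mul_le_mul_of_nonneg_left h3 hδ, mul_le_mul_of_nonneg_left h4 hδ]
  rw [hP] at goal'
  exact goal'

open Classical in
/-- product of the ratios -/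
lemma chain {u : ℕ → ℝ} {c K : ℝ} (hc0 : 0 < c) (hc1 : c ≤ 1) (hK : 1 ≤ K) (hu : ∀ j, 0 ≤ u j) :
    ∀ L : ℕ, (∀ j < L, u j ≤ K * u (j + 1)) →
      u 0 * c ^ L ≤ K ^ ((range L).filter (fun j => u (j + 1) < c * u j)).card * u L := by
  intro L
  induction L with
  | zero => intro _; simp
  | succ L ih =>
    intro h
    have h1 := ih fun j hj => h j (by omega)
    have hK0 : 0 < K := by linarith
    have h2 : 0 ≤ u 0 * c ^ L := mul_nonneg (hu 0) (pow_nonneg hc0.le L)
    have hKB : 0 ≤ K ^ ((range L).filter (fun j => u (j + 1) < c * u j)).card :=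
      pow_nonneg hK0.le _
    rw [Finset.range_add_one, Finset.filter_insert]
    by_cases hb : u (L + 1) < c * u L
    · rw [if_pos hb, Finset.card_insert_of_notMem (by simp)]
      calc u 0 * c ^ (L + 1) = (u 0 * c ^ L) * c := by ring
        _ ≤ (u 0 * c ^ L) * 1 := mul_le_mul_of_nonneg_left hc1 h2
        _ = u 0 * c ^ L := mul_one _
        _ ≤ K ^ ((range L).filter (fun j => u (j + 1) < c * u j)).card * u L := h1
        _ ≤ K ^ ((range L).filter (fun j => u (j + 1) < c * u j)).card * (K * u (L + 1)) :=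
            mul_le_mul_of_nonneg_left (h L (by omega)) hKB
        _ = _ := by ring
    · rw [if_neg hb]
      calc u 0 * c ^ (L + 1) = c * (u 0 * c ^ L) := by ring
        _ ≤ c * (K ^ ((range L).filter (fun j => u (j + 1) < c * u j)).card * u L) :=
            mul_le_mul_of_nonneg_left h1 hc0.le
        _ = K ^ ((range L).filter (fun j => u (j + 1) < c * u j)).card * (c * u L) := by ring
        _ ≤ _ := mul_le_mul_of_nonneg_left (not_lt.1 hb) hKB

open Classical in
/-- Markov inequality -/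
lemma markov {M L : ℕ} {d x : ℝ} (_hd : 0 < d) (hx : 0 ≤ x) (bad : ℕ → ℕ → Prop)
    (h : ∀ j < L, (((range M).filter (fun t => bad j t)).card : ℝ) ≤ x) :
    (((range M).filter (fun t => d * L < (((range L).filter (fun j => bad j t)).card : ℝ))).card :
      ℝ) * d ≤ x := by
  rcases Nat.eq_zero_or_pos L with hL | hL
  · subst hL
    simp [hx]
  · have hL0 : (0 : ℝ) < L := by exact_mod_cast hL
    obtain ⟨T, hT⟩ : ∃ T : Finset ℕ, T = (range M).filter
      (fun t => d * L < (((range L).filter (fun j => bad j t)).card : ℝ)) := ⟨_, rfl⟩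
    rw [← hT]
    have h1 : (T.card : ℝ) * (d * L) ≤
        ∑ t ∈ T, (((range L).filter (fun j => bad j t)).card : ℝ) := by
      rw [← nsmul_eq_mul, ← Finset.sum_const]
      refine Finset.sum_le_sum fun t ht => ?_
      rw [hT, mem_filter] at ht
      exact ht.2.le
    have h2 : ∑ t ∈ T, (((range L).filter (fun j => bad j t)).card : ℝ) ≤
        ∑ t ∈ range M, (((range L).filter (fun j => bad j t)).card : ℝ) := by
      refine Finset.sum_le_sum_of_subset_of_nonneg ?_ fun t _ _ => Nat.cast_nonneg _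
      rw [hT]
      exact Finset.filter_subset _ _
    have h3 : ∑ t ∈ range M, (((range L).filter (fun j => bad j t)).card : ℝ) =
        ∑ j ∈ range L, (((range M).filter (fun t => bad j t)).card : ℝ) := by
      simp only [Finset.card_filter]
      push_cast
      rw [Finset.sum_comm]
    have h4 : ∑ j ∈ range L, (((range M).filter (fun t => bad j t)).card : ℝ) ≤ L * x := by
      calc ∑ j ∈ range L, (((range M).filter (fun t => bad j t)).card : ℝ) ≤
          ∑ j ∈ range L, x := Finset.sum_le_sum fun j hj => h j (mem_range.1 hj)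
        _ = L * x := by rw [Finset.sum_const, Finset.card_range, nsmul_eq_mul]
    have h5 : ((T.card : ℝ) * d) * L ≤ x * L := by nlinarith
    exact le_of_mul_le_mul_right h5 hL0

/-- the choice of the ratio of the scales -/
lemma exists_H {c e : ℝ} (hc0 : 0 < c) (he : 0 < e) :
    ∃ H : ℕ, 2 ≤ H ∧ (H : ℝ) ^ (-e) ≤ c := by
  obtain ⟨H, hH⟩ := exists_nat_ge ((1 / c) ^ (1 / e))
  refine ⟨max 2 H, le_max_left _ _, ?_⟩
  have hpos : (0 : ℝ) < ((max 2 H : ℕ) : ℝ) := by
    have : 0 < max 2 H := by omega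
    exact_mod_cast this
  have h1 : (1 / c) ^ (1 / e) ≤ ((max 2 H : ℕ) : ℝ) := hH.trans (by exact_mod_cast le_max_right 2 H)
  have h2 : 1 / c ≤ ((max 2 H : ℕ) : ℝ) ^ e := by
    have h3 := Real.rpow_le_rpow (by positivity) h1 he.le
    rwa [← Real.rpow_mul (by positivity), one_div_mul_cancel he.ne', Real.rpow_one] at h3
  rw [Real.rpow_neg hpos.le]
  rw [one_div] at h2
  exact (inv_le_comm₀ hc0 (Real.rpow_pos_of_pos hpos e)).1 h2

/-- the final inequality -/
lemma final {ε c : ℝ} {H L R1 M k : ℕ} {u0 uL x : ℝ} (hε : 0 < ε) (hc0 : 0 < c) (hH : 2 ≤ H)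
    (hR : 1 ≤ R1) (hHc : (H : ℝ) ^ (-(ε / 4)) ≤ c)
    (hMx : (H : ℝ) * (R1 + 1) ≤ (M : ℝ) ^ (5 * ε / 8)) (hL1 : H ^ L * R1 ≤ M)
    (hL2 : M < H ^ (L + 1) * R1) (hu0 : ((H ^ L * R1 : ℕ) : ℝ) ≤ u0)
    (hch : u0 * c ^ L ≤ ((H : ℝ) + 1) ^ k * uL) (huL : uL ≤ (R1 + 1) * x)
    (hk : (k : ℝ) ≤ ε / 16 * L) : (M : ℝ) ^ (1 - ε) ≤ x := by
  by_contra hcon
  rw [not_le] at hcon
  have hHr : (2 : ℝ) ≤ H := by exact_mod_cast hH
  have hH0 : (0 : ℝ) < H := by linarith
  have hR1 : (1 : ℝ) ≤ R1 := by exact_mod_cast hR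
  have hHL : (H : ℝ) ^ L ≤ M := by
    have h1 : H ^ L ≤ H ^ L * R1 := Nat.le_mul_of_pos_right _ hR
    exact_mod_cast h1.trans hL1
  have hHLpos : (0 : ℝ) < (H : ℝ) ^ L := by positivity
  have hM0 : (0 : ℝ) < M := lt_of_lt_of_le hHLpos hHL
  have h1 : (M : ℝ) ≤ H * ((H ^ L * R1 : ℕ) : ℝ) := by
    have h2 : M ≤ H * (H ^ L * R1) := by
      rw [pow_succ] at hL2
      calc M ≤ H ^ L * H * R1 := hL2.le
        _ = H * (H ^ L * R1) := by ring
    exact_mod_cast h2
  have h2 : (M : ℝ) ^ (-(ε / 4)) ≤ c ^ L := by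
    calc (M : ℝ) ^ (-(ε / 4)) ≤ ((H : ℝ) ^ L) ^ (-(ε / 4)) :=
          Real.rpow_le_rpow_of_nonpos hHLpos hHL (by linarith)
      _ = ((H : ℝ) ^ (-(ε / 4))) ^ L := by
          rw [← Real.rpow_natCast, ← Real.rpow_natCast, ← Real.rpow_mul hH0.le,
            ← Real.rpow_mul hH0.le, mul_comm]
      _ ≤ c ^ L := pow_le_pow_left₀ (Real.rpow_nonneg hH0.le _) hHc L
  have h3 : ((H : ℝ) + 1) ^ k ≤ (M : ℝ) ^ (ε / 8) := by
    calc ((H : ℝ) + 1) ^ k ≤ ((H : ℝ) ^ 2) ^ k :=
          pow_le_pow_left₀ (by linarith) (by nlinarith) k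
      _ = (H : ℝ) ^ (2 * (k : ℝ)) := by
          rw [← pow_mul, ← Real.rpow_natCast]
          push_cast
          rfl
      _ ≤ (H : ℝ) ^ ((L : ℝ) * (ε / 8)) :=
          Real.rpow_le_rpow_of_exponent_le (by linarith) (by linarith)
      _ = ((H : ℝ) ^ L) ^ (ε / 8) := by rw [Real.rpow_mul hH0.le, Real.rpow_natCast]
      _ ≤ (M : ℝ) ^ (ε / 8) := Real.rpow_le_rpow hHLpos.le hHL (by linarith)
  have hxpos : 0 < x := by
    by_contra hx
    rw [not_lt] at hx
    have h4 : 0 < u0 * c ^ L := by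
      have h5 : (0 : ℝ) < ((H ^ L * R1 : ℕ) : ℝ) := by
        push_cast
        positivity
      exact mul_pos (lt_of_lt_of_le h5 hu0) (pow_pos hc0 L)
    have h5 : uL ≤ 0 := huL.trans (mul_nonpos_of_nonneg_of_nonpos (by linarith) hx)
    have h6 : ((H : ℝ) + 1) ^ k * uL ≤ 0 :=
      mul_nonpos_of_nonneg_of_nonpos (by positivity) h5
    linarith
  have hε1 : (M : ℝ) ^ (1 - ε / 4) = M * (M : ℝ) ^ (-(ε / 4)) := by
    rw [sub_eq_add_neg, Real.rpow_add hM0, Real.rpow_one]
  have hε2 : (M : ℝ) ^ (1 - ε / 4) =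
      (M : ℝ) ^ (5 * ε / 8) * ((M : ℝ) ^ (ε / 8) * (M : ℝ) ^ (1 - ε)) := by
    rw [← Real.rpow_add hM0, ← Real.rpow_add hM0]
    congr 1
    ring
  have hcL : 0 ≤ c ^ L := (pow_pos hc0 L).le
  have h7 : (M : ℝ) ^ (1 - ε / 4) < (M : ℝ) ^ (1 - ε / 4) := by
    calc (M : ℝ) ^ (1 - ε / 4) = M * (M : ℝ) ^ (-(ε / 4)) := hε1
      _ ≤ (H * ((H ^ L * R1 : ℕ) : ℝ)) * c ^ L :=
          mul_le_mul h1 h2 (Real.rpow_nonneg hM0.le _) (by positivity)
      _ ≤ H * (u0 * c ^ L) := by
          rw [mul_assoc]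
          exact mul_le_mul_of_nonneg_left (mul_le_mul_of_nonneg_right hu0 hcL) hH0.le
      _ ≤ H * (((H : ℝ) + 1) ^ k * uL) := mul_le_mul_of_nonneg_left hch hH0.le
      _ ≤ H * (((H : ℝ) + 1) ^ k * ((R1 + 1) * x)) :=
          mul_le_mul_of_nonneg_left (mul_le_mul_of_nonneg_left huL (by positivity)) hH0.le
      _ ≤ H * ((M : ℝ) ^ (ε / 8) * ((R1 + 1) * x)) :=
          mul_le_mul_of_nonneg_left (mul_le_mul_of_nonneg_right h3 (by positivity)) hH0.le
      _ = (H * (R1 + 1)) * ((M : ℝ) ^ (ε / 8) * x) := by ring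
      _ ≤ (M : ℝ) ^ (5 * ε / 8) * ((M : ℝ) ^ (ε / 8) * x) :=
          mul_le_mul_of_nonneg_right hMx (by positivity)
      _ < (M : ℝ) ^ (5 * ε / 8) * ((M : ℝ) ^ (ε / 8) * (M : ℝ) ^ (1 - ε)) :=
          mul_lt_mul_of_pos_left (mul_lt_mul_of_pos_left hcon (Real.rpow_pos_of_pos hM0 _))
            (Real.rpow_pos_of_pos hM0 _)
      _ = (M : ℝ) ^ (1 - ε / 4) := hε2.symm
  exact lt_irrefl _ h7

theorem multi : J4 := by
  classical
  intro S D hLev ε hε δ hδ
  have hd30 : 0 < ε / 16 := by positivity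
  obtain ⟨c0, hc00, hc0⟩ := hLev (δ * (ε / 16) / 2) (by positivity)
  obtain ⟨c, hcdef⟩ : ∃ c : ℝ, c = min c0 1 := ⟨_, rfl⟩
  have hcpos : 0 < c := by rw [hcdef]; exact lt_min hc00 one_pos
  have hc1 : c ≤ 1 := by rw [hcdef]; exact min_le_right _ _
  have hcc : c ≤ c0 := by rw [hcdef]; exact min_le_left _ _
  obtain ⟨H, hH2, hHc⟩ := exists_H hcpos (show 0 < ε / 4 by positivity)
  have hHr : (2 : ℝ) ≤ H := by exact_mod_cast hH2
  have hH0 : (0 : ℝ) < H := by linarith
  obtain ⟨R0, hR0⟩ := hc0 (1 / H) (by positivity)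
    (by rw [div_le_div_iff₀ hH0 two_pos]; linarith)
  obtain ⟨R1, hR1⟩ : ∃ R1 : ℕ, R1 = max 1 R0 := ⟨_, rfl⟩
  have hR11 : 1 ≤ R1 := by omega
  have hR10 : R0 ≤ R1 := by omega
  obtain ⟨x0, hx0⟩ := ((tendsto_rpow_atTop (show 0 < 5 * ε / 8 by positivity)).eventually_ge_atTop
    ((H : ℝ) * (R1 + 1))).exists_forall_of_atTop
  obtain ⟨N0, hN0⟩ := exists_nat_ge x0
  refine ⟨max R1 N0, fun M hM F hF J a b hfar => ?_⟩
  have hMR : R1 ≤ M := (le_max_left _ _).trans hM
  have hMx : (H : ℝ) * (R1 + 1) ≤ (M : ℝ) ^ (5 * ε / 8) :=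
    hx0 M (hN0.trans (by exact_mod_cast (le_max_right _ _).trans hM))
  obtain ⟨L, hLdef⟩ : ∃ L : ℕ, L = Nat.log H (M / R1) := ⟨_, rfl⟩
  have hdiv : M / R1 ≠ 0 := (Nat.div_pos hMR hR11).ne'
  have hL1 : H ^ L * R1 ≤ M := by
    have h1 := Nat.pow_log_le_self H hdiv
    rw [← hLdef] at h1
    exact (Nat.mul_le_mul_right R1 h1).trans (Nat.div_mul_le_self _ _)
  have hL2 : M < H ^ (L + 1) * R1 := by
    have h1 := Nat.lt_pow_succ_log_self (b := H) (by omega) (M / R1)
    rw [← hLdef] at h1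
    exact (Nat.div_lt_iff_lt_mul hR11).1 h1
  -- the scales
  obtain ⟨s, hs⟩ : ∃ s : ℕ → ℕ, s = fun j => H ^ (L - j) * R1 := ⟨_, rfl⟩
  have hs0 : s 0 = H ^ L * R1 := by rw [hs]; rfl
  have hsL : s L = R1 := by rw [hs]; simp
  have hss : ∀ j < L, s j = H * s (j + 1) := by
    intro j hj
    have h1 : L - j = L - (j + 1) + 1 := by omega
    simp only [hs, h1, pow_succ]
    ring
  have hs1 : ∀ j, R1 ≤ s j := by
    intro j
    rw [hs]
    exact Nat.le_mul_of_pos_left _ (pow_pos (by omega) _)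
  have hsM : ∀ j, s j ≤ M := by
    intro j
    rw [hs]
    exact (Nat.mul_le_mul_right R1 (Nat.pow_le_pow_right (by omega) (by omega))).trans hL1
  -- the windows
  obtain ⟨A, hA⟩ : ∃ A : ℕ → ℤ, ∀ j, A j = a - 2 * (D + 1) * ((s 0 : ℤ) - s j) :=
    ⟨_, fun _ => rfl⟩
  obtain ⟨B, hB⟩ : ∃ B : ℕ → ℤ, ∀ j, B j = b + s 0 + 2 * (D + 1) * ((s 0 : ℤ) - s j) :=
    ⟨_, fun _ => rfl⟩
  have hkey : ∀ j < L, 0 ≤ ((D : ℤ) + 1) * (s j - 2 * s (j + 1)) := by
    intro j hj
    have h1 : (0 : ℤ) ≤ s (j + 1) := by positivity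
    have h2 : (2 : ℤ) ≤ H := by exact_mod_cast hH2
    have h3 : (2 : ℤ) * s (j + 1) ≤ s j := by
      rw [hss j hj]
      push_cast
      exact mul_le_mul_of_nonneg_right h2 h1
    exact mul_nonneg (by positivity) (by linarith)
  have hAs : ∀ j < L, A (j + 1) ≤ A j - (D + 1) * s j := by
    intro j hj
    rw [hA, hA]
    linarith [hkey j hj]
  have hBs : ∀ j < L, B j + (D + 1) * s j ≤ B (j + 1) := by
    intro j hj
    rw [hB, hB]
    linarith [hkey j hj]
  have hDs : ∀ j, (0 : ℤ) ≤ (D : ℤ) * s j := fun j => by positivity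
  have hsp : ∀ j, (0 : ℤ) ≤ (s j : ℤ) := fun j => by positivity
  obtain ⟨u, hu⟩ : ∃ u : ℕ → ℕ → ℝ, ∀ t j, u t j =
    (mu F (s j : ℝ) (J + t) (A j) (B j) : ℝ) := ⟨_, fun _ _ => rfl⟩
  -- one level
  have hlev : ∀ j < L, (((range M).filter (fun t => u t (j + 1) < c * u t j)).card : ℝ) ≤
      δ * (ε / 16) * M := by
    intro j hj
    have h1 := level (F := F) (η := 1 / (H : ℝ)) (c := c0) (δ := δ * (ε / 16) / 2) (R := s j)
      (D := D) (M := M) (J := J) (a := A j) (b := B j) (by positivity) (hR11.trans (hs1 j)) (hsM j)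
      (fun J' => hR0 (s j) (hR10.trans (hs1 j)) F hF J' (A j) (B j))
    refine le_trans ?_ (h1.trans (le_of_eq (by ring)))
    apply Nat.cast_le.2
    apply Finset.card_le_card
    intro t ht
    rw [mem_filter] at ht ⊢
    refine ⟨ht.1, ?_⟩
    have e1 : (1 / (H : ℝ)) * (s j : ℝ) = (s (j + 1) : ℝ) := by
      rw [hss j hj]
      push_cast
      field_simp
    rw [e1]
    have h2 := ht.2
    rw [hu, hu] at h2
    have h3 : mu F (s (j + 1) : ℝ) (J + t) (A j - D * s j) (B j + D * s j) ≤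
        mu F (s (j + 1) : ℝ) (J + t) (A (j + 1)) (B (j + 1)) :=
      mu_mono (by linarith [hAs j hj, hsp j]) (by linarith [hBs j hj, hsp j])
    have h4 : (mu F (s (j + 1) : ℝ) (J + t) (A j - D * s j) (B j + D * s j) : ℝ) ≤
        mu F (s (j + 1) : ℝ) (J + t) (A (j + 1)) (B (j + 1)) := by exact_mod_cast h3
    have h5 : c * (mu F (s j : ℝ) (J + t) (A j) (B j) : ℝ) ≤
        c0 * (mu F (s j : ℝ) (J + t) (A j) (B j) : ℝ) :=
      mul_le_mul_of_nonneg_right hcc (Nat.cast_nonneg _)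
    linarith
  have hal : ∀ t : ℕ, ∀ j < L, u t j ≤ ((H : ℝ) + 1) * u t (j + 1) := by
    intro t j hj
    rw [hu, hu]
    have h1 : A (j + 1) ≤ A j - (H * s (j + 1) : ℕ) := by
      rw [← hss j hj]
      linarith [hAs j hj, hDs j]
    have h2 : B j ≤ B (j + 1) := by linarith [hBs j hj, hDs j, hsp j]
    have h3 := always (F := F) (j := J + t) (hR11.trans (hs1 (j + 1))) h1 h2
    rw [← hss j hj] at h3
    exact_mod_cast h3
  -- a line with few far cells has many bad levels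
  have hmain : ∀ t < M, (((Icc (a - ((4 * D + 8 : ℕ) : ℤ) * M) (b + ((4 * D + 8 : ℕ) : ℤ) * M)).filter
      (fun i => F i (J + t))).card : ℝ) < (M : ℝ) ^ (1 - ε) →
      ε / 16 * L < (((range L).filter (fun j => u t (j + 1) < c * u t j)).card : ℝ) := by
    intro t ht hlt
    by_contra hcon
    rw [not_lt] at hcon
    refine absurd hlt (not_lt.2 ?_)
    obtain ⟨i, hi1, hi2, hi3⟩ := hfar t ht
    have hch := chain (u := u t) hcpos hc1 (K := (H : ℝ) + 1) (by linarith)
      (fun j => by rw [hu]; exact Nat.cast_nonneg _) L (fun j hj => hal t j hj)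
    have hu0 : ((H ^ L * R1 : ℕ) : ℝ) ≤ u t 0 := by
      rw [hu, ← hs0]
      have h1 := top (F := F) (r := s 0) (j := J + t) hi1 hi2 hi3
      have e1 : A 0 = a := by rw [hA]; ring
      have e2 : B 0 = b + s 0 := by rw [hB]; ring
      rw [e1, e2]
      exact_mod_cast h1
    have hDM : (0 : ℤ) ≤ (D : ℤ) * M := by positivity
    have hM0 : (0 : ℤ) ≤ (M : ℤ) := by positivity
    have hDR : (0 : ℤ) ≤ (D : ℤ) * R1 := by positivity
    have hR1M : (R1 : ℤ) ≤ M := by exact_mod_cast hMR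
    have hR1p : (0 : ℤ) ≤ (R1 : ℤ) := by positivity
    have hs0M : (s 0 : ℤ) ≤ M := by exact_mod_cast hsM 0
    have hDs0 : (D : ℤ) * s 0 ≤ D * M := mul_le_mul_of_nonneg_left hs0M (by positivity)
    have huL : u t L ≤ ((R1 : ℝ) + 1) *
        (((Icc (a - ((4 * D + 8 : ℕ) : ℤ) * M) (b + ((4 * D + 8 : ℕ) : ℤ) * M)).filter
          (fun i => F i (J + t))).card : ℝ) := by
      rw [hu, hsL]
      have h1 : a - ((4 * D + 8 : ℕ) : ℤ) * M ≤ A L - R1 := by
        rw [hA, hsL]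
        push_cast
        linarith
      have h2 : B L ≤ b + ((4 * D + 8 : ℕ) : ℤ) * M := by
        rw [hB, hsL]
        push_cast
        linarith
      have h3 := last (F := F) (r := R1) (j := J + t) h1 h2
      exact_mod_cast h3
    exact final hε hcpos hH2 hR11 hHc hMx hL1 hL2 hu0 hch huL hcon
  have hmk := markov (M := M) (L := L) hd30 (x := δ * (ε / 16) * M) (by positivity)
    (fun j t => u t (j + 1) < c * u t j) hlev
  have h1 : (((range M).filter (fun t : ℕ =>
      (((Icc (a - ((4 * D + 8 : ℕ) : ℤ) * M) (b + ((4 * D + 8 : ℕ) : ℤ) * M)).filter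
        (fun i => F i (J + t))).card : ℝ) < (M : ℝ) ^ (1 - ε))).card : ℝ) ≤
      (((range M).filter (fun t => ε / 16 * L <
        (((range L).filter (fun j => u t (j + 1) < c * u t j)).card : ℝ))).card : ℝ) := by
    apply Nat.cast_le.2
    apply Finset.card_le_card
    intro t ht
    rw [mem_filter] at ht ⊢
    exact ⟨ht.1, hmain t (mem_range.1 ht.1) ht.2⟩
  have h2 : (((range M).filter (fun t : ℕ =>
      (((Icc (a - ((4 * D + 8 : ℕ) : ℤ) * M) (b + ((4 * D + 8 : ℕ) : ℤ) * M)).filter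
        (fun i => F i (J + t))).card : ℝ) < (M : ℝ) ^ (1 - ε))).card : ℝ) * (ε / 16) ≤
      (δ * M) * (ε / 16) := by
    calc _ ≤ _ := mul_le_mul_of_nonneg_right h1 hd30.le
      _ ≤ δ * (ε / 16) * M := hmk
      _ = (δ * M) * (ε / 16) := by ring
  exact le_of_mul_le_mul_right h2 hd30

end Pool.Agent.TH461.AL.Mul

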