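import Mathlib
import Pool.Agent.TH461.AL.Stms

/-!
J2: for one point, the density of the bad lines.
-/

set_option autoImplicit false

open Finset Filter Topology

namespace Pool.Agent.TH461.AL.Pt

open Pool.Agent.TH461.AL

theorem mu_mono (F : ℤ → ℤ → Prop) {ρ ρ' : ℝ} (j : ℤ) {a b a' b' : ℤ} (hρ : ρ ≤ ρ') (ha : a' ≤ a)
    (hb : b ≤ b') : mu F ρ j a b ≤ mu F ρ' j a' b' := by
  classical
  unfold mu
  apply Finset.card_le_card
  intro y hy
  rw [mem_filter, mem_Icc] at hy ⊢
  obtain ⟨⟨h1, h2⟩, i, hi, h3, h4⟩ := hy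
  exact ⟨⟨ha.trans h1, h2.trans hb⟩, i, hi, h3, h4.trans (by linarith)⟩

theorem dc {α β : Type} (s : Finset α) (t : Finset β) (r : α → β → Prop)
    [∀ a b, Decidable (r a b)] :
    ∑ a ∈ s, (t.filter (fun b => r a b)).card = ∑ b ∈ t, (s.filter (fun a => r a b)).card := by
  simp_rw [Finset.card_filter]
  exact Finset.sum_comm

theorem sum_mu (F : ℤ → ℤ → Prop) {ρ ρ' : ℝ} (hρ : ρ ≤ ρ') (j y a' b' : ℤ) (R D t : ℕ)
    (ha : a' ≤ y - R - D * t) (hb : y + D * t ≤ b') :
    ∑ i ∈ Icc (y - R : ℤ) y, mu F ρ j (i - D * t) (i + D * t) ≤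
      (2 * (D * t) + 1) * mu F ρ' j a' b' := by
  classical
  have h1 : ∀ i ∈ Icc (y - R : ℤ) y, mu F ρ j (i - D * t) (i + D * t) ≤
      (((Icc a' b').filter (fun y' => Ngh F ρ' j y')).filter
        (fun y' => i - D * t ≤ y' ∧ y' ≤ i + D * t)).card := by
    intro i hi
    rw [mem_Icc] at hi
    unfold mu
    apply Finset.card_le_card
    intro z hz
    simp only [mem_filter, mem_Icc] at hz ⊢
    obtain ⟨⟨h1, h2⟩, i', hi', h3, h4⟩ := hz
    exact ⟨⟨⟨by omega, by omega⟩, i', hi', h3, h4.trans (by linarith)⟩, h1, h2⟩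
  refine (Finset.sum_le_sum h1).trans ?_
  rw [dc (Icc (y - R : ℤ) y) ((Icc a' b').filter (fun y' => Ngh F ρ' j y'))
    (fun i y' => i - D * t ≤ y' ∧ y' ≤ i + D * t)]
  have h2 : ∀ y' ∈ (Icc a' b').filter (fun y' => Ngh F ρ' j y'),
      ((Icc (y - R : ℤ) y).filter (fun i => i - D * t ≤ y' ∧ y' ≤ i + D * t)).card ≤
        2 * (D * t) + 1 := by
    intro y' _
    calc _ ≤ (Icc (y' - ((D * t : ℕ) : ℤ)) (y' + ((D * t : ℕ) : ℤ))).card := by
          apply Finset.card_le_card
          intro i hi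
          simp only [mem_filter, mem_Icc] at hi ⊢
          push_cast
          omega
      _ = 2 * (D * t) + 1 := by
          rw [Int.card_Icc]
          omega
  refine (Finset.sum_le_sum h2).trans ?_
  rw [Finset.sum_const, smul_eq_mul, mul_comm]
  refine le_of_eq ?_
  congr 1

/-- on the lines just below a wall the neighbourhood is large -/
theorem wall_mu (F : ℤ → ℤ → Prop) (k0 : ℕ) (hD : Down F k0) (η : ℝ) (hη : η ≤ 1 / 2)
    (R k D : ℕ) (j y : ℤ) (hall : ∀ i, y - R ≤ i → i ≤ y → F i j)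
    (hk : (k0 : ℝ) * k + 1 ≤ η * R) :
    (1 / 2 : ℝ) * R ≤ mu F (η * R) (j - k) (y - ((D + 1 : ℕ) : ℤ) * R) (y + ((D + 1 : ℕ) : ℤ) * R) := by
  classical
  have hR0 : (0 : ℝ) ≤ R := Nat.cast_nonneg _
  have hsub : Icc ⌈(y : ℝ) - R + η * R⌉ y ⊆
      (Icc (y - ((D + 1 : ℕ) : ℤ) * R) (y + ((D + 1 : ℕ) : ℤ) * R)).filter
        (fun y' => Ngh F (η * R) (j - k) y') := by
    intro z hz
    rw [mem_Icc] at hz
    have hz1 : (y : ℝ) - R + η * R ≤ z := Int.ceil_le.1 hz.1
    have hDR : (0 : ℤ) ≤ (D : ℤ) * R := by positivity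
    have hRk : (0 : ℝ) ≤ (k0 : ℝ) * k := by positivity
    have hz2 : (y : ℤ) - R ≤ z := by
      have : ((y - R : ℤ) : ℝ) ≤ (z : ℝ) := by push_cast; linarith
      exact_mod_cast this
    rw [mem_filter, mem_Icc]
    refine ⟨⟨by push_cast; nlinarith, by push_cast; nlinarith [hz.2]⟩, ?_⟩
    set i : ℤ := ⌈(z : ℝ) - η * R⌉ with hi
    have hi1 : (z : ℝ) - η * R ≤ i := Int.le_ceil _
    have hi2 : (i : ℝ) < z - η * R + 1 := Int.ceil_lt_add_one _
    have hi3 : y - R ≤ i := by
      have : ((y - R : ℤ) : ℝ) ≤ (i : ℝ) := by push_cast; linarith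
      exact_mod_cast this
    have hi4 : i ≤ y := by
      have : (i : ℝ) < ((z : ℤ) : ℝ) + 1 := by linarith
      have h5 : i < z + 1 := by exact_mod_cast this
      omega
    obtain ⟨i', h1, h2, h3⟩ := hD i j (hall i hi3 hi4) k
    refine ⟨i', h3, ?_, ?_⟩
    · have : (i' : ℝ) < (z : ℝ) + 1 := by
        have h4 : (i' : ℝ) ≤ i + k0 * k + 1 := by exact_mod_cast h2
        linarith
      have h5 : i' < z + 1 := by exact_mod_cast this
      omega
    · have : (i : ℝ) ≤ i' := by exact_mod_cast h1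
      linarith
  have hc := Finset.card_le_card hsub
  rw [Int.card_Icc] at hc
  have h1 : (⌈(y : ℝ) - R + η * R⌉ : ℝ) < y - R + η * R + 1 := Int.ceil_lt_add_one _
  have h2 : ((y + 1 - ⌈(y : ℝ) - R + η * R⌉ : ℤ) : ℝ) ≤
      ((y + 1 - ⌈(y : ℝ) - R + η * R⌉).toNat : ℝ) := by
    exact_mod_cast Int.self_le_toNat _
  push_cast at h2
  have h3 : ((y + 1 - ⌈(y : ℝ) - R + η * R⌉).toNat : ℝ) ≤
      mu F (η * R) (j - k) (y - ((D + 1 : ℕ) : ℤ) * R) (y + ((D + 1 : ℕ) : ℤ) * R) := by
    unfold mu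
    exact_mod_cast hc
  have h4 : η * R ≤ 1 / 2 * R := mul_le_mul_of_nonneg_right hη hR0
  linarith

theorem point : J2 := by
  classical
  intro S D k0 hL hDown hWall δ hδ
  rcases le_or_gt 1 δ with hδ1 | hδ1
  · refine ⟨1, one_pos, fun η _ _ => ⟨0, fun R _ F _ J y s _ _ _ t _ => ?_⟩⟩
    have h1 := Finset.card_filter_le (range t) (fun k : ℕ => (s : ℝ) - k ≤ (1 - δ) * R ∧
          (mu F (η * R) (J + s - k) (y - ((D + 1 : ℕ) : ℤ) * R) (y + ((D + 1 : ℕ) : ℤ) * R) : ℝ)
            < 1 * R)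
    rw [card_range] at h1
    have h2 : (((range t).filter (fun k : ℕ => (s : ℝ) - k ≤ (1 - δ) * R ∧
          (mu F (η * R) (J + s - k) (y - ((D + 1 : ℕ) : ℤ) * R) (y + ((D + 1 : ℕ) : ℤ) * R) : ℝ)
            < 1 * R)).card : ℝ) ≤ t := by exact_mod_cast h1
    have h3 : (t : ℝ) ≤ δ * t := le_mul_of_one_le_left (Nat.cast_nonneg _) hδ1
    exact h2.trans h3
  obtain ⟨c1, hc1, hL1⟩ := hL (δ / 2) (by positivity)
  have hDD : (0 : ℝ) < 4 * D + 2 := by positivity
  refine ⟨min (1 / 2) (min (c1 * δ) (c1 / (4 * D + 2))), by positivity, ?_⟩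
  set c := min (1 / 2) (min (c1 * δ) (c1 / (4 * D + 2))) with hc
  have hc_half : c ≤ 1 / 2 := min_le_left _ _
  have hc_A : c ≤ c1 * δ := (min_le_right _ _).trans (min_le_left _ _)
  have hc_B : c ≤ c1 / (4 * D + 2) := (min_le_right _ _).trans (min_le_right _ _)
  intro η hη hη2
  obtain ⟨T0, hT0⟩ := hL1 η hη
  refine ⟨max ⌈(T0 : ℝ) / δ⌉₊ ⌈((k0 : ℝ) * T0 + 1) / η⌉₊, ?_⟩
  intro R hR F hF J y s hs hN hN' t ht
  have hR1 : (T0 : ℝ) ≤ δ * R := by
    have h1 : (T0 : ℝ) / δ ≤ R := (Nat.le_ceil _).trans (by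
      exact_mod_cast (le_max_left _ _).trans hR)
    rw [div_le_iff₀ hδ] at h1
    linarith
  have hR2 : (k0 : ℝ) * T0 + 1 ≤ η * R := by
    have h1 : ((k0 : ℝ) * T0 + 1) / η ≤ R := (Nat.le_ceil _).trans (by
      exact_mod_cast (le_max_right _ _).trans hR)
    rw [div_le_iff₀ hη] at h1
    linarith
  have hR0 : (0 : ℝ) ≤ R := Nat.cast_nonneg _
  have htR : t ≤ R := by omega
  have htR' : (t : ℝ) ≤ R := by exact_mod_cast htR
  have hηtR : η * t ≤ η * R := mul_le_mul_of_nonneg_left htR' hη.le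
  have hDtR : (D : ℤ) * t ≤ D * R :=
    mul_le_mul_of_nonneg_left (by exact_mod_cast htR) (Nat.cast_nonneg _)
  obtain ⟨i, hi, hiy, hyi⟩ := hN
  have hyi' : y ≤ i + R := by exact_mod_cast hyi
  rcases Nat.lt_or_ge (s + 1) R with hsR | hsR
  · -- below a wall
    have hnb := hN' hsR
    have hall : ∀ i, y - R ≤ i → i ≤ y → F i (J + s) := by
      refine hWall F hF (y - R) y (J + s) ?_ ⟨i, by omega, hiy, hi⟩
      intro i' h1 h2 h3
      refine hnb ⟨i', h3, h2, ?_⟩
      have : (y : ℤ) ≤ i' + R := by omega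
      exact_mod_cast this
    rcases le_or_gt ((k0 : ℝ) * t + 1) (η * R) with hkt | hkt
    · -- no bad lines
      have hempty : (range t).filter (fun k : ℕ => (s : ℝ) - k ≤ (1 - δ) * R ∧
          (mu F (η * R) (J + s - k) (y - ((D + 1 : ℕ) : ℤ) * R) (y + ((D + 1 : ℕ) : ℤ) * R) : ℝ)
            < c * R) = ∅ := by
        rw [Finset.filter_eq_empty_iff]
        rintro k hk ⟨_, h2⟩
        rw [mem_range] at hk
        have h3 : (k0 : ℝ) * k + 1 ≤ η * R := by
          refine le_trans ?_ hkt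
          have : (k : ℝ) ≤ t := by exact_mod_cast hk.le
          gcongr
        have h4 := wall_mu F k0 (hDown F hF) η hη2 R k D (J + s) y hall h3
        have h5 : c * R ≤ 1 / 2 * R := mul_le_mul_of_nonneg_right hc_half hR0
        linarith
      rw [hempty, Finset.card_empty, Nat.cast_zero]
      positivity
    · have hk0t : k0 * T0 < k0 * t := by
        have : (k0 : ℝ) * T0 < k0 * t := by linarith
        exact_mod_cast this
      have hTt : T0 < t := lt_of_mul_lt_mul_left hk0t (Nat.zero_le _)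
      have ht0 : 0 < t := by omega
      have ht0' : (1 : ℝ) ≤ t := by exact_mod_cast ht0
      set Bd := (range t).filter (fun k : ℕ => (s : ℝ) - k ≤ (1 - δ) * R ∧
          (mu F (η * R) (J + s - k) (y - ((D + 1 : ℕ) : ℤ) * R) (y + ((D + 1 : ℕ) : ℤ) * R) : ℝ)
            < c * R) with hBd
      have hcardI : (Icc (y - R : ℤ) y).card = R + 1 := by
        rw [Int.card_Icc]; omega
      -- for the bad lines more than half of the columns are bad
      have hbad : ∀ k ∈ Bd, ((R : ℝ) + 1) / 2 ≤ (((Icc (y - R : ℤ) y).filter (fun i =>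
          (mu F (η * t) (J + s - k) (i - D * t) (i + D * t) : ℝ) < c1 * t)).card : ℝ) := by
        intro k hk
        rw [hBd, mem_filter] at hk
        by_contra hlt
        rw [not_le] at hlt
        have hgood : ((R : ℝ) + 1) / 2 ≤ (((Icc (y - R : ℤ) y).filter (fun i =>
          ¬ (mu F (η * t) (J + s - k) (i - D * t) (i + D * t) : ℝ) < c1 * t)).card : ℝ) := by
          have h1 := Finset.card_filter_add_card_filter_not (s := Icc (y - R : ℤ) y) (fun i =>
            (mu F (η * t) (J + s - k) (i - D * t) (i + D * t) : ℝ) < c1 * t)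
          rw [hcardI] at h1
          have h2 : (((Icc (y - R : ℤ) y).filter (fun i =>
            (mu F (η * t) (J + s - k) (i - D * t) (i + D * t) : ℝ) < c1 * t)).card : ℝ) +
            (((Icc (y - R : ℤ) y).filter (fun i =>
            ¬ (mu F (η * t) (J + s - k) (i - D * t) (i + D * t) : ℝ) < c1 * t)).card : ℝ) =
            R + 1 := by exact_mod_cast h1
          linarith
        have hsum : ((R : ℝ) + 1) / 2 * (c1 * t) ≤
            ∑ i ∈ Icc (y - R : ℤ) y, (mu F (η * t) (J + s - k) (i - D * t) (i + D * t) : ℝ) := by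
          calc ((R : ℝ) + 1) / 2 * (c1 * t) ≤ (((Icc (y - R : ℤ) y).filter (fun i =>
              ¬ (mu F (η * t) (J + s - k) (i - D * t) (i + D * t) : ℝ) < c1 * t)).card : ℝ) *
                (c1 * t) := mul_le_mul_of_nonneg_right hgood (by positivity)
            _ = ∑ _i ∈ (Icc (y - R : ℤ) y).filter (fun i =>
              ¬ (mu F (η * t) (J + s - k) (i - D * t) (i + D * t) : ℝ) < c1 * t), (c1 * t) := by
                rw [Finset.sum_const, nsmul_eq_mul]
            _ ≤ ∑ i ∈ (Icc (y - R : ℤ) y).filter (fun i =>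
              ¬ (mu F (η * t) (J + s - k) (i - D * t) (i + D * t) : ℝ) < c1 * t),
                (mu F (η * t) (J + s - k) (i - D * t) (i + D * t) : ℝ) := by
                refine Finset.sum_le_sum fun i hi => ?_
                rw [mem_filter, not_lt] at hi
                exact hi.2
            _ ≤ _ := Finset.sum_le_sum_of_subset_of_nonneg (Finset.filter_subset _ _)
                (fun _ _ _ => Nat.cast_nonneg _)
        have hle := sum_mu F hηtR (J + s - k) y (y - ((D + 1 : ℕ) : ℤ) * R)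
          (y + ((D + 1 : ℕ) : ℤ) * R) R D t (by push_cast; nlinarith) (by
            push_cast
            have : (0 : ℤ) ≤ R := Nat.cast_nonneg _
            nlinarith)
        have hle' : ∑ i ∈ Icc (y - R : ℤ) y,
            (mu F (η * t) (J + s - k) (i - D * t) (i + D * t) : ℝ) ≤
            (2 * (D * t) + 1) * (mu F (η * R) (J + s - k) (y - ((D + 1 : ℕ) : ℤ) * R)
              (y + ((D + 1 : ℕ) : ℤ) * R) : ℝ) := by exact_mod_cast hle
        have hm := hk.2.2
        have h5 : ((R : ℝ) + 1) / 2 * (c1 * t) < (2 * (D * t) + 1) * (c * R) := by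
          have hp : (0 : ℝ) < 2 * (D * t) + 1 := by positivity
          calc _ ≤ _ := hsum.trans hle'
            _ < _ := mul_lt_mul_of_pos_left hm hp
        have h6 : (2 * (D * t) + 1) * (c * R) ≤ (2 * (D * t) + 1) * (c1 / (4 * D + 2) * R) := by
          gcongr
        have h7 : (2 * ((D : ℝ) * t) + 1) * (c1 / (4 * D + 2) * R) ≤ R / 2 * (c1 * t) := by
          have h8 : (2 * ((D : ℝ) * t) + 1) ≤ (2 * D + 1) * t := by nlinarith
          calc (2 * ((D : ℝ) * t) + 1) * (c1 / (4 * D + 2) * R) ≤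
              ((2 * D + 1) * t) * (c1 / (4 * D + 2) * R) :=
                mul_le_mul_of_nonneg_right h8 (by positivity)
            _ = R / 2 * (c1 * t) := by
                field_simp
                ring
        have h9 : (0 : ℝ) < 1 / 2 * (c1 * t) := by positivity
        linarith
      -- double counting
      have hline : ∀ i ∈ Icc (y - R : ℤ) y, (((range t).filter (fun k : ℕ =>
          (mu F (η * t) (J + s - k) (i - D * t) (i + D * t) : ℝ) < c1 * t)).card : ℝ) ≤
            δ / 2 * t := by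
        intro i hi
        rw [mem_Icc] at hi
        have := hT0 t hTt.le F hF i (J + s) (hall i hi.1 hi.2)
        convert this
      have hdc := dc (range t) (Icc (y - R : ℤ) y) (fun k i =>
        (mu F (η * t) (J + s - k) (i - D * t) (i + D * t) : ℝ) < c1 * t)
      have htot : ∑ k ∈ range t, (((Icc (y - R : ℤ) y).filter (fun i =>
          (mu F (η * t) (J + s - k) (i - D * t) (i + D * t) : ℝ) < c1 * t)).card : ℝ) ≤
            (R + 1) * (δ / 2 * t) := by
        calc _ = ∑ i ∈ Icc (y - R : ℤ) y, (((range t).filter (fun k : ℕ =>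
          (mu F (η * t) (J + s - k) (i - D * t) (i + D * t) : ℝ) < c1 * t)).card : ℝ) := by
              exact_mod_cast hdc
          _ ≤ ∑ _i ∈ Icc (y - R : ℤ) y, (δ / 2 * t) := Finset.sum_le_sum hline
          _ = (R + 1) * (δ / 2 * t) := by
              rw [Finset.sum_const, hcardI, nsmul_eq_mul]
              push_cast
              ring
      have hlow : (Bd.card : ℝ) * (((R : ℝ) + 1) / 2) ≤
          ∑ k ∈ range t, (((Icc (y - R : ℤ) y).filter (fun i =>
          (mu F (η * t) (J + s - k) (i - D * t) (i + D * t) : ℝ) < c1 * t)).card : ℝ) := by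
        calc (Bd.card : ℝ) * (((R : ℝ) + 1) / 2) = ∑ _k ∈ Bd, (((R : ℝ) + 1) / 2) := by
              rw [Finset.sum_const, nsmul_eq_mul]
          _ ≤ ∑ k ∈ Bd, (((Icc (y - R : ℤ) y).filter (fun i =>
          (mu F (η * t) (J + s - k) (i - D * t) (i + D * t) : ℝ) < c1 * t)).card : ℝ) :=
              Finset.sum_le_sum hbad
          _ ≤ _ := Finset.sum_le_sum_of_subset_of_nonneg (Finset.filter_subset _ _)
                (fun _ _ _ => Nat.cast_nonneg _)
      have hfin := hlow.trans htot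
      have hRp : (0 : ℝ) < R + 1 := by positivity
      have h10 : (Bd.card : ℝ) * ((R : ℝ) + 1) ≤ δ * t * (R + 1) := by linarith
      exact le_of_mul_le_mul_right h10 hRp
  · -- the top of the strip
    have hsR' : s + 1 = R := by omega
    rcases le_or_gt (δ * R) t with htδ | htδ
    · have hTt : T0 ≤ t := by
        have : (T0 : ℝ) ≤ t := hR1.trans htδ
        exact_mod_cast this
      have h1 := hT0 t hTt F hF i (J + s) hi
      have hsub : (range t).filter (fun k : ℕ => (s : ℝ) - k ≤ (1 - δ) * R ∧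
          (mu F (η * R) (J + s - k) (y - ((D + 1 : ℕ) : ℤ) * R) (y + ((D + 1 : ℕ) : ℤ) * R) : ℝ)
            < c * R) ⊆ (range t).filter (fun k : ℕ =>
          (mu F (η * t) (J + s - k) (i - D * t) (i + D * t) : ℝ) < c1 * t) := by
        intro k hk
        rw [mem_filter] at hk ⊢
        refine ⟨hk.1, ?_⟩
        have h2 := mu_mono F (ρ := η * t) (ρ' := η * R) (J + s - k) (a := i - D * t)
          (b := i + D * t) (a' := y - ((D + 1 : ℕ) : ℤ) * R) (b' := y + ((D + 1 : ℕ) : ℤ) * R)
          hηtR (by push_cast; nlinarith) (by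
            push_cast
            have : (0 : ℤ) ≤ R := Nat.cast_nonneg _
            nlinarith)
        have h3 : (mu F (η * t) (J + s - k) (i - D * t) (i + D * t) : ℝ) ≤
          (mu F (η * R) (J + s - k) (y - ((D + 1 : ℕ) : ℤ) * R) (y + ((D + 1 : ℕ) : ℤ) * R) : ℝ) :=
          by exact_mod_cast h2
        have h4 : c * R ≤ c1 * δ * R := mul_le_mul_of_nonneg_right hc_A hR0
        have h5 : c1 * (δ * R) ≤ c1 * t := mul_le_mul_of_nonneg_left htδ hc1.le
        linarith [hk.2.2]
      have h6 : (((range t).filter (fun k : ℕ => (s : ℝ) - k ≤ (1 - δ) * R ∧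
          (mu F (η * R) (J + s - k) (y - ((D + 1 : ℕ) : ℤ) * R) (y + ((D + 1 : ℕ) : ℤ) * R) : ℝ)
            < c * R)).card : ℝ) ≤ (((range t).filter (fun k : ℕ =>
          (mu F (η * t) (J + s - k) (i - D * t) (i + D * t) : ℝ) < c1 * t)).card : ℝ) := by
        exact_mod_cast Finset.card_le_card hsub
      have h7 : (((range t).filter (fun k : ℕ =>
          (mu F (η * t) (J + s - k) (i - D * t) (i + D * t) : ℝ) < c1 * t)).card : ℝ) ≤
            δ / 2 * t := by
        convert h1
      have h8 : δ / 2 * t ≤ δ * t := by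
        have : (0 : ℝ) ≤ δ * t := by positivity
        linarith
      exact h6.trans (h7.trans h8)
    · have hempty : (range t).filter (fun k : ℕ => (s : ℝ) - k ≤ (1 - δ) * R ∧
          (mu F (η * R) (J + s - k) (y - ((D + 1 : ℕ) : ℤ) * R) (y + ((D + 1 : ℕ) : ℤ) * R) : ℝ)
            < c * R) = ∅ := by
        rw [Finset.filter_eq_empty_iff]
        rintro k hk ⟨h1, _⟩
        rw [mem_range] at hk
        have h2 : (k : ℝ) + 1 ≤ t := by exact_mod_cast hk
        have h3 : (s : ℝ) + 1 = R := by exact_mod_cast hsR'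
        linarith
      rw [hempty, Finset.card_empty, Nat.cast_zero]
      positivity

end Pool.Agent.TH461.AL.Pt
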