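import Mathlib
import Pool.Agent.TH461.AL.Geo
import Pool.Agent.TH461.AL.Pt
import Pool.Agent.TH461.AL.Lev
import Pool.Agent.TH461.AL.Mul
import Pool.Agent.TH461.AL.Dn
import Pool.Agent.TH461.AL.Lin
import Pool.Agent.TH461.SST.Main

/-!
Project AL: almost all lines of the orbit `θ p^i q^j` contain many far cells (`p, q` coprime).
-/

set_option autoImplicit false

open Finset Filter Topology

namespace Pool.Agent.TH461.AL

/-- **Almost all lines.** -/
theorem main {p q : ℕ} (hp : 2 ≤ p) (hq : 2 ≤ q) (hpq : Nat.Coprime p q) {r : ℝ} (hr : 0 < r)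
    (hrp : ((p : ℝ) + 1) * r ≤ 1) (hrq : ((q : ℝ) + 1) * r ≤ 1) :
    ∃ D : ℕ, MultiProp {F | ∃ θ : ℝ, F = Fa p q r θ} D := by
  have hdn := Dn.down p q hp hq hpq r hr hrp hrq
  obtain ⟨D, hD⟩ := Lin.line p q hp hq hpq r hr hrp hrq Geo.geo
    (Pool.Agent.TH461.SST.Main.cluster hp hq hpq) (fun θ => (hdn θ).1)
  have h1 : PointProp {F | ∃ θ : ℝ, F = Fa p q r θ} (D + 1) := by
    refine Pt.point _ D ⌈Real.log q / Real.log p⌉₊ hD ?_ ?_
    · rintro F ⟨θ, rfl⟩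
      exact (hdn θ).1
    · rintro F ⟨θ, rfl⟩
      exact (hdn θ).2
  exact ⟨_, Mul.multi _ _ (Lev.level _ _ h1)⟩

end Pool.Agent.TH461.AL
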