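import Mathlib
import Pool.Agent.TH461.AL.Stms2
import Pool.Agent.TH461.AL.Main

/-!
Project AL: almost all lines of the orbit `θ p^i q^j` contain many cells in an open set `U`, as soon
as they contain a far cell of `N θ`.
-/

set_option autoImplicit false

open Finset Filter Topology

namespace Pool.Agent.TH461.AL.Core

open Pool.Agent.TH461.AL
open Pool.Agent.H706R2 (dZ)

open Classical in
lemma mu_ge (F : ℤ → ℤ → Prop) {R : ℝ} (hR : 0 ≤ R) (j a b : ℤ) :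
    ((Icc a b).filter (fun i => F i j)).card ≤ mu F R j a b := by
  unfold mu
  apply Finset.card_le_card
  intro y hy
  rw [Finset.mem_filter] at hy ⊢
  exact ⟨hy.1, y, hy.2, le_rfl, by linarith⟩

/-- sizes -/
lemma sizes (C0 H D2 : ℕ) {ε : ℝ} (hε : 0 < ε) (hε1 : ε ≤ 1) :
    ∀ᶠ M : ℕ in atTop, 1 ≤ M ∧ ((⌈(M : ℝ) ^ (ε / 3)⌉₊ : ℕ) : ℝ) ≤ M ∧
      C0 * (1 + Nat.log 2 (H * M)) ≤ ⌈(M : ℝ) ^ (ε / 3)⌉₊ ∧
      (8 * D2 + 16 : ℝ) * ((⌈(M : ℝ) ^ (ε / 3)⌉₊ : ℕ) : ℝ) * (M : ℝ) ^ (1 - ε) ≤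
        (M : ℝ) ^ (1 - ε / 3) := by
  have hcast := tendsto_natCast_atTop_atTop (R := ℝ)
  have ht := (tendsto_rpow_atTop (by linarith : 0 < ε / 3)).comp hcast
  -- logarithms
  have hlog : ∀ᶠ M : ℕ in atTop, (C0 : ℝ) * (1 + (Real.log (H * M + 1)) / Real.log 2) ≤
      (M : ℝ) ^ (ε / 3) := by
    have h1 : Tendsto (fun x : ℝ => Real.log x / x ^ (ε / 3)) atTop (𝓝 0) :=
      (isLittleO_log_rpow_atTop (by linarith)).tendsto_div_nhds_zero
    have h2 := (h1.comp hcast).const_mul ((C0 : ℝ) / Real.log 2)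
    have h3 := (ht.inv_tendsto_atTop).const_mul
      ((C0 : ℝ) * (1 + Real.log (H + 1) / Real.log 2))
    rw [mul_zero] at h2 h3
    have h4 := h2.add h3
    rw [add_zero] at h4
    filter_upwards [h4.eventually (gt_mem_nhds one_pos), eventually_ge_atTop 1] with M hM hM1
    have hMR : (1 : ℝ) ≤ M := by exact_mod_cast hM1
    have hM0 : (0 : ℝ) < M := by linarith
    have hP : 0 < (M : ℝ) ^ (ε / 3) := Real.rpow_pos_of_pos hM0 _
    have hl2 : 0 < Real.log 2 := Real.log_pos (by norm_num)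
    simp only [Function.comp, Pi.inv_apply] at hM
    have h5 : Real.log (H * M + 1) ≤ Real.log (H + 1) + Real.log M := by
      rw [← Real.log_mul (by positivity) (by positivity)]
      apply Real.log_le_log (by positivity)
      nlinarith [Nat.cast_nonneg (α := ℝ) H]
    have h6 : (C0 : ℝ) * (1 + (Real.log (H * M + 1)) / Real.log 2) ≤
        (C0 : ℝ) / Real.log 2 * Real.log M + (C0 : ℝ) * (1 + Real.log (H + 1) / Real.log 2) := by
      have h7 : (Real.log (H * M + 1)) / Real.log 2 ≤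
          Real.log (H + 1) / Real.log 2 + Real.log M / Real.log 2 := by
        rw [← add_div]
        exact div_le_div_of_nonneg_right h5 hl2.le
      have h8 := mul_le_mul_of_nonneg_left h7 (Nat.cast_nonneg (α := ℝ) C0)
      have e : (C0 : ℝ) / Real.log 2 * Real.log M = C0 * (Real.log M / Real.log 2) := by ring
      rw [e]
      linarith
    refine h6.trans ?_
    have h9 : (C0 : ℝ) / Real.log 2 * Real.log M +
        (C0 : ℝ) * (1 + Real.log (H + 1) / Real.log 2) =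
        ((C0 : ℝ) / Real.log 2 * (Real.log M / (M : ℝ) ^ (ε / 3)) +
          (C0 : ℝ) * (1 + Real.log (H + 1) / Real.log 2) * ((M : ℝ) ^ (ε / 3))⁻¹) *
            (M : ℝ) ^ (ε / 3) := by
      field_simp
    rw [h9]
    nlinarith
  filter_upwards [hlog, ht.eventually_ge_atTop ((8 * D2 + 16) * 2), eventually_ge_atTop 2]
    with M h1 h2 h3
  have hMR : (2 : ℝ) ≤ M := by exact_mod_cast h3
  have hM0 : (0 : ℝ) < M := by linarith
  have hP1 : (1 : ℝ) ≤ (M : ℝ) ^ (ε / 3) := Real.one_le_rpow (by linarith) (by linarith)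
  have hPM : (M : ℝ) ^ (ε / 3) ≤ M := by
    calc (M : ℝ) ^ (ε / 3) ≤ (M : ℝ) ^ (1 : ℝ) :=
          Real.rpow_le_rpow_of_exponent_le (by linarith) (by linarith)
      _ = M := Real.rpow_one _
  have hceil : ((⌈(M : ℝ) ^ (ε / 3)⌉₊ : ℕ) : ℝ) ≤ 2 * (M : ℝ) ^ (ε / 3) := by
    have := (Nat.ceil_lt_add_one (by positivity : 0 ≤ (M : ℝ) ^ (ε / 3))).le
    linarith
  refine ⟨by omega, ?_, ?_, ?_⟩
  · exact_mod_cast Nat.ceil_le.2 hPM
  · rw [← Nat.cast_le (α := ℝ)]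
    refine le_trans ?_ (h1.trans (Nat.le_ceil _))
    push_cast
    apply mul_le_mul_of_nonneg_left _ (Nat.cast_nonneg _)
    have hl2 : 0 < Real.log 2 := Real.log_pos (by norm_num)
    have h4 : ((Nat.log 2 (H * M) : ℕ) : ℝ) ≤ Real.log (H * M + 1) / Real.log 2 := by
      rw [le_div_iff₀ hl2, ← Real.log_pow]
      rcases Nat.eq_zero_or_pos (H * M) with h0 | h0
      · rw [h0]
        simp only [Nat.log_zero_right, pow_zero, Real.log_one]
        exact Real.log_nonneg (by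
          have : (0 : ℝ) ≤ (H : ℝ) * M := by positivity
          linarith)
      · apply Real.log_le_log (by positivity)
        have h5 : 2 ^ Nat.log 2 (H * M) ≤ H * M := Nat.pow_log_le_self 2 (by omega)
        have h6 : ((2 ^ Nat.log 2 (H * M) : ℕ) : ℝ) ≤ ((H * M : ℕ) : ℝ) := by exact_mod_cast h5
        push_cast at h6
        linarith
    linarith
  · have h4 : 2 * (8 * (D2 : ℝ) + 16) ≤ (M : ℝ) ^ (ε / 3) := by
      have : (8 * (D2 : ℝ) + 16) * 2 ≤ (M : ℝ) ^ (ε / 3) := h2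
      linarith
    have e : (M : ℝ) ^ (1 - ε / 3) =
        (M : ℝ) ^ (ε / 3) * ((M : ℝ) ^ (ε / 3) * (M : ℝ) ^ (1 - ε)) := by
      rw [← Real.rpow_add hM0, ← Real.rpow_add hM0]
      ring_nf
    have h5 : 0 < (M : ℝ) ^ (1 - ε) := Real.rpow_pos_of_pos hM0 _
    rw [e]
    calc (8 * D2 + 16 : ℝ) * ((⌈(M : ℝ) ^ (ε / 3)⌉₊ : ℕ) : ℝ) * (M : ℝ) ^ (1 - ε) ≤
          (8 * D2 + 16 : ℝ) * (2 * (M : ℝ) ^ (ε / 3)) * (M : ℝ) ^ (1 - ε) := by gcongr
      _ = (2 * (8 * (D2 : ℝ) + 16)) * ((M : ℝ) ^ (ε / 3) * (M : ℝ) ^ (1 - ε)) := by ring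
      _ ≤ _ := by
          apply mul_le_mul_of_nonneg_right h4 (by positivity)

open Classical in
/-- **Core**: cells in `U` on almost all lines -/
theorem core (h7 : J7) (h8 : J8) {p q : ℕ} (hp : 2 ≤ p) (hq : 2 ≤ q) (hpq : Nat.Coprime p q)
    {r : ℝ} (hr : 0 < r) (hrp : ((p : ℝ) + 1) * r ≤ 1) (hrq : ((q : ℝ) + 1) * r ≤ 1) :
    ∃ D : ℕ, ∀ (U : Set UnitAddCircle) (_ : IsOpen U) (_ : U.Nonempty) (ε δ : ℝ) (_ : 0 < ε)
      (_ : 0 < δ), ∃ N : ℕ, 1 ≤ N ∧ ∀ H : ℕ, ∃ M0 : ℕ, ∀ M : ℕ, M0 ≤ M → ∀ (θ : ℝ) (J a b : ℤ),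
        b - a ≤ H * M →
        (∀ t : ℕ, t < M → ∃ i : ℤ, a ≤ i ∧ i ≤ b ∧ Fa p q r (N * θ) i (J + t)) →
          (((range M).filter (fun t : ℕ =>
            (((Icc (a - D * M) (b + D * M)).filter (fun i : ℤ =>
              ((θ * (p : ℝ) ^ i * (q : ℝ) ^ (J + t) : ℝ) : UnitAddCircle) ∈ U)).card : ℝ) <
                (M : ℝ) ^ (1 - ε))).card : ℝ) ≤ δ * M := by
  obtain ⟨D1, hD1⟩ := main hp hq hpq hr hrp hrq
  set D2 : ℕ := ⌈Real.log q / Real.log p⌉₊ + 1 with hD2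
  refine ⟨D1 + D2 + 1, fun U hU hUne ε' δ hε' hδ => ?_⟩
  set ε : ℝ := min ε' 1 with hεdef
  have hε : 0 < ε := lt_min hε' one_pos
  have hε1 : ε ≤ 1 := min_le_right _ _
  obtain ⟨N, hN1, T1, hN⟩ := h7 p q hp hq hpq r hr U hU hUne (δ / 20) (by positivity)
  refine ⟨N, hN1, fun H => ?_⟩
  obtain ⟨C0, hC0⟩ := h8 D2 T1 (δ / 20) (by positivity)
  obtain ⟨M1, hM1⟩ := hD1 (ε / 3) (by positivity) (δ / 2) (by positivity)
  obtain ⟨M2, hM2⟩ := eventually_atTop.1 (sizes C0 (H + 2 * D1) D2 hε hε1)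
  refine ⟨max M1 M2, fun M hM θ J a b hab hfar => ?_⟩
  obtain ⟨hM1', hRM, hlog, hsz⟩ := hM2 M ((le_max_right _ _).trans hM)
  have hMR : (1 : ℝ) ≤ M := by exact_mod_cast hM1'
  have hM0 : (0 : ℝ) < M := by linarith
  set R : ℕ := ⌈(M : ℝ) ^ (ε / 3)⌉₊ with hR
  have hR1 : 1 ≤ R := by
    rw [hR]
    exact Nat.one_le_iff_ne_zero.2 (Nat.ceil_pos.2 (Real.rpow_pos_of_pos hM0 _)).ne'
  have hR0 : (0 : ℝ) < R := by exact_mod_cast hR1
  set F : ℤ → ℤ → Prop := Fa p q r (N * θ) with hF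
  set G : ℤ → ℤ → Prop := fun i j =>
    ((θ * (p : ℝ) ^ i * (q : ℝ) ^ j : ℝ) : UnitAddCircle) ∈ U with hG
  have hpne : (p : ℝ) ≠ 0 := by positivity
  have hqne : (q : ℝ) ≠ 0 := by positivity
  -- the hypothesis of `J8`
  have hFG : ∀ T : ℕ, T1 ≤ T → ∀ i j : ℤ, F i j →
      (((range T).filter (fun t : ℕ =>
        ¬ ∃ i' : ℤ, i - D2 * T ≤ i' ∧ i' ≤ i + D2 * T ∧ G i' (j - t))).card : ℝ) ≤
          δ / 20 * T := by
    intro T hT i j hij
    have h1 := hN T hT (θ * (p : ℝ) ^ i * (q : ℝ) ^ j) (by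
      have h2 : r ≤ dZ (N * θ * (p : ℝ) ^ i * (q : ℝ) ^ j) := hij
      have e : (N : ℝ) * (θ * (p : ℝ) ^ i * (q : ℝ) ^ j) = N * θ * (p : ℝ) ^ i * (q : ℝ) ^ j := by
        ring
      rw [e]
      exact h2)
    refine le_trans ?_ h1
    apply Nat.cast_le.2
    apply Finset.card_le_card
    intro t ht
    rw [Finset.mem_filter] at ht ⊢
    refine ⟨ht.1, fun k hk hkU => ht.2 ⟨i + k, ?_, ?_, ?_⟩⟩
    · have h3 : (0 : ℤ) ≤ (D2 : ℤ) * T := by positivity
      have h4 : (0 : ℤ) ≤ (k : ℤ) := Int.natCast_nonneg _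
      linarith
    · have h3 : (k : ℤ) ≤ (D2 : ℤ) * T := by exact_mod_cast hk
      linarith
    · simp only [hG]
      have e : θ * (p : ℝ) ^ (i + (k : ℤ)) * (q : ℝ) ^ (j - (t : ℤ)) =
          θ * (p : ℝ) ^ i * (q : ℝ) ^ j * (p : ℝ) ^ k / (q : ℝ) ^ t := by
        rw [zpow_add₀ hpne, zpow_sub₀ hqne, zpow_natCast, zpow_natCast]
        ring
      rw [e]
      exact hkU
  -- far cells
  set a' : ℤ := a - D1 * M with ha'
  set b' : ℤ := b + D1 * M with hb'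
  have h1 := hM1 M ((le_max_left _ _).trans hM) F ⟨N * θ, rfl⟩ J a b hfar
  -- the strips
  set L : ℕ := M / R + 1 with hL
  set Bad : ℕ → Finset ℕ := fun u => (range R).filter (fun t : ℕ =>
      (8 * D2 + 16) * R * ((Icc (a' - (D2 + 1) * R) (b' + (D2 + 1) * R)).filter
        (fun i => G i ((J + (u * R : ℕ)) + t))).card < mu F R ((J + (u * R : ℕ)) + t) a' b') with hBad
  have hBadc : ∀ u, ((Bad u).card : ℝ) ≤ 5 * (δ / 20) * R := by
    intro u
    refine hC0 F G hFG R (J + (u * R : ℕ)) a' b' ?_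
    refine le_trans (Nat.mul_le_mul_left _ (Nat.add_le_add_left (Nat.log_mono_right ?_) _)) hlog
    rw [Int.toNat_le]
    push_cast
    rw [ha', hb']
    linarith
  have hsub : (range M).filter (fun t : ℕ =>
      (((Icc (a - (D1 + D2 + 1 : ℕ) * M) (b + (D1 + D2 + 1 : ℕ) * M)).filter (fun i : ℤ =>
        ((θ * (p : ℝ) ^ i * (q : ℝ) ^ (J + t) : ℝ) : UnitAddCircle) ∈ U)).card : ℝ) <
          (M : ℝ) ^ (1 - ε')) ⊆
      ((range M).filter (fun t : ℕ =>
        (((Icc (a - D1 * M) (b + D1 * M)).filter (fun i => F i (J + t))).card : ℝ)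
          < (M : ℝ) ^ (1 - ε / 3))) ∪
      (range L).biUnion (fun u => (Bad u).image (fun v => u * R + v)) := by
    intro t ht
    rw [Finset.mem_filter, Finset.mem_range] at ht
    obtain ⟨htM, ht2⟩ := ht
    rw [Finset.mem_union]
    by_cases hfew : (((Icc (a - D1 * M) (b + D1 * M)).filter (fun i => F i (J + t))).card : ℝ)
          < (M : ℝ) ^ (1 - ε / 3)
    · left
      rw [Finset.mem_filter, Finset.mem_range]
      exact ⟨htM, hfew⟩
    right
    push Not at hfew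
    rw [Finset.mem_biUnion]
    have hdiv : t / R * R + t % R = t := Nat.div_add_mod' t R
    have hmod : t % R < R := Nat.mod_lt _ (by omega)
    refine ⟨t / R, ?_, ?_⟩
    · rw [Finset.mem_range, hL]
      have := Nat.div_le_div_right (c := R) htM.le
      omega
    rw [Finset.mem_image]
    refine ⟨t % R, ?_, hdiv⟩
    rw [hBad]
    simp only
    rw [Finset.mem_filter, Finset.mem_range]
    refine ⟨hmod, ?_⟩
    have eJ : J + ((t / R * R : ℕ) : ℤ) + ((t % R : ℕ) : ℤ) = J + t := by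
      rw [add_assoc, ← Nat.cast_add, hdiv]
    rw [eJ]
    rw [← Nat.cast_lt (α := ℝ)]
    push_cast
    have h2 := mu_ge F hR0.le (J + t) a' b'
    have h3 : (M : ℝ) ^ (1 - ε / 3) ≤ (mu F R (J + t) a' b' : ℝ) :=
      hfew.trans (by exact_mod_cast h2)
    refine lt_of_lt_of_le ?_ (hsz.trans h3)
    have h4 : (((Icc (a' - (D2 + 1) * R) (b' + (D2 + 1) * R)).filter
        (fun i => G i (J + t))).card : ℝ) < (M : ℝ) ^ (1 - ε) := by
      have h5 : (M : ℝ) ^ (1 - ε') ≤ (M : ℝ) ^ (1 - ε) :=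
        Real.rpow_le_rpow_of_exponent_le hMR (by have := min_le_left ε' 1; linarith)
      refine lt_of_le_of_lt ?_ (lt_of_lt_of_le ht2 h5)
      apply Nat.cast_le.2
      apply Finset.card_le_card
      apply Finset.filter_subset_filter
      have hRMi : (R : ℤ) ≤ M := by exact_mod_cast hRM
      have hD20 : (0 : ℤ) ≤ (D2 : ℤ) + 1 := by positivity
      have h6 : ((D2 : ℤ) + 1) * R ≤ ((D2 : ℤ) + 1) * M := mul_le_mul_of_nonneg_left hRMi hD20
      apply Finset.Icc_subset_Icc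
      · rw [ha']; push_cast; linarith
      · rw [hb']; push_cast; linarith
    have h7 : (0 : ℝ) < (8 * (D2 : ℝ) + 16) * R := by positivity
    exact mul_lt_mul_of_pos_left h4 h7
  have hcard := Finset.card_le_card hsub
  have h2 : (((range L).biUnion (fun u => (Bad u).image (fun v => u * R + v))).card : ℝ) ≤
      L * (5 * (δ / 20) * R) := by
    refine le_trans (Nat.cast_le.2 Finset.card_biUnion_le) ?_
    rw [Nat.cast_sum]
    refine (Finset.sum_le_sum (g := fun _ => 5 * (δ / 20) * (R : ℝ)) fun u _ => ?_).trans ?_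
    · exact le_trans (Nat.cast_le.2 Finset.card_image_le) (hBadc u)
    · rw [Finset.sum_const, Finset.card_range, nsmul_eq_mul]
  have h3 : (L : ℝ) * R ≤ 2 * M := by
    have h4 : ((M / R : ℕ) : ℝ) * R ≤ M := by exact_mod_cast Nat.div_mul_le_self M R
    rw [hL]
    push_cast
    linarith
  refine le_trans (Nat.cast_le.2 hcard) ?_
  refine le_trans (Nat.cast_le.2 (Finset.card_union_le _ _)) ?_
  rw [Nat.cast_add]
  have h5 : (L : ℝ) * (5 * (δ / 20) * R) = δ / 4 * (L * R) := by ring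
  have h6 : δ / 4 * ((L : ℝ) * R) ≤ δ / 4 * (2 * M) := mul_le_mul_of_nonneg_left h3 (by positivity)
  linarith

end Pool.Agent.TH461.AL.Core
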