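import Mathlib
import Pool.Agent.TH461.AL.Stms2
import Pool.Agent.TH461.AL.Lev

set_option autoImplicit false

open Finset Filter Topology

namespace Pool.Agent.TH461.AL.Last

open Pool.Agent.TH461.AL

/-- the weighted double counting, with a factor `m` -/
theorem countm (Y : Finset ℤ) (s : ℤ → ℕ) (R : ℕ) (hs : ∀ y ∈ Y, s y < R) (bad : ℤ → ℕ → Prop)
    [∀ y, DecidablePred (bad y)] (δ : ℝ) (hδ : 0 ≤ δ) (m : ℕ) (hm : 0 < m)
    (h : ∀ y ∈ Y, ∀ t ≤ s y + 1, (((range t).filter (fun k => bad y (s y - k))).card : ℝ) ≤ δ * t) :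
    (((range R).filter (fun t => (Y.filter (fun y => t ≤ s y)).Nonempty ∧
      (Y.filter (fun y => t ≤ s y)).card ≤
        m * ((Y.filter (fun y => t ≤ s y)).filter (fun y => bad y t)).card)).card : ℝ) ≤
      m * (δ * R) := by
  set V : ℕ → Finset ℤ := fun t => Y.filter (fun y => t ≤ s y) with hV
  set w : ℕ → ℝ := fun t => 1 / ((V t).card : ℝ) with hw
  have hw0 : ∀ t, 0 ≤ w t := fun t => by rw [hw]; positivity
  have hVanti : ∀ t t', t ≤ t' → V t' ⊆ V t := by
    intro t t' htt y hy
    rw [hV, mem_filter] at hy ⊢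
    exact ⟨hy.1, htt.trans hy.2⟩
  -- the estimate for one element
  have h1 : ∀ y ∈ Y, ∑ t ∈ range R, (if t ≤ s y ∧ bad y t then w t else 0) ≤
      δ * ∑ t ∈ range R, (if t ≤ s y then w t else 0) := by
    intro y hy
    have hsy := hs y hy
    have e1 : ∀ g : ℕ → ℝ, ∑ t ∈ range R, (if t ≤ s y then g t else 0) =
        ∑ k ∈ range (s y + 1), g (s y - k) := by
      intro g
      have e2 := sum_range_reflect g (s y + 1)
      rw [Nat.add_sub_cancel] at e2
      rw [e2, ← sum_filter]
      refine sum_congr ?_ fun _ _ => rfl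
      ext t
      rw [mem_filter, mem_range, mem_range]
      omega
    have e3 : ∑ t ∈ range R, (if t ≤ s y ∧ bad y t then w t else 0) =
        ∑ t ∈ range R, (if t ≤ s y then (if bad y t then w t else 0) else 0) := by
      refine sum_congr rfl fun t _ => ?_
      by_cases a1 : t ≤ s y <;> by_cases a2 : bad y t <;> simp [a1, a2]
    rw [e3, e1, e1]
    refine Lev.abel δ (fun k => bad y (s y - k)) (fun k => w (s y - k)) (s y + 1) ?_ ?_ (h y hy)
    · intro k l hkl hl
      rw [hw]
      have b1 : (V (s y - k)).card ≤ (V (s y - l)).card := card_le_card (hVanti _ _ (by omega))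
      have b2 : 0 < (V (s y - k)).card := card_pos.2 ⟨y, by
        rw [hV, mem_filter]
        exact ⟨hy, by omega⟩⟩
      exact one_div_le_one_div_of_le (by exact_mod_cast b2) (by exact_mod_cast b1)
    · intro k _
      exact hw0 _
  have h2 : ∑ t ∈ range R, ∑ y ∈ Y, (if t ≤ s y ∧ bad y t then w t else 0) ≤
      δ * ∑ t ∈ range R, ∑ y ∈ Y, (if t ≤ s y then w t else 0) := by
    rw [sum_comm, sum_comm (s := range R) (t := Y) (f := fun t y => if t ≤ s y then w t else 0),
      mul_sum]
    exact sum_le_sum h1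
  have h3 : ∀ t, ∑ y ∈ Y, (if t ≤ s y then w t else 0) ≤ 1 := by
    intro t
    rw [← sum_filter, sum_const, nsmul_eq_mul]
    change ((V t).card : ℝ) * (1 / ((V t).card : ℝ)) ≤ 1
    rw [mul_one_div]
    exact div_self_le_one _
  have h4 : ∀ t, ∑ y ∈ Y, (if t ≤ s y ∧ bad y t then w t else 0) =
      (((V t).filter (fun y => bad y t)).card : ℝ) * w t := by
    intro t
    rw [← sum_filter, sum_const, nsmul_eq_mul, hV, filter_filter]
  have h5 : ∑ t ∈ range R, (((V t).filter (fun y => bad y t)).card : ℝ) * w t ≤ δ * R := by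
    simp_rw [h4] at h2
    refine h2.trans (mul_le_mul_of_nonneg_left ?_ hδ)
    refine (sum_le_sum fun t _ => h3 t).trans ?_
    simp
  have hm' : (0 : ℝ) < m := by exact_mod_cast hm
  have h6 : (((range R).filter (fun t => (V t).Nonempty ∧
      (V t).card ≤ m * ((V t).filter (fun y => bad y t)).card)).card : ℝ) * (1 / m) ≤ δ * R := by
    refine le_trans ?_ h5
    rw [← nsmul_eq_mul, ← sum_const]
    refine (sum_le_sum fun t ht => ?_).trans (sum_le_sum_of_subset_of_nonneg (filter_subset _ _)
      fun t _ _ => mul_nonneg (Nat.cast_nonneg _) (hw0 t))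
    rw [mem_filter] at ht
    obtain ⟨-, hne, hle⟩ := ht
    have c1 : (0 : ℝ) < (V t).card := by exact_mod_cast card_pos.2 hne
    rw [hw]
    change 1 / (m : ℝ) ≤ _ * (1 / ((V t).card : ℝ))
    rw [mul_one_div, div_le_div_iff₀ hm' c1]
    have c2 : ((V t).card : ℝ) ≤ m * ((V t).filter (fun y => bad y t)).card := by
      exact_mod_cast hle
    linarith
  rw [mul_one_div, div_le_iff₀ hm'] at h6
  linarith

/-- the number of cliffs of a nonincreasing sequence -/
theorem cliffs (v : ℕ → ℕ) (hv : ∀ t t', t ≤ t' → v t' ≤ v t) (T R : ℕ) (hT : 1 ≤ T) :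
    ((range R).filter (fun t => 2 * v (t + T) < v t)).card ≤ T * (Nat.log 2 (v 0) + 1) := by
  have h1 : ((range R).filter (fun t => 2 * v (t + T) < v t)).card ≤
      (range T ×ˢ range (Nat.log 2 (v 0) + 1)).card := by
    refine card_le_card_of_injOn (fun t => (t % T, Nat.log 2 (v t))) ?_ ?_
    · intro t ht
      rw [mem_coe, mem_product, mem_range, mem_range]
      have h2 : Nat.log 2 (v t) ≤ Nat.log 2 (v 0) := Nat.log_mono_right (hv 0 t (Nat.zero_le _))
      exact ⟨Nat.mod_lt _ hT, Nat.lt_succ_of_le h2⟩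
    · have key : ∀ t t' : ℕ, 2 * v (t + T) < v t → 2 * v (t' + T) < v t' → t < t' →
          t % T = t' % T → Nat.log 2 (v t) = Nat.log 2 (v t') → False := by
        intro t t' h1 h2 h3 h4 h5
        have h6 : t + T ≤ t' := by
          have h7 : T ∣ t' - t := (Nat.modEq_iff_dvd' h3.le).1 h4
          have h8 := Nat.le_of_dvd (by omega) h7
          omega
        have h7 := hv _ _ h6
        have h8 : 0 < v t' := by omega
        have h9 : Nat.log 2 (v t' * 2) ≤ Nat.log 2 (v t) := Nat.log_mono_right (by omega)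
        rw [Nat.log_mul_base (by norm_num) (by omega)] at h9
        omega
      intro t ht t' ht' he
      rw [mem_coe, mem_filter] at ht ht'
      obtain ⟨e1, e2⟩ := Prod.mk.inj he
      rcases lt_trichotomy t t' with h | h | h
      · exact (key t t' ht.2 ht'.2 h e1 e2).elim
      · exact h
      · exact (key t' t ht'.2 ht.2 h e1.symm e2.symm).elim
  rw [card_product, card_range, card_range] at h1
  exact h1

theorem log_succ_le (n : ℕ) : Nat.log 2 (n + 1) ≤ Nat.log 2 n + 1 := by
  rcases Nat.eq_zero_or_pos n with h | h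
  · subst h
    simp
  · rw [← Nat.log_mul_base (by norm_num) (by omega : n ≠ 0)]
    exact Nat.log_mono_right (by omega)

theorem last : J8 := by
  intro D T1' δ hδ
  classical
  set T1 : ℕ := T1' + 1 with hT1
  refine ⟨⌈2 * (T1 : ℝ) / δ⌉₊, fun F G hFG R J a b hC => ?_⟩
  -- the last line near a far cell
  set Q : ℤ → ℕ → Prop := fun y s => s < R ∧ Ngh F R (J + s) y with hQ
  set s : ℤ → ℕ := fun y => Nat.findGreatest (Q y) R with hs
  set Y : Finset ℤ := (Icc a b).filter (fun y => ∃ t, Q y t) with hY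
  have hsQ : ∀ y ∈ Y, Q y (s y) := by
    intro y hy
    obtain ⟨t, ht⟩ := (mem_filter.1 hy).2
    exact Nat.findGreatest_spec (P := Q y) ht.1.le ht
  have hle : ∀ y t, Q y t → t ≤ s y := fun y t ht => Nat.le_findGreatest ht.1.le ht
  set bad : ℤ → ℕ → Prop := fun y t => t + T1 ≤ s y ∧
    ¬ ∃ i' : ℤ, y - (D + 1) * R ≤ i' ∧ i' ≤ y + (D + 1) * R ∧ G i' (J + t) with hbad
  have hcount := countm Y s R (fun y hy => (hsQ y hy).1) bad δ hδ.le 4 (by norm_num) (by
    intro y hy t ht
    by_cases htT : t ≤ T1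
    · have h1 : (range t).filter (fun k => bad y (s y - k)) = ∅ := by
        rw [filter_eq_empty_iff]
        intro k hk hb
        rw [mem_range] at hk
        have := hb.1
        omega
      rw [h1, card_empty]
      have : (0 : ℝ) ≤ δ * t := by positivity
      simpa using this
    · obtain ⟨hsR, i, hi1, hi2, hi3⟩ := hsQ y hy
      have h1 := hFG t (by omega) i (J + s y) hi1
      refine le_trans (Nat.cast_le.2 (card_le_card fun k hk => ?_)) h1
      rw [mem_filter, mem_range] at hk ⊢
      obtain ⟨hk1, hk2, hk3⟩ := hk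
      have hks : k ≤ s y := by omega
      refine ⟨hk1, ?_⟩
      rintro ⟨i', h2, h3, h4⟩
      apply hk3
      have h5 : (y : ℤ) ≤ i + R := by exact_mod_cast hi3
      have h6 : ((D : ℤ)) * t ≤ D * R := by
        have : (t : ℤ) ≤ R := by omega
        exact mul_le_mul_of_nonneg_left this (by positivity)
      have h7 : (0 : ℤ) ≤ R := by positivity
      refine ⟨i', by linarith, by linarith, ?_⟩
      rw [Nat.cast_sub hks, ← add_sub_assoc]
      exact h4)
  set V : ℕ → Finset ℤ := fun t => Y.filter (fun y => t ≤ s y) with hV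
  have hVanti : ∀ t t', t ≤ t' → V t' ⊆ V t := by
    intro t t' htt y hy
    rw [hV, mem_filter] at hy ⊢
    exact ⟨hy.1, htt.trans hy.2⟩
  -- the cliffs
  have hcl := cliffs (fun t => (V t).card) (fun t t' h => card_le_card (hVanti t t' h)) T1 R
    (by omega)
  have hV0 : (V 0).card ≤ (b - a).toNat + 1 := by
    refine (card_le_card ((filter_subset _ _).trans (filter_subset _ _))).trans ?_
    rw [Int.card_Icc]
    omega
  have hcliff : (((range R).filter (fun t => 2 * (V (t + T1)).card < (V t).card)).card : ℝ) ≤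
      δ * R := by
    have h1 : Nat.log 2 (V 0).card + 1 ≤ 2 * (1 + Nat.log 2 (b - a).toNat) := by
      have h2 := Nat.log_mono_right (b := 2) hV0
      have h3 := log_succ_le (b - a).toNat
      omega
    have h4 : ((range R).filter (fun t => 2 * (V (t + T1)).card < (V t).card)).card ≤
        T1 * (2 * (1 + Nat.log 2 (b - a).toNat)) := hcl.trans (Nat.mul_le_mul_left _ h1)
    have h5 : (((range R).filter (fun t => 2 * (V (t + T1)).card < (V t).card)).card : ℝ) ≤
        T1 * (2 * (1 + Nat.log 2 (b - a).toNat)) := by exact_mod_cast h4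
    have h6 : (⌈2 * (T1 : ℝ) / δ⌉₊ : ℝ) * (1 + Nat.log 2 (b - a).toNat) ≤ R := by
      exact_mod_cast hC
    have h7 : 2 * (T1 : ℝ) / δ ≤ ⌈2 * (T1 : ℝ) / δ⌉₊ := Nat.le_ceil _
    have h8 : 2 * (T1 : ℝ) ≤ δ * ⌈2 * (T1 : ℝ) / δ⌉₊ := by
      rw [div_le_iff₀ hδ] at h7
      linarith
    have h9 : (0 : ℝ) ≤ 1 + Nat.log 2 (b - a).toNat := by positivity
    calc (((range R).filter (fun t => 2 * (V (t + T1)).card < (V t).card)).card : ℝ)
        ≤ T1 * (2 * (1 + Nat.log 2 (b - a).toNat)) := h5
      _ = (2 * T1) * (1 + Nat.log 2 (b - a).toNat) := by ring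
      _ ≤ (δ * ⌈2 * (T1 : ℝ) / δ⌉₊) * (1 + Nat.log 2 (b - a).toNat) :=
          mul_le_mul_of_nonneg_right h8 h9
      _ = δ * (⌈2 * (T1 : ℝ) / δ⌉₊ * (1 + Nat.log 2 (b - a).toNat)) := by ring
      _ ≤ δ * R := mul_le_mul_of_nonneg_left h6 hδ.le
  -- the good lines
  have hgood : ∀ t : ℕ, t < R → ¬ (2 * (V (t + T1)).card < (V t).card) →
      ¬ ((V t).Nonempty ∧ (V t).card ≤ 4 * ((V t).filter (fun y => bad y t)).card) →
      mu F R (J + t) a b ≤ (8 * D + 16) * R *
        ((Icc (a - (D + 1) * R) (b + (D + 1) * R)).filter (fun i => G i (J + t))).card := by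
    intro t ht hncl hn
    have hmuV : mu F R (J + t) a b ≤ (V t).card := by
      refine card_le_card fun y hy => ?_
      rw [mem_filter] at hy
      have h1 : Q y t := ⟨ht, hy.2⟩
      rw [hV, mem_filter, hY, mem_filter]
      exact ⟨⟨hy.1, t, h1⟩, hle y t h1⟩
    rcases (V t).eq_empty_or_nonempty with he | hne
    · rw [he, card_empty] at hmuV
      exact hmuV.trans (Nat.zero_le _)
    have hlt : 4 * ((V t).filter (fun y => bad y t)).card < (V t).card := by
      by_contra h1
      exact hn ⟨hne, not_lt.1 h1⟩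
    set N : Finset ℤ := (V (t + T1)).filter (fun y => ¬ bad y t) with hN
    have hcardN : ((V (t + T1)).filter (fun y => bad y t)).card + N.card = (V (t + T1)).card :=
      card_filter_add_card_filter_not _
    have hbb : ((V (t + T1)).filter (fun y => bad y t)).card ≤
        ((V t).filter (fun y => bad y t)).card :=
      card_le_card (filter_subset_filter _ (hVanti _ _ (by omega)))
    set M : Finset ℤ := (Icc (a - (D + 1) * R) (b + (D + 1) * R)).filter
      (fun i => G i (J + t)) with hM
    have hpairs := Lev.pairs N M ((D + 1) * R) 1 (by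
      intro y hy
      rw [hN, mem_filter] at hy
      have hyV := mem_filter.1 hy.1
      have h1 : ∃ i' : ℤ, y - (D + 1) * R ≤ i' ∧ i' ≤ y + (D + 1) * R ∧ G i' (J + t) := by
        by_contra h2
        exact hy.2 ⟨hyV.2, h2⟩
      obtain ⟨i', h2, h3, h4⟩ := h1
      have hyab : a ≤ y ∧ y ≤ b := by
        have := (mem_filter.1 hyV.1).1
        exact mem_Icc.1 this
      have h5 : 0 < (M.filter (fun z => y - ((D + 1) * R : ℕ) ≤ z ∧
          z ≤ y + ((D + 1) * R : ℕ))).card := by
        refine card_pos.2 ⟨i', ?_⟩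
        rw [mem_filter, hM, mem_filter, mem_Icc]
        push_cast
        exact ⟨⟨⟨by linarith [hyab.1], by linarith [hyab.2]⟩, h4⟩, h2, h3⟩
      exact_mod_cast h5)
    have h6 : N.card ≤ (2 * ((D + 1) * R) + 1) * M.card := by
      have : ((N.card : ℕ) : ℝ) ≤ (((2 * ((D + 1) * R) + 1) * M.card : ℕ) : ℝ) := by
        push_cast at hpairs ⊢
        linarith
      exact_mod_cast this
    have h7 : (V t).card < 4 * N.card := by omega
    have h8 : (2 * ((D + 1) * R) + 1) * M.card ≤ (2 * D + 4) * R * M.card := by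
      refine Nat.mul_le_mul_right _ ?_
      nlinarith
    calc mu F R (J + t) a b ≤ (V t).card := hmuV
      _ ≤ 4 * ((2 * D + 4) * R * M.card) := by omega
      _ = (8 * D + 16) * R * M.card := by ring
  -- the end
  have hsub : (range R).filter (fun t : ℕ =>
      (8 * D + 16) * R * ((Icc (a - (D + 1) * R) (b + (D + 1) * R)).filter
        (fun i => G i (J + t))).card < mu F R (J + t) a b) ⊆
      (range R).filter (fun t => 2 * (V (t + T1)).card < (V t).card) ∪
      (range R).filter (fun t => (V t).Nonempty ∧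
        (V t).card ≤ 4 * ((V t).filter (fun y => bad y t)).card) := by
    intro t ht
    rw [mem_filter] at ht
    rw [mem_union, mem_filter, mem_filter]
    by_cases h1 : 2 * (V (t + T1)).card < (V t).card
    · exact Or.inl ⟨ht.1, h1⟩
    · by_cases h2 : (V t).Nonempty ∧
        (V t).card ≤ 4 * ((V t).filter (fun y => bad y t)).card
      · exact Or.inr ⟨ht.1, h2⟩
      · exact absurd ht.2 (not_lt.2 (hgood t (mem_range.1 ht.1) h1 h2))
  have h1 := (card_le_card hsub).trans (card_union_le _ _)
  have h2 : (((range R).filter (fun t : ℕ =>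
      (8 * D + 16) * R * ((Icc (a - (D + 1) * R) (b + (D + 1) * R)).filter
        (fun i => G i (J + t))).card < mu F R (J + t) a b)).card : ℝ) ≤
      δ * R + (4 : ℕ) * (δ * R) := by
    refine le_trans ?_ (add_le_add hcliff hcount)
    exact_mod_cast h1
  refine le_trans (le_of_eq ?_) (h2.trans ?_)
  · congr 2
  · push_cast
    linarith

end Pool.Agent.TH461.AL.Last
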