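import Mathlib
import Pool.Agent.TH461.AL.Stms
import Pool.Agent.TH461.SST.PowC
import Pool.Agent.H706R2.DigitChange

/-!
Project AL: from far cells to digit changes, line by line.
-/

set_option autoImplicit false

open Finset Filter Topology

namespace Pool.Agent.TH461.AL.Dig

open Pool.Agent.TH461.AL
open Pool.Agent.H706R2 (dZ dig near_of_run)
open Pool.Agent.TH461.SST.PowC (dig_mul dig_mul_zero)

/-- every far place of a line has a digit change nearby -/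
lemma line_changes {b : ℕ} (hb : 2 ≤ b) {r : ℝ} {L : ℕ} (hL : 1 / (b : ℝ) ^ L ≤ r)
    (y : ℝ) (A : Finset ℕ) (N : ℕ) (hA : ∀ u ∈ A, u < N)
    (hfar : ∀ u ∈ A, r ≤ dZ ((b : ℝ) ^ u * (((b : ℝ) - 1) * y))) :
    A.card ≤ L * ((range (N + L)).filter (fun i => dig b y i ≠ dig b y (i + 1))).card := by
  classical
  set W := (range (N + L)).filter (fun i => dig b y i ≠ dig b y (i + 1)) with hW
  have hex : ∀ u ∈ A, ∃ k < L, u + k ∈ W := by
    intro u hu
    by_contra hcon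
    push Not at hcon
    have hrun : ∀ i, u ≤ i → i < u + L → dig b y i = dig b y (i + 1) := by
      intro i hi hi'
      obtain ⟨k, rfl⟩ := Nat.exists_eq_add_of_le hi
      have h1 := hcon k (by omega)
      rw [hW, Finset.mem_filter] at h1
      by_contra hne
      apply h1
      refine ⟨?_, hne⟩
      rw [Finset.mem_range]
      have := hA u hu
      omega
    have h2 := near_of_run hb y u L hrun
    have h3 := hfar u hu
    linarith
  choose! k hk1 hk2 using hex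
  have hle : A.card ≤ (W ×ˢ range L).card := by
    refine Finset.card_le_card_of_injOn (fun u => (u + k u, k u)) ?_ ?_
    · intro u hu
      simp only [Finset.coe_product, Set.mem_prod, Finset.mem_coe, Finset.mem_range]
      exact ⟨hk2 u hu, hk1 u hu⟩
    · intro u hu v hv huv
      simp only [Prod.mk.injEq] at huv
      obtain ⟨h1, h2⟩ := huv
      omega
  rw [Finset.card_product, Finset.card_range] at hle
  linarith [hle, Nat.mul_comm W.card L]

lemma far_mid {r v : ℝ} (h1 : r ≤ v) (h2 : v ≤ 1 - r) : r ≤ dZ v := by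
  unfold dZ
  rcases le_or_gt (round v) 0 with h | h
  · have h3 : (round v : ℝ) ≤ 0 := by exact_mod_cast h
    have := le_abs_self (v - round v)
    linarith
  · have h3 : (1 : ℝ) ≤ (round v : ℝ) := by exact_mod_cast h
    have := neg_abs_le (v - round v)
    linarith

lemma dZ_int (k : ℤ) : dZ (k : ℝ) = 0 := by
  unfold dZ
  rw [round_intCast]
  simp

/-- cells with a nonnegative column are near -/
lemma not_far_nonneg {b q m : ℕ} (hb : 2 ≤ b) {r : ℝ} (hr : 0 < r) {i : ℤ} (hi : 0 ≤ i) (t : ℕ) :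
    ¬ Fa b q r (((b : ℝ) - 1) * m) i t := by
  unfold Fa
  obtain ⟨k, rfl⟩ := Int.eq_ofNat_of_zero_le hi
  have e : ((b : ℝ) - 1) * m * (b : ℝ) ^ ((k : ℕ) : ℤ) * (q : ℝ) ^ ((t : ℕ) : ℤ) =
      (((((b : ℤ) - 1) * m * (b : ℤ) ^ k * (q : ℤ) ^ t : ℤ)) : ℝ) := by
    push_cast
    rw [zpow_natCast, zpow_natCast]
  rw [e, dZ_int]
  linarith

/-- every line has a far cell -/
lemma exists_far {b q m : ℕ} (hb : 2 ≤ b) (hq : 1 ≤ q) (hm : 1 ≤ m) {r : ℝ} (hr : 0 < r)
    (hrb : ((b : ℝ) + 1) * r ≤ 1) (M : ℕ) :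
    ∃ K : ℕ, ∀ t : ℕ, t < M → ∃ i : ℤ, -(K : ℤ) ≤ i ∧ i ≤ 0 ∧ Fa b q r (((b : ℝ) - 1) * m) i t := by
  have hbR : (2 : ℝ) ≤ b := by exact_mod_cast hb
  have hqR : (1 : ℝ) ≤ q := by exact_mod_cast hq
  have hmR : (1 : ℝ) ≤ m := by exact_mod_cast hm
  have hr1 : r ≤ 1 := by nlinarith
  set θ : ℝ := ((b : ℝ) - 1) * m with hθ
  have hθ1 : 1 ≤ θ := by rw [hθ]; nlinarith
  have hlim : Tendsto (fun k : ℕ => θ * (q : ℝ) ^ M * ((b : ℝ)⁻¹) ^ k) atTop (𝓝 0) := by
    have h1 := tendsto_pow_atTop_nhds_zero_of_lt_one (r := (b : ℝ)⁻¹) (by positivity)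
      (inv_lt_one_of_one_lt₀ (by linarith))
    simpa using h1.const_mul (θ * (q : ℝ) ^ M)
  obtain ⟨K, hK⟩ := (hlim.eventually (gt_mem_nhds hr)).exists
  refine ⟨K, fun t ht => ?_⟩
  have hq0 : (0 : ℝ) < (q : ℝ) ^ t := by positivity
  have hval : θ * (q : ℝ) ^ t * ((b : ℝ)⁻¹) ^ K < r := by
    refine lt_of_le_of_lt ?_ hK
    have h1 : (q : ℝ) ^ t ≤ (q : ℝ) ^ M := pow_le_pow_right₀ hqR ht.le
    have h2 : 0 ≤ ((b : ℝ)⁻¹) ^ K := by positivity
    have h3 : θ * (q : ℝ) ^ t ≤ θ * (q : ℝ) ^ M := mul_le_mul_of_nonneg_left h1 (by linarith)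
    exact mul_le_mul_of_nonneg_right h3 h2
  have hexk : ∃ k : ℕ, θ * (q : ℝ) ^ t * ((b : ℝ)⁻¹) ^ k < r := ⟨K, hval⟩
  classical
  set k1 := Nat.find hexk with hk1
  have h1 := Nat.find_spec hexk
  have h1K : k1 ≤ K := Nat.find_min' hexk hval
  have hk0 : k1 ≠ 0 := by
    intro h0
    rw [← hk1, h0] at h1
    simp only [pow_zero, mul_one] at h1
    have h2 : (1 : ℝ) ≤ (q : ℝ) ^ t := one_le_pow₀ hqR
    nlinarith
  obtain ⟨k, hk⟩ : ∃ k, k1 = k + 1 := ⟨k1 - 1, by omega⟩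
  have h2 : ¬ θ * (q : ℝ) ^ t * ((b : ℝ)⁻¹) ^ k < r := Nat.find_min hexk (by omega)
  push Not at h2
  rw [← hk1, hk] at h1
  refine ⟨-(k : ℤ), by omega, by omega, ?_⟩
  unfold Fa
  have e : θ * (b : ℝ) ^ (-(k : ℤ)) * (q : ℝ) ^ ((t : ℕ) : ℤ) =
      θ * (q : ℝ) ^ t * ((b : ℝ)⁻¹) ^ k := by
    rw [zpow_neg, zpow_natCast, zpow_natCast, inv_pow]
    ring
  rw [e]
  refine far_mid h2 ?_
  have h3 : θ * (q : ℝ) ^ t * ((b : ℝ)⁻¹) ^ (k + 1) * b = θ * (q : ℝ) ^ t * ((b : ℝ)⁻¹) ^ k := by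
    rw [pow_succ]
    have : (b : ℝ) ≠ 0 := by positivity
    field_simp
  have h4 : θ * (q : ℝ) ^ t * ((b : ℝ)⁻¹) ^ (k + 1) * b ≤ r * b :=
    mul_le_mul_of_nonneg_right h1.le (by positivity)
  rw [h3] at h4
  linarith

open Classical in
/-- far cells of a line are bounded by the number of digit changes -/
lemma far_le_changes {b q m : ℕ} (hb : 2 ≤ b) {r : ℝ} (hr : 0 < r) {L : ℕ}
    (hL : 1 / (b : ℝ) ^ L ≤ r) (t : ℕ) (u v : ℤ) :
    ((Icc u v).filter (fun i => Fa b q r (((b : ℝ) - 1) * m) i t)).card ≤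
      L * (1 + ((range (Nat.digits b (m * q ^ t)).length).filter
        (fun k => m * q ^ t / b ^ k % b ≠ m * q ^ t / b ^ (k + 1) % b)).card) := by
  set K : ℕ := (-u).toNat with hK
  set y : ℝ := (q : ℝ) ^ t * ((m : ℝ) / (b : ℝ) ^ K) with hy
  have hbR : (2 : ℝ) ≤ b := by exact_mod_cast hb
  have hb0 : (b : ℝ) ≠ 0 := by positivity
  set A : Finset ℕ := ((Icc u v).filter (fun i => Fa b q r (((b : ℝ) - 1) * m) i t)).image
    (fun i : ℤ => (i + K).toNat) with hA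
  have hneg : ∀ i ∈ (Icc u v).filter (fun i => Fa b q r (((b : ℝ) - 1) * m) i t),
      u ≤ i ∧ i < 0 ∧ Fa b q r (((b : ℝ) - 1) * m) i t := by
    intro i hi
    rw [Finset.mem_filter, Finset.mem_Icc] at hi
    refine ⟨hi.1.1, ?_, hi.2⟩
    by_contra hcon
    push Not at hcon
    exact not_far_nonneg hb hr hcon t hi.2
  have hcard : A.card = ((Icc u v).filter (fun i => Fa b q r (((b : ℝ) - 1) * m) i t)).card := by
    rw [hA]
    refine Finset.card_image_of_injOn ?_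
    intro i hi i' hi' h
    obtain ⟨h1, h2, -⟩ := hneg i hi
    obtain ⟨h3, h4, -⟩ := hneg i' hi'
    simp only at h
    omega
  have h1 := line_changes hb hL y A K (by
    intro w hw
    rw [hA, Finset.mem_image] at hw
    obtain ⟨i, hi, rfl⟩ := hw
    obtain ⟨h1, h2, -⟩ := hneg i hi
    omega) (by
    intro w hw
    rw [hA, Finset.mem_image] at hw
    obtain ⟨i, hi, rfl⟩ := hw
    obtain ⟨h1, h2, h3⟩ := hneg i hi
    unfold Fa at h3
    have e : ((b : ℝ) - 1) * m * (b : ℝ) ^ i * (q : ℝ) ^ ((t : ℕ) : ℤ) =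
        (b : ℝ) ^ ((i + K).toNat) * (((b : ℝ) - 1) * y) := by
      have e1 : (b : ℝ) ^ i = (b : ℝ) ^ ((i + K).toNat) / (b : ℝ) ^ K := by
        rw [← zpow_natCast (b : ℝ) (i + K).toNat, ← zpow_natCast (b : ℝ) K, ← zpow_sub₀ hb0]
        congr 1
        omega
      rw [e1, hy, zpow_natCast]
      ring
    rw [e] at h3
    exact h3)
  rw [hcard] at h1
  refine h1.trans (Nat.mul_le_mul_left _ ?_)
  -- comparison of digits
  have hss : (range (K + L)).filter (fun i => dig b y i ≠ dig b y (i + 1)) ⊆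
      insert (K - 1) (((range (Nat.digits b (m * q ^ t)).length).filter
        (fun k => m * q ^ t / b ^ k % b ≠ m * q ^ t / b ^ (k + 1) % b)).image
          (fun k => K - 2 - k)) := by
    intro i hi
    rw [Finset.mem_filter, Finset.mem_range] at hi
    obtain ⟨-, hi2⟩ := hi
    rw [Finset.mem_insert, Finset.mem_image]
    rcases Nat.lt_or_ge i K with hlt | hge
    · rcases Nat.lt_or_ge (i + 1) K with hlt2 | hge2
      · right
        refine ⟨K - 2 - i, ?_, by omega⟩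
        have h5 : m * q ^ t / b ^ (K - 2 - i) % b ≠ m * q ^ t / b ^ (K - 2 - i + 1) % b := by
          intro h5
          apply hi2
          rw [hy, dig_mul hb (k := K - 2 - i + 1) (by omega), dig_mul hb (k := K - 2 - i) (by omega),
            h5]
        rw [Finset.mem_filter, Finset.mem_range]
        refine ⟨?_, h5⟩
        by_contra hcon
        push Not at hcon
        rw [Nat.digits_length_le_iff (by omega)] at hcon
        apply h5
        rw [Nat.div_eq_of_lt hcon, Nat.div_eq_of_lt (hcon.trans_le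
          (Nat.pow_le_pow_right (by omega) (Nat.le_succ _)))]
      · left; omega
    · exfalso
      apply hi2
      rw [hy, dig_mul_zero hb hge, dig_mul_zero hb (by omega)]
  refine (Finset.card_le_card hss).trans ((Finset.card_insert_le _ _).trans ?_)
  rw [add_comm]
  exact Nat.add_le_add_left Finset.card_image_le _

lemma absorb (L : ℕ) {ε : ℝ} (hε : 0 < ε) (hε1 : ε ≤ 1) :
    ∀ᶠ M : ℕ in atTop, (L : ℝ) * (1 + (M : ℝ) ^ (1 - ε)) ≤ (M : ℝ) ^ (1 - ε / 2) := by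
  have ht := (tendsto_rpow_atTop (by linarith : 0 < ε / 2)).comp
    (tendsto_natCast_atTop_atTop (R := ℝ))
  filter_upwards [ht.eventually_ge_atTop (2 * L), eventually_ge_atTop 1] with M hM h1
  have hMR : (1 : ℝ) ≤ M := by exact_mod_cast h1
  have hM0 : (0 : ℝ) < M := by linarith
  have h2 : 2 * (L : ℝ) ≤ (M : ℝ) ^ (ε / 2) := hM
  have h3 : (M : ℝ) ^ (1 - ε / 2) = (M : ℝ) ^ (ε / 2) * (M : ℝ) ^ (1 - ε) := by
    rw [← Real.rpow_add hM0]; ring_nf
  have h4 : (1 : ℝ) ≤ (M : ℝ) ^ (1 - ε) := Real.one_le_rpow hMR (by linarith)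
  rw [h3]
  have hL0 : (0 : ℝ) ≤ L := Nat.cast_nonneg _
  calc (L : ℝ) * (1 + (M : ℝ) ^ (1 - ε)) ≤ L * (2 * (M : ℝ) ^ (1 - ε)) := by
        apply mul_le_mul_of_nonneg_left _ hL0
        linarith
    _ = (2 * L) * (M : ℝ) ^ (1 - ε) := by ring
    _ ≤ (M : ℝ) ^ (ε / 2) * (M : ℝ) ^ (1 - ε) := mul_le_mul_of_nonneg_right h2 (by linarith)

open Classical in
/-- powers: almost all exponents -/
theorem pow_almost {b q : ℕ} (hb : 2 ≤ b) (hq : 2 ≤ q) {r : ℝ} (hr : 0 < r)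
    (hrb : ((b : ℝ) + 1) * r ≤ 1) {D : ℕ}
    (hM : MultiProp {F | ∃ θ : ℝ, F = Fa b q r θ} D) {ε δ : ℝ} (hε : 0 < ε) (hδ : 0 < δ) :
    ∃ M0 : ℕ, ∀ M : ℕ, M0 ≤ M → ∀ m : ℕ, 1 ≤ m →
      (((range M).filter (fun n : ℕ =>
        (((range (Nat.digits b (m * q ^ n)).length).filter
          (fun k => m * q ^ n / b ^ k % b ≠ m * q ^ n / b ^ (k + 1) % b)).card : ℝ)
          < (M : ℝ) ^ (1 - ε))).card : ℝ) ≤ δ * M := by
  have hbR : (2 : ℝ) ≤ b := by exact_mod_cast hb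
  obtain ⟨L, hL⟩ := exists_pow_lt_of_lt_one hr (by
    rw [inv_lt_one₀ (by linarith)]; linarith : ((b : ℝ))⁻¹ < 1)
  have hL' : 1 / (b : ℝ) ^ L ≤ r := by
    rw [inv_pow] at hL
    rw [one_div]; exact hL.le
  set ε1 := min ε 1 with hε1
  have hε10 : 0 < ε1 := lt_min hε one_pos
  obtain ⟨M1, hM1⟩ := hM (ε1 / 2) (by positivity) δ hδ
  obtain ⟨M2, hM2⟩ := eventually_atTop.1 (absorb L hε10 (min_le_right _ _))
  refine ⟨max (max M1 M2) 1, fun M hMM m hm => ?_⟩
  have hMM1 : M1 ≤ M := (le_max_left _ _).trans ((le_max_left _ _).trans hMM)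
  have hMM2 : M2 ≤ M := (le_max_right _ _).trans ((le_max_left _ _).trans hMM)
  have hMM3 : (1 : ℝ) ≤ M := by exact_mod_cast (le_max_right _ _).trans hMM
  obtain ⟨K, hK⟩ := exists_far hb (by omega : 1 ≤ q) hm hr hrb M
  have h1 := hM1 M hMM1 (Fa b q r (((b : ℝ) - 1) * m)) ⟨_, rfl⟩ 0 (-(K : ℤ)) 0 (by
    intro t ht
    obtain ⟨i, h1, h2, h3⟩ := hK t ht
    exact ⟨i, h1, h2, by rw [zero_add]; exact h3⟩)
  refine le_trans ?_ h1
  have h2 := hM2 M hMM2
  have h3 : (M : ℝ) ^ (1 - ε) ≤ (M : ℝ) ^ (1 - ε1) :=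
    Real.rpow_le_rpow_of_exponent_le hMM3 (by have := min_le_left ε 1; linarith)
  rw [Nat.cast_le]
  apply Finset.card_le_card
  intro n hn
  rw [Finset.mem_filter] at hn ⊢
  refine ⟨hn.1, ?_⟩
  have h4 := far_le_changes (q := q) (m := m) hb hr hL' n (-(K : ℤ) - D * M) (0 + D * M)
  rw [zero_add (n : ℤ)]
  have h5 : ((((Icc (-(K : ℤ) - D * M) (0 + D * M)).filter
      (fun i => Fa b q r (((b : ℝ) - 1) * m) i n)).card : ℕ) : ℝ) ≤
      L * (1 + (((range (Nat.digits b (m * q ^ n)).length).filter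
        (fun k => m * q ^ n / b ^ k % b ≠ m * q ^ n / b ^ (k + 1) % b)).card : ℝ)) := by
    exact_mod_cast h4
  refine lt_of_le_of_lt h5 ?_
  rcases Nat.eq_zero_or_pos L with hL0 | hL0
  · exfalso
    rw [hL0, pow_zero, div_one] at hL'
    nlinarith
  · have hL0' : (0 : ℝ) < L := by exact_mod_cast hL0
    refine lt_of_lt_of_le ?_ h2
    apply mul_lt_mul_of_pos_left _ hL0'
    linarith [hn.2]

end Pool.Agent.TH461.AL.Dig
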