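import Mathlib
import Pool.Agent.TH461.AL.Dig
import Pool.Agent.H847R3.SuppD

/-!
Project AL: digit changes of the multiples `q ^ n x` of a real number, for almost all `n`.
-/

set_option autoImplicit false

open Finset Filter Topology

namespace Pool.Agent.TH461.AL.Rea

open Pool.Agent.TH461.AL
open Pool.Agent.H706R2 (dZ dig round_run norm_coe_eq_dZ)

/-- lower bound for the distances of the multiples of a non-Liouville number -/
lemma dio {x : ℝ} (hx : Irrational x) (hL : ¬ Liouville x) :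
    ∃ m : ℕ, ∀ Q : ℕ, 2 ≤ Q → 1 / (Q : ℝ) ^ m ≤ dZ ((Q : ℝ) * x) := by
  obtain ⟨m, hm⟩ := Pool.Agent.H847R3.XpXq.nonliouville hx hL
  refine ⟨m, fun Q hQ => ?_⟩
  have hQ0 : (0 : ℝ) < Q := by exact_mod_cast (by omega : 0 < Q)
  have h := hm Q hQ
  rw [← AddCircle.coe_nsmul, nsmul_eq_mul] at h
  rw [norm_coe_eq_dZ] at h
  refine le_trans (le_of_eq ?_) h
  rw [Real.exp_neg, ← Real.log_pow, Real.exp_log (by positivity), one_div]

/-- every line has a far cell in a window -/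
lemma exists_far {b q : ℕ} (hb : 2 ≤ b) (hq : 2 ≤ q) {r : ℝ} (hrb : ((b : ℝ) + 1) * r ≤ 1)
    {x : ℝ} {m : ℕ} (hm : ∀ Q : ℕ, 2 ≤ Q → 1 / (Q : ℝ) ^ m ≤ dZ ((Q : ℝ) * x))
    (D M : ℕ) (hM : 1 ≤ M) (t : ℕ) (ht : t < M) :
    ∃ i : ℤ, ((D * M : ℕ) : ℤ) ≤ i ∧ i ≤ ((D * M + (m * ((1 + D + q) * M + 1) + 1) : ℕ) : ℤ) ∧
      Fa b q r (((b : ℝ) - 1) * x) i t := by
  have hbR : (2 : ℝ) ≤ b := by exact_mod_cast hb
  have hb0 : (0 : ℝ) < b := by positivity
  have hr1 : r < 1 := by nlinarith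
  by_contra hcon
  push Not at hcon
  set A : ℕ := m * ((1 + D + q) * M + 1) + 1 with hA
  set z : ℝ := ((b : ℝ) - 1) * x * (b : ℝ) ^ (D * M) * (q : ℝ) ^ t with hz
  have hnear : ∀ k ≤ A, dZ ((b : ℝ) ^ k * z) < r := by
    intro k hk
    have h1 := hcon ((D * M + k : ℕ) : ℤ) (by exact_mod_cast Nat.le_add_right _ _)
      (by exact_mod_cast Nat.add_le_add_left hk _)
    unfold Fa at h1
    push Not at h1
    have e : ((b : ℝ) - 1) * x * (b : ℝ) ^ ((D * M + k : ℕ) : ℤ) * (q : ℝ) ^ ((t : ℕ) : ℤ) =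
        (b : ℝ) ^ k * z := by
      rw [zpow_natCast, zpow_natCast, hz, pow_add]
      ring
    rw [e] at h1
    exact h1
  have h1 := round_run hrb A hnear
  have h2 := hnear A le_rfl
  -- the multiple `Q`
  set Q : ℕ := (b - 1) * b ^ (D * M) * q ^ t * b with hQ
  have hQ2 : 2 ≤ Q := by
    have h3 : 1 ≤ (b - 1) * b ^ (D * M) * q ^ t := by
      have h4 : 0 < (b - 1) * b ^ (D * M) * q ^ t := by
        have : 0 < b - 1 := by omega
        positivity
      exact h4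
    rw [hQ]
    calc 2 ≤ 1 * b := by omega
      _ ≤ _ := Nat.mul_le_mul_right _ h3
  have hQle : Q ≤ b ^ ((1 + D + q) * M + 1) := by
    have h3 : b - 1 ≤ b ^ M := by
      calc b - 1 ≤ b := Nat.sub_le _ _
        _ = b ^ 1 := (pow_one b).symm
        _ ≤ b ^ M := Nat.pow_le_pow_right (by omega) hM
    have h4 : q ^ t ≤ b ^ (q * M) := by
      calc q ^ t ≤ q ^ M := Nat.pow_le_pow_right (by omega) ht.le
        _ ≤ (b ^ q) ^ M := by
            apply Nat.pow_le_pow_left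
            exact (Nat.lt_pow_self (by omega : 1 < b)).le
        _ = b ^ (q * M) := by rw [← pow_mul]
    calc Q ≤ b ^ M * b ^ (D * M) * b ^ (q * M) * b := by
          rw [hQ]
          gcongr
      _ = b ^ ((1 + D + q) * M + 1) := by
          rw [← pow_add, ← pow_add, ← pow_succ]
          congr 1
          ring
  have h3 := hm Q hQ2
  have hQz : (Q : ℝ) * x = (b : ℝ) * z := by
    rw [hQ, hz]
    push_cast
    rw [Nat.cast_sub (by omega)]
    push_cast
    ring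
  have h4 : dZ ((b : ℝ) * z) ≤ b * dZ z := by
    have h5 := Pool.Agent.H706R2.dZ_le_of_int ((b : ℝ) * z) ((b : ℤ) * round z)
    refine h5.trans (le_of_eq ?_)
    unfold dZ
    push_cast
    rw [← mul_sub, abs_mul, abs_of_pos hb0]
  have h5 : (b : ℝ) ^ A * dZ z < r := by
    unfold dZ at h2
    rw [h1] at h2
    push_cast at h2
    rw [← mul_sub, abs_mul, abs_of_pos (by positivity)] at h2
    exact h2
  have h6 : 1 / (Q : ℝ) ^ m ≤ b * dZ z := by
    rw [hQz] at h3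
    exact h3.trans h4
  have hQ0 : (0 : ℝ) < Q := by exact_mod_cast (by omega : 0 < Q)
  rw [div_le_iff₀ (by positivity)] at h6
  have h7 : (Q : ℝ) ^ m ≤ ((b : ℝ) ^ ((1 + D + q) * M + 1)) ^ m := by
    apply pow_le_pow_left₀ hQ0.le
    exact_mod_cast hQle
  have h8 : 0 ≤ dZ z := abs_nonneg _
  have h9 : 1 ≤ b * dZ z * ((b : ℝ) ^ ((1 + D + q) * M + 1)) ^ m := by
    refine h6.trans ?_
    apply mul_le_mul_of_nonneg_left h7 (by positivity)
  have h10 : b * dZ z * ((b : ℝ) ^ ((1 + D + q) * M + 1)) ^ m = (b : ℝ) ^ A * dZ z := by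
    rw [← pow_mul, hA, pow_succ, mul_comm ((1 + D + q) * M + 1) m]
    ring
  rw [h10] at h9
  linarith

open Classical in
/-- real numbers: almost all exponents -/
theorem real_almost {b q : ℕ} (hb : 2 ≤ b) (hq : 2 ≤ q) {r : ℝ} (hr : 0 < r)
    (hrb : ((b : ℝ) + 1) * r ≤ 1) {D : ℕ}
    (hM : MultiProp {F | ∃ θ : ℝ, F = Fa b q r θ} D) {x : ℝ} (hx : Irrational x)
    (hL : ¬ Liouville x) :
    ∃ C : ℕ, ∀ ε : ℝ, 0 < ε → ∀ δ : ℝ, 0 < δ → ∃ M0 : ℕ, ∀ M : ℕ, M0 ≤ M →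
      (((range M).filter (fun n : ℕ =>
        (((range (C * M)).filter (fun i => dig b ((q : ℝ) ^ n * x) i ≠
          dig b ((q : ℝ) ^ n * x) (i + 1))).card : ℝ) < (M : ℝ) ^ (1 - ε))).card : ℝ) ≤ δ * M := by
  have hbR : (2 : ℝ) ≤ b := by exact_mod_cast hb
  obtain ⟨m, hm⟩ := dio hx hL
  obtain ⟨L, hL⟩ := exists_pow_lt_of_lt_one hr (by
    rw [inv_lt_one₀ (by linarith)]; linarith : ((b : ℝ))⁻¹ < 1)
  have hL' : 1 / (b : ℝ) ^ L ≤ r := by
    rw [inv_pow] at hL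
    rw [one_div]; exact hL.le
  refine ⟨2 * D + m * (1 + D + q) + 1, fun ε hε δ hδ => ?_⟩
  set ε1 := min ε 1 with hε1
  have hε10 : 0 < ε1 := lt_min hε one_pos
  obtain ⟨M1, hM1⟩ := hM (ε1 / 2) (by positivity) δ hδ
  obtain ⟨M2, hM2⟩ := eventually_atTop.1 (Dig.absorb L hε10 (min_le_right _ _))
  refine ⟨max (max M1 M2) (m + L + 3), fun M hMM => ?_⟩
  have hMM1 : M1 ≤ M := (le_max_left _ _).trans ((le_max_left _ _).trans hMM)
  have hMM2 : M2 ≤ M := (le_max_right _ _).trans ((le_max_left _ _).trans hMM)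
  have hMM3 : m + L + 3 ≤ M := (le_max_right _ _).trans hMM
  have hMM4 : (1 : ℝ) ≤ M := by exact_mod_cast (by omega : 1 ≤ M)
  set B : ℕ := D * M + (m * ((1 + D + q) * M + 1) + 1) with hB
  have h1 := hM1 M hMM1 (Fa b q r (((b : ℝ) - 1) * x)) ⟨_, rfl⟩ 0 ((D * M : ℕ) : ℤ) (B : ℤ) (by
    intro t ht
    obtain ⟨i, h1, h2, h3⟩ := exists_far hb hq hrb hm D M (by omega) t ht
    exact ⟨i, h1, h2, by rw [zero_add]; exact h3⟩)
  refine le_trans ?_ h1
  have h2 := hM2 M hMM2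
  have h3 : (M : ℝ) ^ (1 - ε) ≤ (M : ℝ) ^ (1 - ε1) :=
    Real.rpow_le_rpow_of_exponent_le hMM4 (by have := min_le_left ε 1; linarith)
  rw [Nat.cast_le]
  apply Finset.card_le_card
  intro n hn
  rw [Finset.mem_filter] at hn ⊢
  refine ⟨hn.1, ?_⟩
  rw [zero_add (n : ℤ)]
  -- the far cells give digit changes
  set A : Finset ℕ := ((Icc (((D * M : ℕ) : ℤ) - D * M) ((B : ℤ) + D * M)).filter
    (fun i => Fa b q r (((b : ℝ) - 1) * x) i n)).image (fun i : ℤ => i.toNat) with hA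
  have hmem : ∀ i ∈ (Icc (((D * M : ℕ) : ℤ) - D * M) ((B : ℤ) + D * M)).filter
      (fun i => Fa b q r (((b : ℝ) - 1) * x) i n),
      0 ≤ i ∧ i ≤ (B : ℤ) + D * M ∧ Fa b q r (((b : ℝ) - 1) * x) i n := by
    intro i hi
    rw [Finset.mem_filter, Finset.mem_Icc] at hi
    refine ⟨?_, hi.1.2, hi.2⟩
    have := hi.1.1
    push_cast at this
    linarith
  have hcard : A.card = ((Icc (((D * M : ℕ) : ℤ) - D * M) ((B : ℤ) + D * M)).filter
      (fun i => Fa b q r (((b : ℝ) - 1) * x) i n)).card := by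
    rw [hA]
    refine Finset.card_image_of_injOn ?_
    intro i hi i' hi' h
    obtain ⟨h1, h2, -⟩ := hmem i hi
    obtain ⟨h3, h4, -⟩ := hmem i' hi'
    simp only at h
    omega
  have h4 := Dig.line_changes hb hL' ((q : ℝ) ^ n * x) A (B + D * M + 1) (by
    intro w hw
    rw [hA, Finset.mem_image] at hw
    obtain ⟨i, hi, rfl⟩ := hw
    obtain ⟨h1, h2, -⟩ := hmem i hi
    have h3 : i ≤ ((B + D * M : ℕ) : ℤ) := by push_cast; exact h2
    omega) (by
    intro w hw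
    rw [hA, Finset.mem_image] at hw
    obtain ⟨i, hi, rfl⟩ := hw
    obtain ⟨h1, h2, h3⟩ := hmem i hi
    unfold Fa at h3
    have e : ((b : ℝ) - 1) * x * (b : ℝ) ^ i * (q : ℝ) ^ ((n : ℕ) : ℤ) =
        (b : ℝ) ^ (i.toNat) * (((b : ℝ) - 1) * ((q : ℝ) ^ n * x)) := by
      have e1 : (b : ℝ) ^ i = (b : ℝ) ^ (i.toNat) := by
        rw [← zpow_natCast (b : ℝ) i.toNat]
        congr 1
        omega
      rw [e1, zpow_natCast]
      ring
    rw [e] at h3
    exact h3)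
  rw [hcard] at h4
  have h5 : (range (B + D * M + 1 + L)).filter (fun i => dig b ((q : ℝ) ^ n * x) i ≠
      dig b ((q : ℝ) ^ n * x) (i + 1)) ⊆
      (range ((2 * D + m * (1 + D + q) + 1) * M)).filter (fun i => dig b ((q : ℝ) ^ n * x) i ≠
      dig b ((q : ℝ) ^ n * x) (i + 1)) := by
    apply Finset.filter_subset_filter
    apply Finset.range_subset_range.2
    have e : (2 * D + m * (1 + D + q) + 1) * M = D * M + m * ((1 + D + q) * M) + D * M + M := by
      ring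
    rw [e, hB, mul_add]
    omega
  have h6 : ((((Icc (((D * M : ℕ) : ℤ) - D * M) ((B : ℤ) + D * M)).filter
      (fun i => Fa b q r (((b : ℝ) - 1) * x) i n)).card : ℕ) : ℝ) ≤
      L * (((range ((2 * D + m * (1 + D + q) + 1) * M)).filter
        (fun i => dig b ((q : ℝ) ^ n * x) i ≠ dig b ((q : ℝ) ^ n * x) (i + 1))).card : ℝ) := by
    have h7 := h4.trans (Nat.mul_le_mul_left _ (Finset.card_le_card h5))
    have h8 := (Nat.cast_le (α := ℝ)).2 h7
    rw [Nat.cast_mul (α := ℝ)] at h8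
    exact h8
  refine lt_of_le_of_lt h6 ?_
  rcases Nat.eq_zero_or_pos L with hL0 | hL0
  · exfalso
    rw [hL0, pow_zero, div_one] at hL'
    nlinarith
  · have hL0' : (0 : ℝ) < L := by exact_mod_cast hL0
    refine lt_of_lt_of_le ?_ h2
    apply mul_lt_mul_of_pos_left _ hL0'
    linarith [hn.2]

end Pool.Agent.TH461.AL.Rea
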