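import Mathlib
import Pool.Agent.TH461.AL.Stms2
import Pool.Agent.TH419.FS.Core2

set_option autoImplicit false

open Finset Filter Topology

namespace Pool.Agent.TH461.AL.Wd

open Pool.Agent.TH461.AL
open Pool.Agent.H706R2 (dZ)
open Pool.Agent.H705R2

lemma sqrt_half {T : ℕ} (hT : 4 ≤ T) : T / 2 ≤ T - Nat.sqrt T := by
  have h1 := Nat.sqrt_le T
  have h2 : 2 ≤ Nat.sqrt T := Nat.le_sqrt.2 (by omega)
  have h3 : 2 * Nat.sqrt T ≤ T := (Nat.mul_le_mul_right _ h2).trans h1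
  omega

lemma mulIndep {p q : ℕ} (hp : 2 ≤ p) (hq : 2 ≤ q) (hpq : Nat.Coprime p q) : MulIndep p q := by
  intro m n hmn
  have h1 : (p ^ m).Coprime (q ^ n) := Nat.Coprime.pow m n hpq
  rw [hmn, Nat.coprime_self] at h1
  have h2 : n = 0 := by
    by_contra hn
    exact absurd h1 (Nat.one_lt_pow hn (by omega)).ne'
  rw [h2, pow_zero] at hmn
  have h3 : m = 0 := by
    by_contra hm
    exact absurd hmn (Nat.one_lt_pow hm (by omega)).ne'
  exact ⟨h3, h2⟩

lemma le_pow_ceil {p q : ℕ} (hp : 2 ≤ p) (hq : 2 ≤ q) :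
    (q : ℝ) ≤ (p : ℝ) ^ ⌈Real.log q / Real.log p⌉₊ := by
  have hpR : (1 : ℝ) < p := by exact_mod_cast (by omega : 1 < p)
  have hqR : (0 : ℝ) < q := by positivity
  have hlp : 0 < Real.log p := Real.log_pos hpR
  rw [← Real.log_le_log_iff hqR (by positivity), Real.log_pow]
  have h := Nat.le_ceil (Real.log q / Real.log p)
  rwa [div_le_iff₀ hlp] at h

/-- the growth -/
lemma growth {p q : ℕ} (hp : 2 ≤ p) (hq : 2 ≤ q) {L T : ℕ}
    (hT : 2 * (L * L.factorial) + L + 4 ≤ T) :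
    (L : ℝ) * ((q : ℝ) ^ T * L.factorial) ≤
      (p : ℝ) ^ ((⌈Real.log q / Real.log p⌉₊ + 1) * T - Nat.sqrt T) := by
  have hpR : (1 : ℝ) < p := by exact_mod_cast (by omega : 1 < p)
  have h1 := sqrt_half (T := T) (by omega)
  have h2 : L * L.factorial ≤ T - Nat.sqrt T := by omega
  have h3 : L * L.factorial ≤ p ^ (T - Nat.sqrt T) :=
    h2.trans (Nat.lt_pow_self (by omega : 1 < p)).le
  have h4 : ((L : ℝ) * L.factorial) ≤ (p : ℝ) ^ (T - Nat.sqrt T) := by exact_mod_cast h3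
  have h5 : (q : ℝ) ^ T ≤ (p : ℝ) ^ (⌈Real.log q / Real.log p⌉₊ * T) := by
    rw [pow_mul]
    exact pow_le_pow_left₀ (by positivity) (le_pow_ceil hp hq) T
  have h6 : (⌈Real.log q / Real.log p⌉₊ + 1) * T - Nat.sqrt T =
      ⌈Real.log q / Real.log p⌉₊ * T + (T - Nat.sqrt T) := by
    have := Nat.sqrt_le_self T
    rw [add_mul, one_mul]
    omega
  rw [h6, pow_add]
  calc (L : ℝ) * ((q : ℝ) ^ T * L.factorial) = (q : ℝ) ^ T * (L * L.factorial) := by ring
    _ ≤ (p : ℝ) ^ (⌈Real.log q / Real.log p⌉₊ * T) * (p : ℝ) ^ (T - Nat.sqrt T) :=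
        mul_le_mul h5 h4 (by positivity) (by positivity)

/-- the distance from a finite set of points of bounded order -/
lemma far {q : ℕ} (hq : 2 ≤ q) {r θ : ℝ} {F T i : ℕ} (hi : i < T) (hr : r ≤ dZ (F * θ))
    {e : Circ} (he : F • e = 0) :
    r ≤ (q : ℝ) ^ T * F * dist (q ^ i • (((θ / (q : ℝ) ^ (T - 1) : ℝ)) : Circ)) e := by
  have hq0 : (0 : ℝ) < q := by positivity
  have hq1 : (1 : ℝ) ≤ q := by exact_mod_cast (by omega : 1 ≤ q)
  set y : Circ := (((θ / (q : ℝ) ^ (T - 1) : ℝ)) : Circ) with hy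
  have e1 : ((F * θ : ℝ) : Circ) = (q ^ (T - 1 - i) * F) • (q ^ i • y) := by
    rw [hy, ← AddCircle.coe_nsmul, ← AddCircle.coe_nsmul, nsmul_eq_mul, nsmul_eq_mul]
    congr 1
    push_cast
    have e2 : (q : ℝ) ^ (T - 1 - i) * (q : ℝ) ^ i = (q : ℝ) ^ (T - 1) := by
      rw [← pow_add]
      congr 1
      omega
    have e3 : (q : ℝ) ^ (T - 1) ≠ 0 := by positivity
    calc (F : ℝ) * θ = F * ((q : ℝ) ^ (T - 1) * (θ / (q : ℝ) ^ (T - 1))) := by
          rw [mul_div_cancel₀ _ e3]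
      _ = (q : ℝ) ^ (T - 1 - i) * F * ((q : ℝ) ^ i * (θ / (q : ℝ) ^ (T - 1))) := by
          rw [← e2]
          ring
  have e2 : ‖((F * θ : ℝ) : Circ)‖ = dZ (F * θ) := by
    unfold dZ
    exact UnitAddCircle.norm_eq
  have e3 : (q ^ (T - 1 - i) * F) • (q ^ i • y) = (q ^ (T - 1 - i) * F) • (q ^ i • y - e) := by
    rw [smul_sub, mul_smul _ F e, he, smul_zero, sub_zero]
  rw [← e2, e1, e3] at hr
  refine hr.trans (norm_nsmul_le.trans ?_)
  rw [← dist_eq_norm]
  refine mul_le_mul_of_nonneg_right ?_ dist_nonneg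
  push_cast
  refine mul_le_mul_of_nonneg_right ?_ (by positivity)
  exact pow_le_pow_right₀ hq1 (by omega)

lemma card_refl {T : ℕ} {P Q : ℕ → Prop} {dP : DecidablePred P} {dQ : DecidablePred Q}
    (h : ∀ t < T, P t → Q (T - 1 - t)) :
    ((range T).filter P).card ≤ ((range T).filter Q).card := by
  refine Finset.card_le_card_of_injOn (fun t => T - 1 - t) ?_ ?_
  · intro t ht
    obtain ⟨ht1, ht2⟩ := Finset.mem_filter.1 (Finset.mem_coe.1 ht)
    rw [Finset.mem_range] at ht1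
    exact Finset.mem_coe.2 (Finset.mem_filter.2 ⟨Finset.mem_range.2 (by simp only; omega),
      h t ht1 ht2⟩)
  · intro a ha b hb hab
    have h1 := Finset.mem_range.1 (Finset.mem_filter.1 (Finset.mem_coe.1 ha)).1
    have h2 := Finset.mem_range.1 (Finset.mem_filter.1 (Finset.mem_coe.1 hb)).1
    simp only at hab
    omega

theorem word : J7 := by
  intro p q hp hq hpq r hr U hU hUne δ hδ
  by_contra hcon
  push Not at hcon
  choose T hT θ hθ hcard using fun L : ℕ => hcon L.factorial (Nat.factorial_pos L)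
    (2 * (L * L.factorial) + L + 4)
  have hT0 : ∀ L, 0 < T L := fun L => by have := hT L; omega
  have hTt : Tendsto T atTop atTop :=
    tendsto_atTop_mono (fun L => by have := hT L; simp only [id]; omega) tendsto_id
  have hsqt : Tendsto (fun L => Nat.sqrt (T L)) atTop atTop := by
    refine tendsto_atTop.2 fun r => ?_
    filter_upwards [hTt.eventually_ge_atTop (r * r)] with L hL
    exact Nat.le_sqrt.2 hL
  obtain ⟨L, hL⟩ := Pool.Agent.TH419.FS.core_seq hp hq (mulIndep hp hq hpq) hU hUne hδ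
    (fun L => (((θ L / (q : ℝ) ^ (T L - 1) : ℝ)) : Circ)) (fun _ => 0) T
    (fun L => (⌈Real.log q / Real.log p⌉₊ + 1) * T L) (fun L => Nat.sqrt (T L)) hT0 hTt hsqt
    (fun L => by
      have h1 := Nat.sqrt_le_self (T L)
      have h2 : T L ≤ (⌈Real.log q / Real.log p⌉₊ + 1) * T L :=
        Nat.le_mul_of_pos_left _ (Nat.succ_pos _)
      exact h1.trans h2)
    (by
      intro E hE hEinv c hc
      obtain ⟨n0, hn01, hn0E⟩ := Pool.Agent.TH419.FS.common_order hp hE hEinv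
      have h0 : ∀ᶠ L : ℕ in atTop, c / r ≤ L := tendsto_natCast_atTop_atTop.eventually_ge_atTop _
      filter_upwards [eventually_ge_atTop n0, h0] with L h1 h2
      intro i hi e he
      have h3 : L.factorial • e = 0 := by
        obtain ⟨k, hk⟩ := Nat.dvd_factorial hn01 h1
        rw [hk, mul_comm, mul_smul, hn0E e he, smul_zero]
      have h4 := far (T := T L) hq hi (hθ L) h3
      have h5 := growth hp hq (hT L)
      rw [zero_add]
      have h6 := mul_le_mul_of_nonneg_right h5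
        (dist_nonneg (x := q ^ i • (((θ L / (q : ℝ) ^ (T L - 1) : ℝ)) : Circ)) (y := e))
      refine le_trans ?_ h6
      rw [div_le_iff₀ hr] at h2
      have h7 := mul_le_mul_of_nonneg_left h4 (Nat.cast_nonneg (α := ℝ) L)
      linarith)
  refine absurd hL (not_le.2 (lt_of_lt_of_le (hcard L) ?_))
  norm_cast
  refine card_refl fun t ht h j hj => ?_
  have h1 := h j hj
  have h2 : p ^ j • q ^ (0 + (T L - 1 - t)) • (((θ L / (q : ℝ) ^ (T L - 1) : ℝ)) : Circ) =
      ((θ L * (p : ℝ) ^ j / (q : ℝ) ^ t : ℝ) : Circ) := by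
    rw [← AddCircle.coe_nsmul, ← AddCircle.coe_nsmul, nsmul_eq_mul, nsmul_eq_mul]
    congr 1
    push_cast
    have e2 : (q : ℝ) ^ (T L - 1 - t) * (q : ℝ) ^ t = (q : ℝ) ^ (T L - 1) := by
      rw [← pow_add]
      congr 1
      omega
    have e3 : (q : ℝ) ^ t ≠ 0 := by positivity
    have e4 : (q : ℝ) ^ (T L - 1 - t) ≠ 0 := by positivity
    rw [zero_add, ← e2]
    field_simp
  rw [h2]
  exact h1

end Pool.Agent.TH461.AL.Wd
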