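import Mathlib
import Pool.Agent.TH461.AL.Core
import Pool.Agent.TH461.AL.Rea
import Pool.Agent.TH461.AL.Wd
import Pool.Agent.TH461.AL.Last

/-!
Project AL: words in the multiples `q ^ n x` for almost all `n`.
-/

set_option autoImplicit false

open Finset Filter Topology

namespace Pool.Agent.TH461.AL.Nl

open Pool.Agent.TH461.AL
open Pool.Agent.H706R2 (dZ round_run)

/-- the set of the points whose digits begin with `1` and then the word with value `W` -/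
def UW (b k W : ℕ) : Set UnitAddCircle := (fun z : ℝ => (z : UnitAddCircle)) ''
  Set.Ioo (((b : ℝ) ^ k + W) / (b : ℝ) ^ (k + 1)) (((b : ℝ) ^ k + W + 1) / (b : ℝ) ^ (k + 1))

lemma isOpen_UW (b k W : ℕ) : IsOpen (UW b k W) := by
  have : IsOpenMap (fun z : ℝ => (z : UnitAddCircle)) := QuotientAddGroup.isOpenMap_coe
  exact this _ isOpen_Ioo

lemma nonempty_UW {b : ℕ} (hb : 2 ≤ b) (k W : ℕ) : (UW b k W).Nonempty := by
  have hb0 : (0 : ℝ) < b := by positivity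
  refine ⟨((((b : ℝ) ^ k + W + 1 / 2) / (b : ℝ) ^ (k + 1) : ℝ) : UnitAddCircle), _, ⟨?_, ?_⟩, rfl⟩
  · apply div_lt_div_of_pos_right _ (by positivity)
    linarith
  · apply div_lt_div_of_pos_right _ (by positivity)
    linarith

/-- a point in `UW` -/
lemma mem_UW {b k W : ℕ} (hb : 2 ≤ b) {y : ℝ} (h : (y : UnitAddCircle) ∈ UW b k W) :
    ∃ m : ℤ, ⌊(b : ℝ) ^ (k + 1) * y⌋ = (b : ℤ) ^ k + W + (b : ℤ) ^ (k + 1) * m := by
  have hb0 : (0 : ℝ) < b := by positivity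
  obtain ⟨z, ⟨hz1, hz2⟩, hz⟩ := h
  simp only at hz
  rw [← sub_eq_zero, ← AddCircle.coe_sub, AddCircle.coe_eq_zero_iff] at hz
  obtain ⟨n, hn⟩ := hz
  simp only [zsmul_eq_mul, mul_one] at hn
  refine ⟨-n, ?_⟩
  rw [div_lt_iff₀ (by positivity)] at hz1
  rw [lt_div_iff₀ (by positivity)] at hz2
  have e : (b : ℝ) ^ (k + 1) * y = (b : ℝ) ^ (k + 1) * z + (((b : ℤ) ^ (k + 1) * -n : ℤ) : ℝ) := by
    push_cast
    linear_combination ((b : ℝ) ^ (k + 1)) * hn
  rw [e, Int.floor_add_intCast]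
  congr 1
  rw [Int.floor_eq_iff]
  push_cast
  constructor <;> linarith

/-- the word after the digit `1` -/
lemma word_of_mem {b k W : ℕ} (hb : 2 ≤ b) (hW : W < b ^ k) {y : ℝ}
    (h : (y : UnitAddCircle) ∈ UW b k W) : ⌊(b : ℝ) ^ (k + 1) * y⌋ % ((b : ℤ) ^ k) = W := by
  obtain ⟨m, hm⟩ := mem_UW hb h
  rw [hm, pow_succ]
  have e : (b : ℤ) ^ k + W + (b : ℤ) ^ k * b * m = W + (b : ℤ) ^ k * (1 + b * m) := by ring
  rw [e, Int.add_mul_emod_self_left]
  exact Int.emod_eq_of_lt (by positivity) (by exact_mod_cast hW)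

/-- every line has a far cell in a window, for the multiple `N x` -/
lemma exists_far {b q N : ℕ} (hb : 2 ≤ b) (hq : 2 ≤ q) {r : ℝ} (hrb : ((b : ℝ) + 1) * r ≤ 1)
    {x : ℝ} {m : ℕ} (hm : ∀ Q : ℕ, 2 ≤ Q → 1 / (Q : ℝ) ^ m ≤ dZ ((Q : ℝ) * x))
    (D M : ℕ) (hN : 1 ≤ N) (hM : N ≤ b ^ M) (t : ℕ) (ht : t < M) :
    ∃ i : ℤ, ((D * M : ℕ) : ℤ) ≤ i ∧ i ≤ ((D * M + (m * ((1 + D + q) * M + 1) + 1) : ℕ) : ℤ) ∧
      Fa b q r (N * x) i t := by
  have hbR : (2 : ℝ) ≤ b := by exact_mod_cast hb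
  have hb0 : (0 : ℝ) < b := by positivity
  have hr1 : r < 1 := by nlinarith
  by_contra hcon
  push Not at hcon
  set A : ℕ := m * ((1 + D + q) * M + 1) + 1 with hA
  set z : ℝ := (N : ℝ) * x * (b : ℝ) ^ (D * M) * (q : ℝ) ^ t with hz
  have hnear : ∀ k ≤ A, dZ ((b : ℝ) ^ k * z) < r := by
    intro k hk
    have h1 := hcon ((D * M + k : ℕ) : ℤ) (by exact_mod_cast Nat.le_add_right _ _)
      (by exact_mod_cast Nat.add_le_add_left hk _)
    unfold Fa at h1
    push Not at h1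
    have e : (N : ℝ) * x * (b : ℝ) ^ ((D * M + k : ℕ) : ℤ) * (q : ℝ) ^ ((t : ℕ) : ℤ) =
        (b : ℝ) ^ k * z := by
      rw [zpow_natCast, zpow_natCast, hz, pow_add]
      ring
    rw [e] at h1
    exact h1
  have h1 := round_run hrb A hnear
  have h2 := hnear A le_rfl
  set Q : ℕ := N * b ^ (D * M) * q ^ t * b with hQ
  have hQ2 : 2 ≤ Q := by
    have h3 : 1 ≤ N * b ^ (D * M) * q ^ t := by
      have h4 : 0 < N * b ^ (D * M) * q ^ t := by
        have : 0 < N := by omega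
        positivity
      exact h4
    rw [hQ]
    calc 2 ≤ 1 * b := by omega
      _ ≤ _ := Nat.mul_le_mul_right _ h3
  have hQle : Q ≤ b ^ ((1 + D + q) * M + 1) := by
    have h4 : q ^ t ≤ b ^ (q * M) := by
      calc q ^ t ≤ q ^ M := Nat.pow_le_pow_right (by omega) ht.le
        _ ≤ (b ^ q) ^ M := by
            apply Nat.pow_le_pow_left
            exact (Nat.lt_pow_self (by omega : 1 < b)).le
        _ = b ^ (q * M) := by rw [← pow_mul]
    calc Q ≤ b ^ M * b ^ (D * M) * b ^ (q * M) * b := by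
          rw [hQ]
          gcongr
      _ = b ^ ((1 + D + q) * M + 1) := by
          rw [← pow_add, ← pow_add, ← pow_succ]
          congr 1
          ring
  have h3 := hm Q hQ2
  have hQz : (Q : ℝ) * x = (b : ℝ) * z := by
    rw [hQ, hz]
    push_cast
    ring
  have h4 : dZ ((b : ℝ) * z) ≤ b * dZ z := by
    have h5 := Pool.Agent.H706R2.dZ_le_of_int ((b : ℝ) * z) ((b : ℤ) * round z)
    refine h5.trans (le_of_eq ?_)
    unfold dZ
    push_cast
    rw [← mul_sub, abs_mul, abs_of_pos hb0]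
  have h5 : (b : ℝ) ^ A * dZ z < r := by
    unfold dZ at h2
    rw [h1] at h2
    push_cast at h2
    rw [← mul_sub, abs_mul, abs_of_pos (by positivity)] at h2
    exact h2
  have h6 : 1 / (Q : ℝ) ^ m ≤ b * dZ z := by
    rw [hQz] at h3
    exact h3.trans h4
  have hQ0 : (0 : ℝ) < Q := by exact_mod_cast (by omega : 0 < Q)
  rw [div_le_iff₀ (by positivity)] at h6
  have h7 : (Q : ℝ) ^ m ≤ ((b : ℝ) ^ ((1 + D + q) * M + 1)) ^ m := by
    apply pow_le_pow_left₀ hQ0.le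
    exact_mod_cast hQle
  have h8 : 0 ≤ dZ z := abs_nonneg _
  have h9 : 1 ≤ b * dZ z * ((b : ℝ) ^ ((1 + D + q) * M + 1)) ^ m := by
    refine h6.trans ?_
    apply mul_le_mul_of_nonneg_left h7 (by positivity)
  have h10 : b * dZ z * ((b : ℝ) ^ ((1 + D + q) * M + 1)) ^ m = (b : ℝ) ^ A * dZ z := by
    rw [← pow_mul, hA, pow_succ, mul_comm ((1 + D + q) * M + 1) m]
    ring
  rw [h10] at h9
  linarith

open Classical in
/-- combining finitely many words -/
lemma union_words {k b : ℕ} (P : ℕ → ℕ → ℕ → Prop) {δ : ℝ} (hδ : 0 < δ)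
    (h : ∀ W < b ^ k, ∀ δ' : ℝ, 0 < δ' → ∃ M0 : ℕ, ∀ M : ℕ, M0 ≤ M →
      (((range M).filter (fun n : ℕ => ¬ P W M n)).card : ℝ) ≤ δ' * M) :
    ∃ M0 : ℕ, ∀ M : ℕ, M0 ≤ M →
      (((range M).filter (fun n : ℕ => ¬ ∀ W < b ^ k, P W M n)).card : ℝ) ≤ δ * M := by
  choose! M0 hM0 using fun W (hW : W < b ^ k) =>
    h W hW (δ / (b ^ k + 1)) (by positivity)
  refine ⟨∑ W ∈ range (b ^ k), M0 W, fun M hM => ?_⟩
  have hsub : (range M).filter (fun n : ℕ => ¬ ∀ W < b ^ k, P W M n) ⊆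
      (range (b ^ k)).biUnion (fun W => (range M).filter (fun n : ℕ => ¬ P W M n)) := by
    intro n hn
    rw [Finset.mem_filter] at hn
    obtain ⟨h1, h2⟩ := hn
    push Not at h2
    obtain ⟨W, hW, hP⟩ := h2
    exact Finset.mem_biUnion.2 ⟨W, Finset.mem_range.2 hW, Finset.mem_filter.2 ⟨h1, hP⟩⟩
  refine le_trans (Nat.cast_le.2 (Finset.card_le_card hsub)) ?_
  refine le_trans (Nat.cast_le.2 Finset.card_biUnion_le) ?_
  rw [Nat.cast_sum]
  refine (Finset.sum_le_sum (g := fun _ => δ / (b ^ k + 1) * (M : ℝ)) fun W hW => ?_).trans ?_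
  · rw [Finset.mem_range] at hW
    refine hM0 W hW M (le_trans ?_ hM)
    exact Finset.single_le_sum (f := M0) (fun _ _ => Nat.zero_le _) (Finset.mem_range.2 hW)
  · rw [Finset.sum_const, Finset.card_range, nsmul_eq_mul]
    push_cast
    have e : (b : ℝ) ^ k * (δ / ((b : ℝ) ^ k + 1) * M) = δ * M * ((b : ℝ) ^ k / ((b : ℝ) ^ k + 1)) := by
      field_simp
    rw [e]
    have h1 : (b : ℝ) ^ k / ((b : ℝ) ^ k + 1) ≤ 1 := by
      rw [div_le_one (by positivity)]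
      linarith
    have h2 : 0 ≤ δ * M := by positivity
    nlinarith

open Classical in
/-- **Words in the multiples `q ^ n x` for almost all `n`.** -/
theorem nl_words {b q : ℕ} (hb : 2 ≤ b) (hq : 2 ≤ q) (hco : Nat.Coprime b q) {x : ℝ}
    (hx : Irrational x) (hL : ¬ Liouville x) :
    ∃ C : ℕ, ∀ (k : ℕ) (ε δ : ℝ), 0 < ε → 0 < δ → ∃ M0 : ℕ, ∀ M : ℕ, M0 ≤ M →
      (((range M).filter (fun n : ℕ => ¬ ∀ W < b ^ k, (M : ℝ) ^ (1 - ε) ≤
        (((range (C * M)).filter (fun i : ℕ =>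
          ⌊(b : ℝ) ^ (i + k) * ((q : ℝ) ^ n * x)⌋ % ((b : ℤ) ^ k) = (W : ℤ))).card : ℝ))).card : ℝ)
        ≤ δ * M := by
  obtain ⟨m, hm⟩ := Rea.dio hx hL
  set r : ℝ := 1 / ((b : ℝ) + q + 1) with hr
  have hden : (0 : ℝ) < (b : ℝ) + q + 1 := by positivity
  have hr0 : 0 < r := by positivity
  have hrb : ((b : ℝ) + 1) * r ≤ 1 := by
    rw [hr, mul_one_div, div_le_one hden]
    have : (0 : ℝ) ≤ q := Nat.cast_nonneg _
    linarith
  have hrq : ((q : ℝ) + 1) * r ≤ 1 := by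
    rw [hr, mul_one_div, div_le_one hden]
    have : (0 : ℝ) ≤ b := Nat.cast_nonneg _
    linarith
  obtain ⟨D, hD⟩ := Core.core Wd.word Last.last hb hq hco hr0 hrb hrq
  refine ⟨2 * D + m * (1 + D + q) + 1, fun k ε δ hε hδ => ?_⟩
  refine union_words (b := b) (k := k) (fun W M n => (M : ℝ) ^ (1 - ε) ≤
        (((range ((2 * D + m * (1 + D + q) + 1) * M)).filter (fun i : ℕ =>
          ⌊(b : ℝ) ^ (i + k) * ((q : ℝ) ^ n * x)⌋ % ((b : ℤ) ^ k) = (W : ℤ))).card : ℝ)) hδ ?_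
  intro W hW δ' hδ'
  obtain ⟨N, hN1, hN⟩ := hD (UW b k W) (isOpen_UW b k W) (nonempty_UW hb k W) ε δ' hε hδ'
  obtain ⟨M1, hM1⟩ := hN (m * (1 + D + q) + m + 1)
  refine ⟨max (max M1 N) (m + 4), fun M hMM => ?_⟩
  have hMM1 : M1 ≤ M := (le_max_left _ _).trans ((le_max_left _ _).trans hMM)
  have hMM2 : N ≤ M := (le_max_right _ _).trans ((le_max_left _ _).trans hMM)
  have hMM3 : m + 4 ≤ M := (le_max_right _ _).trans hMM
  have hNb : N ≤ b ^ M := hMM2.trans (Nat.lt_pow_self (by omega : 1 < b)).le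
  set B : ℕ := D * M + (m * ((1 + D + q) * M + 1) + 1) with hB
  have hBM : B + D * M + 2 ≤ (2 * D + m * (1 + D + q) + 1) * M := by
    have e : (2 * D + m * (1 + D + q) + 1) * M = D * M + m * ((1 + D + q) * M) + D * M + M := by
      ring
    rw [e, hB, mul_add]
    omega
  have h1 := hM1 M hMM1 x 0 ((D * M : ℕ) : ℤ) (B : ℤ) (by
      have e : B = D * M + (m * ((1 + D + q) * M + 1) + 1) := hB
      have h2 : m * ((1 + D + q) * M + 1) + 1 ≤ (m * (1 + D + q) + m + 1) * M := by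
        have e2 : (m * (1 + D + q) + m + 1) * M = m * ((1 + D + q) * M) + m * M + M := by ring
        rw [e2, mul_add]
        have : m * 1 ≤ m * M := Nat.mul_le_mul_left _ (by omega)
        omega
      have h3 : (B : ℤ) = ((D * M : ℕ) : ℤ) + ((m * ((1 + D + q) * M + 1) + 1 : ℕ) : ℤ) := by
        rw [e, Nat.cast_add (D * M)]
      rw [h3]
      have h4 : ((m * ((1 + D + q) * M + 1) + 1 : ℕ) : ℤ) ≤
          (((m * (1 + D + q) + m + 1) * M : ℕ) : ℤ) := by exact_mod_cast h2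
      rw [Nat.cast_mul (m * (1 + D + q) + m + 1)] at h4
      linarith) (by
    intro t ht
    obtain ⟨i, h1, h2, h3⟩ := exists_far hb hq hrb hm D M hN1 hNb t ht
    exact ⟨i, h1, h2, by rw [zero_add]; exact h3⟩)
  refine le_trans ?_ h1
  apply Nat.cast_le.2
  apply Finset.card_le_card
  intro n hn
  rw [Finset.mem_filter] at hn ⊢
  refine ⟨hn.1, lt_of_le_of_lt ?_ (not_le.1 hn.2)⟩
  -- from the cells in `UW` to the words
  apply Nat.cast_le.2
  refine Finset.card_le_card_of_injOn (fun i : ℤ => (i + 1).toNat) ?_ ?_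
  · intro i hi
    simp only [Finset.coe_filter, Set.mem_ofPred_eq, Finset.mem_Icc] at hi
    obtain ⟨⟨h2, h3⟩, h4⟩ := hi
    have hi0 : 0 ≤ i := by
      push_cast at h2
      linarith
    simp only [Finset.coe_filter, Set.mem_ofPred_eq, Finset.mem_range]
    refine ⟨?_, ?_⟩
    · have h5 : i ≤ ((B + D * M : ℕ) : ℤ) := by push_cast; exact h3
      omega
    · obtain ⟨j, rfl⟩ := Int.eq_ofNat_of_zero_le hi0
      have h5 := word_of_mem hb hW h4
      rw [zero_add, zpow_natCast] at h5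
      have e1 : (b : ℝ) ^ ((j : ℕ) : ℤ) = (b : ℝ) ^ j := zpow_natCast _ _
      have e2 : (((j : ℕ) : ℤ) + 1).toNat = j + 1 := by omega
      rw [e2]
      have e3 : (b : ℝ) ^ (j + 1 + k) * ((q : ℝ) ^ n * x) =
          (b : ℝ) ^ (k + 1) * (x * (b : ℝ) ^ ((j : ℕ) : ℤ) * (q : ℝ) ^ n) := by
        rw [e1]; ring
      rw [e3]
      exact h5
  · intro i hi i' hi' h
    simp only [Finset.coe_filter, Set.mem_ofPred_eq, Finset.mem_Icc] at hi hi'
    obtain ⟨⟨h2, h3⟩, h4⟩ := hi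
    obtain ⟨⟨h5, h6⟩, h7⟩ := hi'
    push_cast at h2 h5
    simp only at h
    have h8 : 0 ≤ i := by linarith
    have h9 : 0 ≤ i' := by linarith
    omega

end Pool.Agent.TH461.AL.Nl
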