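import Mathlib
import Pool.Agent.TH461.AL.Stms3
import Pool.Agent.TH419.FS.RidPow

/-!
Project AL: far cells in all windows for powers (helper347).
-/

set_option autoImplicit false

open Finset Filter Topology

namespace Pool.Agent.TH461.AL.Pw

open Pool.Agent.TH461.AL
open Pool.Agent.H706R2 (dZ round_run)

theorem pw : J11 := by
  intro p q hp hq hpq r hr hrp m hm N hN η hη
  have hpR : (2 : ℝ) ≤ p := by exact_mod_cast hp
  have hqR : (2 : ℝ) ≤ q := by exact_mod_cast hq
  have hp0 : (0 : ℝ) < p := by linarith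
  have hq0 : (0 : ℝ) < q := by linarith
  have hlp : 0 < Real.log p := Real.log_pos (by linarith)
  have hlq : 0 < Real.log q := Real.log_pos (by linarith)
  have hr1 : r ≤ 1 := by nlinarith
  obtain ⟨n0, hn0⟩ : ∃ n0 : ℕ, n0 = N * m := ⟨_, rfl⟩
  have hn01 : 1 ≤ n0 := by
    rw [hn0]
    exact Nat.mul_pos hN hm
  have hn0R : (n0 : ℝ) = N * m := by rw [hn0]; push_cast; ring
  obtain ⟨κ, hκ, hrid⟩ := Pool.Agent.TH419.FS.ridout_pow hp hq hpq n0 hn01
    (η * Real.log p / (4 * Real.log q)) (by positivity)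
  have hηp : 0 < η * Real.log p := by positivity
  obtain ⟨M1, hM1⟩ := exists_nat_gt ((2 * |Real.log κ| + Real.log n0 + 1) / (η * Real.log p))
  rw [div_lt_iff₀ hηp] at hM1
  refine ⟨M1, fun M hM n hn u v hu hv huv => ?_⟩
  have hMR : (M1 : ℝ) ≤ M := by exact_mod_cast hM
  have hbig : 2 * |Real.log κ| + Real.log n0 + 1 < M * (η * Real.log p) :=
    lt_of_lt_of_le hM1 (mul_le_mul_of_nonneg_right hMR hηp.le)
  have hlogn0 : 0 ≤ Real.log n0 := Real.log_natCast_nonneg n0
  have habs : 0 ≤ |Real.log κ| := abs_nonneg _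
  have hMpos : 0 < (M : ℝ) := by
    by_contra h
    push Not at h
    have : (M : ℝ) * (η * Real.log p) ≤ 0 := mul_nonpos_of_nonpos_of_nonneg h hηp.le
    linarith
  have huv0 : (0 : ℝ) < (v : ℝ) - u := lt_of_lt_of_le (by positivity) huv
  have huv1 : u < v := by exact_mod_cast sub_pos.1 huv0
  by_contra hcon
  push Not at hcon
  obtain ⟨ν, hν⟩ : ∃ ν : ℕ, u = -(ν : ℤ) := ⟨(-u).toNat, by omega⟩
  obtain ⟨K, hK⟩ : ∃ K : ℕ, v = u + K := ⟨(v - u).toNat, by omega⟩
  have hνle : ν ≤ ⌊(n : ℝ) * (Real.log q / Real.log p)⌋₊ := by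
    rw [hν] at hu
    exact_mod_cast neg_le_neg_iff.1 hu
  have hpow : (p : ℝ) ^ ν ≤ (q : ℝ) ^ n := by
    have h1 : (ν : ℝ) ≤ n * (Real.log q / Real.log p) :=
      (Nat.le_floor_iff (by positivity)).1 hνle
    have h2 : (ν : ℝ) * Real.log p ≤ n * Real.log q := by
      have h3 := mul_le_mul_of_nonneg_right h1 hlp.le
      have h4 : (n : ℝ) * (Real.log q / Real.log p) * Real.log p = n * Real.log q := by
        field_simp
      linarith
    rw [← Real.log_le_log_iff (by positivity) (by positivity), Real.log_pow, Real.log_pow]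
    exact h2
  obtain ⟨z, hz⟩ : ∃ z : ℝ, z = (n0 : ℝ) * (q : ℝ) ^ n / (p : ℝ) ^ ν := ⟨_, rfl⟩
  have hnear : ∀ k ≤ K, dZ ((p : ℝ) ^ k * z) < r := by
    intro k hk
    have h1 := hcon (u + k) (by omega) (by omega)
    unfold Fa at h1
    push Not at h1
    have e : ((N : ℝ) * (m : ℝ)) * (p : ℝ) ^ (u + (k : ℤ)) * (q : ℝ) ^ ((n : ℕ) : ℤ) =
        (p : ℝ) ^ k * z := by
      rw [hν, zpow_add₀ hp0.ne', zpow_neg, zpow_natCast, zpow_natCast, zpow_natCast, hz, hn0R]
      field_simp
    rw [e] at h1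
    exact h1
  have h1 := round_run hrp K hnear
  have h2 := hnear K le_rfl
  have h3 : |z - round z| * (p : ℝ) ^ K < r := by
    unfold dZ at h2
    rw [h1] at h2
    have e : (p : ℝ) ^ K * z - (((p : ℤ) ^ K * round z : ℤ) : ℝ) =
        (p : ℝ) ^ K * (z - round z) := by
      push_cast
      ring
    rw [e, abs_mul, abs_of_pos (pow_pos hp0 K), mul_comm] at h2
    exact h2
  have hKM : η * M ≤ K := by
    have e : (v : ℝ) - u = K := by
      rw [hK]
      push_cast
      ring
    rw [e] at huv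
    exact huv
  have hpK : Real.exp (M * (η * Real.log p)) ≤ (p : ℝ) ^ K := by
    rw [← Real.exp_log (pow_pos hp0 K), Real.log_pow]
    apply Real.exp_le_exp.2
    calc (M : ℝ) * (η * Real.log p) = η * M * Real.log p := by ring
      _ ≤ K * Real.log p := mul_le_mul_of_nonneg_right hKM hlp.le
  have hne : (n0 : ℤ) * (q : ℤ) ^ n ≠ round z * (p : ℤ) ^ ν := by
    intro heq
    have hdvd : ((p : ℤ) ^ ν) ∣ (n0 : ℤ) * (q : ℤ) ^ n := ⟨round z, by rw [heq]; ring⟩
    have hcop : IsCoprime ((p : ℤ) ^ ν) ((q : ℤ) ^ n) := (Nat.isCoprime_iff_coprime.2 hpq).pow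
    have h5 : ((p : ℤ) ^ ν) ∣ (n0 : ℤ) := hcop.dvd_of_dvd_mul_right hdvd
    have h6 : p ^ ν ∣ n0 := by exact_mod_cast h5
    have h7 : p ^ ν ≤ n0 := Nat.le_of_dvd hn01 h6
    have h8 : K ≤ ν := by omega
    have h9 : (p : ℝ) ^ K ≤ n0 :=
      (pow_le_pow_right₀ (by linarith) h8).trans (by exact_mod_cast h7)
    have h10 : (M : ℝ) * (η * Real.log p) ≤ Real.log n0 :=
      (Real.le_log_iff_exp_le (by exact_mod_cast hn01)).2 (hpK.trans h9)
    linarith
  have h4 := hrid ν n (round z) hpow hne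
  rw [← hz] at h4
  have h5 : ((q : ℝ) ^ n) ^ (η * Real.log p / (4 * Real.log q)) ≤
      Real.exp (M * (η * Real.log p) / 2) := by
    rw [Real.rpow_def_of_pos (by positivity), Real.log_pow]
    apply Real.exp_le_exp.2
    have e : (n : ℝ) * Real.log q * (η * Real.log p / (4 * Real.log q)) =
        n * (η * Real.log p) / 4 := by
      field_simp
    rw [e]
    have hn' : (n : ℝ) ≤ 2 * M := by exact_mod_cast hn.le
    have h6 := mul_le_mul_of_nonneg_right hn' hηp.le
    linarith
  have h6 : |z - round z| < Real.exp (-(M * (η * Real.log p))) := by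
    rw [Real.exp_neg, ← one_div, lt_div_iff₀ (Real.exp_pos _)]
    calc |z - round z| * Real.exp (M * (η * Real.log p)) ≤ |z - round z| * (p : ℝ) ^ K :=
          mul_le_mul_of_nonneg_left hpK (abs_nonneg _)
      _ < r := h3
      _ ≤ 1 := hr1
  have h7 : κ < κ := by
    calc κ ≤ ((q : ℝ) ^ n) ^ (η * Real.log p / (4 * Real.log q)) * |z - round z| := h4
      _ ≤ Real.exp (M * (η * Real.log p) / 2) * |z - round z| :=
          mul_le_mul_of_nonneg_right h5 (abs_nonneg _)
      _ < Real.exp (M * (η * Real.log p) / 2) * Real.exp (-(M * (η * Real.log p))) :=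
          mul_lt_mul_of_pos_left h6 (Real.exp_pos _)
      _ = Real.exp (-(M * (η * Real.log p) / 2)) := by
          rw [← Real.exp_add]
          congr 1
          ring
      _ ≤ Real.exp (Real.log κ) := by
          apply Real.exp_le_exp.2
          have := neg_abs_le (Real.log κ)
          linarith
      _ = κ := Real.exp_log hκ
  exact lt_irrefl _ h7

end Pool.Agent.TH461.AL.Pw
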