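import Mathlib
import Pool.Agent.TH461.AL.Stms3
import Pool.Agent.TH461.AL.Dn

/-!
Project AL: all windows, and all intervals of `M` consecutive lines (uniformly in their position).
-/

set_option autoImplicit false

open Finset Filter Topology

namespace Pool.Agent.TH461.AL.Uni

open Pool.Agent.TH461.AL

lemma mono_dec {L : ℕ → ℤ} {κ : ℕ} (hL : ∀ n, L (n + 1) ≤ L n ∧ L n ≤ L (n + 1) + κ) (n t : ℕ) :
    L (n + t) ≤ L n ∧ L n ≤ L (n + t) + κ * t := by
  induction t with
  | zero => simp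
  | succ t ih =>
    obtain ⟨h1, h2⟩ := hL (n + t)
    rw [← add_assoc]
    push_cast
    constructor
    · linarith
    · linarith

lemma mono_inc {H : ℕ → ℤ} {κ : ℕ} (hH : ∀ n, H n ≤ H (n + 1) ∧ H (n + 1) ≤ H n + κ) (n t : ℕ) :
    H n ≤ H (n + t) ∧ H (n + t) ≤ H n + κ * t := by
  induction t with
  | zero => simp
  | succ t ih =>
    obtain ⟨h1, h2⟩ := hH (n + t)
    rw [← add_assoc]
    push_cast
    constructor
    · linarith
    · linarith

open Classical in
/-- one piece, in the case of lines far up -/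
lemma piece {p q : ℕ} {r : ℝ} {D k0 : ℕ} {θ : ℝ} {U : Set UnitAddCircle} {ε δ : ℝ} {N M0 : ℕ}
    (hdown : ∀ ϑ : ℝ, Down (Fa p q r ϑ) k0)
    (hcore : ∀ M : ℕ, M0 ≤ M → ∀ (θ : ℝ) (J a b : ℤ),
        b - a ≤ ((k0 + 1 : ℕ) : ℤ) * M →
        (∀ t : ℕ, t < M → ∃ i : ℤ, a ≤ i ∧ i ≤ b ∧ Fa p q r (N * θ) i (J + t)) →
          (((range M).filter (fun t : ℕ =>
            (((Icc (a - D * M) (b + D * M)).filter (fun i : ℤ =>
              ((θ * (p : ℝ) ^ i * (q : ℝ) ^ (J + t) : ℝ) : UnitAddCircle) ∈ U)).card : ℝ) <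
                (M : ℝ) ^ (1 - ε))).card : ℝ) ≤ δ * M)
    {M J : ℕ} (hM : M0 ≤ M) (hM1 : 1 ≤ M) {u v i0 : ℤ} (h1 : u + D * M ≤ i0)
    (h2 : i0 + (k0 + 1) * M + D * M ≤ v) (h3 : Fa p q r (N * θ) i0 ((J + (M - 1) : ℕ) : ℤ)) :
    (((range M).filter (fun t : ℕ => (((Icc u v).filter (fun i : ℤ =>
        ((θ * (p : ℝ) ^ i * (q : ℝ) ^ ((J + t : ℕ) : ℤ) : ℝ) : UnitAddCircle) ∈ U)).card : ℝ) <
          (M : ℝ) ^ (1 - ε))).card : ℝ) ≤ δ * M := by
  have hMZ : (1 : ℤ) ≤ M := by exact_mod_cast hM1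
  have key := hcore M hM θ J i0 (i0 + (k0 * M + 1)) (by
    push_cast
    linarith) (by
    intro t ht
    obtain ⟨i', h4, h5, h6⟩ := hdown (N * θ) i0 _ h3 (M - 1 - t)
    refine ⟨i', h4, ?_, ?_⟩
    · refine h5.trans ?_
      have h7 : (k0 : ℤ) * ((M - 1 - t : ℕ) : ℤ) ≤ k0 * M := by
        apply mul_le_mul_of_nonneg_left _ (Int.natCast_nonneg _)
        exact_mod_cast (by omega : M - 1 - t ≤ M)
      linarith
    · have e : ((J + (M - 1) : ℕ) : ℤ) - ((M - 1 - t : ℕ) : ℤ) = (J : ℤ) + t := by omega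
      rw [e] at h6
      exact h6)
  refine le_trans ?_ key
  apply Nat.cast_le.2
  apply Finset.card_le_card
  intro t ht
  rw [Finset.mem_filter] at ht ⊢
  refine ⟨ht.1, lt_of_le_of_lt ?_ ht.2⟩
  apply Nat.cast_le.2
  apply Finset.card_le_card
  intro i hi
  rw [Finset.mem_filter, Finset.mem_Icc] at hi ⊢
  refine ⟨⟨by linarith [hi.1.1], by linarith [hi.1.2]⟩, ?_⟩
  have e : ((J + t : ℕ) : ℤ) = (J : ℤ) + t := by push_cast; ring
  rw [e]
  exact hi.2

open Classical in
/-- **all windows, uniformly in the position of the `M` lines** -/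
theorem uni (h9 : J9) {p q : ℕ} {r : ℝ} {D k0 : ℕ} (hcore : CoreProp p q r D)
    (hdown : ∀ ϑ : ℝ, Down (Fa p q r ϑ) k0) (θ : ℝ) (L Hh : ℕ → ℤ)
    (κ0 R : ℕ) (hL : ∀ n, L (n + 1) ≤ L n ∧ L n ≤ L (n + 1) + κ0)
    (hH : ∀ n, Hh n ≤ Hh (n + 1) ∧ Hh (n + 1) ≤ Hh n + κ0)
    (hR : ∀ M : ℕ, 1 ≤ M → Hh M - L (2 * M) ≤ R * M)
    (hfar : ∀ (N : ℕ) (_ : 1 ≤ N) (η : ℝ) (_ : 0 < η), ∃ M1 : ℕ, ∀ M : ℕ, M1 ≤ M →
      ∀ n : ℕ, n < 2 * M → ∀ u v : ℤ, L n ≤ u → v ≤ Hh M → η * M ≤ (v : ℝ) - u →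
        ∃ i : ℤ, u ≤ i ∧ i ≤ v ∧ Fa p q r (N * θ) i n)
    (U : Set UnitAddCircle) (hU : IsOpen U) (hUne : U.Nonempty) {ε δ η : ℝ} (hε : 0 < ε)
    (hδ : 0 < δ) (hη : 0 < η) :
    ∃ M0 : ℕ, ∀ M : ℕ, M0 ≤ M → ∀ J : ℕ,
      (((range M).filter (fun t : ℕ => ∃ u v : ℤ, L (J + t) ≤ u ∧ v ≤ Hh (J + M) ∧
        η * ((J : ℝ) + M) ≤ (v : ℝ) - u ∧ (((Icc u v).filter (fun i : ℤ =>
          ((θ * (p : ℝ) ^ i * (q : ℝ) ^ ((J + t : ℕ) : ℤ) : ℝ) : UnitAddCircle) ∈ U)).card : ℝ) <
            (M : ℝ) ^ (1 - ε))).card : ℝ) ≤ δ * M := by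
  -- constants
  set S : ℕ := ⌈8 * (R : ℝ) / η⌉₊ + 1 with hS
  have hS0 : (0 : ℝ) < S := by rw [hS]; positivity
  obtain ⟨N, hN1, hN⟩ := hcore U hU hUne ε (δ / S) hε (by positivity)
  obtain ⟨Mc, hMc⟩ := hN (k0 + 1)
  obtain ⟨Mf, hMf⟩ := hfar N hN1 (η / 16) (by positivity)
  set K : ℕ := ⌈16 * (2 * (D : ℝ) + k0 + 2 * κ0 + 4) / η⌉₊ + 1 with hK
  have hKη : 16 * (2 * (D : ℝ) + k0 + 2 * κ0 + 4) ≤ η * K := by
    have h1 := Nat.le_ceil (16 * (2 * (D : ℝ) + k0 + 2 * κ0 + 4) / η)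
    rw [div_le_iff₀ hη] at h1
    rw [hK]
    push_cast
    nlinarith
  set ε1 := min ε 1 with hε1
  have hε10 : 0 < ε1 := lt_min hε one_pos
  obtain ⟨M9, hM9⟩ := h9 p q r D hcore θ L Hh κ0 R hL hR hfar U hU hUne ε1 (δ / (K + 1))
    (η / (K + 1)) hε10 (by positivity) (by positivity)
  refine ⟨max (max Mc Mf) (max M9 1), fun M hM J => ?_⟩
  have hMc' : Mc ≤ M := (le_max_left _ _).trans ((le_max_left _ _).trans hM)
  have hMf' : Mf ≤ M := (le_max_right _ _).trans ((le_max_left _ _).trans hM)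
  have hM9' : M9 ≤ M := (le_max_left _ _).trans ((le_max_right _ _).trans hM)
  have hM1 : 1 ≤ M := (le_max_right _ _).trans ((le_max_right _ _).trans hM)
  have hMR : (1 : ℝ) ≤ M := by exact_mod_cast hM1
  rcases Nat.lt_or_ge (K * M) J with hJ | hJ
  · -- lines far up
    have hJR : (K : ℝ) * M ≤ J := by exact_mod_cast hJ.le
    have hKM1 : M ≤ K * M := Nat.le_mul_of_pos_left _ (by omega)
    have hMJ : M ≤ J := hKM1.trans hJ.le
    have hMJR : (M : ℝ) ≤ J := by exact_mod_cast hMJ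
    have hJ1 : 1 ≤ J := hM1.trans hMJ
    have hbig : 16 * (2 * (D : ℝ) + k0 + 2 * κ0 + 4) * M ≤ η * J := by
      calc 16 * (2 * (D : ℝ) + k0 + 2 * κ0 + 4) * M ≤ η * K * M := by
            apply mul_le_mul_of_nonneg_right hKη (by linarith)
        _ = η * (K * M) := by ring
        _ ≤ η * J := mul_le_mul_of_nonneg_left hJR hη.le
    set w : ℕ := ⌊η * J / 4⌋₊ with hw
    have hw1 : (w : ℝ) ≤ η * J / 4 := Nat.floor_le (by positivity)
    have hw2 : η * J / 4 < w + 1 := Nat.lt_floor_add_one _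
    have hDM : (0 : ℝ) ≤ (D : ℝ) * M := by positivity
    have hkM : (0 : ℝ) ≤ (k0 : ℝ) * M := by positivity
    have hκM : (0 : ℝ) ≤ (κ0 : ℝ) * M := by positivity
    have hηJ : 64 ≤ η * J := by nlinarith
    have hw3 : η * J / 8 ≤ w := by linarith
    have hw0 : 1 ≤ w := by
      have : (0 : ℝ) < w := by linarith
      exact_mod_cast this
    -- the pieces
    have hpiece : ∀ s : ℕ, L J + (s + 1) * w ≤ Hh J →
        (((range M).filter (fun t : ℕ => (((Icc (L J + s * w) (L J + (s + 1) * w)).filter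
          (fun i : ℤ => ((θ * (p : ℝ) ^ i * (q : ℝ) ^ ((J + t : ℕ) : ℤ) : ℝ) :
            UnitAddCircle) ∈ U)).card : ℝ) < (M : ℝ) ^ (1 - ε))).card : ℝ) ≤ δ / S * M := by
      intro s hs
      have hn1 : J + (M - 1) < 2 * (J + (M - 1)) := by omega
      have hLn := mono_dec hL J (M - 1)
      have hHn := mono_inc hH J (M - 1)
      obtain ⟨i0, h1, h2, h3⟩ := hMf (J + (M - 1)) (by omega) (J + (M - 1)) hn1
        (L J + s * w + D * M) (L J + (s + 1) * w - (D * M + (k0 + 1) * M)) (by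
          have h4 : (0 : ℤ) ≤ s * w := by positivity
          have h5 : (0 : ℤ) ≤ D * M := by positivity
          linarith [hLn.1]) (by
          have h4 : (0 : ℤ) ≤ (D : ℤ) * M + (k0 + 1) * M := by positivity
          linarith [hHn.1]) (by
          push_cast
          have h4 : ((J + (M - 1) : ℕ) : ℝ) ≤ 2 * J := by
            exact_mod_cast (by omega : J + (M - 1) ≤ 2 * J)
          push_cast at h4
          have h5 : η / 16 * ((J : ℝ) + ((M - 1 : ℕ) : ℝ)) ≤ η / 16 * (2 * J) :=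
            mul_le_mul_of_nonneg_left h4 (by positivity)
          nlinarith)
      exact piece hdown hMc hMc' hM1 (by linarith) (by linarith) h3
    -- the union
    have hsub : (range M).filter (fun t : ℕ => ∃ u v : ℤ, L (J + t) ≤ u ∧ v ≤ Hh (J + M) ∧
        η * ((J : ℝ) + M) ≤ (v : ℝ) - u ∧ (((Icc u v).filter (fun i : ℤ =>
          ((θ * (p : ℝ) ^ i * (q : ℝ) ^ ((J + t : ℕ) : ℤ) : ℝ) : UnitAddCircle) ∈ U)).card : ℝ) <
            (M : ℝ) ^ (1 - ε)) ⊆ (range S).biUnion (fun s => if L J + (s + 1) * w ≤ Hh J then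
          (range M).filter (fun t : ℕ => (((Icc (L J + s * w) (L J + (s + 1) * w)).filter
          (fun i : ℤ => ((θ * (p : ℝ) ^ i * (q : ℝ) ^ ((J + t : ℕ) : ℤ) : ℝ) :
            UnitAddCircle) ∈ U)).card : ℝ) < (M : ℝ) ^ (1 - ε)) else ∅) := by
      intro t ht
      rw [Finset.mem_filter] at ht
      obtain ⟨htM, u, v, hu, hv, huv, hcard⟩ := ht
      have htM' := Finset.mem_range.1 htM
      have hLt := mono_dec hL J t
      have hHt := mono_inc hH J M
      set u' : ℤ := max u (L J) with hu'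
      set v' : ℤ := min v (Hh J) with hv'
      have htR : (t : ℝ) ≤ M := by exact_mod_cast htM'.le
      have h1 : u' ≤ u + κ0 * M := by
        rw [hu']
        have h2 : (κ0 : ℤ) * t ≤ κ0 * M := by
          apply mul_le_mul_of_nonneg_left _ (Int.natCast_nonneg _)
          exact_mod_cast htM'.le
        have h3 : (0 : ℤ) ≤ κ0 * M := by positivity
        apply max_le <;> linarith [hLt.2]
      have h2 : v - κ0 * M ≤ v' := by
        rw [hv']
        have h3 : (0 : ℤ) ≤ κ0 * M := by positivity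
        apply le_min <;> linarith [hHt.2]
      have h1R : (u' : ℝ) ≤ u + κ0 * M := by exact_mod_cast h1
      have h2R : (v : ℝ) - κ0 * M ≤ v' := by exact_mod_cast h2
      have h3 : η * J / 2 ≤ (v' : ℝ) - u' := by nlinarith
      have hu'0 : 0 ≤ u' - L J := by
        have := le_max_right u (L J)
        linarith
      have hw0Z : (0 : ℤ) < w := by exact_mod_cast hw0
      set s : ℕ := ((u' - L J) / w).toNat + 1 with hs
      have hsZ : (s : ℤ) = (u' - L J) / w + 1 := by
        rw [hs]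
        push_cast
        rw [Int.toNat_of_nonneg (Int.ediv_nonneg hu'0 hw0Z.le)]
      have hdiv := Int.emod_add_mul_ediv (u' - L J) w
      have hmod0 := Int.emod_nonneg (u' - L J) hw0Z.ne'
      have hmod1 := Int.emod_lt_of_pos (u' - L J) hw0Z
      have h4 : u' ≤ L J + s * w := by
        rw [hsZ]
        nlinarith
      have h5 : L J + (s + 1) * w ≤ u' + 2 * w := by
        rw [hsZ]
        nlinarith
      have h6 : L J + (s + 1) * w ≤ v' := by
        have h7 : ((u' + 2 * w : ℤ) : ℝ) ≤ v' := by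
          push_cast
          linarith
        exact h5.trans (by exact_mod_cast h7)
      have h7 : L J + (s + 1) * w ≤ Hh J := h6.trans (min_le_right _ _)
      rw [Finset.mem_biUnion]
      refine ⟨s, ?_, ?_⟩
      · rw [Finset.mem_range]
        have h8 : Hh J - L J ≤ R * J := by
          have h9 := hR J hJ1
          have h10 := (mono_dec hL J J).1
          rw [← two_mul] at h10
          linarith
        have h9 : ((s : ℤ) + 1) * w ≤ R * J := by linarith
        have h10 : ((s : ℝ) + 1) * w ≤ R * J := by exact_mod_cast h9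
        have h11 : ((s : ℝ) + 1) * (η * J / 8) ≤ R * J :=
          (mul_le_mul_of_nonneg_left hw3 (by positivity)).trans h10
        have hJ0 : (0 : ℝ) < J := by linarith
        have h12 : ((s : ℝ) + 1) * η / 8 ≤ R := by
          have h13 : ((s : ℝ) + 1) * η / 8 * J ≤ R * J := by
            calc ((s : ℝ) + 1) * η / 8 * J = ((s : ℝ) + 1) * (η * J / 8) := by ring
              _ ≤ _ := h11
          exact le_of_mul_le_mul_right h13 hJ0
        have h13 : ((s : ℝ) + 1) ≤ 8 * R / η := by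
          rw [le_div_iff₀ hη]
          linarith
        have h14 := Nat.le_ceil (8 * (R : ℝ) / η)
        have h15 : (s : ℝ) + 1 ≤ (⌈8 * (R : ℝ) / η⌉₊ : ℝ) := h13.trans h14
        rw [hS]
        have h16 : s + 1 ≤ ⌈8 * (R : ℝ) / η⌉₊ := by exact_mod_cast h15
        omega
      · rw [if_pos h7, Finset.mem_filter]
        refine ⟨htM, lt_of_le_of_lt ?_ hcard⟩
        apply Nat.cast_le.2
        apply Finset.card_le_card
        apply Finset.filter_subset_filter
        apply Finset.Icc_subset_Icc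
        · exact (le_max_left _ _).trans h4
        · exact h6.trans (min_le_left _ _)
    refine le_trans (Nat.cast_le.2 (Finset.card_le_card hsub)) ?_
    refine le_trans (Nat.cast_le.2 Finset.card_biUnion_le) ?_
    rw [Nat.cast_sum]
    refine (Finset.sum_le_sum (g := fun _ => δ / S * (M : ℝ)) fun s _ => ?_).trans ?_
    · split_ifs with h
      · exact hpiece s h
      · simp only [Finset.card_empty, Nat.cast_zero]
        positivity
    · rw [Finset.sum_const, Finset.card_range, nsmul_eq_mul]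
      have e : (S : ℝ) * (δ / S * M) = δ * M := by field_simp
      rw [e]
  · -- few lines below
    have hK1 : (0 : ℝ) < (K : ℝ) + 1 := by positivity
    have hMM : M ≤ (K + 1) * M := Nat.le_mul_of_pos_left _ (by omega)
    have h1 := hM9 ((K + 1) * M) (hM9'.trans hMM)
    have e1 : δ / ((K : ℝ) + 1) * (((K + 1) * M : ℕ) : ℝ) = δ * M := by
      push_cast
      field_simp
    rw [e1] at h1
    refine le_trans ?_ h1
    apply Nat.cast_le.2
    refine Finset.card_le_card_of_injOn (fun t => J + t) ?_ ?_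
    · intro t ht
      simp only [Finset.coe_filter, Set.mem_ofPred_eq, Finset.mem_range] at ht ⊢
      obtain ⟨htM, u, v, hu, hv, huv, hcard⟩ := ht
      have hJM : J + M ≤ (K + 1) * M := by rw [add_mul, one_mul]; omega
      refine ⟨by omega, u, v, hu, ?_, ?_, lt_of_lt_of_le hcard ?_⟩
      · obtain ⟨x, hx⟩ := Nat.exists_eq_add_of_le hJM
        rw [hx]
        exact hv.trans (mono_inc hH (J + M) x).1
      · have e2 : η / ((K : ℝ) + 1) * (((K + 1) * M : ℕ) : ℝ) = η * M := by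
          push_cast
          field_simp
        rw [e2]
        refine le_trans ?_ huv
        have : (0 : ℝ) ≤ J := Nat.cast_nonneg _
        nlinarith
      · have h3 : (M : ℝ) ^ (1 - ε) ≤ (M : ℝ) ^ (1 - ε1) :=
          Real.rpow_le_rpow_of_exponent_le hMR (by have := min_le_left ε 1; linarith)
        refine h3.trans ?_
        apply Real.rpow_le_rpow (by linarith) (by exact_mod_cast hMM)
        have := min_le_right ε 1
        linarith
    · intro t _ t' _ h
      simp only at h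
      omega

end Pool.Agent.TH461.AL.Uni
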