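import Mathlib
import Pool.Agent.TH461.AL.Stms3

set_option autoImplicit false

open Finset Filter Topology

namespace Pool.Agent.TH461.AL.Win

open Pool.Agent.TH461.AL

private lemma lanti {L : ℕ → ℤ} {κ0 : ℕ}
    (h1 : ∀ n, L (n + 1) ≤ L n ∧ L n ≤ L (n + 1) + κ0) : Antitone L :=
  antitone_nat_of_succ_le fun n => (h1 n).1

private lemma llip {L : ℕ → ℤ} {κ0 : ℕ}
    (h1 : ∀ n, L (n + 1) ≤ L n ∧ L n ≤ L (n + 1) + κ0) (n t : ℕ) :
    L n ≤ L (n + t) + κ0 * t := by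
  induction t with
  | zero => simp
  | succ t ih =>
    have h := (h1 (n + t)).2
    have e : n + (t + 1) = n + t + 1 := by ring
    rw [e]
    push_cast
    linarith

open Classical in
private lemma main (p q : ℕ) (r : ℝ) (D : ℕ) (hc : CoreProp p q r D) (θ : ℝ) (L Hh : ℕ → ℤ)
    (κ0 R : ℕ) (h1 : ∀ n, L (n + 1) ≤ L n ∧ L n ≤ L (n + 1) + κ0)
    (h2 : ∀ M : ℕ, 1 ≤ M → Hh M - L (2 * M) ≤ R * M)
    (h3 : ∀ (N : ℕ) (_ : 1 ≤ N) (η : ℝ) (_ : 0 < η), ∃ M1 : ℕ, ∀ M : ℕ, M1 ≤ M →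
      ∀ n : ℕ, n < 2 * M → ∀ u v : ℤ, L n ≤ u → v ≤ Hh M → η * M ≤ (v : ℝ) - u →
        ∃ i : ℤ, u ≤ i ∧ i ≤ v ∧ Fa p q r (N * θ) i n)
    (U : Set UnitAddCircle) (hU : IsOpen U) (hU' : U.Nonempty) (ε δ η : ℝ) (hε : 0 < ε)
    (hε1 : ε ≤ 1) (hδ : 0 < δ) (hη : 0 < η) (hη1 : η ≤ 1) : ∃ M0 : ℕ, ∀ M : ℕ, M0 ≤ M →
    (((range M).filter (fun n : ℕ => ∃ u v : ℤ, L n ≤ u ∧ v ≤ Hh M ∧ η * M ≤ (v : ℝ) - u ∧
      (((Icc u v).filter (fun i : ℤ =>
        ((θ * (p : ℝ) ^ i * (q : ℝ) ^ (n : ℤ) : ℝ) : UnitAddCircle) ∈ U)).card : ℝ) <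
          (M : ℝ) ^ (1 - ε))).card : ℝ) ≤ δ * M := by
  have hanti := lanti h1
  obtain ⟨K, hK⟩ : ∃ K : ℝ, K = (D : ℝ) + 2 + κ0 := ⟨_, rfl⟩
  have hD0 : (0 : ℝ) ≤ D := Nat.cast_nonneg _
  have hκ0 : (0 : ℝ) ≤ κ0 := Nat.cast_nonneg _
  have hR0 : (0 : ℝ) ≤ R := Nat.cast_nonneg _
  have hK2 : 2 ≤ K := by rw [hK]; linarith
  obtain ⟨ζ, hζ⟩ : ∃ ζ : ℝ, ζ = η / (16 * K) := ⟨_, rfl⟩
  have hζ0 : 0 < ζ := by rw [hζ]; positivity
  have hKζ : K * ζ = η / 16 := by rw [hζ]; field_simp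
  have hζ1 : ζ ≤ 1 := by nlinarith
  obtain ⟨A, hA⟩ : ∃ A : ℝ, A = 16 * R / η + 3 := ⟨_, rfl⟩
  have hA0 : 0 < A := by rw [hA]; positivity
  obtain ⟨N, hN, hcore⟩ := hc U hU hU' (ε / 2) (δ / (2 * A)) (by positivity) (by positivity)
  obtain ⟨Mc, hMc⟩ := hcore (4 * (D + 2 + κ0))
  obtain ⟨M1, hM1⟩ := h3 N hN (η / 16) (by positivity)
  have ev : ∀ᶠ M : ℕ in atTop, 1 ≤ M ∧ 2 ≤ ζ * M ∧ 16 ≤ η * M ∧
      2 / ζ ≤ (M : ℝ) ^ (ε / 2) ∧ 2 * (Mc : ℝ) ≤ ζ * M ∧ M1 ≤ M := by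
    have t1 : Tendsto (fun M : ℕ => ζ * (M : ℝ)) atTop atTop :=
      tendsto_natCast_atTop_atTop.const_mul_atTop hζ0
    have t2 : Tendsto (fun M : ℕ => η * (M : ℝ)) atTop atTop :=
      tendsto_natCast_atTop_atTop.const_mul_atTop hη
    have t3 : Tendsto (fun M : ℕ => (M : ℝ) ^ (ε / 2)) atTop atTop :=
      (tendsto_rpow_atTop (by positivity)).comp tendsto_natCast_atTop_atTop
    filter_upwards [eventually_ge_atTop 1, t1.eventually_ge_atTop 2, t2.eventually_ge_atTop 16,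
      t3.eventually_ge_atTop (2 / ζ), t1.eventually_ge_atTop (2 * (Mc : ℝ)),
      eventually_ge_atTop M1] with M a1 a2 a3 a4 a5 a6
    exact ⟨a1, a2, a3, a4, a5, a6⟩
  obtain ⟨M0, hM0⟩ := eventually_atTop.1 ev
  refine ⟨M0, fun M hM => ?_⟩
  obtain ⟨e1, e2, e3, e4, e5, e6⟩ := hM0 M hM
  have hMpos : (0 : ℝ) < M := by exact_mod_cast e1
  obtain ⟨M', hM'⟩ : ∃ M' : ℕ, M' = ⌊ζ * (M : ℝ)⌋₊ := ⟨_, rfl⟩
  obtain ⟨g, hg⟩ : ∃ g : ℕ, g = ⌊η * (M : ℝ) / 8⌋₊ := ⟨_, rfl⟩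
  have m1 : (M' : ℝ) ≤ ζ * M := by rw [hM']; exact Nat.floor_le (by positivity)
  have m2 : ζ * M / 2 ≤ (M' : ℝ) := by
    have := Nat.lt_floor_add_one (ζ * (M : ℝ))
    rw [← hM'] at this
    linarith
  have g1 : (g : ℝ) ≤ η * M / 8 := by rw [hg]; exact Nat.floor_le (by positivity)
  have g2 : η * M / 16 ≤ (g : ℝ) := by
    have := Nat.lt_floor_add_one (η * (M : ℝ) / 8)
    rw [← hg] at this
    linarith
  have hM'pos : 0 < M' := by
    have : (0 : ℝ) < M' := by linarith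
    exact_mod_cast this
  have hgpos : 0 < g := by
    have : (0 : ℝ) < g := by linarith
    exact_mod_cast this
  have hgR : (0 : ℝ) < g := by exact_mod_cast hgpos
  have hgZ : (0 : ℤ) < g := by exact_mod_cast hgpos
  have hM'c : Mc ≤ M' := by
    have : (Mc : ℝ) ≤ M' := by linarith
    exact_mod_cast this
  have hM'M : M' ≤ M := by
    have : (M' : ℝ) ≤ M := by nlinarith
    exact_mod_cast this
  have hKM : K * M' ≤ g := by
    have : K * M' ≤ K * (ζ * M) := mul_le_mul_of_nonneg_left m1 (by linarith)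
    have e : K * (ζ * M) = η * M / 16 := by rw [← mul_assoc, hKζ]; ring
    linarith
  have hM'0 : (0 : ℝ) ≤ M' := Nat.cast_nonneg _
  have hDM : (D : ℤ) * M' ≤ g := by
    have : (D : ℝ) * M' ≤ g := by
      have : (D : ℝ) * M' ≤ K * M' := mul_le_mul_of_nonneg_right (by rw [hK]; linarith) hM'0
      linarith
    exact_mod_cast this
  have hκM : (κ0 : ℤ) * M' ≤ g := by
    have : (κ0 : ℝ) * M' ≤ g := by
      have : (κ0 : ℝ) * M' ≤ K * M' := mul_le_mul_of_nonneg_right (by rw [hK]; linarith) hM'0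
      linarith
    exact_mod_cast this
  have hgH : (g : ℤ) ≤ ((4 * (D + 2 + κ0) : ℕ) : ℤ) * M' := by
    have : (g : ℝ) ≤ ((4 * (D + 2 + κ0) : ℕ) : ℝ) * M' := by
      have e : ((4 * (D + 2 + κ0) : ℕ) : ℝ) = 4 * K := by rw [hK]; push_cast; ring
      rw [e]
      have a1 : K * (ζ * M / 2) ≤ K * M' := mul_le_mul_of_nonneg_left m2 (by linarith)
      have a2 : K * (ζ * M / 2) = η * M / 32 := by
        have : K * (ζ * M / 2) = (K * ζ) * M / 2 := by ring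
        rw [this, hKζ]; ring
      linarith
    exact_mod_cast this
  have hpow : (M : ℝ) ^ (1 - ε) ≤ (M' : ℝ) ^ (1 - ε / 2) := by
    have a1 : (ζ / 2 * M) ^ (1 - ε / 2) ≤ (M' : ℝ) ^ (1 - ε / 2) := by
      apply Real.rpow_le_rpow (by positivity) (by linarith) (by linarith)
    refine le_trans ?_ a1
    rw [Real.mul_rpow (by positivity) hMpos.le]
    have a2 : ζ / 2 ≤ (ζ / 2) ^ (1 - ε / 2) := by
      have := Real.rpow_le_rpow_of_exponent_ge (by positivity : 0 < ζ / 2) (by linarith : ζ / 2 ≤ 1)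
        (by linarith : 1 - ε / 2 ≤ 1)
      rwa [Real.rpow_one] at this
    have a3 : (M : ℝ) ^ (1 - ε / 2) = (M : ℝ) ^ (1 - ε) * (M : ℝ) ^ (ε / 2) := by
      rw [← Real.rpow_add hMpos]; congr 1; ring
    have a4 : 0 < (M : ℝ) ^ (1 - ε) := Real.rpow_pos_of_pos hMpos _
    rw [a3]
    have a5 : 1 ≤ ζ / 2 * (M : ℝ) ^ (ε / 2) := by
      have := mul_le_mul_of_nonneg_left e4 (by positivity : 0 ≤ ζ / 2)
      have e : ζ / 2 * (2 / ζ) = 1 := by field_simp
      linarith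
    have a6 : ζ / 2 * (M : ℝ) ^ (ε / 2) ≤ (ζ / 2) ^ (1 - ε / 2) * (M : ℝ) ^ (ε / 2) :=
      mul_le_mul_of_nonneg_right a2 (by positivity)
    nlinarith
  -- exceptional lines
  have hE : ∀ (s : ℕ) (a : ℤ), s ≤ M / M' → L (s * M') ≤ a * g → (a + 1) * g ≤ Hh M →
      (((range M').filter (fun t : ℕ => (((Icc (a * g - D * M') ((a + 1) * g + D * M')).filter
        (fun i : ℤ => ((θ * (p : ℝ) ^ i * (q : ℝ) ^ (((s * M' : ℕ) : ℤ) + t) : ℝ) :
          UnitAddCircle) ∈ U)).card : ℝ) < (M' : ℝ) ^ (1 - ε / 2))).card : ℝ) ≤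
            δ / (2 * A) * M' := by
    intro s a hs ha hb
    apply hMc M' hM'c θ ((s * M' : ℕ) : ℤ) (a * g) ((a + 1) * g)
    · have : (a + 1) * (g : ℤ) - a * g = g := by ring
      rw [this]; exact hgH
    · intro t ht
      have hsM : s * M' ≤ M := (Nat.mul_le_mul_right M' hs).trans (Nat.div_mul_le_self M M')
      obtain ⟨i, hi1, hi2, hi3⟩ := hM1 M e6 (s * M' + t) (by omega) (a * g) ((a + 1) * g)
        (le_trans (hanti (by omega)) ha) hb (by push_cast; linarith)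
      refine ⟨i, hi1, hi2, ?_⟩
      push_cast at hi3 ⊢
      exact hi3
  obtain ⟨X, hX⟩ : ∃ X : ℕ → ℤ → Finset ℕ, X = fun s a =>
      if L (s * M') ≤ a * g ∧ (a + 1) * g ≤ Hh M then
        ((range M').filter (fun t : ℕ => (((Icc (a * g - D * M') ((a + 1) * g + D * M')).filter
        (fun i : ℤ => ((θ * (p : ℝ) ^ i * (q : ℝ) ^ (((s * M' : ℕ) : ℤ) + t) : ℝ) :
          UnitAddCircle) ∈ U)).card : ℝ) < (M' : ℝ) ^ (1 - ε / 2))).image (fun t => s * M' + t)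
      else ∅ := ⟨_, rfl⟩
  have hXc : ∀ (s : ℕ) (a : ℤ), s ≤ M / M' → ((X s a).card : ℝ) ≤ δ / (2 * A) * M' := by
    intro s a hs
    rw [hX]
    dsimp only
    split_ifs with h
    · refine le_trans ?_ (hE s a hs h.1 h.2)
      exact_mod_cast card_image_le
    · rw [card_empty, Nat.cast_zero]; positivity
  obtain ⟨G, hG⟩ : ∃ G : Finset ℤ, G = Icc (L (2 * M) / g) (Hh M / g) := ⟨_, rfl⟩
  have hGc : (G.card : ℝ) ≤ A := by
    rw [hG, Int.card_Icc]
    rcases le_total (Hh M / (g : ℤ) + 1 - L (2 * M) / g) 0 with h | h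
    · rw [Int.toNat_of_nonpos h]; simpa using hA0.le
    · have ec : (((Hh M / (g : ℤ) + 1 - L (2 * M) / g).toNat : ℕ) : ℝ) =
          ((Hh M / (g : ℤ) + 1 - L (2 * M) / g : ℤ) : ℝ) := by
        rw [← Int.cast_natCast, Int.toNat_of_nonneg h]
      rw [ec]
      have b1 : Hh M / (g : ℤ) * g ≤ Hh M := Int.ediv_mul_le _ hgZ.ne'
      have b2 : L (2 * M) < (L (2 * M) / (g : ℤ) + 1) * g := Int.lt_ediv_add_one_mul_self _ hgZ
      have b3 := h2 M e1
      have b4 : (Hh M / (g : ℤ) + 1 - L (2 * M) / g) * (g : ℤ) ≤ R * M + 2 * g := by linarith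
      have b5 : ((Hh M / (g : ℤ) + 1 - L (2 * M) / g : ℤ) : ℝ) * g ≤ R * M + 2 * g := by
        exact_mod_cast b4
      have b6 : (R : ℝ) * M ≤ 16 * R / η * g := by
        have : 16 * R / η * (η * M / 16) ≤ 16 * R / η * g :=
          mul_le_mul_of_nonneg_left g2 (by positivity)
        have e : 16 * R / η * (η * M / 16) = R * M := by field_simp
        linarith
      have b7 : ((Hh M / (g : ℤ) + 1 - L (2 * M) / g : ℤ) : ℝ) * g ≤ A * g := by
        rw [hA]; nlinarith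
      exact le_of_mul_le_mul_right b7 hgR
  have hsub : (range M).filter (fun n : ℕ => ∃ u v : ℤ, L n ≤ u ∧ v ≤ Hh M ∧
      η * M ≤ (v : ℝ) - u ∧ (((Icc u v).filter (fun i : ℤ =>
        ((θ * (p : ℝ) ^ i * (q : ℝ) ^ (n : ℤ) : ℝ) : UnitAddCircle) ∈ U)).card : ℝ) <
          (M : ℝ) ^ (1 - ε)) ⊆ (range (M / M' + 1)).biUnion (fun s => G.biUnion (fun a => X s a)) := by
    intro n hn
    rw [mem_filter, mem_range] at hn
    obtain ⟨hnM, u, v, hu, hv, huv, hcard⟩ := hn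
    obtain ⟨s, hs⟩ : ∃ s : ℕ, s = n / M' := ⟨_, rfl⟩
    obtain ⟨t, ht⟩ : ∃ t : ℕ, t = n % M' := ⟨_, rfl⟩
    obtain ⟨a, ha⟩ : ∃ a : ℤ, a = u / g + 2 := ⟨_, rfl⟩
    have hn' : n = s * M' + t := by rw [hs, ht]; exact (Nat.div_add_mod' n M').symm
    have htM : t < M' := by rw [ht]; exact Nat.mod_lt _ hM'pos
    have hsM : s ≤ M / M' := by rw [hs]; exact Nat.div_le_div_right hnM.le
    have u1 : u / (g : ℤ) * g ≤ u := Int.ediv_mul_le _ hgZ.ne'
    have u2 : u < (u / (g : ℤ) + 1) * g := Int.lt_ediv_add_one_mul_self _ hgZ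
    have a1 : u + g < a * g := by rw [ha]; linarith
    have a2 : a * g ≤ u + 2 * g := by rw [ha]; linarith
    have hvu : u + 8 * g ≤ v := by
      have : ((u + 8 * g : ℤ) : ℝ) ≤ (v : ℝ) := by push_cast; linarith
      exact_mod_cast this
    have c1 : L (s * M') ≤ a * g := by
      have := llip h1 (s * M') t
      rw [← hn'] at this
      have h5 : (κ0 : ℤ) * t ≤ κ0 * M' :=
        mul_le_mul_of_nonneg_left (by exact_mod_cast htM.le) (by positivity)
      linarith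
    have c2 : (a + 1) * g ≤ Hh M := by linarith
    have c3 : a ∈ G := by
      rw [hG, mem_Icc]
      constructor
      · have h6 : L (2 * M) ≤ u := le_trans (hanti (by omega)) hu
        have h7 := Int.ediv_le_ediv hgZ h6
        rw [ha]; linarith
      · rw [Int.le_ediv_iff_mul_le hgZ]; linarith
    rw [mem_biUnion]
    refine ⟨s, mem_range.2 (by omega), ?_⟩
    rw [mem_biUnion]
    refine ⟨a, c3, ?_⟩
    rw [hX]
    dsimp only
    rw [if_pos ⟨c1, c2⟩, mem_image]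
    refine ⟨t, ?_, hn'.symm⟩
    rw [mem_filter, mem_range]
    refine ⟨htM, lt_of_le_of_lt ?_ (lt_of_lt_of_le hcard hpow)⟩
    have ecast : (((s * M' : ℕ) : ℤ) + t) = (n : ℤ) := by rw [hn']; push_cast; ring
    rw [ecast]
    apply Nat.cast_le.2
    apply card_le_card
    apply filter_subset_filter
    apply Icc_subset_Icc <;> linarith
  calc _ ≤ (((range (M / M' + 1)).biUnion (fun s => G.biUnion (fun a => X s a))).card : ℝ) := by
        exact_mod_cast card_le_card hsub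
    _ ≤ ∑ s ∈ range (M / M' + 1), ∑ a ∈ G, ((X s a).card : ℝ) := by
        have k1 : ((range (M / M' + 1)).biUnion (fun s => G.biUnion (fun a => X s a))).card ≤
            ∑ s ∈ range (M / M' + 1), ∑ a ∈ G, (X s a).card :=
          card_biUnion_le.trans (sum_le_sum fun s _ => card_biUnion_le)
        exact_mod_cast k1
    _ ≤ ∑ s ∈ range (M / M' + 1), ∑ a ∈ G, δ / (2 * A) * M' := by
        apply sum_le_sum
        intro s hs
        apply sum_le_sum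
        intro a _
        exact hXc s a (by rw [mem_range] at hs; omega)
    _ = ((M / M' + 1 : ℕ) * M' : ℝ) * (G.card * (δ / (2 * A))) := by
        rw [sum_const, sum_const, card_range, nsmul_eq_mul, nsmul_eq_mul]
        ring
    _ ≤ (2 * M) * (A * (δ / (2 * A))) := by
        have k2 : (((M / M' + 1 : ℕ) : ℝ) * M') ≤ 2 * M := by
          have : (M / M' + 1) * M' ≤ 2 * M := by
            have := Nat.div_mul_le_self M M'
            nlinarith
          exact_mod_cast this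
        apply mul_le_mul k2 (mul_le_mul_of_nonneg_right hGc (by positivity)) (by positivity)
          (by positivity)
    _ = δ * M := by field_simp

theorem win : J9 := by
  classical
  intro p q r D hc θ L Hh κ0 R h1 h2 h3 U hU hU' ε δ η hε hδ hη
  obtain ⟨M0, hM0⟩ := main p q r D hc θ L Hh κ0 R h1 h2 h3 U hU hU' (min ε 1) δ (min η 1)
    (lt_min hε one_pos) (min_le_right _ _) hδ (lt_min hη one_pos) (min_le_right _ _)
  refine ⟨max M0 1, fun M hM => le_trans ?_ (hM0 M (le_trans (le_max_left _ _) hM))⟩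
  have hM1 : 1 ≤ M := le_trans (le_max_right _ _) hM
  apply Nat.cast_le.2
  apply card_le_card
  intro n hn
  rw [mem_filter] at hn ⊢
  obtain ⟨hn1, u, v, a1, a2, a3, a4⟩ := hn
  refine ⟨hn1, u, v, a1, a2, le_trans ?_ a3, lt_of_lt_of_le a4 ?_⟩
  · exact mul_le_mul_of_nonneg_right (min_le_left _ _) (Nat.cast_nonneg _)
  · apply Real.rpow_le_rpow_of_exponent_le (by exact_mod_cast hM1)
    have := min_le_left ε 1
    linarith

end Pool.Agent.TH461.AL.Win
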