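import Mathlib
import Pool.Agent.TH461.AL.Nl
import Pool.Agent.TH461.AL.Uni
import Pool.Agent.TH461.AL.Win
import Pool.Agent.TH461.AL.Alg
import Pool.Agent.TH461.AL.Pw

/-!
Project AL: words in all windows of the multiples `q ^ n ξ` of an algebraic irrational number and of
the numbers `a q ^ n`, for almost all `n` of every interval of `M` consecutive exponents.
-/

set_option autoImplicit false

open Finset Filter Topology

namespace Pool.Agent.TH461.AL.Fin

open Pool.Agent.TH461.AL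
open Pool.Agent.TH461.AL.Nl (UW isOpen_UW nonempty_UW mem_UW word_of_mem)

/-- the constants -/
lemma exists_core {b q : ℕ} (hb : 2 ≤ b) (hq : 2 ≤ q) (hco : Nat.Coprime b q) :
    ∃ (r : ℝ) (D : ℕ), 0 < r ∧ ((b : ℝ) + 1) * r ≤ 1 ∧ ((q : ℝ) + 1) * r ≤ 1 ∧
      CoreProp b q r D := by
  set r : ℝ := 1 / ((b : ℝ) + q + 1) with hr
  have hden : (0 : ℝ) < (b : ℝ) + q + 1 := by positivity
  have hr0 : 0 < r := by positivity
  have hrb : ((b : ℝ) + 1) * r ≤ 1 := by
    rw [hr, mul_one_div, div_le_one hden]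
    have : (0 : ℝ) ≤ q := Nat.cast_nonneg _
    linarith
  have hrq : ((q : ℝ) + 1) * r ≤ 1 := by
    rw [hr, mul_one_div, div_le_one hden]
    have : (0 : ℝ) ≤ b := Nat.cast_nonneg _
    linarith
  obtain ⟨D, hD⟩ := Core.core Wd.word Last.last hb hq hco hr0 hrb hrq
  exact ⟨r, D, hr0, hrb, hrq, hD⟩

open Classical in
/-- combining finitely many words -/
lemma union_words {N : ℕ} (P : ℕ → ℕ → ℕ → ℕ → Prop) {δ : ℝ} (hδ : 0 < δ)
    (h : ∀ W < N, ∀ δ' : ℝ, 0 < δ' → ∃ M0 : ℕ, ∀ M : ℕ, M0 ≤ M → ∀ J : ℕ,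
      (((range M).filter (fun t : ℕ => P W M J t)).card : ℝ) ≤ δ' * M) :
    ∃ M0 : ℕ, ∀ M : ℕ, M0 ≤ M → ∀ J : ℕ,
      (((range M).filter (fun t : ℕ => ∃ W < N, P W M J t)).card : ℝ) ≤ δ * M := by
  choose! M0 hM0 using fun W (hW : W < N) => h W hW (δ / (N + 1)) (by positivity)
  refine ⟨∑ W ∈ range N, M0 W, fun M hM J => ?_⟩
  have hsub : (range M).filter (fun t : ℕ => ∃ W < N, P W M J t) ⊆
      (range N).biUnion (fun W => (range M).filter (fun t : ℕ => P W M J t)) := by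
    intro n hn
    rw [Finset.mem_filter] at hn
    obtain ⟨h1, W, hW, hP⟩ := hn
    exact Finset.mem_biUnion.2 ⟨W, Finset.mem_range.2 hW, Finset.mem_filter.2 ⟨h1, hP⟩⟩
  refine le_trans (Nat.cast_le.2 (Finset.card_le_card hsub)) ?_
  refine le_trans (Nat.cast_le.2 Finset.card_biUnion_le) ?_
  rw [Nat.cast_sum]
  refine (Finset.sum_le_sum (g := fun _ => δ / (N + 1) * (M : ℝ)) fun W hW => ?_).trans ?_
  · rw [Finset.mem_range] at hW
    refine hM0 W hW M (le_trans ?_ hM) J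
    exact Finset.single_le_sum (f := M0) (fun _ _ => Nat.zero_le _) (Finset.mem_range.2 hW)
  · rw [Finset.sum_const, Finset.card_range, nsmul_eq_mul]
    have e : (N : ℝ) * (δ / ((N : ℝ) + 1) * M) = δ * M * ((N : ℝ) / ((N : ℝ) + 1)) := by
      field_simp
    rw [e]
    have h1 : (N : ℝ) / ((N : ℝ) + 1) ≤ 1 := by
      rw [div_le_one (by positivity)]
      linarith
    have h2 : 0 ≤ δ * M := by positivity
    nlinarith

open Classical in
/-- **algebraic numbers, all windows** -/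
theorem alg_windows {b q : ℕ} (hb : 2 ≤ b) (hq : 2 ≤ q) (hco : Nat.Coprime b q) {ξ : ℝ}
    (hξ : Irrational ξ) (ha : IsAlgebraic ℚ ξ) (k R : ℕ) {ε δ η : ℝ} (hε : 0 < ε) (hδ : 0 < δ)
    (hη : 0 < η) : ∃ M0 : ℕ, ∀ M : ℕ, M0 ≤ M → ∀ J : ℕ,
      (((range M).filter (fun t : ℕ => ¬ ∀ u l : ℕ, u + l ≤ R * (J + M) →
        η * ((J : ℝ) + M) ≤ l → ∀ W < b ^ k, (M : ℝ) ^ (1 - ε) ≤
          (((range (u + l)).filter (fun i : ℕ => u ≤ i ∧ i + k ≤ u + l ∧
            ⌊(b : ℝ) ^ (i + k) * ((q : ℝ) ^ (J + t) * ξ)⌋ % ((b : ℤ) ^ k) = (W : ℤ))).card :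
              ℝ))).card : ℝ) ≤ δ * M := by
  obtain ⟨r, D, hr, hrb, hrq, hcore⟩ := exists_core hb hq hco
  have hdown := fun θ : ℝ => (Dn.down b q hb hq hco r hr hrb hrq θ).1
  have hη2 : 0 < η / 2 := by positivity
  set P : ℕ → ℕ → ℕ → ℕ → Prop := fun W M J t => ∃ u l : ℕ, u + l ≤ R * (J + M) ∧
        η * ((J : ℝ) + M) ≤ l ∧
          (((range (u + l)).filter (fun i : ℕ => u ≤ i ∧ i + k ≤ u + l ∧
            ⌊(b : ℝ) ^ (i + k) * ((q : ℝ) ^ (J + t) * ξ)⌋ % ((b : ℤ) ^ k) = (W : ℤ))).card :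
              ℝ) < (M : ℝ) ^ (1 - ε) with hP
  obtain ⟨M0, hM0⟩ := union_words (N := b ^ k) P hδ (by
    intro W hW δ' hδ'
    obtain ⟨M1, hM1⟩ := Uni.uni Win.win hcore hdown ξ (fun _ => 0) (fun n => R * n) R R
      (fun n => ⟨le_rfl, by positivity⟩) (fun n => by
        constructor
        · push_cast; nlinarith [Int.natCast_nonneg R]
        · push_cast; linarith) (fun M _ => by simp)
      (fun N hN η' hη' => by
        obtain ⟨M1, hM1⟩ := Alg.alg b q hb hq r hr hrb ξ hξ ha R N hN η' hη'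
        refine ⟨M1, fun M hM n hn u v hu hv huv => hM1 M hM n hn u v hu hv huv⟩)
      (UW b k W) (isOpen_UW b k W) (nonempty_UW hb k W) hε hδ' hη2
    obtain ⟨M2, hM2⟩ := exists_nat_ge ((k + 2 : ℝ) / (η / 2))
    refine ⟨max M1 M2, fun M hM J => ?_⟩
    have hM2' : (M2 : ℝ) ≤ M := by exact_mod_cast (le_max_right _ _).trans hM
    have hsize : (k : ℝ) + 2 ≤ η / 2 * M := by
      have h1 := hM2.trans hM2'
      rw [div_le_iff₀ hη2] at h1
      linarith
    refine le_trans ?_ (hM1 M ((le_max_left _ _).trans hM) J)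
    apply Nat.cast_le.2
    apply Finset.card_le_card
    intro t ht
    rw [Finset.mem_filter] at ht ⊢
    obtain ⟨htM, u, l, h1, h2, h3⟩ := ht
    have hJ0 : (0 : ℝ) ≤ J := Nat.cast_nonneg _
    have hl : (k : ℝ) + 2 ≤ l := by nlinarith
    have hlN : k + 2 ≤ l := by exact_mod_cast hl
    refine ⟨htM, u, ((u + l : ℕ) : ℤ) - ((k + 2 : ℕ) : ℤ), Int.natCast_nonneg _, ?_, ?_,
      lt_of_le_of_lt ?_ h3⟩
    · have h4 : ((u + l : ℕ) : ℤ) ≤ ((R * (J + M) : ℕ) : ℤ) := by exact_mod_cast h1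
      rw [Nat.cast_mul] at h4
      have h5 : (0 : ℤ) ≤ ((k + 2 : ℕ) : ℤ) := Int.natCast_nonneg _
      linarith
    · push_cast
      nlinarith
    · apply Nat.cast_le.2
      refine Finset.card_le_card_of_injOn (fun i : ℤ => (i + 1).toNat) ?_ ?_
      · intro i hi
        simp only [Finset.coe_filter, Set.mem_ofPred_eq, Finset.mem_Icc] at hi
        obtain ⟨⟨h4, h5⟩, h6⟩ := hi
        have hi0 : 0 ≤ i := (Int.natCast_nonneg _).trans h4
        simp only [Finset.coe_filter, Set.mem_ofPred_eq, Finset.mem_range]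
        obtain ⟨j, rfl⟩ := Int.eq_ofNat_of_zero_le hi0
        have h7 := word_of_mem hb hW h6
        refine ⟨by omega, by omega, by omega, ?_⟩
        have e2 : (((j : ℕ) : ℤ) + 1).toNat = j + 1 := by omega
        rw [e2]
        have e3 : (b : ℝ) ^ (j + 1 + k) * ((q : ℝ) ^ (J + t) * ξ) =
            (b : ℝ) ^ (k + 1) * (ξ * (b : ℝ) ^ ((j : ℕ) : ℤ) * (q : ℝ) ^ ((J + t : ℕ) : ℤ)) := by
          rw [zpow_natCast, zpow_natCast]; ring
        rw [e3]
        exact h7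
      · intro i hi i' hi' h
        simp only [Finset.coe_filter, Set.mem_ofPred_eq, Finset.mem_Icc] at hi hi'
        obtain ⟨⟨h4, h5⟩, h6⟩ := hi
        obtain ⟨⟨h7, h8⟩, h9⟩ := hi'
        simp only at h
        omega)
  refine ⟨M0, fun M hM J => le_trans ?_ (hM0 M hM J)⟩
  apply Nat.cast_le.2
  apply Finset.card_le_card
  intro t ht
  rw [Finset.mem_filter] at ht ⊢
  obtain ⟨htM, h1⟩ := ht
  push Not at h1
  obtain ⟨u, l, h2, h3, W, hW, h4⟩ := h1
  exact ⟨htM, W, hW, u, l, h2, h3, h4⟩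

/-- points of `UW` are not `b ^ (k + 1)`-rational -/
lemma not_int_of_mem {b k W : ℕ} (hb : 2 ≤ b) {y : ℝ} (h : (y : UnitAddCircle) ∈ UW b k W) (m : ℤ) :
    (b : ℝ) ^ (k + 1) * y ≠ m := by
  have hb0 : (0 : ℝ) < b := by positivity
  obtain ⟨z, ⟨hz1, hz2⟩, hz⟩ := h
  simp only at hz
  rw [← sub_eq_zero, ← AddCircle.coe_sub, AddCircle.coe_eq_zero_iff] at hz
  obtain ⟨n, hn⟩ := hz
  simp only [zsmul_eq_mul, mul_one] at hn
  intro hm
  rw [div_lt_iff₀ (by positivity)] at hz1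
  rw [lt_div_iff₀ (by positivity)] at hz2
  have e : z * (b : ℝ) ^ (k + 1) = ((m + (b : ℤ) ^ (k + 1) * n : ℤ) : ℝ) := by
    push_cast
    rw [← hm, hn]
    ring
  rw [e] at hz1 hz2
  have h1 : (b : ℤ) ^ k + W < m + (b : ℤ) ^ (k + 1) * n := by exact_mod_cast hz1
  have h2 : m + (b : ℤ) ^ (k + 1) * n < (b : ℤ) ^ k + W + 1 := by exact_mod_cast hz2
  omega

/-- the number of digits -/
lemma length_le {b q a : ℕ} (hb : 2 ≤ b) (hq : 2 ≤ q) (ha : 1 ≤ a) (n : ℕ) :
    (Nat.digits b (a * q ^ n)).length ≤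
      ⌊(n : ℝ) * (Real.log q / Real.log b)⌋₊ + (Nat.log b a + 2) := by
  rw [Nat.digits_length_le_iff (by omega)]
  have hbR : (1 : ℝ) < b := by exact_mod_cast (by omega : 1 < b)
  have hlb : 0 < Real.log b := Real.log_pos hbR
  have h1 : a < b ^ (Nat.log b a + 1) := Nat.lt_pow_succ_log_self (by omega) a
  have h2 : q ^ n < b ^ (⌊(n : ℝ) * (Real.log q / Real.log b)⌋₊ + 1) := by
    have h3 := Nat.lt_floor_add_one ((n : ℝ) * (Real.log q / Real.log b))
    rw [← mul_div_assoc, div_lt_iff₀ hlb] at h3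
    have hq0 : (0 : ℝ) < q := by exact_mod_cast (by omega : 0 < q)
    have h4 : (q : ℝ) ^ n < (b : ℝ) ^ (⌊(n : ℝ) * (Real.log q / Real.log b)⌋₊ + 1) := by
      rw [← Real.log_lt_log_iff (by positivity) (by positivity), Real.log_pow, Real.log_pow]
      rw [← mul_div_assoc]
      push_cast
      exact h3
    exact_mod_cast h4
  calc a * q ^ n < b ^ (Nat.log b a + 1) * b ^ (⌊(n : ℝ) * (Real.log q / Real.log b)⌋₊ + 1) := by
        exact Nat.mul_lt_mul_of_lt_of_le h1 h2.le (by positivity)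
    _ = _ := by
        rw [← pow_add]
        congr 1
        ring

open Classical in
/-- **powers, all windows** -/
theorem pow_windows {b q : ℕ} (hb : 2 ≤ b) (hq : 2 ≤ q) (hco : Nat.Coprime b q) {a : ℕ}
    (ha : 1 ≤ a) (k : ℕ) {ε δ η : ℝ} (hε : 0 < ε) (hδ : 0 < δ) (hη : 0 < η) :
    ∃ M0 : ℕ, ∀ M : ℕ, M0 ≤ M → ∀ J : ℕ,
      (((range M).filter (fun t : ℕ => ¬ ∀ u l : ℕ,
        u + l ≤ (Nat.digits b (a * q ^ (J + t))).length → η * ((J : ℝ) + M) ≤ l → ∀ W < b ^ k,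
          (M : ℝ) ^ (1 - ε) ≤ (((range (u + l)).filter (fun i : ℕ => u ≤ i ∧ i + k ≤ u + l ∧
            a * q ^ (J + t) / b ^ i % b ^ k = W)).card : ℝ))).card : ℝ) ≤ δ * M := by
  obtain ⟨r, D, hr, hrb, hrq, hcore⟩ := exists_core hb hq hco
  have hdown := fun θ : ℝ => (Dn.down b q hb hq hco r hr hrb hrq θ).1
  have hη2 : 0 < η / 2 := by positivity
  have hb0 : (b : ℝ) ≠ 0 := by positivity
  set P : ℕ → ℕ → ℕ → ℕ → Prop := fun W M J t => ∃ u l : ℕ,
        u + l ≤ (Nat.digits b (a * q ^ (J + t))).length ∧ η * ((J : ℝ) + M) ≤ l ∧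
          (((range (u + l)).filter (fun i : ℕ => u ≤ i ∧ i + k ≤ u + l ∧
            a * q ^ (J + t) / b ^ i % b ^ k = W)).card : ℝ) < (M : ℝ) ^ (1 - ε) with hP
  set γ : ℝ := Real.log q / Real.log b with hγ
  have hlb : 0 < Real.log b := Real.log_pos (by exact_mod_cast (by omega : 1 < b))
  have hlq : 0 < Real.log q := Real.log_pos (by exact_mod_cast (by omega : 1 < q))
  have hγ0 : 0 < γ := div_pos hlq hlb
  set κ0 : ℕ := ⌈γ⌉₊ + 1 with hκ0
  have hγκ : γ ≤ ⌈γ⌉₊ := Nat.le_ceil _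
  set A : ℕ := Nat.log b a + 2 with hA
  obtain ⟨M0, hM0⟩ := union_words (N := b ^ k) P hδ (by
    intro W hW δ' hδ'
    obtain ⟨M1, hM1⟩ := Uni.uni Win.win hcore hdown (a : ℝ)
      (fun n => -(⌊(n : ℝ) * γ⌋₊ : ℤ)) (fun _ => 0) κ0 (2 * κ0)
      (fun n => by
        have h1 : ⌊(n : ℝ) * γ⌋₊ ≤ ⌊((n + 1 : ℕ) : ℝ) * γ⌋₊ := by
          apply Nat.floor_le_floor
          push_cast
          nlinarith
        have h2 : ⌊((n + 1 : ℕ) : ℝ) * γ⌋₊ ≤ ⌊(n : ℝ) * γ⌋₊ + κ0 := by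
          have h3 := Nat.lt_floor_add_one ((n : ℝ) * γ)
          have h4 : ⌊((n + 1 : ℕ) : ℝ) * γ⌋₊ < ⌊(n : ℝ) * γ⌋₊ + κ0 + 1 := by
            rw [Nat.floor_lt (by positivity)]
            rw [hκ0]
            push_cast
            nlinarith
          omega
        constructor
        · omega
        · omega)
      (fun n => ⟨le_rfl, by positivity⟩)
      (fun M _ => by
        have h1 : ⌊((2 * M : ℕ) : ℝ) * γ⌋₊ ≤ 2 * κ0 * M := by
          have h2 : (⌊((2 * M : ℕ) : ℝ) * γ⌋₊ : ℝ) ≤ ((2 * κ0 * M : ℕ) : ℝ) := by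
            refine (Nat.floor_le (by positivity)).trans ?_
            rw [hκ0]
            push_cast
            have hM0 : (0 : ℝ) ≤ M := Nat.cast_nonneg _
            nlinarith
          exact_mod_cast h2
        push_cast at h1 ⊢
        have h3 : ((⌊(2 * (M : ℝ)) * γ⌋₊ : ℕ) : ℤ) ≤ ((2 * κ0 * M : ℕ) : ℤ) := by
          exact_mod_cast h1
        push_cast at h3
        linarith)
      (fun N hN η' hη' => by
        obtain ⟨M1, hM1⟩ := Pw.pw b q hb hq hco r hr hrb a ha N hN η' hη'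
        refine ⟨M1, fun M hM n hn u v hu hv huv => hM1 M hM n hn u v hu hv huv⟩)
      (UW b k W) (isOpen_UW b k W) (nonempty_UW hb k W) hε hδ' hη2
    obtain ⟨M2, hM2⟩ := exists_nat_ge ((A + k + 2 : ℝ) / (η / 2))
    refine ⟨max M1 M2, fun M hM J => ?_⟩
    have hM2' : (M2 : ℝ) ≤ M := by exact_mod_cast (le_max_right _ _).trans hM
    have hsize : (A : ℝ) + k + 2 ≤ η / 2 * M := by
      have h1 := hM2.trans hM2'
      rw [div_le_iff₀ hη2] at h1
      linarith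
    refine le_trans ?_ (hM1 M ((le_max_left _ _).trans hM) J)
    apply Nat.cast_le.2
    apply Finset.card_le_card
    intro t ht
    rw [Finset.mem_filter] at ht ⊢
    obtain ⟨htM, u, l, h1, h2, h3⟩ := ht
    have hJ0 : (0 : ℝ) ≤ J := Nat.cast_nonneg _
    have hA0 : (0 : ℝ) ≤ A := Nat.cast_nonneg _
    have hl : (A : ℝ) + k + 2 ≤ l := by nlinarith
    have hlN : A + k + 2 ≤ l := by exact_mod_cast hl
    have hlen := length_le hb hq ha (J + t)
    rw [← hγ, ← hA] at hlen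
    refine ⟨htM, -((u + (l - A) : ℕ) : ℤ), -((u + k + 1 : ℕ) : ℤ), ?_, ?_, ?_,
      lt_of_le_of_lt ?_ h3⟩
    · omega
    · omega
    · have e : ((l - A : ℕ) : ℝ) = (l : ℝ) - A := by
        rw [Nat.cast_sub (by omega)]
      push_cast
      rw [e]
      nlinarith
    · apply Nat.cast_le.2
      refine Finset.card_le_card_of_injOn (fun i : ℤ => (-i).toNat - (k + 1)) ?_ ?_
      · intro i hi
        simp only [Finset.coe_filter, Set.mem_ofPred_eq, Finset.mem_Icc] at hi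
        obtain ⟨⟨h4, h5⟩, h6⟩ := hi
        simp only [Finset.coe_filter, Set.mem_ofPred_eq, Finset.mem_range]
        obtain ⟨j, hj⟩ : ∃ j : ℕ, (-i).toNat = j + (k + 1) := ⟨(-i).toNat - (k + 1), by omega⟩
        have hij : i = -((j + (k + 1) : ℕ) : ℤ) := by omega
        rw [hj, Nat.add_sub_cancel]
        have h7 := word_of_mem hb hW h6
        refine ⟨by omega, by omega, by omega, ?_⟩
        have e3 : (b : ℝ) ^ (k + 1) * ((a : ℝ) * (b : ℝ) ^ i * (q : ℝ) ^ ((J + t : ℕ) : ℤ)) =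
            ((a * q ^ (J + t) : ℕ) : ℝ) / ((b ^ j : ℕ) : ℝ) := by
          rw [hij, zpow_neg, zpow_natCast, zpow_natCast]
          push_cast
          rw [pow_add]
          field_simp
          ring
        rw [e3, ← Int.natCast_floor_eq_floor (by positivity), Nat.floor_div_eq_div] at h7
        exact_mod_cast h7
      · intro i hi i' hi' h
        simp only [Finset.coe_filter, Set.mem_ofPred_eq, Finset.mem_Icc] at hi hi'
        obtain ⟨⟨h4, h5⟩, h6⟩ := hi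
        obtain ⟨⟨h7, h8⟩, h9⟩ := hi'
        simp only at h
        omega)
  refine ⟨M0, fun M hM J => le_trans ?_ (hM0 M hM J)⟩
  apply Nat.cast_le.2
  apply Finset.card_le_card
  intro t ht
  rw [Finset.mem_filter] at ht ⊢
  obtain ⟨htM, h1⟩ := ht
  push Not at h1
  obtain ⟨u, l, h2, h3, W, hW, h4⟩ := h1
  exact ⟨htM, W, hW, u, l, h2, h3, h4⟩

end Pool.Agent.TH461.AL.Fin
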