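import Mathlib
import Pool.Agent.TH461.AL.Stms3

/-!
Project AL, fourth part: base `b = u v` and multiples `q = u` (such as `b = 10`, `q = 2`),
`u, v` coprime.  The line `n` of the orbit `θ b ^ i q ^ n = θ u ^ (i + n) v ^ i` is a diagonal of the
grid of `u, v`.
-/

set_option autoImplicit false

open Finset Filter Topology

namespace Pool.Agent.TH461.AL

open Pool.Agent.TH461.SST (InT ClusterStmt)
open Pool.Agent.H706R2 (dZ)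

/-- from a far cell to a far cell of any other line -/
def UpDown (F : ℤ → ℤ → Prop) (κ : ℕ) : Prop :=
  ∀ i n : ℤ, F i n → ∀ n' : ℤ, ∃ i' : ℤ, |i' - i| ≤ κ * |n' - n| ∧ F i' n'

open Classical in
/-- J13: for all but `δ R` of the diagonals, a cell in no triangle has many cells of its diagonal in
no triangle near it; triangles of bounded total size -/
def DiagStmt : Prop :=
  ∀ (l u K δ lam : ℝ) (_ : 0 < l) (_ : 0 < u) (_ : 0 < K) (_ : 0 < δ) (_ : 0 < lam),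
    ∃ c : ℝ, 0 < c ∧ ∃ R0 : ℕ, ∀ (R : ℕ) (_ : R0 ≤ R)
    (κ : ℕ) (m n : Fin κ → ℕ) (h : Fin κ → ℝ)
    (_ : ∀ z, (m z : ℝ) * l + (n z : ℝ) * u < h z)
    (_ : ∑ z, ((h z - (m z : ℝ) * l - (n z : ℝ) * u) / u + 1) ≤ K * R),
    ∃ B : Finset ℤ, (B.card : ℝ) ≤ δ * R ∧ ∀ x y : ℕ, (x : ℤ) - y ∉ B → lam * R ≤ x →
      lam * R ≤ y → (y : ℝ) + lam * R < R → (∀ z, ¬ InT l u (m z) (n z) (h z) x y) →
      c * R ≤ (((range R).filter (fun y' : ℕ => |(y' : ℝ) - y| ≤ lam * R ∧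
        ∀ z, ¬ InT l u (m z) (n z) (h z) (x + y' - y) y')).card : ℝ)

/-- J12 -/
def J12 : Prop := ∀ (u v : ℕ) (_ : 2 ≤ u) (_ : 2 ≤ v) (r : ℝ) (_ : 0 < r)
  (_ : (((u * v : ℕ) : ℝ) + 1) * r ≤ 1) (θ : ℝ), UpDown (Fa (u * v) u r θ) 1

/-- J13 -/
def J13 : Prop := DiagStmt

/-- J14 -/
def J14 : Prop := ∀ (u v : ℕ) (_ : 2 ≤ u) (_ : 2 ≤ v) (_ : Nat.Coprime u v) (r : ℝ) (_ : 0 < r)
  (_ : ((u : ℝ) + 1) * r ≤ 1) (_ : ((v : ℝ) + 1) * r ≤ 1) (_ : DiagStmt) (_ : ClusterStmt u v)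
  (_ : ∀ θ : ℝ, UpDown (Fa (u * v) u r θ) 1),
    ∃ D : ℕ, LineProp {F | ∃ θ : ℝ, F = Fa (u * v) u r θ} D

/-- J15 -/
def J15 : Prop := ∀ (S : Set (ℤ → ℤ → Prop)) (D κ : ℕ) (_ : LineProp S D)
  (_ : ∀ F ∈ S, UpDown F κ), LevelProp S (D + κ + 3)

end Pool.Agent.TH461.AL
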