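import Mathlib
import Pool.Agent.TH461.AL.Core
import Pool.Agent.TH461.AL.Wd
import Pool.Agent.TH461.AL.Last
import Pool.Agent.TH461.AL.Stms4

/-!
Project AL: the core theorem for multiplicatively independent pairs, from `MultiProp`.
-/

set_option autoImplicit false

open Finset Filter Topology

namespace Pool.Agent.TH461.AL.Gen

open Pool.Agent.TH461.AL
open Pool.Agent.H706R2 (dZ round_run)
open Pool.Agent.H705R2
open Pool.Agent.TH461.AL.Wd (growth far card_refl)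
open Pool.Agent.TH461.AL.Core (mu_ge sizes)

/-- below a far cell there is a far cell -/
lemma down_gen {b q k0 : ℕ} (hb : 2 ≤ b) (hq : 1 ≤ q) (hk : q ≤ b ^ k0) {r : ℝ}
    (hrb : ((b : ℝ) + 1) * r ≤ 1) (θ : ℝ) : Down (Fa b q r θ) k0 := by
  intro i j hij t
  have hb0 : (0 : ℝ) < b := by positivity
  have hq0 : (0 : ℝ) < q := by exact_mod_cast hq
  by_contra hcon
  push Not at hcon
  set z : ℝ := θ * (b : ℝ) ^ i * (q : ℝ) ^ (j - (t : ℤ)) with hz
  have hnear : ∀ s ≤ k0 * t, dZ ((b : ℝ) ^ s * z) < r := by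
    intro s hs
    have h1 := hcon (i + s) (by omega) (by
      have : (s : ℤ) ≤ k0 * t := by exact_mod_cast hs
      linarith)
    unfold Fa at h1
    push Not at h1
    have e : θ * (b : ℝ) ^ (i + (s : ℤ)) * (q : ℝ) ^ (j - (t : ℤ)) = (b : ℝ) ^ s * z := by
      rw [hz, zpow_add₀ hb0.ne', zpow_natCast]
      ring
    rw [e] at h1
    exact h1
  have h1 := round_run hrb (k0 * t) hnear
  have h2 := hnear (k0 * t) le_rfl
  have h3 : (b : ℝ) ^ (k0 * t) * dZ z < r := by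
    unfold dZ at h2
    rw [h1] at h2
    push_cast at h2
    rw [← mul_sub, abs_mul, abs_of_pos (by positivity)] at h2
    exact h2
  have h4 : dZ (θ * (b : ℝ) ^ i * (q : ℝ) ^ j) ≤ (q : ℝ) ^ t * dZ z := by
    have e : θ * (b : ℝ) ^ i * (q : ℝ) ^ j = (q : ℝ) ^ t * z := by
      rw [hz, zpow_sub₀ hq0.ne', zpow_natCast]
      field_simp
    rw [e]
    have h5 := Pool.Agent.H706R2.dZ_le_of_int ((q : ℝ) ^ t * z) ((q : ℤ) ^ t * round z)
    refine h5.trans (le_of_eq ?_)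
    unfold dZ
    push_cast
    rw [← mul_sub, abs_mul, abs_of_pos (by positivity)]
  have h5 : (q : ℝ) ^ t ≤ (b : ℝ) ^ (k0 * t) := by
    rw [pow_mul]
    exact pow_le_pow_left₀ hq0.le (by exact_mod_cast hk) t
  have h6 : (q : ℝ) ^ t * dZ z ≤ (b : ℝ) ^ (k0 * t) * dZ z :=
    mul_le_mul_of_nonneg_right h5 (abs_nonneg _)
  have h7 : r ≤ dZ (θ * (b : ℝ) ^ i * (q : ℝ) ^ j) := hij
  linarith

open Classical in
theorem word_gen {p q : ℕ} (hp : 2 ≤ p) (hq : 2 ≤ q) (hind : MulIndep p q) {r : ℝ} (hr : 0 < r)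
    {U : Set UnitAddCircle} (hU : IsOpen U) (hUne : U.Nonempty) {δ : ℝ} (hδ : 0 < δ) :
    ∃ N : ℕ, 1 ≤ N ∧ ∃ T1 : ℕ, ∀ T : ℕ, T1 ≤ T → ∀ θ : ℝ, r ≤ dZ (N * θ) →
      (((range T).filter (fun t : ℕ =>
        ∀ k : ℕ, k ≤ (⌈Real.log q / Real.log p⌉₊ + 1) * T →
          ((θ * (p : ℝ) ^ k / (q : ℝ) ^ t : ℝ) : UnitAddCircle) ∉ U)).card : ℝ) ≤ δ * T := by
  by_contra hcon
  push Not at hcon
  choose T hT θ hθ hcard using fun L : ℕ => hcon L.factorial (Nat.factorial_pos L)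
    (2 * (L * L.factorial) + L + 4)
  have hT0 : ∀ L, 0 < T L := fun L => by have := hT L; omega
  have hTt : Tendsto T atTop atTop :=
    tendsto_atTop_mono (fun L => by have := hT L; simp only [id]; omega) tendsto_id
  have hsqt : Tendsto (fun L => Nat.sqrt (T L)) atTop atTop := by
    refine tendsto_atTop.2 fun r => ?_
    filter_upwards [hTt.eventually_ge_atTop (r * r)] with L hL
    exact Nat.le_sqrt.2 hL
  obtain ⟨L, hL⟩ := Pool.Agent.TH419.FS.core_seq hp hq hind hU hUne hδ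
    (fun L => (((θ L / (q : ℝ) ^ (T L - 1) : ℝ)) : Circ)) (fun _ => 0) T
    (fun L => (⌈Real.log q / Real.log p⌉₊ + 1) * T L) (fun L => Nat.sqrt (T L)) hT0 hTt hsqt
    (fun L => by
      have h1 := Nat.sqrt_le_self (T L)
      have h2 : T L ≤ (⌈Real.log q / Real.log p⌉₊ + 1) * T L :=
        Nat.le_mul_of_pos_left _ (Nat.succ_pos _)
      exact h1.trans h2)
    (by
      intro E hE hEinv c hc
      obtain ⟨n0, hn01, hn0E⟩ := Pool.Agent.TH419.FS.common_order hp hE hEinv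
      have h0 : ∀ᶠ L : ℕ in atTop, c / r ≤ L := tendsto_natCast_atTop_atTop.eventually_ge_atTop _
      filter_upwards [eventually_ge_atTop n0, h0] with L h1 h2
      intro i hi e he
      have h3 : L.factorial • e = 0 := by
        obtain ⟨k, hk⟩ := Nat.dvd_factorial hn01 h1
        rw [hk, mul_comm, mul_smul, hn0E e he, smul_zero]
      have h4 := far (T := T L) hq hi (hθ L) h3
      have h5 := growth hp hq (hT L)
      rw [zero_add]
      have h6 := mul_le_mul_of_nonneg_right h5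
        (dist_nonneg (x := q ^ i • (((θ L / (q : ℝ) ^ (T L - 1) : ℝ)) : Circ)) (y := e))
      refine le_trans ?_ h6
      rw [div_le_iff₀ hr] at h2
      have h7 := mul_le_mul_of_nonneg_left h4 (Nat.cast_nonneg (α := ℝ) L)
      linarith)
  refine absurd hL (not_le.2 (lt_of_lt_of_le (hcard L) ?_))
  apply Nat.cast_le.2
  refine card_refl fun t ht h j hj => ?_
  have h1 := h j hj
  have h2 : p ^ j • q ^ (0 + (T L - 1 - t)) • (((θ L / (q : ℝ) ^ (T L - 1) : ℝ)) : Circ) =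
      ((θ L * (p : ℝ) ^ j / (q : ℝ) ^ t : ℝ) : Circ) := by
    rw [← AddCircle.coe_nsmul, ← AddCircle.coe_nsmul, nsmul_eq_mul, nsmul_eq_mul]
    congr 1
    push_cast
    have e2 : (q : ℝ) ^ (T L - 1 - t) * (q : ℝ) ^ t = (q : ℝ) ^ (T L - 1) := by
      rw [← pow_add]
      congr 1
      omega
    have e3 : (q : ℝ) ^ t ≠ 0 := by positivity
    have e4 : (q : ℝ) ^ (T L - 1 - t) ≠ 0 := by positivity
    rw [zero_add, ← e2]
    field_simp
  rw [h2]
  exact h1

open Classical in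
/-- **Core**: cells in `U` on almost all lines -/
theorem core_gen {p q : ℕ} (hp : 2 ≤ p) (hq : 2 ≤ q) (hind : MulIndep p q)
    {r : ℝ} (hr : 0 < r) {D1 : ℕ} (hD1 : MultiProp {F | ∃ θ : ℝ, F = Fa p q r θ} D1) :
    ∃ D : ℕ, ∀ (U : Set UnitAddCircle) (_ : IsOpen U) (_ : U.Nonempty) (ε δ : ℝ) (_ : 0 < ε)
      (_ : 0 < δ), ∃ N : ℕ, 1 ≤ N ∧ ∀ H : ℕ, ∃ M0 : ℕ, ∀ M : ℕ, M0 ≤ M → ∀ (θ : ℝ) (J a b : ℤ),
        b - a ≤ H * M →
        (∀ t : ℕ, t < M → ∃ i : ℤ, a ≤ i ∧ i ≤ b ∧ Fa p q r (N * θ) i (J + t)) →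
          (((range M).filter (fun t : ℕ =>
            (((Icc (a - D * M) (b + D * M)).filter (fun i : ℤ =>
              ((θ * (p : ℝ) ^ i * (q : ℝ) ^ (J + t) : ℝ) : UnitAddCircle) ∈ U)).card : ℝ) <
                (M : ℝ) ^ (1 - ε))).card : ℝ) ≤ δ * M := by
  set D2 : ℕ := ⌈Real.log q / Real.log p⌉₊ + 1 with hD2
  refine ⟨D1 + D2 + 1, fun U hU hUne ε' δ hε' hδ => ?_⟩
  set ε : ℝ := min ε' 1 with hεdef
  have hε : 0 < ε := lt_min hε' one_pos
  have hε1 : ε ≤ 1 := min_le_right _ _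
  obtain ⟨N, hN1, T1, hN⟩ := word_gen hp hq hind hr hU hUne (δ := δ / 20) (by positivity)
  refine ⟨N, hN1, fun H => ?_⟩
  obtain ⟨C0, hC0⟩ := Last.last D2 T1 (δ / 20) (by positivity)
  obtain ⟨M1, hM1⟩ := hD1 (ε / 3) (by positivity) (δ / 2) (by positivity)
  obtain ⟨M2, hM2⟩ := eventually_atTop.1 (sizes C0 (H + 2 * D1) D2 hε hε1)
  refine ⟨max M1 M2, fun M hM θ J a b hab hfar => ?_⟩
  obtain ⟨hM1', hRM, hlog, hsz⟩ := hM2 M ((le_max_right _ _).trans hM)
  have hMR : (1 : ℝ) ≤ M := by exact_mod_cast hM1'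
  have hM0 : (0 : ℝ) < M := by linarith
  set R : ℕ := ⌈(M : ℝ) ^ (ε / 3)⌉₊ with hR
  have hR1 : 1 ≤ R := by
    rw [hR]
    exact Nat.one_le_iff_ne_zero.2 (Nat.ceil_pos.2 (Real.rpow_pos_of_pos hM0 _)).ne'
  have hR0 : (0 : ℝ) < R := by exact_mod_cast hR1
  set F : ℤ → ℤ → Prop := Fa p q r (N * θ) with hF
  set G : ℤ → ℤ → Prop := fun i j =>
    ((θ * (p : ℝ) ^ i * (q : ℝ) ^ j : ℝ) : UnitAddCircle) ∈ U with hG
  have hpne : (p : ℝ) ≠ 0 := by positivity
  have hqne : (q : ℝ) ≠ 0 := by positivity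
  -- the hypothesis of `J8`
  have hFG : ∀ T : ℕ, T1 ≤ T → ∀ i j : ℤ, F i j →
      (((range T).filter (fun t : ℕ =>
        ¬ ∃ i' : ℤ, i - D2 * T ≤ i' ∧ i' ≤ i + D2 * T ∧ G i' (j - t))).card : ℝ) ≤
          δ / 20 * T := by
    intro T hT i j hij
    have h1 := hN T hT (θ * (p : ℝ) ^ i * (q : ℝ) ^ j) (by
      have h2 : r ≤ dZ (N * θ * (p : ℝ) ^ i * (q : ℝ) ^ j) := hij
      have e : (N : ℝ) * (θ * (p : ℝ) ^ i * (q : ℝ) ^ j) = N * θ * (p : ℝ) ^ i * (q : ℝ) ^ j := by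
        ring
      rw [e]
      exact h2)
    refine le_trans ?_ h1
    apply Nat.cast_le.2
    apply Finset.card_le_card
    intro t ht
    rw [Finset.mem_filter] at ht ⊢
    refine ⟨ht.1, fun k hk hkU => ht.2 ⟨i + k, ?_, ?_, ?_⟩⟩
    · have h3 : (0 : ℤ) ≤ (D2 : ℤ) * T := by positivity
      have h4 : (0 : ℤ) ≤ (k : ℤ) := Int.natCast_nonneg _
      linarith
    · have h3 : (k : ℤ) ≤ (D2 : ℤ) * T := by exact_mod_cast hk
      linarith
    · simp only [hG]
      have e : θ * (p : ℝ) ^ (i + (k : ℤ)) * (q : ℝ) ^ (j - (t : ℤ)) =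
          θ * (p : ℝ) ^ i * (q : ℝ) ^ j * (p : ℝ) ^ k / (q : ℝ) ^ t := by
        rw [zpow_add₀ hpne, zpow_sub₀ hqne, zpow_natCast, zpow_natCast]
        ring
      rw [e]
      exact hkU
  -- far cells
  set a' : ℤ := a - D1 * M with ha'
  set b' : ℤ := b + D1 * M with hb'
  have h1 := hM1 M ((le_max_left _ _).trans hM) F ⟨N * θ, rfl⟩ J a b hfar
  -- the strips
  set L : ℕ := M / R + 1 with hL
  set Bad : ℕ → Finset ℕ := fun u => (range R).filter (fun t : ℕ =>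
      (8 * D2 + 16) * R * ((Icc (a' - (D2 + 1) * R) (b' + (D2 + 1) * R)).filter
        (fun i => G i ((J + (u * R : ℕ)) + t))).card < mu F R ((J + (u * R : ℕ)) + t) a' b') with hBad
  have hBadc : ∀ u, ((Bad u).card : ℝ) ≤ 5 * (δ / 20) * R := by
    intro u
    refine hC0 F G hFG R (J + (u * R : ℕ)) a' b' ?_
    refine le_trans (Nat.mul_le_mul_left _ (Nat.add_le_add_left (Nat.log_mono_right ?_) _)) hlog
    rw [Int.toNat_le]
    push_cast
    rw [ha', hb']
    linarith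
  have hsub : (range M).filter (fun t : ℕ =>
      (((Icc (a - (D1 + D2 + 1 : ℕ) * M) (b + (D1 + D2 + 1 : ℕ) * M)).filter (fun i : ℤ =>
        ((θ * (p : ℝ) ^ i * (q : ℝ) ^ (J + t) : ℝ) : UnitAddCircle) ∈ U)).card : ℝ) <
          (M : ℝ) ^ (1 - ε')) ⊆
      ((range M).filter (fun t : ℕ =>
        (((Icc (a - D1 * M) (b + D1 * M)).filter (fun i => F i (J + t))).card : ℝ)
          < (M : ℝ) ^ (1 - ε / 3))) ∪
      (range L).biUnion (fun u => (Bad u).image (fun v => u * R + v)) := by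
    intro t ht
    rw [Finset.mem_filter, Finset.mem_range] at ht
    obtain ⟨htM, ht2⟩ := ht
    rw [Finset.mem_union]
    by_cases hfew : (((Icc (a - D1 * M) (b + D1 * M)).filter (fun i => F i (J + t))).card : ℝ)
          < (M : ℝ) ^ (1 - ε / 3)
    · left
      rw [Finset.mem_filter, Finset.mem_range]
      exact ⟨htM, hfew⟩
    right
    push Not at hfew
    rw [Finset.mem_biUnion]
    have hdiv : t / R * R + t % R = t := Nat.div_add_mod' t R
    have hmod : t % R < R := Nat.mod_lt _ (by omega)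
    refine ⟨t / R, ?_, ?_⟩
    · rw [Finset.mem_range, hL]
      have := Nat.div_le_div_right (c := R) htM.le
      omega
    rw [Finset.mem_image]
    refine ⟨t % R, ?_, hdiv⟩
    rw [hBad]
    simp only
    rw [Finset.mem_filter, Finset.mem_range]
    refine ⟨hmod, ?_⟩
    have eJ : J + ((t / R * R : ℕ) : ℤ) + ((t % R : ℕ) : ℤ) = J + t := by
      rw [add_assoc, ← Nat.cast_add, hdiv]
    rw [eJ]
    rw [← Nat.cast_lt (α := ℝ)]
    push_cast
    have h2 := mu_ge F hR0.le (J + t) a' b'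
    have h3 : (M : ℝ) ^ (1 - ε / 3) ≤ (mu F R (J + t) a' b' : ℝ) :=
      hfew.trans (by exact_mod_cast h2)
    refine lt_of_lt_of_le ?_ (hsz.trans h3)
    have h4 : (((Icc (a' - (D2 + 1) * R) (b' + (D2 + 1) * R)).filter
        (fun i => G i (J + t))).card : ℝ) < (M : ℝ) ^ (1 - ε) := by
      have h5 : (M : ℝ) ^ (1 - ε') ≤ (M : ℝ) ^ (1 - ε) :=
        Real.rpow_le_rpow_of_exponent_le hMR (by have := min_le_left ε' 1; linarith)
      refine lt_of_le_of_lt ?_ (lt_of_lt_of_le ht2 h5)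
      apply Nat.cast_le.2
      apply Finset.card_le_card
      apply Finset.filter_subset_filter
      have hRMi : (R : ℤ) ≤ M := by exact_mod_cast hRM
      have hD20 : (0 : ℤ) ≤ (D2 : ℤ) + 1 := by positivity
      have h6 : ((D2 : ℤ) + 1) * R ≤ ((D2 : ℤ) + 1) * M := mul_le_mul_of_nonneg_left hRMi hD20
      apply Finset.Icc_subset_Icc
      · rw [ha']; push_cast; linarith
      · rw [hb']; push_cast; linarith
    have h7 : (0 : ℝ) < (8 * (D2 : ℝ) + 16) * R := by positivity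
    exact mul_lt_mul_of_pos_left h4 h7
  have hcard := Finset.card_le_card hsub
  have h2 : (((range L).biUnion (fun u => (Bad u).image (fun v => u * R + v))).card : ℝ) ≤
      L * (5 * (δ / 20) * R) := by
    refine le_trans (Nat.cast_le.2 Finset.card_biUnion_le) ?_
    rw [Nat.cast_sum]
    refine (Finset.sum_le_sum (g := fun _ => 5 * (δ / 20) * (R : ℝ)) fun u _ => ?_).trans ?_
    · exact le_trans (Nat.cast_le.2 Finset.card_image_le) (hBadc u)
    · rw [Finset.sum_const, Finset.card_range, nsmul_eq_mul]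
  have h3 : (L : ℝ) * R ≤ 2 * M := by
    have h4 : ((M / R : ℕ) : ℝ) * R ≤ M := by exact_mod_cast Nat.div_mul_le_self M R
    rw [hL]
    push_cast
    linarith
  refine le_trans (Nat.cast_le.2 hcard) ?_
  refine le_trans (Nat.cast_le.2 (Finset.card_union_le _ _)) ?_
  rw [Nat.cast_add]
  have h5 : (L : ℝ) * (5 * (δ / 20) * R) = δ / 4 * (L * R) := by ring
  have h6 : δ / 4 * ((L : ℝ) * R) ≤ δ / 4 * (2 * M) := mul_le_mul_of_nonneg_left h3 (by positivity)
  linarith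

end Pool.Agent.TH461.AL.Gen
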