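import Mathlib
import Pool.Agent.TH461.AL.Fin
import Pool.Agent.TH461.AL.Gen

/-!
Project AL: the final theorems from `CoreProp`.
-/

set_option autoImplicit false

open Finset Filter Topology

namespace Pool.Agent.TH461.AL.Gen

open Pool.Agent.TH461.AL
open Pool.Agent.TH461.AL.Nl (UW isOpen_UW nonempty_UW mem_UW word_of_mem exists_far)
open Pool.Agent.H706R2 (dZ)

open Classical in
/-- **Words in the multiples `q ^ n x` for almost all `n`.** -/
theorem nl_words_gen {b q : ℕ} (hb : 2 ≤ b) (hq : 2 ≤ q) {r : ℝ}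
    (hrb : ((b : ℝ) + 1) * r ≤ 1) {D : ℕ} (hD : CoreProp b q r D) {x : ℝ}
    (hx : Irrational x) (hL : ¬ Liouville x) :
    ∃ C : ℕ, ∀ (k : ℕ) (ε δ : ℝ), 0 < ε → 0 < δ → ∃ M0 : ℕ, ∀ M : ℕ, M0 ≤ M →
      (((range M).filter (fun n : ℕ => ¬ ∀ W < b ^ k, (M : ℝ) ^ (1 - ε) ≤
        (((range (C * M)).filter (fun i : ℕ =>
          ⌊(b : ℝ) ^ (i + k) * ((q : ℝ) ^ n * x)⌋ % ((b : ℤ) ^ k) = (W : ℤ))).card : ℝ))).card : ℝ)
        ≤ δ * M := by
  obtain ⟨m, hm⟩ := Rea.dio hx hL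
  refine ⟨2 * D + m * (1 + D + q) + 1, fun k ε δ hε hδ => ?_⟩
  refine Nl.union_words (b := b) (k := k) (fun W M n => (M : ℝ) ^ (1 - ε) ≤
        (((range ((2 * D + m * (1 + D + q) + 1) * M)).filter (fun i : ℕ =>
          ⌊(b : ℝ) ^ (i + k) * ((q : ℝ) ^ n * x)⌋ % ((b : ℤ) ^ k) = (W : ℤ))).card : ℝ)) hδ ?_
  intro W hW δ' hδ'
  obtain ⟨N, hN1, hN⟩ := hD (UW b k W) (isOpen_UW b k W) (nonempty_UW hb k W) ε δ' hε hδ'
  obtain ⟨M1, hM1⟩ := hN (m * (1 + D + q) + m + 1)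
  refine ⟨max (max M1 N) (m + 4), fun M hMM => ?_⟩
  have hMM1 : M1 ≤ M := (le_max_left _ _).trans ((le_max_left _ _).trans hMM)
  have hMM2 : N ≤ M := (le_max_right _ _).trans ((le_max_left _ _).trans hMM)
  have hMM3 : m + 4 ≤ M := (le_max_right _ _).trans hMM
  have hNb : N ≤ b ^ M := hMM2.trans (Nat.lt_pow_self (by omega : 1 < b)).le
  set B : ℕ := D * M + (m * ((1 + D + q) * M + 1) + 1) with hB
  have hBM : B + D * M + 2 ≤ (2 * D + m * (1 + D + q) + 1) * M := by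
    have e : (2 * D + m * (1 + D + q) + 1) * M = D * M + m * ((1 + D + q) * M) + D * M + M := by
      ring
    rw [e, hB, mul_add]
    omega
  have h1 := hM1 M hMM1 x 0 ((D * M : ℕ) : ℤ) (B : ℤ) (by
      have e : B = D * M + (m * ((1 + D + q) * M + 1) + 1) := hB
      have h2 : m * ((1 + D + q) * M + 1) + 1 ≤ (m * (1 + D + q) + m + 1) * M := by
        have e2 : (m * (1 + D + q) + m + 1) * M = m * ((1 + D + q) * M) + m * M + M := by ring
        rw [e2, mul_add]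
        have : m * 1 ≤ m * M := Nat.mul_le_mul_left _ (by omega)
        omega
      have h3 : (B : ℤ) = ((D * M : ℕ) : ℤ) + ((m * ((1 + D + q) * M + 1) + 1 : ℕ) : ℤ) := by
        rw [e, Nat.cast_add (D * M)]
      rw [h3]
      have h4 : ((m * ((1 + D + q) * M + 1) + 1 : ℕ) : ℤ) ≤
          (((m * (1 + D + q) + m + 1) * M : ℕ) : ℤ) := by exact_mod_cast h2
      rw [Nat.cast_mul (m * (1 + D + q) + m + 1)] at h4
      linarith) (by
    intro t ht
    obtain ⟨i, h1, h2, h3⟩ := exists_far hb hq hrb hm D M hN1 hNb t ht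
    exact ⟨i, h1, h2, by rw [zero_add]; exact h3⟩)
  refine le_trans ?_ h1
  apply Nat.cast_le.2
  apply Finset.card_le_card
  intro n hn
  rw [Finset.mem_filter] at hn ⊢
  refine ⟨hn.1, lt_of_le_of_lt ?_ (not_le.1 hn.2)⟩
  -- from the cells in `UW` to the words
  apply Nat.cast_le.2
  refine Finset.card_le_card_of_injOn (fun i : ℤ => (i + 1).toNat) ?_ ?_
  · intro i hi
    simp only [Finset.coe_filter, Set.mem_ofPred_eq, Finset.mem_Icc] at hi
    obtain ⟨⟨h2, h3⟩, h4⟩ := hi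
    have hi0 : 0 ≤ i := by
      push_cast at h2
      linarith
    simp only [Finset.coe_filter, Set.mem_ofPred_eq, Finset.mem_range]
    refine ⟨?_, ?_⟩
    · have h5 : i ≤ ((B + D * M : ℕ) : ℤ) := by push_cast; exact h3
      omega
    · obtain ⟨j, rfl⟩ := Int.eq_ofNat_of_zero_le hi0
      have h5 := word_of_mem hb hW h4
      rw [zero_add, zpow_natCast] at h5
      have e1 : (b : ℝ) ^ ((j : ℕ) : ℤ) = (b : ℝ) ^ j := zpow_natCast _ _
      have e2 : (((j : ℕ) : ℤ) + 1).toNat = j + 1 := by omega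
      rw [e2]
      have e3 : (b : ℝ) ^ (j + 1 + k) * ((q : ℝ) ^ n * x) =
          (b : ℝ) ^ (k + 1) * (x * (b : ℝ) ^ ((j : ℕ) : ℤ) * (q : ℝ) ^ n) := by
        rw [e1]; ring
      rw [e3]
      exact h5
  · intro i hi i' hi' h
    simp only [Finset.coe_filter, Set.mem_ofPred_eq, Finset.mem_Icc] at hi hi'
    obtain ⟨⟨h2, h3⟩, h4⟩ := hi
    obtain ⟨⟨h5, h6⟩, h7⟩ := hi'
    push_cast at h2 h5
    simp only at h
    have h8 : 0 ≤ i := by linarith
    have h9 : 0 ≤ i' := by linarith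
    omega

open Classical in
/-- **algebraic numbers, all windows** -/
theorem alg_windows_gen {b q : ℕ} (hb : 2 ≤ b) (hq : 2 ≤ q) {r : ℝ} (hr : 0 < r)
    (hrb : ((b : ℝ) + 1) * r ≤ 1) {D k0 : ℕ} (hcore : CoreProp b q r D)
    (hdown : ∀ ϑ : ℝ, Down (Fa b q r ϑ) k0) {ξ : ℝ}
    (hξ : Irrational ξ) (ha : IsAlgebraic ℚ ξ) (k R : ℕ) {ε δ η : ℝ} (hε : 0 < ε) (hδ : 0 < δ)
    (hη : 0 < η) : ∃ M0 : ℕ, ∀ M : ℕ, M0 ≤ M → ∀ J : ℕ,
      (((range M).filter (fun t : ℕ => ¬ ∀ u l : ℕ, u + l ≤ R * (J + M) →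
        η * ((J : ℝ) + M) ≤ l → ∀ W < b ^ k, (M : ℝ) ^ (1 - ε) ≤
          (((range (u + l)).filter (fun i : ℕ => u ≤ i ∧ i + k ≤ u + l ∧
            ⌊(b : ℝ) ^ (i + k) * ((q : ℝ) ^ (J + t) * ξ)⌋ % ((b : ℤ) ^ k) = (W : ℤ))).card :
              ℝ))).card : ℝ) ≤ δ * M := by
  have hη2 : 0 < η / 2 := by positivity
  set P : ℕ → ℕ → ℕ → ℕ → Prop := fun W M J t => ∃ u l : ℕ, u + l ≤ R * (J + M) ∧
        η * ((J : ℝ) + M) ≤ l ∧
          (((range (u + l)).filter (fun i : ℕ => u ≤ i ∧ i + k ≤ u + l ∧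
            ⌊(b : ℝ) ^ (i + k) * ((q : ℝ) ^ (J + t) * ξ)⌋ % ((b : ℤ) ^ k) = (W : ℤ))).card :
              ℝ) < (M : ℝ) ^ (1 - ε) with hP
  obtain ⟨M0, hM0⟩ := Fin.union_words (N := b ^ k) P hδ (by
    intro W hW δ' hδ'
    obtain ⟨M1, hM1⟩ := Uni.uni Win.win hcore hdown ξ (fun _ => 0) (fun n => R * n) R R
      (fun n => ⟨le_rfl, by positivity⟩) (fun n => by
        constructor
        · push_cast; nlinarith [Int.natCast_nonneg R]
        · push_cast; linarith) (fun M _ => by simp)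
      (fun N hN η' hη' => by
        obtain ⟨M1, hM1⟩ := Alg.alg b q hb hq r hr hrb ξ hξ ha R N hN η' hη'
        refine ⟨M1, fun M hM n hn u v hu hv huv => hM1 M hM n hn u v hu hv huv⟩)
      (UW b k W) (isOpen_UW b k W) (nonempty_UW hb k W) hε hδ' hη2
    obtain ⟨M2, hM2⟩ := exists_nat_ge ((k + 2 : ℝ) / (η / 2))
    refine ⟨max M1 M2, fun M hM J => ?_⟩
    have hM2' : (M2 : ℝ) ≤ M := by exact_mod_cast (le_max_right _ _).trans hM
    have hsize : (k : ℝ) + 2 ≤ η / 2 * M := by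
      have h1 := hM2.trans hM2'
      rw [div_le_iff₀ hη2] at h1
      linarith
    refine le_trans ?_ (hM1 M ((le_max_left _ _).trans hM) J)
    apply Nat.cast_le.2
    apply Finset.card_le_card
    intro t ht
    rw [Finset.mem_filter] at ht ⊢
    obtain ⟨htM, u, l, h1, h2, h3⟩ := ht
    have hJ0 : (0 : ℝ) ≤ J := Nat.cast_nonneg _
    have hl : (k : ℝ) + 2 ≤ l := by nlinarith
    have hlN : k + 2 ≤ l := by exact_mod_cast hl
    refine ⟨htM, u, ((u + l : ℕ) : ℤ) - ((k + 2 : ℕ) : ℤ), Int.natCast_nonneg _, ?_, ?_,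
      lt_of_le_of_lt ?_ h3⟩
    · have h4 : ((u + l : ℕ) : ℤ) ≤ ((R * (J + M) : ℕ) : ℤ) := by exact_mod_cast h1
      rw [Nat.cast_mul] at h4
      have h5 : (0 : ℤ) ≤ ((k + 2 : ℕ) : ℤ) := Int.natCast_nonneg _
      linarith
    · push_cast
      nlinarith
    · apply Nat.cast_le.2
      refine Finset.card_le_card_of_injOn (fun i : ℤ => (i + 1).toNat) ?_ ?_
      · intro i hi
        simp only [Finset.coe_filter, Set.mem_ofPred_eq, Finset.mem_Icc] at hi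
        obtain ⟨⟨h4, h5⟩, h6⟩ := hi
        have hi0 : 0 ≤ i := (Int.natCast_nonneg _).trans h4
        simp only [Finset.coe_filter, Set.mem_ofPred_eq, Finset.mem_range]
        obtain ⟨j, rfl⟩ := Int.eq_ofNat_of_zero_le hi0
        have h7 := word_of_mem hb hW h6
        refine ⟨by omega, by omega, by omega, ?_⟩
        have e2 : (((j : ℕ) : ℤ) + 1).toNat = j + 1 := by omega
        rw [e2]
        have e3 : (b : ℝ) ^ (j + 1 + k) * ((q : ℝ) ^ (J + t) * ξ) =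
            (b : ℝ) ^ (k + 1) * (ξ * (b : ℝ) ^ ((j : ℕ) : ℤ) * (q : ℝ) ^ ((J + t : ℕ) : ℤ)) := by
          rw [zpow_natCast, zpow_natCast]; ring
        rw [e3]
        exact h7
      · intro i hi i' hi' h
        simp only [Finset.coe_filter, Set.mem_ofPred_eq, Finset.mem_Icc] at hi hi'
        obtain ⟨⟨h4, h5⟩, h6⟩ := hi
        obtain ⟨⟨h7, h8⟩, h9⟩ := hi'
        simp only at h
        omega)
  refine ⟨M0, fun M hM J => le_trans ?_ (hM0 M hM J)⟩
  apply Nat.cast_le.2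
  apply Finset.card_le_card
  intro t ht
  rw [Finset.mem_filter] at ht ⊢
  obtain ⟨htM, h1⟩ := ht
  push Not at h1
  obtain ⟨u, l, h2, h3, W, hW, h4⟩ := h1
  exact ⟨htM, W, hW, u, l, h2, h3, h4⟩

end Pool.Agent.TH461.AL.Gen
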