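import Mathlib
import Pool.Agent.TH461.AL.Fin
import Pool.Agent.TH461.AL.Gen

/-!
Project AL: powers, all windows, from `CoreProp`.
-/

set_option autoImplicit false

open Finset Filter Topology

namespace Pool.Agent.TH461.AL.Gen

open Pool.Agent.TH461.AL
open Pool.Agent.TH461.AL.Nl (UW isOpen_UW nonempty_UW mem_UW word_of_mem)

open Classical in
/-- **powers, all windows** -/
theorem pow_windows_gen {b q : ℕ} (hb : 2 ≤ b) (hq : 2 ≤ q) {r : ℝ} {D k0 : ℕ}
    (hcore : CoreProp b q r D) (hdown : ∀ ϑ : ℝ, Down (Fa b q r ϑ) k0) {a : ℕ} (ha : 1 ≤ a)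
    (hpw : ∀ (N : ℕ) (_ : 1 ≤ N) (η : ℝ) (_ : 0 < η), ∃ M1 : ℕ, ∀ M : ℕ, M1 ≤ M →
      ∀ n : ℕ, n < 2 * M → ∀ u v : ℤ,
        -(⌊(n : ℝ) * (Real.log q / Real.log b)⌋₊ : ℤ) ≤ u → v ≤ 0 → η * M ≤ (v : ℝ) - u →
          ∃ i : ℤ, u ≤ i ∧ i ≤ v ∧ Fa b q r (N * (a : ℝ)) i n) (k : ℕ) {ε δ η : ℝ} (hε : 0 < ε) (hδ : 0 < δ) (hη : 0 < η) :
    ∃ M0 : ℕ, ∀ M : ℕ, M0 ≤ M → ∀ J : ℕ,
      (((range M).filter (fun t : ℕ => ¬ ∀ u l : ℕ,
        u + l ≤ (Nat.digits b (a * q ^ (J + t))).length → η * ((J : ℝ) + M) ≤ l → ∀ W < b ^ k,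
          (M : ℝ) ^ (1 - ε) ≤ (((range (u + l)).filter (fun i : ℕ => u ≤ i ∧ i + k ≤ u + l ∧
            a * q ^ (J + t) / b ^ i % b ^ k = W)).card : ℝ))).card : ℝ) ≤ δ * M := by
  have hη2 : 0 < η / 2 := by positivity
  have hb0 : (b : ℝ) ≠ 0 := by positivity
  set P : ℕ → ℕ → ℕ → ℕ → Prop := fun W M J t => ∃ u l : ℕ,
        u + l ≤ (Nat.digits b (a * q ^ (J + t))).length ∧ η * ((J : ℝ) + M) ≤ l ∧
          (((range (u + l)).filter (fun i : ℕ => u ≤ i ∧ i + k ≤ u + l ∧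
            a * q ^ (J + t) / b ^ i % b ^ k = W)).card : ℝ) < (M : ℝ) ^ (1 - ε) with hP
  set γ : ℝ := Real.log q / Real.log b with hγ
  have hlb : 0 < Real.log b := Real.log_pos (by exact_mod_cast (by omega : 1 < b))
  have hlq : 0 < Real.log q := Real.log_pos (by exact_mod_cast (by omega : 1 < q))
  have hγ0 : 0 < γ := div_pos hlq hlb
  set κ0 : ℕ := ⌈γ⌉₊ + 1 with hκ0
  have hγκ : γ ≤ ⌈γ⌉₊ := Nat.le_ceil _
  set A : ℕ := Nat.log b a + 2 with hA
  obtain ⟨M0, hM0⟩ := Fin.union_words (N := b ^ k) P hδ (by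
    intro W hW δ' hδ'
    obtain ⟨M1, hM1⟩ := Uni.uni Win.win hcore hdown (a : ℝ)
      (fun n => -(⌊(n : ℝ) * γ⌋₊ : ℤ)) (fun _ => 0) κ0 (2 * κ0)
      (fun n => by
        have h1 : ⌊(n : ℝ) * γ⌋₊ ≤ ⌊((n + 1 : ℕ) : ℝ) * γ⌋₊ := by
          apply Nat.floor_le_floor
          push_cast
          nlinarith
        have h2 : ⌊((n + 1 : ℕ) : ℝ) * γ⌋₊ ≤ ⌊(n : ℝ) * γ⌋₊ + κ0 := by
          have h3 := Nat.lt_floor_add_one ((n : ℝ) * γ)
          have h4 : ⌊((n + 1 : ℕ) : ℝ) * γ⌋₊ < ⌊(n : ℝ) * γ⌋₊ + κ0 + 1 := by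
            rw [Nat.floor_lt (by positivity)]
            rw [hκ0]
            push_cast
            nlinarith
          omega
        constructor
        · omega
        · omega)
      (fun n => ⟨le_rfl, by positivity⟩)
      (fun M _ => by
        have h1 : ⌊((2 * M : ℕ) : ℝ) * γ⌋₊ ≤ 2 * κ0 * M := by
          have h2 : (⌊((2 * M : ℕ) : ℝ) * γ⌋₊ : ℝ) ≤ ((2 * κ0 * M : ℕ) : ℝ) := by
            refine (Nat.floor_le (by positivity)).trans ?_
            rw [hκ0]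
            push_cast
            have hM0 : (0 : ℝ) ≤ M := Nat.cast_nonneg _
            nlinarith
          exact_mod_cast h2
        push_cast at h1 ⊢
        have h3 : ((⌊(2 * (M : ℝ)) * γ⌋₊ : ℕ) : ℤ) ≤ ((2 * κ0 * M : ℕ) : ℤ) := by
          exact_mod_cast h1
        push_cast at h3
        linarith)
      (fun N hN η' hη' => by
        obtain ⟨M1, hM1⟩ := hpw N hN η' hη'
        refine ⟨M1, fun M hM n hn u v hu hv huv => hM1 M hM n hn u v hu hv huv⟩)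
      (UW b k W) (isOpen_UW b k W) (nonempty_UW hb k W) hε hδ' hη2
    obtain ⟨M2, hM2⟩ := exists_nat_ge ((A + k + 2 : ℝ) / (η / 2))
    refine ⟨max M1 M2, fun M hM J => ?_⟩
    have hM2' : (M2 : ℝ) ≤ M := by exact_mod_cast (le_max_right _ _).trans hM
    have hsize : (A : ℝ) + k + 2 ≤ η / 2 * M := by
      have h1 := hM2.trans hM2'
      rw [div_le_iff₀ hη2] at h1
      linarith
    refine le_trans ?_ (hM1 M ((le_max_left _ _).trans hM) J)
    apply Nat.cast_le.2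
    apply Finset.card_le_card
    intro t ht
    rw [Finset.mem_filter] at ht ⊢
    obtain ⟨htM, u, l, h1, h2, h3⟩ := ht
    have hJ0 : (0 : ℝ) ≤ J := Nat.cast_nonneg _
    have hA0 : (0 : ℝ) ≤ A := Nat.cast_nonneg _
    have hl : (A : ℝ) + k + 2 ≤ l := by nlinarith
    have hlN : A + k + 2 ≤ l := by exact_mod_cast hl
    have hlen := Fin.length_le hb hq ha (J + t)
    rw [← hγ, ← hA] at hlen
    refine ⟨htM, -((u + (l - A) : ℕ) : ℤ), -((u + k + 1 : ℕ) : ℤ), ?_, ?_, ?_,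
      lt_of_le_of_lt ?_ h3⟩
    · omega
    · omega
    · have e : ((l - A : ℕ) : ℝ) = (l : ℝ) - A := by
        rw [Nat.cast_sub (by omega)]
      push_cast
      rw [e]
      nlinarith
    · apply Nat.cast_le.2
      refine Finset.card_le_card_of_injOn (fun i : ℤ => (-i).toNat - (k + 1)) ?_ ?_
      · intro i hi
        simp only [Finset.coe_filter, Set.mem_ofPred_eq, Finset.mem_Icc] at hi
        obtain ⟨⟨h4, h5⟩, h6⟩ := hi
        simp only [Finset.coe_filter, Set.mem_ofPred_eq, Finset.mem_range]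
        obtain ⟨j, hj⟩ : ∃ j : ℕ, (-i).toNat = j + (k + 1) := ⟨(-i).toNat - (k + 1), by omega⟩
        have hij : i = -((j + (k + 1) : ℕ) : ℤ) := by omega
        rw [hj, Nat.add_sub_cancel]
        have h7 := word_of_mem hb hW h6
        refine ⟨by omega, by omega, by omega, ?_⟩
        have e3 : (b : ℝ) ^ (k + 1) * ((a : ℝ) * (b : ℝ) ^ i * (q : ℝ) ^ ((J + t : ℕ) : ℤ)) =
            ((a * q ^ (J + t) : ℕ) : ℝ) / ((b ^ j : ℕ) : ℝ) := by
          rw [hij, zpow_neg, zpow_natCast, zpow_natCast]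
          push_cast
          rw [pow_add]
          field_simp
          ring
        rw [e3, ← Int.natCast_floor_eq_floor (by positivity), Nat.floor_div_eq_div] at h7
        exact_mod_cast h7
      · intro i hi i' hi' h
        simp only [Finset.coe_filter, Set.mem_ofPred_eq, Finset.mem_Icc] at hi hi'
        obtain ⟨⟨h4, h5⟩, h6⟩ := hi
        obtain ⟨⟨h7, h8⟩, h9⟩ := hi'
        simp only at h
        omega)
  refine ⟨M0, fun M hM J => le_trans ?_ (hM0 M hM J)⟩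
  apply Nat.cast_le.2
  apply Finset.card_le_card
  intro t ht
  rw [Finset.mem_filter] at ht ⊢
  obtain ⟨htM, h1⟩ := ht
  push Not at h1
  obtain ⟨u, l, h2, h3, W, hW, h4⟩ := h1
  exact ⟨htM, W, hW, u, l, h2, h3, h4⟩

end Pool.Agent.TH461.AL.Gen
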