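import Mathlib
import Pool.Agent.TH461.AL.Stms4
import Pool.Agent.TH419.FS.RidPow

/-!
Project AL: far cells in all windows for the numbers `m u ^ n` in base `u v`.
-/

set_option autoImplicit false

open Finset Filter Topology

namespace Pool.Agent.TH461.AL.Pw2

open Pool.Agent.TH461.AL
open Pool.Agent.H706R2 (dZ round_run)

theorem pw2 {u₀ v₀ : ℕ} (hp : 2 ≤ u₀) (hq : 2 ≤ v₀) (hpq : Nat.Coprime u₀ v₀) {r : ℝ}
    (hrp : (((u₀ * v₀ : ℕ) : ℝ) + 1) * r ≤ 1) {m : ℕ} (hm : 1 ≤ m)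
    {N : ℕ} (hN : 1 ≤ N) {η : ℝ} (hη : 0 < η) : ∃ M1 : ℕ, ∀ M : ℕ, M1 ≤ M →
    ∀ n : ℕ, n < 2 * M → ∀ u v : ℤ,
      -(⌊(n : ℝ) * (Real.log u₀ / Real.log (u₀ * v₀ : ℕ))⌋₊ : ℤ) ≤ u → v ≤ 0 →
      η * M ≤ (v : ℝ) - u →
        ∃ i : ℤ, u ≤ i ∧ i ≤ v ∧ Fa (u₀ * v₀) u₀ r (N * (m : ℝ)) i n := by
  set p : ℕ := u₀ * v₀ with hpdef
  have hp2 : 2 ≤ p := by rw [hpdef]; nlinarith
  have hpR : (2 : ℝ) ≤ p := by exact_mod_cast hp2
  have huR : (2 : ℝ) ≤ u₀ := by exact_mod_cast hp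
  have hvR : (2 : ℝ) ≤ v₀ := by exact_mod_cast hq
  have hp0 : (0 : ℝ) < p := by linarith
  have hu0 : (0 : ℝ) < u₀ := by linarith
  have hv0 : (0 : ℝ) < v₀ := by linarith
  have hpuv : (p : ℝ) = u₀ * v₀ := by rw [hpdef]; push_cast; ring
  have hlp : 0 < Real.log p := Real.log_pos (by linarith)
  have hlu : 0 < Real.log u₀ := Real.log_pos (by linarith)
  have hlv : 0 < Real.log v₀ := Real.log_pos (by linarith)
  have hlog : Real.log p = Real.log u₀ + Real.log v₀ := by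
    rw [hpuv, Real.log_mul hu0.ne' hv0.ne']
  have hr1 : r ≤ 1 := by nlinarith
  obtain ⟨n0, hn0⟩ : ∃ n0 : ℕ, n0 = N * m := ⟨_, rfl⟩
  have hn01 : 1 ≤ n0 := by
    rw [hn0]
    exact Nat.mul_pos hN hm
  have hn0R : (n0 : ℝ) = N * m := by rw [hn0]; push_cast; ring
  obtain ⟨κ, hκ, hrid⟩ := Pool.Agent.TH419.FS.ridout_pow hq hp hpq.symm n0 hn01
    (η * Real.log v₀ / (4 * Real.log u₀)) (by positivity)
  have hηp : 0 < η * Real.log v₀ := by positivity
  obtain ⟨M1, hM1⟩ := exists_nat_gt ((2 * |Real.log κ| + Real.log n0 + 1) / (η * Real.log v₀))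
  rw [div_lt_iff₀ hηp] at hM1
  refine ⟨M1, fun M hM n hn u v hu hv huv => ?_⟩
  have hMR : (M1 : ℝ) ≤ M := by exact_mod_cast hM
  have hbig : 2 * |Real.log κ| + Real.log n0 + 1 < M * (η * Real.log v₀) :=
    lt_of_lt_of_le hM1 (mul_le_mul_of_nonneg_right hMR hηp.le)
  have hlogn0 : 0 ≤ Real.log n0 := Real.log_natCast_nonneg n0
  have habs : 0 ≤ |Real.log κ| := abs_nonneg _
  have hMpos : 0 < (M : ℝ) := by
    by_contra h
    push Not at h
    have : (M : ℝ) * (η * Real.log v₀) ≤ 0 := mul_nonpos_of_nonpos_of_nonneg h hηp.le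
    linarith
  have huv0 : (0 : ℝ) < (v : ℝ) - u := lt_of_lt_of_le (by positivity) huv
  have huv1 : u < v := by exact_mod_cast sub_pos.1 huv0
  by_contra hcon
  push Not at hcon
  obtain ⟨ν, hν⟩ : ∃ ν : ℕ, u = -(ν : ℤ) := ⟨(-u).toNat, by omega⟩
  obtain ⟨K, hK⟩ : ∃ K : ℕ, v = u + K := ⟨(v - u).toNat, by omega⟩
  have hνle : ν ≤ ⌊(n : ℝ) * (Real.log u₀ / Real.log p)⌋₊ := by
    rw [hν] at hu
    exact_mod_cast neg_le_neg_iff.1 hu
  have hνlog : (ν : ℝ) * Real.log p ≤ n * Real.log u₀ := by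
    have h1 : (ν : ℝ) ≤ n * (Real.log u₀ / Real.log p) :=
      (Nat.le_floor_iff (by positivity)).1 hνle
    have h3 := mul_le_mul_of_nonneg_right h1 hlp.le
    have h4 : (n : ℝ) * (Real.log u₀ / Real.log p) * Real.log p = n * Real.log u₀ := by
      field_simp
    linarith
  have hνn : ν ≤ n := by
    have h1 : (ν : ℝ) * Real.log u₀ ≤ n * Real.log u₀ := by
      refine le_trans ?_ hνlog
      rw [hlog]
      have : (0 : ℝ) ≤ ν := Nat.cast_nonneg _
      nlinarith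
    exact_mod_cast le_of_mul_le_mul_right h1 hlu
  obtain ⟨i, hi⟩ : ∃ i : ℕ, n = ν + i := ⟨n - ν, by omega⟩
  have hpow : (v₀ : ℝ) ^ ν ≤ (u₀ : ℝ) ^ i := by
    rw [← Real.log_le_log_iff (by positivity) (by positivity), Real.log_pow, Real.log_pow]
    have h1 : (n : ℝ) = ν + i := by rw [hi]; push_cast; ring
    rw [hlog, h1] at hνlog
    nlinarith
  obtain ⟨z, hz⟩ : ∃ z : ℝ, z = (n0 : ℝ) * (u₀ : ℝ) ^ i / (v₀ : ℝ) ^ ν := ⟨_, rfl⟩
  have hnear : ∀ k ≤ K, dZ ((p : ℝ) ^ k * z) < r := by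
    intro k hk
    have h1 := hcon (u + k) (by omega) (by omega)
    unfold Fa at h1
    push Not at h1
    have e : ((N : ℝ) * (m : ℝ)) * (p : ℝ) ^ (u + (k : ℤ)) * (u₀ : ℝ) ^ ((n : ℕ) : ℤ) =
        (p : ℝ) ^ k * z := by
      rw [hν, zpow_add₀ hp0.ne', zpow_neg, zpow_natCast, zpow_natCast, zpow_natCast, hz, hn0R,
        hi, pow_add, hpuv, mul_pow, mul_pow]
      field_simp
    rw [e] at h1
    exact h1
  have h1 := round_run hrp K hnear
  have h2 := hnear K le_rfl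
  have hvp : (v₀ : ℝ) ^ K ≤ (p : ℝ) ^ K := by
    apply pow_le_pow_left₀ hv0.le
    rw [hpuv]
    nlinarith
  have h3 : |z - round z| * (v₀ : ℝ) ^ K < r := by
    unfold dZ at h2
    rw [h1] at h2
    have e : (p : ℝ) ^ K * z - (((p : ℤ) ^ K * round z : ℤ) : ℝ) =
        (p : ℝ) ^ K * (z - round z) := by
      push_cast
      ring
    rw [e, abs_mul, abs_of_pos (pow_pos hp0 K), mul_comm] at h2
    exact lt_of_le_of_lt (mul_le_mul_of_nonneg_left hvp (abs_nonneg _)) h2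
  have hKM : η * M ≤ K := by
    have e : (v : ℝ) - u = K := by
      rw [hK]
      push_cast
      ring
    rw [e] at huv
    exact huv
  have hpK : Real.exp (M * (η * Real.log v₀)) ≤ (v₀ : ℝ) ^ K := by
    rw [← Real.exp_log (pow_pos hv0 K), Real.log_pow]
    apply Real.exp_le_exp.2
    calc (M : ℝ) * (η * Real.log v₀) = η * M * Real.log v₀ := by ring
      _ ≤ K * Real.log v₀ := mul_le_mul_of_nonneg_right hKM hlv.le
  have hne : (n0 : ℤ) * (u₀ : ℤ) ^ i ≠ round z * (v₀ : ℤ) ^ ν := by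
    intro heq
    have hdvd : ((v₀ : ℤ) ^ ν) ∣ (n0 : ℤ) * (u₀ : ℤ) ^ i := ⟨round z, by rw [heq]; ring⟩
    have hcop : IsCoprime ((v₀ : ℤ) ^ ν) ((u₀ : ℤ) ^ i) :=
      (Nat.isCoprime_iff_coprime.2 hpq.symm).pow
    have h5 : ((v₀ : ℤ) ^ ν) ∣ (n0 : ℤ) := hcop.dvd_of_dvd_mul_right hdvd
    have h6 : v₀ ^ ν ∣ n0 := by exact_mod_cast h5
    have h7 : v₀ ^ ν ≤ n0 := Nat.le_of_dvd hn01 h6
    have h8 : K ≤ ν := by omega
    have h9 : (v₀ : ℝ) ^ K ≤ n0 :=
      (pow_le_pow_right₀ (by linarith) h8).trans (by exact_mod_cast h7)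
    have h10 : (M : ℝ) * (η * Real.log v₀) ≤ Real.log n0 :=
      (Real.le_log_iff_exp_le (by exact_mod_cast hn01)).2 (hpK.trans h9)
    linarith
  have h4 := hrid ν i (round z) hpow hne
  rw [← hz] at h4
  have h5 : ((u₀ : ℝ) ^ i) ^ (η * Real.log v₀ / (4 * Real.log u₀)) ≤
      Real.exp (M * (η * Real.log v₀) / 2) := by
    rw [Real.rpow_def_of_pos (by positivity), Real.log_pow]
    apply Real.exp_le_exp.2
    have e : (i : ℝ) * Real.log u₀ * (η * Real.log v₀ / (4 * Real.log u₀)) =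
        i * (η * Real.log v₀) / 4 := by
      field_simp
    rw [e]
    have hn' : (i : ℝ) ≤ 2 * M := by exact_mod_cast (by omega : i ≤ 2 * M)
    have h6 := mul_le_mul_of_nonneg_right hn' hηp.le
    linarith
  have h6 : |z - round z| < Real.exp (-(M * (η * Real.log v₀))) := by
    rw [Real.exp_neg, ← one_div, lt_div_iff₀ (Real.exp_pos _)]
    calc |z - round z| * Real.exp (M * (η * Real.log v₀)) ≤ |z - round z| * (v₀ : ℝ) ^ K :=
          mul_le_mul_of_nonneg_left hpK (abs_nonneg _)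
      _ < r := h3
      _ ≤ 1 := hr1
  have h7 : κ < κ := by
    calc κ ≤ ((u₀ : ℝ) ^ i) ^ (η * Real.log v₀ / (4 * Real.log u₀)) * |z - round z| := h4
      _ ≤ Real.exp (M * (η * Real.log v₀) / 2) * |z - round z| :=
          mul_le_mul_of_nonneg_right h5 (abs_nonneg _)
      _ < Real.exp (M * (η * Real.log v₀) / 2) * Real.exp (-(M * (η * Real.log v₀))) :=
          mul_lt_mul_of_pos_left h6 (Real.exp_pos _)
      _ = Real.exp (-(M * (η * Real.log v₀) / 2)) := by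
          rw [← Real.exp_add]
          congr 1
          ring
      _ ≤ Real.exp (Real.log κ) := by
          apply Real.exp_le_exp.2
          have := neg_abs_le (Real.log κ)
          linarith
      _ = κ := Real.exp_log hκ
  exact lt_irrefl _ h7

end Pool.Agent.TH461.AL.Pw2
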