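import Mathlib
import Pool.Agent.TH461.AL.Gen2
import Pool.Agent.TH461.AL.Gen3
import Pool.Agent.TH461.AL.Pw2
import Pool.Agent.TH461.AL.Stms4

/-!
Project AL: base `u v` and multiples `u ^ n`, `u, v` coprime (such as base `10` and `2 ^ n`).
-/

set_option autoImplicit false

open Finset Filter Topology

namespace Pool.Agent.TH461.AL.Dec

open Pool.Agent.TH461.AL
open Pool.Agent.H705R2 (MulIndep)

lemma mulIndep {u v : ℕ} (hu : 2 ≤ u) (hv : 2 ≤ v) (hco : Nat.Coprime u v) :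
    MulIndep (u * v) u := by
  intro m n hmn
  have hm : m = 0 := by
    by_contra hm
    have h1 : v ∣ u ^ n := by
      rw [← hmn]
      exact (Dvd.intro_left u rfl).trans (dvd_pow_self _ hm)
    have h2 : v ∣ 1 := by
      have h3 : Nat.Coprime v (u ^ n) := Nat.Coprime.pow_right n hco.symm
      have h4 := Nat.dvd_gcd dvd_rfl h1
      rwa [h3.gcd_eq_one] at h4
    have := Nat.le_of_dvd one_pos h2
    omega
  refine ⟨hm, ?_⟩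
  rw [hm, pow_zero] at hmn
  by_contra hn
  exact absurd hmn.symm (Nat.one_lt_pow hn (by omega)).ne'

/-- the core statement -/
theorem exists_core2 (h12 : J12) (h13 : J13) (h14 : J14) (h15 : J15) {u v : ℕ} (hu : 2 ≤ u)
    (hv : 2 ≤ v) (hco : Nat.Coprime u v) :
    ∃ (r : ℝ) (D : ℕ), 0 < r ∧ (((u * v : ℕ) : ℝ) + 1) * r ≤ 1 ∧ CoreProp (u * v) u r D := by
  have huR : (2 : ℝ) ≤ u := by exact_mod_cast hu
  have hvR : (2 : ℝ) ≤ v := by exact_mod_cast hv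
  have hpos : (0 : ℝ) < (((u * v : ℕ) : ℝ) + 1) := by positivity
  set r : ℝ := 1 / (((u * v : ℕ) : ℝ) + 1) with hr
  have hr0 : 0 < r := by positivity
  have hrb : (((u * v : ℕ) : ℝ) + 1) * r ≤ 1 := by
    rw [hr, mul_one_div, div_self hpos.ne']
  have hru : ((u : ℝ) + 1) * r ≤ 1 := by
    refine le_trans (mul_le_mul_of_nonneg_right ?_ hr0.le) hrb
    push_cast
    nlinarith
  have hrv : ((v : ℝ) + 1) * r ≤ 1 := by
    refine le_trans (mul_le_mul_of_nonneg_right ?_ hr0.le) hrb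
    push_cast
    nlinarith
  have hud : ∀ θ : ℝ, UpDown (Fa (u * v) u r θ) 1 := h12 u v hu hv r hr0 hrb
  obtain ⟨D, hD⟩ := h14 u v hu hv hco r hr0 hru hrv h13
    (Pool.Agent.TH461.SST.Main.cluster hu hv hco) hud
  have hlev := h15 {F | ∃ θ : ℝ, F = Fa (u * v) u r θ} D 1 hD (by
    rintro F ⟨θ, rfl⟩
    exact hud θ)
  have hmul := Mul.multi _ _ hlev
  obtain ⟨D', hD'⟩ := Gen.core_gen (by nlinarith : 2 ≤ u * v) hu (mulIndep hu hv hco) hr0 hmul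
  exact ⟨r, D', hr0, hrb, hD'⟩

lemma down2 {u v : ℕ} (hu : 2 ≤ u) (hv : 2 ≤ v) {r : ℝ}
    (hrb : (((u * v : ℕ) : ℝ) + 1) * r ≤ 1) (ϑ : ℝ) : Down (Fa (u * v) u r ϑ) 1 :=
  Gen.down_gen (by nlinarith) (by omega) (by rw [pow_one]; nlinarith) hrb ϑ

open Classical in
theorem nl_words2 (h12 : J12) (h13 : J13) (h14 : J14) (h15 : J15) {u v : ℕ} (hu : 2 ≤ u)
    (hv : 2 ≤ v) (hco : Nat.Coprime u v) {x : ℝ} (hx : Irrational x) (hL : ¬ Liouville x) :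
    ∃ C : ℕ, ∀ (k : ℕ) (ε δ : ℝ), 0 < ε → 0 < δ → ∃ M0 : ℕ, ∀ M : ℕ, M0 ≤ M →
      (((range M).filter (fun n : ℕ => ¬ ∀ W < (u * v) ^ k, (M : ℝ) ^ (1 - ε) ≤
        (((range (C * M)).filter (fun i : ℕ =>
          ⌊((u * v : ℕ) : ℝ) ^ (i + k) * ((u : ℝ) ^ n * x)⌋ % (((u * v : ℕ) : ℤ) ^ k) =
            (W : ℤ))).card : ℝ))).card : ℝ) ≤ δ * M := by
  obtain ⟨r, D, hr, hrb, hD⟩ := exists_core2 h12 h13 h14 h15 hu hv hco
  exact Gen.nl_words_gen (by nlinarith) hu hrb hD hx hL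

open Classical in
theorem alg_windows2 (h12 : J12) (h13 : J13) (h14 : J14) (h15 : J15) {u₀ v₀ : ℕ} (hu : 2 ≤ u₀)
    (hv : 2 ≤ v₀) (hco : Nat.Coprime u₀ v₀) {ξ : ℝ} (hξ : Irrational ξ) (ha : IsAlgebraic ℚ ξ)
    (k R : ℕ) {ε δ η : ℝ} (hε : 0 < ε) (hδ : 0 < δ) (hη : 0 < η) :
    ∃ M0 : ℕ, ∀ M : ℕ, M0 ≤ M → ∀ J : ℕ,
      (((range M).filter (fun t : ℕ => ¬ ∀ u l : ℕ, u + l ≤ R * (J + M) →
        η * ((J : ℝ) + M) ≤ l → ∀ W < (u₀ * v₀) ^ k, (M : ℝ) ^ (1 - ε) ≤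
          (((range (u + l)).filter (fun i : ℕ => u ≤ i ∧ i + k ≤ u + l ∧
            ⌊((u₀ * v₀ : ℕ) : ℝ) ^ (i + k) * ((u₀ : ℝ) ^ (J + t) * ξ)⌋ %
              (((u₀ * v₀ : ℕ) : ℤ) ^ k) = (W : ℤ))).card : ℝ))).card : ℝ) ≤ δ * M := by
  obtain ⟨r, D, hr, hrb, hD⟩ := exists_core2 h12 h13 h14 h15 hu hv hco
  exact Gen.alg_windows_gen (by nlinarith) hu hr hrb hD (down2 hu hv hrb) hξ ha k R hε hδ hη

open Classical in
theorem pow_windows2 (h12 : J12) (h13 : J13) (h14 : J14) (h15 : J15) {u₀ v₀ : ℕ} (hu : 2 ≤ u₀)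
    (hv : 2 ≤ v₀) (hco : Nat.Coprime u₀ v₀) {a : ℕ} (ha : 1 ≤ a) (k : ℕ) {ε δ η : ℝ}
    (hε : 0 < ε) (hδ : 0 < δ) (hη : 0 < η) :
    ∃ M0 : ℕ, ∀ M : ℕ, M0 ≤ M → ∀ J : ℕ,
      (((range M).filter (fun t : ℕ => ¬ ∀ u l : ℕ,
        u + l ≤ (Nat.digits (u₀ * v₀) (a * u₀ ^ (J + t))).length → η * ((J : ℝ) + M) ≤ l →
          ∀ W < (u₀ * v₀) ^ k, (M : ℝ) ^ (1 - ε) ≤
            (((range (u + l)).filter (fun i : ℕ => u ≤ i ∧ i + k ≤ u + l ∧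
              a * u₀ ^ (J + t) / (u₀ * v₀) ^ i % (u₀ * v₀) ^ k = W)).card : ℝ))).card : ℝ)
        ≤ δ * M := by
  obtain ⟨r, D, hr, hrb, hD⟩ := exists_core2 h12 h13 h14 h15 hu hv hco
  exact Gen.pow_windows_gen (by nlinarith) hu hD (down2 hu hv hrb) ha
    (fun N hN η' hη' => Pw2.pw2 hu hv hco hrb ha hN hη') k hε hδ hη

end Pool.Agent.TH461.AL.Dec
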