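import Mathlib
import Pool.Agent.TH461.AL.Stms4

/-!
# J13: triangles of bounded total size, almost every diagonal has gaps of positive size
-/

set_option autoImplicit false

open Finset Filter Topology

namespace Pool.Agent.TH461.AL.Diag

open Pool.Agent.TH461.AL
open Pool.Agent.TH461.SST (InT)

/-- a finite set which contains the integers of an open interval -/
noncomputable def DD (α β : ℝ) : Finset ℤ := Ioo ⌊α⌋ ⌈β⌉

lemma mem_DD {α β : ℝ} {s : ℤ} (h1 : α < s) (h2 : (s : ℝ) < β) : s ∈ DD α β :=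
  mem_Ioo.2 ⟨Int.floor_lt.2 h1, Int.lt_ceil.2 h2⟩

lemma card_DD {α β : ℝ} (h : α ≤ β) : ((DD α β).card : ℝ) ≤ β - α + 1 := by
  unfold DD
  rw [Int.card_Ioo]
  have h1 : ((⌈β⌉ : ℤ) : ℝ) < β + 1 := Int.ceil_lt_add_one β
  have h2 : α - 1 < ((⌊α⌋ : ℤ) : ℝ) := Int.sub_one_lt_floor α
  by_cases h3 : 0 ≤ ⌈β⌉ - ⌊α⌋ - 1
  · have h4 : (((⌈β⌉ - ⌊α⌋ - 1).toNat : ℕ) : ℝ) = ((⌈β⌉ - ⌊α⌋ - 1 : ℤ) : ℝ) := by
      exact_mod_cast Int.toNat_of_nonneg h3
    rw [h4]
    push_cast
    linarith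
  · have h4 : (⌈β⌉ - ⌊α⌋ - 1).toNat = 0 := Int.toNat_eq_zero.2 (by omega)
    rw [h4]
    push_cast
    linarith

section
variable {κ : ℕ} {l u : ℝ} {R : ℕ} {m n : Fin κ → ℕ} {h : Fin κ → ℝ}

/-- the weight of a triangle -/
noncomputable def wt (l u : ℝ) (m n : Fin κ → ℕ) (h : Fin κ → ℝ) (z : Fin κ) : ℝ :=
  (h z - (m z : ℝ) * l - (n z : ℝ) * u) / u + 1

/-- the diagonals which meet a triangle -/
noncomputable def Dz (l u : ℝ) (m n : Fin κ → ℕ) (h : Fin κ → ℝ) (z : Fin κ) : Finset ℤ :=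
  DD ((m z : ℝ) - n z - (h z - (m z : ℝ) * l - (n z : ℝ) * u) / u)
    ((m z : ℝ) - n z + (h z - (m z : ℝ) * l - (n z : ℝ) * u) / l)

lemma wt_one (hu : 0 < u) {z : Fin κ} (hpos : (m z : ℝ) * l + (n z : ℝ) * u < h z) :
    1 ≤ wt l u m n h z := by
  unfold wt
  have : 0 ≤ (h z - (m z : ℝ) * l - (n z : ℝ) * u) / u := div_nonneg (by linarith) hu.le
  linarith

lemma mem_Dz (hl : 0 < l) (hu : 0 < u) {z : Fin κ} {i j : ℕ}
    (hi : InT l u (m z) (n z) (h z) i j) : (i : ℤ) - j ∈ Dz l u m n h z := by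
  obtain ⟨h1, h2, h3⟩ := hi
  have h1' : (m z : ℝ) ≤ i := by exact_mod_cast h1
  have h2' : (n z : ℝ) ≤ j := by exact_mod_cast h2
  refine mem_DD ?_ ?_
  · have h4 : ((j : ℝ) - n z) < (h z - (m z : ℝ) * l - (n z : ℝ) * u) / u := by
      rw [lt_div_iff₀ hu]
      nlinarith
    push_cast
    linarith
  · have h4 : ((i : ℝ) - m z) < (h z - (m z : ℝ) * l - (n z : ℝ) * u) / l := by
      rw [lt_div_iff₀ hl]
      nlinarith
    push_cast
    linarith

lemma card_Dz (hl : 0 < l) (hu : 0 < u) {z : Fin κ}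
    (hpos : (m z : ℝ) * l + (n z : ℝ) * u < h z) :
    ((Dz l u m n h z).card : ℝ) ≤ (1 + u / l) * wt l u m n h z := by
  obtain ⟨t, ht⟩ : ∃ t, t = h z - (m z : ℝ) * l - (n z : ℝ) * u := ⟨_, rfl⟩
  have ht0 : 0 < t := by rw [ht]; linarith
  have h1 : 0 ≤ t / u := by positivity
  have h2 : 0 ≤ t / l := by positivity
  unfold Dz wt
  rw [← ht]
  refine (card_DD (by linarith)).trans ?_
  have h3 : (1 + u / l) * (t / u + 1) = t / u + 1 + t / l + u / l := by
    field_simp
    ring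
  rw [h3]
  have h4 : 0 ≤ u / l := by positivity
  linarith

open Classical in
lemma cells_le (hl : 0 < l) (hu : 0 < u) {z : Fin κ}
    (hpos : (m z : ℝ) * l + (n z : ℝ) * u < h z) (I : Finset ℕ) (f : ℕ → ℕ) :
    ((I.filter (fun y => InT l u (m z) (n z) (h z) (f y) y)).card : ℝ) ≤ wt l u m n h z := by
  obtain ⟨t, ht⟩ : ∃ t, t = h z - (m z : ℝ) * l - (n z : ℝ) * u := ⟨_, rfl⟩
  have ht0 : 0 < t := by rw [ht]; linarith
  have hsub : I.filter (fun y => InT l u (m z) (n z) (h z) (f y) y) ⊆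
      Ico (n z) (n z + ⌈t / u⌉₊) := by
    intro y hy
    rw [mem_filter] at hy
    obtain ⟨-, h1, h2, h3⟩ := hy
    rw [mem_Ico]
    refine ⟨h2, ?_⟩
    have h4 : (m z : ℝ) ≤ f y := by exact_mod_cast h1
    have h5 : ((y : ℝ) - n z) < t / u := by
      rw [lt_div_iff₀ hu, ht]
      nlinarith
    have h6 := h5.trans_le (Nat.le_ceil _)
    have h7 : (y : ℝ) < ((n z + ⌈t / u⌉₊ : ℕ) : ℝ) := by
      push_cast
      linarith
    exact_mod_cast h7
  have h1 := card_le_card hsub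
  rw [Nat.card_Ico, Nat.add_sub_cancel_left] at h1
  have h2 : ((I.filter (fun y => InT l u (m z) (n z) (h z) (f y) y)).card : ℝ) ≤
      (⌈t / u⌉₊ : ℝ) := by exact_mod_cast h1
  unfold wt
  rw [← ht]
  exact h2.trans (Nat.ceil_lt_add_one (div_nonneg ht0.le hu.le)).le

/-- the diagonals on which the lower end of `z` is slightly above the upper end of `z'` -/
noncomputable def EE (l u g : ℝ) (m n : Fin κ → ℕ) (h : Fin κ → ℝ) (z' z : Fin κ) : Finset ℤ :=
  DD ((h z' - (n z : ℝ) * (l + u)) / l) ((h z' - (n z : ℝ) * (l + u)) / l + g * ((l + u) / l)) ∪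
    DD (((m z : ℝ) * (l + u) - h z') / u - g * ((l + u) / u)) (((m z : ℝ) * (l + u) - h z') / u)

lemma card_EE (hl : 0 < l) (hu : 0 < u) {g : ℝ} (hg : 0 ≤ g) (z' z : Fin κ) :
    ((EE l u g m n h z' z).card : ℝ) ≤ g * ((l + u) / l + (l + u) / u) + 2 := by
  unfold EE
  have h1 : 0 ≤ g * ((l + u) / l) := by positivity
  have h2 : 0 ≤ g * ((l + u) / u) := by positivity
  have h3 : ((DD ((h z' - (n z : ℝ) * (l + u)) / l)
      ((h z' - (n z : ℝ) * (l + u)) / l + g * ((l + u) / l))).card : ℝ) ≤ _ :=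
    card_DD (by linarith)
  have h4 : ((DD (((m z : ℝ) * (l + u) - h z') / u - g * ((l + u) / u))
      (((m z : ℝ) * (l + u) - h z') / u)).card : ℝ) ≤ _ := card_DD (by linarith)
  have h5 := card_union_le (DD ((h z' - (n z : ℝ) * (l + u)) / l)
      ((h z' - (n z : ℝ) * (l + u)) / l + g * ((l + u) / l)))
    (DD (((m z : ℝ) * (l + u) - h z') / u - g * ((l + u) / u))
      (((m z : ℝ) * (l + u) - h z') / u))
  have h6 : ((DD ((h z' - (n z : ℝ) * (l + u)) / l)
      ((h z' - (n z : ℝ) * (l + u)) / l + g * ((l + u) / l)) ∪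
    DD (((m z : ℝ) * (l + u) - h z') / u - g * ((l + u) / u))
      (((m z : ℝ) * (l + u) - h z') / u)).card : ℝ) ≤
      ((DD ((h z' - (n z : ℝ) * (l + u)) / l)
      ((h z' - (n z : ℝ) * (l + u)) / l + g * ((l + u) / l))).card : ℝ) +
      ((DD (((m z : ℝ) * (l + u) - h z') / u - g * ((l + u) / u))
      (((m z : ℝ) * (l + u) - h z') / u)).card : ℝ) := by exact_mod_cast h5
  linarith

/-- on one side of an uncovered cell there is no large triangle -/
lemma one_side (hl : 0 < l) (hu : 0 < u) {x y D : ℕ} (hDx : D ≤ x) {g : ℝ}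
    (hD : 2 * (D : ℝ) ≤ g) (hx : ∀ z, ¬ InT l u (m z) (n z) (h z) x y) (L : Finset (Fin κ))
    (hL : ∀ z' ∈ L, ∀ z ∈ L, (x : ℤ) - y ∉ EE l u g m n h z' z) :
    (∀ y', y ≤ y' + D → y' ≤ y → ∀ z ∈ L, ¬ InT l u (m z) (n z) (h z) (x + y' - y) y') ∨
    (∀ y', y ≤ y' → y' ≤ y + D → ∀ z ∈ L, ¬ InT l u (m z) (n z) (h z) (x + y' - y) y') := by
  by_contra hcon
  push Not at hcon
  obtain ⟨⟨y1, h1, h2, z', hz'L, hz'⟩, y2, h3, h4, z, hzL, hz⟩ := hcon
  obtain ⟨i1, hi1⟩ : ∃ i1, i1 = x + y1 - y := ⟨_, rfl⟩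
  obtain ⟨i2, hi2⟩ : ∃ i2, i2 = x + y2 - y := ⟨_, rfl⟩
  rw [← hi1] at hz'
  rw [← hi2] at hz
  have e1 : i1 + y = x + y1 := by omega
  have e2 : i2 + y = x + y2 := by omega
  have e1' : (i1 : ℝ) + y = x + y1 := by exact_mod_cast e1
  have e2' : (i2 : ℝ) + y = x + y2 := by exact_mod_cast e2
  obtain ⟨a1, a2, a3⟩ := hz'
  obtain ⟨b1, b2, b3⟩ := hz
  have b1' : (m z : ℝ) ≤ i2 := by exact_mod_cast b1
  have b2' : (n z : ℝ) ≤ y2 := by exact_mod_cast b2
  have h1' : (y : ℝ) ≤ y1 + D := by exact_mod_cast h1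
  have h2' : (y1 : ℝ) ≤ y := by exact_mod_cast h2
  have h3' : (y : ℝ) ≤ y2 := by exact_mod_cast h3
  have h4' : (y2 : ℝ) ≤ y + D := by exact_mod_cast h4
  have hlu : 0 < l + u := by linarith
  -- the cell is above the upper end of `z'`
  have c1 : h z' ≤ (x : ℝ) * l + y * u := by
    by_contra hc
    push Not at hc
    exact hx z' ⟨by omega, by omega, hc⟩
  -- and below the lower end of `z`
  have c2 : x < m z ∨ y < n z := by
    by_contra hc
    push Not at hc
    refine hx z ⟨hc.1, hc.2, lt_of_le_of_lt ?_ b3⟩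
    nlinarith
  apply hL z' hz'L z hzL
  unfold EE
  rw [mem_union]
  rcases c2 with c2 | c2
  · right
    have c2' : (x : ℝ) + 1 ≤ m z := by exact_mod_cast c2
    refine mem_DD ?_ ?_
    · push_cast
      have h5 : ((m z : ℝ) * (l + u) - h z') / u - g * ((l + u) / u) =
          ((m z : ℝ) * (l + u) - h z' - g * (l + u)) / u := by ring
      rw [h5, div_lt_iff₀ hu]
      have h6 : (m z : ℝ) * (l + u) ≤ ((x : ℝ) + y2 - y) * (l + u) :=
        mul_le_mul_of_nonneg_right (by linarith) hlu.le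
      have h7 : ((y2 : ℝ) - y1) * (l + u) ≤ g * (l + u) :=
        mul_le_mul_of_nonneg_right (by linarith) hlu.le
      have h8 : ((x : ℝ) + y1 - y) * l + y1 * u < h z' := by
        have : (i1 : ℝ) = x + y1 - y := by linarith
        rw [← this]
        exact a3
      nlinarith
    · push_cast
      rw [lt_div_iff₀ hu]
      have h6 : ((x : ℝ) + 1) * (l + u) ≤ m z * (l + u) :=
        mul_le_mul_of_nonneg_right c2' hlu.le
      nlinarith
  · left
    have c2' : (y : ℝ) + 1 ≤ n z := by exact_mod_cast c2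
    refine mem_DD ?_ ?_
    · push_cast
      rw [div_lt_iff₀ hl]
      have h6 : ((y : ℝ) + 1) * (l + u) ≤ n z * (l + u) :=
        mul_le_mul_of_nonneg_right c2' hlu.le
      nlinarith
    · push_cast
      have h5 : (h z' - (n z : ℝ) * (l + u)) / l + g * ((l + u) / l) =
          (h z' - (n z : ℝ) * (l + u) + g * (l + u)) / l := by ring
      rw [h5, lt_div_iff₀ hl]
      have h6 : (n z : ℝ) * (l + u) ≤ (y2 : ℝ) * (l + u) :=
        mul_le_mul_of_nonneg_right b2' hlu.le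
      have h7 : ((y2 : ℝ) - y1) * (l + u) ≤ g * (l + u) :=
        mul_le_mul_of_nonneg_right (by linarith) hlu.le
      have h8 : ((x : ℝ) + y1 - y) * l + y1 * u < h z' := by
        have : (i1 : ℝ) = x + y1 - y := by linarith
        rw [← this]
        exact a3
      nlinarith

open Classical in
/-- the main count -/
lemma core (hl : 0 < l) (hu : 0 < u) (hpos : ∀ z, (m z : ℝ) * l + (n z : ℝ) * u < h z)
    {K δ lam ζ ζ' η : ℝ} (hK : 0 < K) (hsum : ∑ z, wt l u m n h z ≤ K * R) (hR : 0 < (R : ℝ))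
    (hMed : (1 + u / l) * ∑ z ∈ univ.filter (fun z => ζ' * R ≤ wt l u m n h z ∧
      wt l u m n h z < ζ * R), wt l u m n h z ≤ δ * R / 3)
    (hη : 0 < η) (hηl : η ≤ lam) (hζ : 0 < ζ) (hζ' : 0 < ζ')
    (h2 : 6 * (1 + u / l) * ζ' * K ≤ δ * η)
    (h3 : (K / ζ) ^ 2 * (2 * η * R * ((l + u) / l + (l + u) / u) + 2) ≤ δ * R / 3) :
    ∃ B : Finset ℤ, (B.card : ℝ) ≤ δ * R ∧ ∀ x y : ℕ, (x : ℤ) - y ∉ B → lam * R ≤ x →
      lam * R ≤ y → (y : ℝ) + lam * R < R → (∀ z, ¬ InT l u (m z) (n z) (h z) x y) →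
      η / 2 * R ≤ (((range R).filter (fun y' : ℕ => |(y' : ℝ) - y| ≤ lam * R ∧
        ∀ z, ¬ InT l u (m z) (n z) (h z) (x + y' - y) y')).card : ℝ) := by
  obtain ⟨w, hw⟩ : ∃ w, w = wt l u m n h := ⟨_, rfl⟩
  rw [← hw] at hMed hsum
  have hw1 : ∀ z, 1 ≤ w z := fun z => by rw [hw]; exact wt_one hu (hpos z)
  have hw0 : ∀ z, 0 ≤ w z := fun z => le_trans zero_le_one (hw1 z)
  have hρ : 0 < 1 + u / l := by positivity
  have hcD : ∀ z, ((Dz l u m n h z).card : ℝ) ≤ (1 + u / l) * w z := fun z => by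
    rw [hw]; exact card_Dz hl hu (hpos z)
  set M := univ.filter (fun z => ζ' * R ≤ w z ∧ w z < ζ * R) with hM
  set L := univ.filter (fun z => ζ * R ≤ w z) with hL
  set S := univ.filter (fun z => w z < ζ' * R) with hS
  -- the number of large triangles
  have hLc : (L.card : ℝ) ≤ K / ζ := by
    rw [le_div_iff₀ hζ]
    have h4 : (L.card : ℝ) * (ζ * R) ≤ K * R := by
      calc (L.card : ℝ) * (ζ * R) = ∑ z ∈ L, ζ * R := by rw [sum_const, nsmul_eq_mul]
        _ ≤ ∑ z ∈ L, w z := sum_le_sum fun z hz => (mem_filter.1 hz).2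
        _ ≤ ∑ z, w z := sum_le_sum_of_subset_of_nonneg (subset_univ _) fun z _ _ => hw0 z
        _ ≤ K * R := hsum
    rw [← mul_assoc] at h4
    exact le_of_mul_le_mul_right h4 hR
  set U : Finset ℤ := univ.biUnion (Dz l u m n h) with hU
  set Nf : ℤ → ℝ := fun s => ∑ z ∈ S.filter (fun z => s ∈ Dz l u m n h z), w z with hNf
  set B1 := M.biUnion (Dz l u m n h) with hB1
  set B2 := U.filter (fun s => η * R / 2 < Nf s) with hB2
  set B3 := (L ×ˢ L).biUnion (fun p => EE l u (2 * η * R) m n h p.1 p.2) with hB3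
  have hηR : 0 < η * R := mul_pos hη hR
  have hc1 : (B1.card : ℝ) ≤ δ * R / 3 := by
    refine le_trans ?_ hMed
    have h5 : (B1.card : ℝ) ≤ ∑ z ∈ M, ((Dz l u m n h z).card : ℝ) := by
      have := card_biUnion_le (s := M) (t := Dz l u m n h)
      exact_mod_cast this
    rw [mul_sum]
    exact h5.trans (sum_le_sum fun z _ => hcD z)
  have hc2 : (B2.card : ℝ) ≤ δ * R / 3 := by
    have h4 : (B2.card : ℝ) * (η * R / 2) ≤ (1 + u / l) * (ζ' * R) * (K * R) := by
      calc (B2.card : ℝ) * (η * R / 2) = ∑ s ∈ B2, η * R / 2 := by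
            rw [sum_const, nsmul_eq_mul]
        _ ≤ ∑ s ∈ B2, Nf s := sum_le_sum fun s hs => (mem_filter.1 hs).2.le
        _ ≤ ∑ s ∈ U, Nf s := sum_le_sum_of_subset_of_nonneg (filter_subset _ _)
            fun s _ _ => sum_nonneg fun z _ => hw0 z
        _ = ∑ s ∈ U, ∑ z ∈ S, (if s ∈ Dz l u m n h z then w z else 0) := by
            refine sum_congr rfl fun s _ => ?_
            rw [hNf]
            simp only
            rw [sum_filter]
        _ = ∑ z ∈ S, ∑ s ∈ U, (if s ∈ Dz l u m n h z then w z else 0) := sum_comm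
        _ = ∑ z ∈ S, ((U.filter (fun s => s ∈ Dz l u m n h z)).card : ℝ) * w z := by
            refine sum_congr rfl fun z _ => ?_
            rw [← sum_filter, sum_const, nsmul_eq_mul]
        _ ≤ ∑ z ∈ S, (1 + u / l) * (ζ' * R) * w z := by
            refine sum_le_sum fun z hz => ?_
            refine mul_le_mul_of_nonneg_right ?_ (hw0 z)
            have h5 : ((U.filter (fun s => s ∈ Dz l u m n h z)).card : ℝ) ≤
                ((Dz l u m n h z).card : ℝ) := by
              have : U.filter (fun s => s ∈ Dz l u m n h z) ⊆ Dz l u m n h z :=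
                fun s hs => (mem_filter.1 hs).2
              exact_mod_cast card_le_card this
            exact h5.trans ((hcD z).trans
              (mul_le_mul_of_nonneg_left (mem_filter.1 hz).2.le hρ.le))
        _ = (1 + u / l) * (ζ' * R) * ∑ z ∈ S, w z := by rw [mul_sum]
        _ ≤ (1 + u / l) * (ζ' * R) * (K * R) := by
            refine mul_le_mul_of_nonneg_left ?_ (by positivity)
            exact (sum_le_sum_of_subset_of_nonneg (subset_univ _) fun z _ _ => hw0 z).trans hsum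
    have h5 : (1 + u / l) * (ζ' * R) * (K * R) ≤ (δ * R / 3) * (η * R / 2) := by
      have h6 : 6 * (1 + u / l) * ζ' * K * (R * R) ≤ δ * η * (R * R) :=
        mul_le_mul_of_nonneg_right h2 (mul_pos hR hR).le
      linarith
    exact le_of_mul_le_mul_right (h4.trans h5) (by linarith)
  have hc3 : (B3.card : ℝ) ≤ δ * R / 3 := by
    refine le_trans ?_ h3
    have h5 : (B3.card : ℝ) ≤ ∑ p ∈ L ×ˢ L, ((EE l u (2 * η * R) m n h p.1 p.2).card : ℝ) := by
      have := card_biUnion_le (s := L ×ˢ L) (t := fun p => EE l u (2 * η * R) m n h p.1 p.2)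
      exact_mod_cast this
    refine h5.trans ((sum_le_sum fun p _ => card_EE hl hu (g := 2 * η * R) (by linarith)
      p.1 p.2).trans ?_)
    rw [sum_const, nsmul_eq_mul, card_product]
    have h6 : 0 ≤ 2 * η * R * ((l + u) / l + (l + u) / u) + 2 := by positivity
    refine mul_le_mul_of_nonneg_right ?_ h6
    push_cast
    rw [pow_two]
    exact mul_le_mul hLc hLc (Nat.cast_nonneg _) (by positivity)
  refine ⟨B1 ∪ B2 ∪ B3, ?_, ?_⟩
  · have h4 := (card_union_le (B1 ∪ B2) B3).trans (Nat.add_le_add_right (card_union_le _ _) _)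
    have h5 : ((B1 ∪ B2 ∪ B3).card : ℝ) ≤ (B1.card : ℝ) + B2.card + B3.card := by
      exact_mod_cast h4
    linarith
  · intro x y hs hx hy hyR hfree
    rw [mem_union, mem_union] at hs
    push Not at hs
    obtain ⟨⟨hn1, hn2⟩, hn3⟩ := hs
    obtain ⟨D, hD⟩ : ∃ D, D = ⌊η * R⌋₊ := ⟨_, rfl⟩
    have hD1 : (D : ℝ) ≤ η * R := by rw [hD]; exact Nat.floor_le hηR.le
    have hD2 : η * R < (D : ℝ) + 1 := by rw [hD]; exact Nat.lt_floor_add_one _
    have hDl : (D : ℝ) ≤ lam * R := hD1.trans (mul_le_mul_of_nonneg_right hηl hR.le)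
    have hDx : D ≤ x := by
      have : (D : ℝ) ≤ x := hDl.trans hx
      exact_mod_cast this
    have hDy : D ≤ y := by
      have : (D : ℝ) ≤ y := hDl.trans hy
      exact_mod_cast this
    have hDR : y + D < R := by
      have : (y : ℝ) + D < R := by linarith
      exact_mod_cast this
    have hNs : Nf ((x : ℤ) - y) ≤ η * R / 2 := by
      by_contra hc
      push Not at hc
      by_cases hU' : (x : ℤ) - y ∈ U
      · exact hn2 (mem_filter.2 ⟨hU', hc⟩)
      · have h0 : Nf ((x : ℤ) - y) = 0 := by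
          rw [hNf]
          simp only
          rw [filter_eq_empty_iff.2, sum_empty]
          intro z _ hz
          exact hU' (mem_biUnion.2 ⟨z, mem_univ _, hz⟩)
        rw [h0] at hc
        linarith
    have hfin : ∀ I : Finset ℕ, I.card = D + 1 →
        (∀ y' ∈ I, ∀ z ∈ L, ¬ InT l u (m z) (n z) (h z) (x + y' - y) y') →
        (∀ y' ∈ I, y' < R ∧ |(y' : ℝ) - y| ≤ lam * R ∧ y ≤ x + y') →
        η / 2 * R ≤ (((range R).filter (fun y' : ℕ => |(y' : ℝ) - y| ≤ lam * R ∧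
          ∀ z, ¬ InT l u (m z) (n z) (h z) (x + y' - y) y')).card : ℝ) := by
      intro I hIc hIL hIr
      have hcovI : I.filter (fun y' => ∃ z, InT l u (m z) (n z) (h z) (x + y' - y) y') ⊆
          (S.filter (fun z => (x : ℤ) - y ∈ Dz l u m n h z)).biUnion
            (fun z => I.filter (fun y' => InT l u (m z) (n z) (h z) (x + y' - y) y')) := by
        intro y' hy'
        rw [mem_filter] at hy'
        obtain ⟨hyI, z, hz⟩ := hy'
        have hmt : (x : ℤ) - y ∈ Dz l u m n h z := by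
          have h4 := mem_Dz hl hu hz
          have h5 := (hIr y' hyI).2.2
          have h6 : ((x + y' - y : ℕ) : ℤ) - y' = (x : ℤ) - y := by omega
          rwa [h6] at h4
        refine mem_biUnion.2 ⟨z, mem_filter.2 ⟨mem_filter.2 ⟨mem_univ _, ?_⟩, hmt⟩,
          mem_filter.2 ⟨hyI, hz⟩⟩
        by_contra hc1
        push Not at hc1
        by_cases hc2 : w z < ζ * R
        · exact hn1 (mem_biUnion.2 ⟨z, mem_filter.2 ⟨mem_univ _, hc1, hc2⟩, hmt⟩)
        · push Not at hc2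
          exact hIL y' hyI z (mem_filter.2 ⟨mem_univ _, hc2⟩) hz
      have h4 : ((I.filter (fun y' => ∃ z, InT l u (m z) (n z) (h z) (x + y' - y) y')).card : ℝ) ≤
          η * R / 2 := by
        have h5 := (card_le_card hcovI).trans card_biUnion_le
        calc ((I.filter (fun y' => ∃ z, InT l u (m z) (n z) (h z) (x + y' - y) y')).card : ℝ)
            ≤ ((∑ z ∈ S.filter (fun z => (x : ℤ) - y ∈ Dz l u m n h z),
                (I.filter (fun y' => InT l u (m z) (n z) (h z) (x + y' - y) y')).card : ℕ) : ℝ) := by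
              exact_mod_cast h5
          _ = ∑ z ∈ S.filter (fun z => (x : ℤ) - y ∈ Dz l u m n h z),
                ((I.filter (fun y' => InT l u (m z) (n z) (h z) (x + y' - y) y')).card : ℝ) := by
              push_cast; rfl
          _ ≤ Nf ((x : ℤ) - y) := by
              rw [hNf]
              refine sum_le_sum fun z _ => ?_
              rw [hw]
              exact cells_le hl hu (hpos z) I (fun y' => x + y' - y)
          _ ≤ η * R / 2 := hNs
      have h5 := card_filter_add_card_filter_not (s := I)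
        (fun y' => ∃ z, InT l u (m z) (n z) (h z) (x + y' - y) y')
      rw [hIc] at h5
      have h6 : I.filter (fun y' => ¬ ∃ z, InT l u (m z) (n z) (h z) (x + y' - y) y') ⊆
          (range R).filter (fun y' : ℕ => |(y' : ℝ) - y| ≤ lam * R ∧
            ∀ z, ¬ InT l u (m z) (n z) (h z) (x + y' - y) y') := by
        intro y' hy'
        rw [mem_filter] at hy'
        have h7 := hIr y' hy'.1
        exact mem_filter.2 ⟨mem_range.2 h7.1, h7.2.1, fun z hz => hy'.2 ⟨z, hz⟩⟩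
      have h7 : ((I.filter (fun y' => ¬ ∃ z, InT l u (m z) (n z) (h z) (x + y' - y) y')).card : ℝ) ≤
          (((range R).filter (fun y' : ℕ => |(y' : ℝ) - y| ≤ lam * R ∧
            ∀ z, ¬ InT l u (m z) (n z) (h z) (x + y' - y) y')).card : ℝ) := by
        exact_mod_cast card_le_card h6
      have h8 : ((I.filter (fun y' => ∃ z, InT l u (m z) (n z) (h z) (x + y' - y) y')).card : ℝ) +
          ((I.filter (fun y' => ¬ ∃ z, InT l u (m z) (n z) (h z) (x + y' - y) y')).card : ℝ) =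
          D + 1 := by
        exact_mod_cast h5
      linarith
    have hLL : ∀ z' ∈ L, ∀ z ∈ L, (x : ℤ) - y ∉ EE l u (2 * η * R) m n h z' z := by
      intro z' hz' z hz hc
      exact hn3 (mem_biUnion.2 ⟨(z', z), mem_product.2 ⟨hz', hz⟩, hc⟩)
    rcases one_side hl hu hDx (g := 2 * η * R) (by linarith) hfree L hLL with hc | hc
    · refine hfin (Icc (y - D) y) ?_ ?_ ?_
      · rw [Nat.card_Icc]; omega
      · intro y' hy' z hz
        rw [mem_Icc] at hy'
        exact hc y' (by omega) hy'.2 z hz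
      · intro y' hy'
        rw [mem_Icc] at hy'
        have h4 : y ≤ y' + D := by omega
        have h5 : (y : ℝ) ≤ y' + D := by exact_mod_cast h4
        have h6 : (y' : ℝ) ≤ y := by exact_mod_cast hy'.2
        refine ⟨by omega, ?_, by omega⟩
        rw [abs_le]
        constructor <;> linarith
    · refine hfin (Icc y (y + D)) ?_ ?_ ?_
      · rw [Nat.card_Icc]; omega
      · intro y' hy' z hz
        rw [mem_Icc] at hy'
        exact hc y' hy'.1 hy'.2 z hz
      · intro y' hy'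
        rw [mem_Icc] at hy'
        have h5 : (y' : ℝ) ≤ y + D := by exact_mod_cast hy'.2
        have h6 : (y : ℝ) ≤ y' := by exact_mod_cast hy'.1
        refine ⟨by omega, ?_, by omega⟩
        rw [abs_le]
        constructor <;> linarith

end

/-- the size of the gaps -/
noncomputable def eta (K δ lam Λ ζ : ℝ) : ℝ := min lam (δ * ζ ^ 2 / (12 * K ^ 2 * Λ))

/-- the thresholds -/
noncomputable def zeta (K δ lam Λ ρ : ℝ) : ℕ → ℝ
  | 0 => 1
  | k + 1 => min (zeta K δ lam Λ ρ k / 2) (δ * eta K δ lam Λ (zeta K δ lam Λ ρ k) / (6 * ρ * K))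

lemma eta_pos {K δ lam Λ ζ : ℝ} (hK : 0 < K) (hδ : 0 < δ) (hlam : 0 < lam) (hΛ : 0 < Λ)
    (hζ : 0 < ζ) : 0 < eta K δ lam Λ ζ := lt_min hlam (by positivity)

lemma eta_mono {K δ lam Λ ζ ζ' : ℝ} (hK : 0 < K) (hδ : 0 < δ) (hΛ : 0 < Λ)
    (hζ : 0 < ζ) (h : ζ ≤ ζ') : eta K δ lam Λ ζ ≤ eta K δ lam Λ ζ' := by
  unfold eta
  refine min_le_min_left lam ?_
  gcongr

lemma zeta_pos {K δ lam Λ ρ : ℝ} (hK : 0 < K) (hδ : 0 < δ) (hlam : 0 < lam) (hΛ : 0 < Λ)
    (hρ : 0 < ρ) (k : ℕ) : 0 < zeta K δ lam Λ ρ k := by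
  induction k with
  | zero => exact one_pos
  | succ k ih =>
    have h1 := eta_pos hK hδ hlam hΛ ih
    exact lt_min (by linarith) (by positivity)

lemma zeta_anti {K δ lam Λ ρ : ℝ} (hK : 0 < K) (hδ : 0 < δ) (hlam : 0 < lam) (hΛ : 0 < Λ)
    (hρ : 0 < ρ) : Antitone (zeta K δ lam Λ ρ) := by
  refine antitone_nat_of_succ_le fun k => ?_
  have h1 := zeta_pos hK hδ hlam hΛ hρ k
  exact (min_le_left _ _).trans (by linarith)

open Classical in
theorem diag : J13 := by
  intro l u K δ lam hl hu hK hδ hlam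
  obtain ⟨ρ, hρd⟩ : ∃ ρ, ρ = 1 + u / l := ⟨_, rfl⟩
  obtain ⟨Λ, hΛd⟩ : ∃ Λ, Λ = (l + u) / l + (l + u) / u := ⟨_, rfl⟩
  have hρ : 0 < ρ := by rw [hρd]; positivity
  have hΛ : 0 < Λ := by rw [hΛd]; positivity
  obtain ⟨k0, hk0⟩ := exists_nat_gt (3 * ρ * K / δ)
  have hk0' : 3 * ρ * K < k0 * δ := by
    rw [div_lt_iff₀ hδ] at hk0
    exact hk0
  obtain ⟨Z, hZ⟩ : ∃ Z, Z = zeta K δ lam Λ ρ := ⟨_, rfl⟩
  have hZ0 : ∀ k, 0 < Z k := fun k => by rw [hZ]; exact zeta_pos hK hδ hlam hΛ hρ k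
  have hZa : Antitone Z := by rw [hZ]; exact zeta_anti hK hδ hlam hΛ hρ
  have hZs : ∀ k, Z (k + 1) ≤ δ * eta K δ lam Λ (Z k) / (6 * ρ * K) := fun k => by
    rw [hZ]
    exact min_le_right _ _
  refine ⟨eta K δ lam Λ (Z k0) / 2, half_pos (eta_pos hK hδ hlam hΛ (hZ0 k0)), ?_⟩
  obtain ⟨R0, hR0⟩ := exists_nat_ge (12 * K ^ 2 / (δ * Z k0 ^ 2))
  refine ⟨R0, ?_⟩
  intro R hR κ m n h hpos hsum
  have hRR : (R0 : ℝ) ≤ R := by exact_mod_cast hR
  have hR1 : 12 * K ^ 2 / (δ * Z k0 ^ 2) ≤ R := hR0.trans hRR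
  have hZk0 := hZ0 k0
  have hRpos : 0 < (R : ℝ) := lt_of_lt_of_le (by positivity) hR1
  obtain ⟨w, hw⟩ : ∃ w, w = wt l u m n h := ⟨_, rfl⟩
  have hw0 : ∀ z, 0 ≤ w z := fun z => by
    rw [hw]
    exact le_trans zero_le_one (wt_one hu (hpos z))
  have hsum' : ∑ z, w z ≤ K * R := by rw [hw]; exact hsum
  -- pigeonhole
  obtain ⟨k, hk, hMed⟩ : ∃ k < k0, ρ * ∑ z ∈ univ.filter (fun z =>
      Z (k + 1) * R ≤ w z ∧ w z < Z k * R), w z ≤ δ * R / 3 := by
    by_contra hcon
    push Not at hcon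
    have h1 : ∑ k ∈ range k0, ∑ z ∈ univ.filter (fun z =>
        Z (k + 1) * R ≤ w z ∧ w z < Z k * R), w z ≤ K * R := by
      rw [← sum_biUnion]
      · exact le_trans (sum_le_sum_of_subset_of_nonneg (subset_univ _) fun z _ _ => hw0 z) hsum'
      · have hlt : ∀ k k' : ℕ, k < k' → Disjoint
            (univ.filter (fun z => Z (k + 1) * R ≤ w z ∧ w z < Z k * R))
            (univ.filter (fun z => Z (k' + 1) * R ≤ w z ∧ w z < Z k' * R)) := by
          intro k k' hkk
          rw [disjoint_left]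
          intro z hz hz'
          rw [mem_filter] at hz hz'
          have h2 : Z k' ≤ Z (k + 1) := hZa hkk
          have h3 : Z k' * R ≤ Z (k + 1) * R := mul_le_mul_of_nonneg_right h2 hRpos.le
          linarith [hz.2.1, hz'.2.2]
        intro a _ b _ hab
        rcases lt_or_gt_of_ne hab with hab | hab
        · exact hlt a b hab
        · exact (hlt b a hab).symm
    have h2 : (k0 : ℝ) * (δ * R / 3) ≤ ρ * ∑ k ∈ range k0, ∑ z ∈ univ.filter (fun z =>
        Z (k + 1) * R ≤ w z ∧ w z < Z k * R), w z := by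
      rw [mul_sum]
      calc (k0 : ℝ) * (δ * R / 3) = ∑ _k ∈ range k0, δ * R / 3 := by
            rw [sum_const, card_range, nsmul_eq_mul]
        _ ≤ _ := sum_le_sum fun k hk => (hcon k (mem_range.1 hk)).le
    have h3 : 3 * ρ * K * R < k0 * δ * R := mul_lt_mul_of_pos_right hk0' hRpos
    have h4 := mul_le_mul_of_nonneg_left h1 hρ.le
    linarith
  have hη := eta_pos hK hδ hlam hΛ (hZ0 k)
  have hZk : Z k0 ≤ Z k := hZa hk.le
  obtain ⟨η, hηd⟩ : ∃ η, η = eta K δ lam Λ (Z k) := ⟨_, rfl⟩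
  have hη1 : η ≤ lam := by rw [hηd]; exact min_le_left _ _
  have hη2 : η ≤ δ * Z k ^ 2 / (12 * K ^ 2 * Λ) := by rw [hηd]; exact min_le_right _ _
  have hη3 : eta K δ lam Λ (Z k0) ≤ η := by rw [hηd]; exact eta_mono hK hδ hΛ (hZ0 k0) hZk
  have hZs' := hZs k
  rw [← hηd] at hη hZs'
  have hZkp := hZ0 k
  obtain ⟨B, hB1, hB2⟩ := core (lam := lam) (ζ := Z k) (ζ' := Z (k + 1)) (η := η) (δ := δ)
    hl hu hpos hK hsum hRpos
    (by rw [← hρd, ← hw]; exact hMed) hη hη1 (hZ0 k) (hZ0 (k + 1))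
    (by
      rw [← hρd]
      rw [le_div_iff₀ (by positivity)] at hZs'
      linarith)
    (by
      rw [← hΛd]
      have h1 : (K / Z k) ^ 2 * (2 * η * R * Λ) ≤ δ * R / 6 := by
        calc (K / Z k) ^ 2 * (2 * η * R * Λ) = η * ((K / Z k) ^ 2 * (2 * R * Λ)) := by ring
          _ ≤ δ * Z k ^ 2 / (12 * K ^ 2 * Λ) * ((K / Z k) ^ 2 * (2 * R * Λ)) :=
              mul_le_mul_of_nonneg_right hη2 (by positivity)
          _ = δ * R / 6 := by
              field_simp
              ring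
      have h2 : (K / Z k) ^ 2 * 2 ≤ δ * R / 6 := by
        have h3 : (K / Z k) ^ 2 ≤ (K / Z k0) ^ 2 := by
          gcongr
        have h4 : (K / Z k0) ^ 2 * 2 ≤ δ * R / 6 := by
          rw [div_le_iff₀ (by positivity)] at hR1
          rw [div_pow, div_mul_eq_mul_div, div_le_iff₀ (by positivity)]
          linarith
        linarith
      rw [mul_add]
      linarith)
  refine ⟨B, hB1, fun x y h1 h2 h3 h4 h5 => le_trans ?_ (hB2 x y h1 h2 h3 h4 h5)⟩
  exact mul_le_mul_of_nonneg_right (by linarith) hRpos.le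

end Pool.Agent.TH461.AL.Diag
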