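import Mathlib
import Pool.Agent.TH461.AL.Stms4

/-!
Job J15: the level property from the line property and moves in both directions, by double
counting.
-/

set_option autoImplicit false

open Finset Filter Topology

namespace Pool.Agent.TH461.AL.Lev2

open Pool.Agent.TH461.AL

/-- at most `2 E + 1` integers `k` with `a + (k - E) R ≤ y ≤ a + (k + E) R` -/
lemma window_card (A : Finset ℕ) {R : ℤ} (hR : 0 < R) (a y : ℤ) (E : ℕ)
    (hA : ∀ k ∈ A, a + ((k : ℤ) - E) * R ≤ y ∧ y ≤ a + ((k : ℤ) + E) * R) :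
    A.card ≤ 2 * E + 1 := by
  classical
  obtain ⟨m, hm⟩ : ∃ m : ℤ, m = (y - a) / R := ⟨_, rfl⟩
  have h1 : m * R ≤ y - a := by rw [hm]; exact Int.ediv_mul_le _ hR.ne'
  have h2 : y - a < (m + 1) * R := by
    rw [hm]; exact Int.lt_ediv_add_one_mul_self _ hR
  have h3 : ∀ k ∈ A, (k : ℤ) ∈ Finset.Icc (m - E) (m + E) := by
    intro k hk
    obtain ⟨h4, h5⟩ := hA k hk
    rw [Finset.mem_Icc]
    constructor
    · have h6 : m * R ≤ ((k : ℤ) + E) * R := by linarith
      have := le_of_mul_le_mul_right h6 hR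
      linarith
    · have h6 : ((k : ℤ) - E) * R < (m + 1) * R := by linarith
      have := lt_of_mul_lt_mul_right h6 hR.le
      omega
  have h4 : A.card ≤ (Finset.Icc (m - (E : ℤ)) (m + E)).card :=
    Finset.card_le_card_of_injOn (fun k : ℕ => (k : ℤ)) h3
      (fun x _ y _ h => by simpa using h)
  rw [Int.card_Icc] at h4
  omega

theorem level2 : J15 := by
  classical
  intro S D κ hL hU δ hδ
  obtain ⟨c1, hc1, hc⟩ := hL (δ / 2) (by positivity)
  obtain ⟨E, hE⟩ : ∃ E : ℕ, E = D + κ + 1 := ⟨_, rfl⟩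
  obtain ⟨W, hW⟩ : ∃ W : ℕ, W = 2 * E + 1 := ⟨_, rfl⟩
  have hW0 : (0 : ℝ) < W := by rw [hW]; positivity
  refine ⟨c1 / (2 * W), by positivity, fun η hη _ => ?_⟩
  obtain ⟨T0, hT0⟩ := hc η hη
  refine ⟨max T0 1, fun R hR F hF J a b => ?_⟩
  have hR1 : 1 ≤ R := (le_max_right _ _).trans hR
  have hRT : T0 ≤ R := (le_max_left _ _).trans hR
  have hRz : (0 : ℤ) < R := by exact_mod_cast hR1
  have hRr : (0 : ℝ) < R := by exact_mod_cast hR1
  have hmu : ∀ (ρ : ℝ) (j a b : ℤ), mu F ρ j a b =
      ((Icc a b).filter (fun y => Ngh F ρ j y)).card := fun _ _ _ _ => by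
    unfold mu
    congr
  let P : ℕ → Prop := fun k => a + (k : ℤ) * R ≤ b ∧ ∃ t : ℕ, t < R ∧ ∃ i : ℤ, F i (J + t) ∧
    a + ((k : ℤ) - 1) * R ≤ i ∧ i < a + ((k : ℤ) + 1) * R
  let A : Finset ℕ := (range ((b - a).toNat + 1)).filter P
  -- (1)
  have h1 : ∀ t : ℕ, t < R → mu F R (J + t) a b ≤ R * A.card := by
    intro t ht
    rw [hmu]
    refine Finset.card_le_mul_card_image_of_maps_to (f := fun y : ℤ => ((y - a) / R).toNat)
      (t := A) ?_ R ?_
    · intro y hy
      rw [Finset.mem_filter, Finset.mem_Icc] at hy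
      obtain ⟨⟨hy1, hy2⟩, i, hi, hi1, hi2⟩ := hy
      have hq0 : 0 ≤ (y - a) / (R : ℤ) := Int.ediv_nonneg (by linarith) hRz.le
      have hq1 : (y - a) / (R : ℤ) * R ≤ y - a := Int.ediv_mul_le _ hRz.ne'
      have hq2 : y - a < ((y - a) / (R : ℤ) + 1) * R := Int.lt_ediv_add_one_mul_self _ hRz
      have hk : ((((y - a) / (R : ℤ)).toNat : ℕ) : ℤ) = (y - a) / R := Int.toNat_of_nonneg hq0
      have hi3 : y ≤ i + R := by exact_mod_cast hi2
      rw [Finset.mem_filter, Finset.mem_range]
      refine ⟨?_, ?_, t, ht, i, hi, ?_, ?_⟩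
      · have h5 : (y - a) / (R : ℤ) ≤ b - a := by nlinarith
        omega
      · rw [hk]; linarith
      · rw [hk]; linarith
      · rw [hk]; linarith
    · intro k _
      have hsub : ((Icc a b).filter (fun y => Ngh F R (J + t) y)).filter
          (fun y : ℤ => ((y - a) / R).toNat = k) ⊆ Ico (a + (k : ℤ) * R) (a + (k : ℤ) * R + R) := by
        intro y hy
        rw [Finset.mem_filter, Finset.mem_filter, Finset.mem_Icc] at hy
        obtain ⟨⟨⟨hy1, hy2⟩, -⟩, hy3⟩ := hy
        have hq0 : 0 ≤ (y - a) / (R : ℤ) := Int.ediv_nonneg (by linarith) hRz.le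
        have hq1 : (y - a) / (R : ℤ) * R ≤ y - a := Int.ediv_mul_le _ hRz.ne'
        have hq2 : y - a < ((y - a) / (R : ℤ) + 1) * R := Int.lt_ediv_add_one_mul_self _ hRz
        have hk : (y - a) / (R : ℤ) = k := by rw [← hy3, Int.toNat_of_nonneg hq0]
        rw [hk] at hq1 hq2
        rw [Finset.mem_Ico]
        constructor <;> linarith
      refine (Finset.card_le_card hsub).trans ?_
      rw [Int.card_Ico]
      omega
  -- (2)
  have h2 : ∀ k ∈ A, ∃ i : ℤ, F i (J + R - 1) ∧ a + ((k : ℤ) - 1 - κ) * R ≤ i ∧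
      i ≤ a + ((k : ℤ) + 1 + κ) * R := by
    intro k hk
    obtain ⟨_, _, t, ht, i0, hi0, hi1, hi2⟩ := Finset.mem_filter.1 hk
    obtain ⟨i, hi, hFi⟩ := hU F hF i0 (J + t) hi0 (J + R - 1)
    have e1 : |J + R - 1 - (J + t)| ≤ (R : ℤ) := by
      rw [abs_le]; constructor <;> omega
    have e2 : |i - i0| ≤ κ * R := hi.trans (by
      have : (0 : ℤ) ≤ κ := by positivity
      exact mul_le_mul_of_nonneg_left e1 this)
    rw [abs_le] at e2
    refine ⟨i, hFi, ?_, ?_⟩
    · linarith [e2.1]
    · linarith [e2.2]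
  choose! ik hik1 hik2 hik3 using h2
  -- bad lines for `k`
  let bad : ℕ → ℕ → Prop := fun t k =>
    (mu F (η * R) (J + t) (ik k - D * R) (ik k + D * R) : ℝ) < c1 * R
  have h3 : ∀ k ∈ A, (((range R).filter (fun t => bad t k)).card : ℝ) ≤ δ / 2 * R := by
    intro k hk
    refine le_trans ?_ (hT0 R hRT F hF (ik k) (J + R - 1) (hik1 k hk))
    have : ((range R).filter (fun t => bad t k)).card ≤ ((range R).filter (fun t : ℕ =>
        (mu F (η * R) ((J + R - 1) - t) (ik k - D * R) (ik k + D * R) : ℝ) < c1 * R)).card := by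
      refine Finset.card_le_card_of_injOn (fun t => R - 1 - t) ?_ ?_
      · intro t ht
        obtain ⟨ht1, ht2⟩ := Finset.mem_filter.1 (Finset.mem_coe.1 ht)
        rw [Finset.mem_range] at ht1
        rw [Finset.mem_coe, Finset.mem_filter, Finset.mem_range]
        beta_reduce
        refine ⟨by omega, ?_⟩
        have e : (J + R - 1) - ((R - 1 - t : ℕ) : ℤ) = J + t := by omega
        rw [e]
        exact ht2
      · intro t ht t' ht' he
        have ht1 := Finset.mem_range.1 (Finset.mem_filter.1 (Finset.mem_coe.1 ht)).1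
        have ht1' := Finset.mem_range.1 (Finset.mem_filter.1 (Finset.mem_coe.1 ht')).1
        simp only at he
        omega
    exact_mod_cast this
  -- (3)
  have h4 : ∑ t ∈ range R, ((A.filter (fun k => bad t k)).card : ℝ) ≤ A.card * (δ / 2 * R) := by
    have e1 : ∑ t ∈ range R, (A.filter (fun k => bad t k)).card =
        ∑ k ∈ A, ((range R).filter (fun t => bad t k)).card :=
      Finset.sum_card_bipartiteAbove_eq_sum_card_bipartiteBelow (s := range R) (t := A) bad
    have e2 : ∑ t ∈ range R, ((A.filter (fun k => bad t k)).card : ℝ) =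
        ∑ k ∈ A, (((range R).filter (fun t => bad t k)).card : ℝ) := by exact_mod_cast e1
    rw [e2]
    refine (Finset.sum_le_sum h3).trans (le_of_eq ?_)
    rw [Finset.sum_const, nsmul_eq_mul]
  -- (4)
  have h5 : ∀ t : ℕ, t < R → ((mu F (η * R) (J + t) (a - (D + κ + 3 : ℕ) * R)
      (b + (D + κ + 3 : ℕ) * R) : ℕ) : ℝ) < c1 / (2 * W) * (mu F R (J + t) a b : ℕ) →
      (A.card : ℝ) / 2 < ((A.filter (fun k => bad t k)).card : ℝ) := by
    intro t ht hlt
    by_contra hcon
    rw [not_lt] at hcon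
    set G : Finset ℕ := A.filter (fun k => ¬ bad t k) with hG
    have hGc : (A.card : ℝ) / 2 ≤ G.card := by
      have e1 : (A.filter (fun k => bad t k)).card + G.card = A.card :=
        Finset.card_filter_add_card_filter_not _
      have e2 : ((A.filter (fun k => bad t k)).card : ℝ) + G.card = A.card := by exact_mod_cast e1
      linarith
    set Y : Finset ℤ := (Icc (a - (D + κ + 3 : ℕ) * R) (b + (D + κ + 3 : ℕ) * R)).filter
      (fun y => Ngh F (η * R) (J + t) y) with hY
    have hYm : mu F (η * R) (J + t) (a - (D + κ + 3 : ℕ) * R) (b + (D + κ + 3 : ℕ) * R) =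
      Y.card := hmu _ _ _ _
    let r : ℕ → ℤ → Prop := fun k y => ik k - D * R ≤ y ∧ y ≤ ik k + D * R
    have e3 : ∑ k ∈ G, (Y.filter (fun y => r k y)).card =
        ∑ y ∈ Y, (G.filter (fun k => r k y)).card :=
      Finset.sum_card_bipartiteAbove_eq_sum_card_bipartiteBelow (s := G) (t := Y) r
    have e4 : (G.card : ℝ) * (c1 * R) ≤ ((∑ k ∈ G, (Y.filter (fun y => r k y)).card : ℕ) : ℝ) := by
      rw [Nat.cast_sum, ← nsmul_eq_mul]
      refine Finset.card_nsmul_le_sum _ _ _ fun k hk => ?_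
      obtain ⟨hkA, hkb⟩ := Finset.mem_filter.1 hk
      have hkb' : c1 * R ≤ (mu F (η * R) (J + t) (ik k - D * R) (ik k + D * R) : ℝ) :=
        not_lt.1 hkb
      refine hkb'.trans ?_
      rw [hmu]
      have hPk := (Finset.mem_filter.1 hkA).2.1
      have hk2 := hik2 k hkA
      have hk3 := hik3 k hkA
      have : ((Icc (ik k - D * R) (ik k + D * R)).filter
          (fun y => Ngh F (η * R) (J + t) y)).card ≤ (Y.filter (fun y => r k y)).card := by
        refine Finset.card_le_card fun y hy => ?_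
        rw [Finset.mem_filter, Finset.mem_Icc] at hy
        obtain ⟨⟨hy1, hy2⟩, hy3⟩ := hy
        rw [Finset.mem_filter, hY, Finset.mem_filter, Finset.mem_Icc]
        have hkR : 0 ≤ (k : ℤ) * R := by positivity
        refine ⟨⟨⟨?_, ?_⟩, hy3⟩, hy1, hy2⟩
        · push_cast
          nlinarith
        · push_cast
          nlinarith
      exact_mod_cast this
    have e5 : ∑ y ∈ Y, (G.filter (fun k => r k y)).card ≤ Y.card * W := by
      refine (Finset.sum_le_card_nsmul _ _ W fun y _ => ?_).trans (le_of_eq (smul_eq_mul _ _))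
      rw [hW]
      refine window_card _ hRz a y E fun k hk => ?_
      obtain ⟨hkG, hk1, hk2⟩ := Finset.mem_filter.1 hk
      have hkA := (Finset.mem_filter.1 hkG).1
      have hk3 := hik2 k hkA
      have hk4 := hik3 k hkA
      rw [hE]
      push_cast
      constructor
      · linarith
      · linarith
    have e6 : (G.card : ℝ) * (c1 * R) ≤ (Y.card : ℝ) * W := by
      refine e4.trans ?_
      rw [e3]
      exact_mod_cast e5
    have e7 : (mu F R (J + t) a b : ℝ) ≤ R * A.card := by exact_mod_cast h1 t ht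
    rw [hYm] at hlt
    have e8 : (Y.card : ℝ) * W < c1 / 2 * (R * A.card) := by
      have e9 : c1 / (2 * W) * (mu F R (J + t) a b : ℝ) ≤ c1 / (2 * W) * (R * A.card) :=
        mul_le_mul_of_nonneg_left e7 (by positivity)
      have e10 : (Y.card : ℝ) * W < c1 / (2 * W) * (R * A.card) * W :=
        mul_lt_mul_of_pos_right (hlt.trans_le e9) hW0
      refine e10.trans_le (le_of_eq ?_)
      field_simp
    have e11 : (A.card : ℝ) / 2 * (c1 * R) ≤ (G.card : ℝ) * (c1 * R) :=
      mul_le_mul_of_nonneg_right hGc (by positivity)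
    nlinarith
  -- the end
  by_cases hA0 : A.card = 0
  · have : ((range R).filter (fun t : ℕ => (mu F (η * R) (J + t) (a - (D + κ + 3 : ℕ) * R)
        (b + (D + κ + 3 : ℕ) * R) : ℝ) < c1 / (2 * W) * mu F R (J + t) a b)) = ∅ := by
      refine Finset.filter_false_of_mem fun t ht hlt => ?_
      have e1 := h1 t (Finset.mem_range.1 ht)
      rw [hA0, mul_zero, Nat.le_zero] at e1
      rw [e1, Nat.cast_zero, mul_zero] at hlt
      exact absurd hlt (not_lt.2 (Nat.cast_nonneg _))
    convert (show ((∅ : Finset ℕ).card : ℝ) ≤ δ * R by simp; positivity)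
  · have hApos : (0 : ℝ) < A.card := by exact_mod_cast Nat.pos_of_ne_zero hA0
    set B : Finset ℕ := (range R).filter (fun t : ℕ => (mu F (η * R) (J + t)
      (a - (D + κ + 3 : ℕ) * R) (b + (D + κ + 3 : ℕ) * R) : ℝ) <
        c1 / (2 * W) * mu F R (J + t) a b) with hB
    have e1 : (B.card : ℝ) * ((A.card : ℝ) / 2) ≤ A.card * (δ / 2 * R) := by
      refine le_trans ?_ h4
      refine le_trans ?_ (Finset.sum_le_sum_of_subset_of_nonneg (s := B) (Finset.filter_subset _ _)
        fun _ _ _ => Nat.cast_nonneg _)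
      rw [← nsmul_eq_mul]
      refine Finset.card_nsmul_le_sum _ _ _ fun t ht => ?_
      obtain ⟨ht1, ht2⟩ := Finset.mem_filter.1 ht
      exact (h5 t (Finset.mem_range.1 ht1) ht2).le
    have e2 : (B.card : ℝ) ≤ δ * R := by
      have e3 : (B.card : ℝ) * ((A.card : ℝ) / 2) ≤ (δ * R) * ((A.card : ℝ) / 2) := by
        refine e1.trans (le_of_eq ?_)
        ring
      exact le_of_mul_le_mul_right e3 (by positivity)
    convert e2

end Pool.Agent.TH461.AL.Lev2
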