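import Mathlib
import Pool.Agent.TH461.AL.Stms4
import Pool.Agent.TH461.SST.Window

/-!
Project AL of helper461, job J14 (helper740, after Lin.lean of helper615): the diagonals near a far
cell.
-/

set_option autoImplicit false

open Finset Filter Topology

namespace Pool.Agent.TH461.AL.Lin2

open Pool.Agent.TH461.AL
open Pool.Agent.TH461.SST (InT ClusterStmt Far)
open Pool.Agent.TH461.SST.Tri
open Pool.Agent.H706R2 (dZ)

/-- far cells after a shift of the origin -/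
theorem fa_iff {p q : ℕ} (hp : 2 ≤ p) (hq : 2 ≤ q) (r θ : ℝ) (i0 j0 : ℤ) (k : ℤ) (x b : ℕ) :
    Far p q r (θ * (p : ℝ) ^ i0 * (q : ℝ) ^ j0 + k) x b ↔ Fa p q r θ (i0 + x) (j0 + b) := by
  rw [far_shift]
  unfold Far Fa
  have hp0 : (p : ℝ) ≠ 0 := by positivity
  have hq0 : (q : ℝ) ≠ 0 := by positivity
  rw [zpow_add₀ hp0, zpow_add₀ hq0, zpow_natCast, zpow_natCast]
  have e : θ * (p : ℝ) ^ i0 * (q : ℝ) ^ j0 * (p : ℝ) ^ x * (q : ℝ) ^ b =
      θ * ((p : ℝ) ^ i0 * (p : ℝ) ^ x) * ((q : ℝ) ^ j0 * (q : ℝ) ^ b) := by ring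
  rw [e]

/-- the line `n` of the orbit is a diagonal of the grid -/
theorem fa_diag {u v : ℕ} (hu : 2 ≤ u) (hv : 2 ≤ v) (r θ : ℝ) (i n : ℤ) :
    Fa (u * v) u r θ i n ↔ Fa u v r θ (i + n) i := by
  unfold Fa
  have hu0 : (u : ℝ) ≠ 0 := by positivity
  have hv0 : (v : ℝ) ≠ 0 := by positivity
  have e : θ * ((u * v : ℕ) : ℝ) ^ i * (u : ℝ) ^ n = θ * (u : ℝ) ^ (i + n) * (v : ℝ) ^ i := by
    rw [zpow_add₀ hu0]
    push_cast
    rw [mul_zpow]
    ring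
  rw [e]

theorem fa_diag' {u v : ℕ} (hu : 2 ≤ u) (hv : 2 ≤ v) (r θ : ℝ) (x y : ℤ) :
    Fa u v r θ x y ↔ Fa (u * v) u r θ y (x - y) := by
  rw [fa_diag hu hv, add_sub_cancel]

open Classical in
/-- the diagonals of a window -/
theorem win2 {p q : ℕ} (hp : 2 ≤ p) (hq : 2 ≤ q) (hpq : Nat.Coprime p q) {r : ℝ} (hr : 0 < r)
    (hrp : ((p : ℝ) + 1) * r ≤ 1) (hgeo : DiagStmt) (hcl : ClusterStmt p q) {δ lam : ℝ}
    (hδ : 0 < δ) (hlam : 0 < lam) :
    ∃ c : ℝ, 0 < c ∧ ∀ η : ℝ, 0 < η → ∃ R0 : ℕ, ∀ R C : ℕ, R0 ≤ R →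
      (R : ℝ) * Real.log q ≤ C * Real.log p →
      (C : ℝ) * Real.log p ≤ R * Real.log q + Real.log p →
      ∀ (θ : ℝ) (i0 j0 : ℤ), ∃ B : Finset ℤ, (B.card : ℝ) ≤ δ * R ∧
        ∀ x y : ℕ, (x : ℤ) - y ∉ B → (lam + η) * R ≤ x → lam * R ≤ y →
          (x : ℝ) + lam * R < C → (y : ℝ) + lam * R < R →
          Fa p q r θ (i0 + x) (j0 + y) →
          c * R ≤ (((range R).filter (fun y' : ℕ => |(y' : ℝ) - y| ≤ lam * R ∧
            ∃ i' : ℕ, i' ≤ x + y' - y ∧ ((x + y' - y : ℕ) : ℝ) ≤ i' + η * R ∧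
              Fa p q r θ (i0 + i') (j0 + y'))).card : ℝ) := by
  have hl := log_pos' hp
  have hu := log_pos' hq
  obtain ⟨c, hc, R1, hG⟩ := hgeo (Real.log p) (Real.log q) 6 δ lam hl hu (by norm_num) hδ hlam
  refine ⟨c, hc, fun η hη => ?_⟩
  obtain ⟨K, hK, R2, hR2, hW⟩ := window hp hq hpq hr hrp hcl hη
  refine ⟨max (max R1 R2) ⌈2 * Real.log p / Real.log q + K⌉₊, ?_⟩
  intro R C hR hC1 hC2 θ i0 j0
  have hRR1 : R1 ≤ R := (le_max_left _ _).trans ((le_max_left _ _).trans hR)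
  have hRR2 : R2 ≤ R := (le_max_right _ _).trans ((le_max_left _ _).trans hR)
  have hRR3 : 2 * Real.log p / Real.log q + K ≤ R := by
    refine (Nat.le_ceil _).trans ?_
    exact_mod_cast (le_max_right _ _).trans hR
  obtain ⟨k, hk1, hk2⟩ := exists_shift (θ * (p : ℝ) ^ i0 * (q : ℝ) ^ j0)
  obtain ⟨θ', hθ'⟩ : ∃ θ' : ℝ, θ' = θ * (p : ℝ) ^ i0 * (q : ℝ) ^ j0 + k := ⟨_, rfl⟩
  rw [← hθ'] at hk1 hk2
  obtain ⟨N, hN⟩ : ∃ N : ℝ, N = C * Real.log p + R * Real.log q := ⟨_, rfl⟩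
  obtain ⟨Z, hZ, hZc, hZs, hZw⟩ := hW R C hRR2 hC1 hC2 θ' hk1 hk2 N hN
  obtain ⟨e, -⟩ : ∃ e : Fin Z.card ≃ Z, e = Z.equivFin.symm := ⟨_, rfl⟩
  have h1 : ∀ z : Fin Z.card, ((e z).1.2.1 : ℝ) * Real.log p + ((e z).1.2.2 : ℝ) * Real.log q <
      lev p q r θ' N (e z).1 := by
    intro z
    have h := (hZ (e z).1 (e z).2).2.2.2
    unfold size at h
    linarith
  have h3 : ∑ z : Fin Z.card, ((lev p q r θ' N (e z).1 - ((e z).1.2.1 : ℝ) * Real.log p -
      ((e z).1.2.2 : ℝ) * Real.log q) / Real.log q + 1) ≤ 6 * R := by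
    have e1 : ∑ z : Fin Z.card, ((lev p q r θ' N (e z).1 - ((e z).1.2.1 : ℝ) * Real.log p -
      ((e z).1.2.2 : ℝ) * Real.log q) / Real.log q + 1) =
        ∑ t ∈ Z, (size p q r θ' N t / Real.log q + 1) := by
      rw [← Finset.sum_coe_sort Z, ← Equiv.sum_comp e]
      rfl
    rw [e1, Finset.sum_add_distrib, ← Finset.sum_div, Finset.sum_const, nsmul_eq_mul, mul_one]
    have e2 : (∑ t ∈ Z, size p q r θ' N t) / Real.log q ≤ 2 * N / Real.log q :=
      div_le_div_of_nonneg_right hZs hu.le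
    have e3 : 2 * N / Real.log q ≤ 4 * R + 2 * Real.log p / Real.log q := by
      rw [div_le_iff₀ hu, add_mul, div_mul_cancel₀ _ hu.ne', hN]
      linarith
    have e4 : (0 : ℝ) ≤ R := Nat.cast_nonneg R
    linarith
  obtain ⟨B, hBc, hB⟩ := hG R hRR1 Z.card (fun z => (e z).1.2.1) (fun z => (e z).1.2.2)
    (fun z => lev p q r θ' N (e z).1) h1 h3
  refine ⟨B, hBc, ?_⟩
  intro x y hxy hx1 hy1 hx2 hy2 hfa
  have hfar : Far p q r θ' x y := by
    rw [hθ', fa_iff hp hq]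
    exact hfa
  have hlamR : 0 ≤ lam * R := by positivity
  have hηR : 0 ≤ η * R := by positivity
  have h4 := hB x y hxy (by linarith) hy1 hy2 (fun z hin =>
    (((inT_iff hp hq hr).1 hin).2.not_far hp hq hr hrp) hfar)
  refine h4.trans ?_
  have h5 : ((range R).filter (fun y' : ℕ => |(y' : ℝ) - y| ≤ lam * R ∧
        ∀ z : Fin Z.card, ¬ InT (Real.log p) (Real.log q) (e z).1.2.1 (e z).1.2.2
          (lev p q r θ' N (e z).1) (x + y' - y) y')) ⊆
      (range R).filter (fun y' : ℕ => |(y' : ℝ) - y| ≤ lam * R ∧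
            ∃ i' : ℕ, i' ≤ x + y' - y ∧ ((x + y' - y : ℕ) : ℝ) ≤ i' + η * R ∧
              Fa p q r θ (i0 + i') (j0 + y')) := by
    intro y' hy'
    rw [Finset.mem_filter, Finset.mem_range] at hy'
    obtain ⟨hyR, hy2, hy3⟩ := hy'
    rw [Finset.mem_filter, Finset.mem_range]
    refine ⟨hyR, hy2, ?_⟩
    rw [abs_le] at hy2
    have hle : y ≤ x + y' := by
      have : (y : ℝ) ≤ (x : ℝ) + y' := by linarith [hy2.1]
      exact_mod_cast this
    have hcast : ((x + y' - y : ℕ) : ℝ) = (x : ℝ) + y' - y := by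
      rw [Nat.cast_sub hle]
      push_cast
      ring
    have hxC : x + y' - y < C := by
      have : ((x + y' - y : ℕ) : ℝ) < C := by rw [hcast]; linarith [hy2.2]
      exact_mod_cast this
    obtain ⟨i', hi1, hi2, hi3⟩ := hZw (x + y' - y, y') (by
      rw [Finset.mem_product, Finset.mem_range, Finset.mem_range]
      exact ⟨hxC, hyR⟩) (by
      show η * R ≤ ((x + y' - y : ℕ) : ℝ)
      rw [hcast]
      linarith [hy2.1]) (by
      intro t ht hin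
      obtain ⟨z, hz⟩ := e.surjective ⟨t, ht⟩
      apply hy3 z
      rw [hz]
      exact hin)
    refine ⟨i', hi1, hi2, ?_⟩
    rw [← fa_iff hp hq r θ i0 j0 k, ← hθ']
    exact hi3
  exact_mod_cast Finset.card_le_card h5

theorem line2 : J14 := by
  classical
  intro p q hp hq hpq r hr hrp hrq hgeo hcl hud
  have hl := log_pos' hp
  have hu := log_pos' hq
  obtain ⟨κ, hκ⟩ : ∃ κ : ℝ, κ = Real.log q / Real.log p := ⟨_, rfl⟩
  have hκ0 : 0 < κ := by
    rw [hκ]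
    exact div_pos hu hl
  obtain ⟨m0, hm0⟩ : ∃ m0 : ℕ, m0 = ⌈10 / κ⌉₊ + 4 := ⟨_, rfl⟩
  have hm1 : 4 ≤ m0 := by omega
  have hm1' : (4 : ℝ) ≤ m0 := by exact_mod_cast hm1
  have hm0' : (0 : ℝ) < m0 := by linarith
  have hm2 : 10 ≤ κ * m0 := by
    have h1 : 10 / κ ≤ m0 := by
      refine (Nat.le_ceil _).trans ?_
      rw [hm0]
      push_cast
      linarith
    rw [div_le_iff₀ hκ0] at h1
    linarith
  obtain ⟨lam, hlame⟩ : ∃ lam : ℝ, lam = min 1 κ / 8 := ⟨_, rfl⟩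
  have hlam0 : 0 < lam := by
    rw [hlame]
    have : 0 < min 1 κ := lt_min one_pos hκ0
    positivity
  have hlam1 : lam ≤ 1 / 8 := by
    rw [hlame]
    have := min_le_left 1 κ
    linarith
  have hlam2 : lam ≤ κ / 8 := by
    rw [hlame]
    have := min_le_right 1 κ
    linarith
  refine ⟨2 * m0, fun δ hδ => ?_⟩
  obtain ⟨c, hc, hwin⟩ := win2 hp hq hpq hr hrp hgeo hcl (δ := δ / m0) (lam := lam)
    (by positivity) hlam0
  refine ⟨c, hc, fun η hη => ?_⟩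
  obtain ⟨η', hη'⟩ : ∃ η' : ℝ, η' = min (η / (2 * m0)) (min 1 κ / 8) := ⟨_, rfl⟩
  have hη'0 : 0 < η' := by
    rw [hη']
    refine lt_min (by positivity) ?_
    rw [← hlame]
    exact hlam0
  have hη'1 : η' ≤ η / (2 * m0) := by rw [hη']; exact min_le_left _ _
  have hη'2 : η' ≤ lam := by rw [hη', ← hlame]; exact min_le_right _ _
  obtain ⟨R0, hR0⟩ := hwin η' hη'0
  refine ⟨max R0 1, fun T hT F hF i j hij => ?_⟩
  obtain ⟨θ, rfl⟩ := hF
  have hT1 : 1 ≤ T := (le_max_right _ _).trans hT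
  have hT1' : (1 : ℝ) ≤ T := by exact_mod_cast hT1
  obtain ⟨R, hRe⟩ : ∃ R : ℕ, R = m0 * T := ⟨_, rfl⟩
  have hRT : 4 * T ≤ R := by
    rw [hRe]
    exact Nat.mul_le_mul_right T hm1
  have hRT' : 4 * (T : ℝ) ≤ R := by exact_mod_cast hRT
  have hRe' : (R : ℝ) = m0 * T := by
    rw [hRe]
    push_cast
    ring
  have hRR0 : R0 ≤ R := (le_max_left _ _).trans (hT.trans (by omega))
  obtain ⟨C, hCe⟩ : ∃ C : ℕ, C = ⌈(R : ℝ) * Real.log q / Real.log p⌉₊ := ⟨_, rfl⟩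
  have hC1 : (R : ℝ) * κ ≤ C := by
    rw [hκ, hCe, ← mul_div_assoc]
    exact Nat.le_ceil _
  have hC2 : (C : ℝ) ≤ R * κ + 1 := by
    have h1 : (0 : ℝ) ≤ (R : ℝ) * Real.log q / Real.log p := by positivity
    have h2 := (Nat.ceil_lt_add_one h1).le
    rw [hκ, hCe, ← mul_div_assoc]
    exact h2
  have hκl : κ * Real.log p = Real.log q := by
    rw [hκ]
    exact div_mul_cancel₀ _ hl.ne'
  have hC3 : (R : ℝ) * Real.log q ≤ C * Real.log p := by
    have h := mul_le_mul_of_nonneg_right hC1 hl.le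
    rw [mul_assoc, hκl] at h
    exact h
  have hC4 : (C : ℝ) * Real.log p ≤ R * Real.log q + Real.log p := by
    have h := mul_le_mul_of_nonneg_right hC2 hl.le
    rw [add_mul, mul_assoc, hκl, one_mul] at h
    exact h
  obtain ⟨B, hBc, hBb⟩ := hR0 R C hRR0 hC3 hC4 θ (i + j - ((C / 2 : ℕ) : ℤ))
    (i - ((R / 2 : ℕ) : ℤ))
  have hCT : 10 * (T : ℝ) ≤ C := by
    have h1 := mul_le_mul_of_nonneg_right hm2 (show (0 : ℝ) ≤ T by linarith)
    have h2 : κ * m0 * T = R * κ := by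
      rw [hRe']
      ring
    linarith
  have hCh1 : ((C : ℝ) - 1) / 2 ≤ ((C / 2 : ℕ) : ℝ) := by
    have h1 : C ≤ 2 * (C / 2) + 1 := by omega
    have h2 : (C : ℝ) ≤ 2 * ((C / 2 : ℕ) : ℝ) + 1 := by exact_mod_cast h1
    linarith
  have hCh2 : ((C / 2 : ℕ) : ℝ) ≤ (C : ℝ) / 2 := by
    have h1 : 2 * (C / 2) ≤ C := by omega
    have h2 : 2 * ((C / 2 : ℕ) : ℝ) ≤ (C : ℝ) := by exact_mod_cast h1
    linarith
  have hRh1 : ((R : ℝ) - 1) / 2 ≤ ((R / 2 : ℕ) : ℝ) := by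
    have h1 : R ≤ 2 * (R / 2) + 1 := by omega
    have h2 : (R : ℝ) ≤ 2 * ((R / 2 : ℕ) : ℝ) + 1 := by exact_mod_cast h1
    linarith
  have hRh2 : ((R / 2 : ℕ) : ℝ) ≤ (R : ℝ) / 2 := by
    have h1 : 2 * (R / 2) ≤ R := by omega
    have h2 : 2 * ((R / 2 : ℕ) : ℝ) ≤ (R : ℝ) := by exact_mod_cast h1
    linarith
  have hlamR : lam * R ≤ R / 8 := by
    have h9 := mul_le_mul_of_nonneg_right hlam1 (Nat.cast_nonneg (α := ℝ) R)
    linarith
  have hlamC : lam * R ≤ C / 8 := by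
    have h9 := mul_le_mul_of_nonneg_right hlam2 (Nat.cast_nonneg (α := ℝ) R)
    linarith
  have hηlam : η' * R ≤ lam * R := mul_le_mul_of_nonneg_right hη'2 (Nat.cast_nonneg R)
  obtain ⟨E, hE⟩ : ∃ E : ℕ, E = ⌊η' * R⌋₊ := ⟨_, rfl⟩
  have hE1 : (E : ℝ) ≤ η' * R := by rw [hE]; exact Nat.floor_le (by positivity)
  have hE2 : E ≤ R := by
    have : (E : ℝ) ≤ R := by linarith
    exact_mod_cast this
  have hE3 : 2 * (E : ℝ) ≤ η * T := by
    have h12 := mul_le_mul_of_nonneg_right hη'1 (show (0 : ℝ) ≤ 2 * (m0 * T) by positivity)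
    have h13 : η / (2 * m0) * (2 * (m0 * T)) = η * T := by
      field_simp
    have h14 : η' * (2 * (m0 * T)) = 2 * (η' * R) := by rw [hRe']; ring
    linarith
  have hmaps : ∀ t ∈ (range T).filter (fun t : ℕ =>
      (mu (Fa (p * q) p r θ) (η * T) (j - t) (i - ((2 * m0 : ℕ) : ℤ) * T)
        (i + ((2 * m0 : ℕ) : ℤ) * T) : ℝ) < c * T),
      ((C / 2 : ℕ) : ℤ) - ((R / 2 : ℕ) : ℤ) - t ∈ B := by
    intro t ht
    rw [Finset.mem_filter, Finset.mem_range] at ht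
    obtain ⟨htT, hmu⟩ := ht
    by_contra hcon
    obtain ⟨it, h1, h2⟩ := hud θ i j hij (j - t)
    have ht' : (t : ℝ) ≤ T := by exact_mod_cast htT.le
    have h1' : |it - i| ≤ (t : ℤ) := by
      refine h1.trans (le_of_eq ?_)
      have : j - (t : ℤ) - j = -(t : ℤ) := by ring
      rw [this, abs_neg, Nat.abs_cast]
      push_cast
      ring
    rw [abs_le] at h1'
    have hT2 : 2 * T ≤ R / 2 := by omega
    have hC5 : 4 * T ≤ C / 2 := by
      have : 10 * T ≤ C := by exact_mod_cast hCT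
      omega
    obtain ⟨x, hx⟩ : ∃ x : ℕ, (x : ℤ) = (it - i) - t + ((C / 2 : ℕ) : ℤ) :=
      ⟨((it - i) - t + ((C / 2 : ℕ) : ℤ)).toNat, Int.toNat_of_nonneg (by omega)⟩
    obtain ⟨y, hy⟩ : ∃ y : ℕ, (y : ℤ) = (it - i) + ((R / 2 : ℕ) : ℤ) :=
      ⟨((it - i) + ((R / 2 : ℕ) : ℤ)).toNat, Int.toNat_of_nonneg (by omega)⟩
    have hxl : ((C / 2 : ℕ) : ℝ) - 2 * T ≤ x := by
      have h3 : ((C / 2 : ℕ) : ℤ) ≤ x + 2 * T := by omega
      have h4 : ((C / 2 : ℕ) : ℝ) ≤ x + 2 * T := by exact_mod_cast h3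
      linarith
    have hxu : (x : ℝ) ≤ ((C / 2 : ℕ) : ℝ) := by
      have h4 : (x : ℤ) ≤ ((C / 2 : ℕ) : ℤ) := by omega
      exact_mod_cast h4
    have hyl : ((R / 2 : ℕ) : ℝ) - T ≤ y := by
      have h3 : ((R / 2 : ℕ) : ℤ) ≤ y + T := by omega
      have h4 : ((R / 2 : ℕ) : ℝ) ≤ y + T := by exact_mod_cast h3
      linarith
    have hyu : (y : ℝ) ≤ ((R / 2 : ℕ) : ℝ) + T := by
      have h4 : (y : ℤ) ≤ ((R / 2 : ℕ) : ℤ) + T := by omega
      exact_mod_cast h4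
    have hdg : (x : ℤ) - y = ((C / 2 : ℕ) : ℤ) - ((R / 2 : ℕ) : ℤ) - t := by omega
    have hxi : i + j - ((C / 2 : ℕ) : ℤ) + (x : ℤ) = it + (j - t) := by omega
    have hyi : i - ((R / 2 : ℕ) : ℤ) + (y : ℤ) = it := by omega
    have h8 := hBb x y (by rw [hdg]; exact hcon) (by
        rw [add_mul]
        linarith) (by linarith) (by linarith) (by linarith) (by
        rw [hxi, hyi, ← fa_diag hp hq]
        exact h2)
    have h10 : ((range R).filter (fun y' : ℕ => |(y' : ℝ) - y| ≤ lam * R ∧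
            ∃ i' : ℕ, i' ≤ x + y' - y ∧ ((x + y' - y : ℕ) : ℝ) ≤ i' + η' * R ∧
              Fa p q r θ (i + j - ((C / 2 : ℕ) : ℤ) + i') (i - ((R / 2 : ℕ) : ℤ) + y'))).card ≤
        mu (Fa (p * q) p r θ) (η * T) (j - t) (i - ((2 * m0 : ℕ) : ℤ) * T)
          (i + ((2 * m0 : ℕ) : ℤ) * T) := by
      unfold mu
      apply Finset.card_le_card_of_injOn
        (fun y' : ℕ => i - ((R / 2 : ℕ) : ℤ) + (y' : ℤ) + (E : ℤ))
      · intro y' hy'
        rw [Finset.mem_coe, Finset.mem_filter, Finset.mem_range] at hy'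
        obtain ⟨hyR, hy2, i', hi1, hi2, hi3⟩ := hy'
        rw [abs_le] at hy2
        have hle : y ≤ x + y' := by
          have : (y : ℝ) ≤ (x : ℝ) + y' := by linarith [hy2.1]
          exact_mod_cast this
        have hxE : x + y' - y ≤ i' + E := by
          have h11 : (((x + y' - y) - i' : ℕ) : ℝ) ≤ η' * R := by
            rw [Nat.cast_sub hi1]
            linarith
          have h12 := Nat.le_floor h11
          rw [← hE] at h12
          omega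
        rw [fa_diag' hp hq] at hi3
        obtain ⟨i2, h21, h22⟩ := hud θ _ _ hi3 (j - t)
        have hD : (R : ℤ) = (m0 : ℤ) * T := by rw [hRe]; push_cast; ring
        have hab : |i2 - (i - ((R / 2 : ℕ) : ℤ) + (y' : ℤ))| ≤ (E : ℤ) := by
          refine h21.trans ?_
          rw [Nat.cast_one, one_mul, abs_le]
          constructor <;> omega
        rw [abs_le] at hab
        rw [Finset.mem_coe, Finset.mem_filter, Finset.mem_Icc]
        beta_reduce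
        have hDD : ((2 * m0 : ℕ) : ℤ) * T = 2 * R := by rw [hD]; push_cast; ring
        rw [hDD]
        refine ⟨⟨by omega, by omega⟩, i2, h22, by omega, ?_⟩
        have h13 : i - ((R / 2 : ℕ) : ℤ) + (y' : ℤ) + (E : ℤ) ≤ i2 + 2 * E := by omega
        have h14 : ((i - ((R / 2 : ℕ) : ℤ) + (y' : ℤ) + (E : ℤ) : ℤ) : ℝ) ≤
            ((i2 + 2 * E : ℤ) : ℝ) := by exact_mod_cast h13
        refine h14.trans ?_
        push_cast
        linarith
      · intro y' _ y'' _ h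
        have h' : i - ((R / 2 : ℕ) : ℤ) + (y' : ℤ) + (E : ℤ) =
          i - ((R / 2 : ℕ) : ℤ) + (y'' : ℤ) + (E : ℤ) := h
        omega
    have h14 := (Nat.cast_le (α := ℝ)).2 h10
    have h15 : (T : ℝ) ≤ R := by linarith
    have h16 : c * T ≤ c * R := mul_le_mul_of_nonneg_left h15 hc.le
    linarith
  have hinj : Set.InjOn (fun t : ℕ => ((C / 2 : ℕ) : ℤ) - ((R / 2 : ℕ) : ℤ) - t)
      ((range T).filter (fun t : ℕ =>
      (mu (Fa (p * q) p r θ) (η * T) (j - t) (i - ((2 * m0 : ℕ) : ℤ) * T)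
        (i + ((2 * m0 : ℕ) : ℤ) * T) : ℝ) < c * T)) := by
    intro t _ t' _ h
    have h' : ((C / 2 : ℕ) : ℤ) - ((R / 2 : ℕ) : ℤ) - t =
      ((C / 2 : ℕ) : ℤ) - ((R / 2 : ℕ) : ℤ) - t' := h
    omega
  have hcard := Finset.card_le_card_of_injOn
    (fun t : ℕ => ((C / 2 : ℕ) : ℤ) - ((R / 2 : ℕ) : ℤ) - t) hmaps hinj
  have hcard' := (Nat.cast_le (α := ℝ)).2 hcard
  refine le_trans (le_of_eq ?_) (hcard'.trans (hBc.trans (le_of_eq ?_)))
  · congr!
  · rw [hRe']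
    field_simp

end Pool.Agent.TH461.AL.Lin2
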