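import Mathlib
import Pool.Agent.TH461.AL.Stms4

/-! Project AL: base `u v`, multiples `u ^ n`: from a far cell to a far cell of any other line. -/

set_option autoImplicit false

open Finset Filter Topology

namespace Pool.Agent.TH461.AL.Ud

open Pool.Agent.TH461.AL

open Pool.Agent.H706R2 (dZ arc_side)

theorem updown : J12 := by
  intro u v hu hv r hr hrb θ i n hF n'
  have huR : (0 : ℝ) < u := by exact_mod_cast (by omega : 0 < u)
  have hvR : (0 : ℝ) < v := by exact_mod_cast (by omega : 0 < v)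
  have hb : 0 < u * v := Nat.mul_pos (by omega) (by omega)
  have hbR : (0 : ℝ) < ((u * v : ℕ) : ℝ) := by exact_mod_cast hb
  have hF' : r ≤ dZ (θ * ((u * v : ℕ) : ℝ) ^ i * (u : ℝ) ^ n) := hF
  rcases le_total n' n with h | h
  · obtain ⟨t, ht⟩ := Int.le.dest h
    have hle : u ^ t ≤ (u * v) ^ t := Nat.pow_le_pow_left (Nat.le_mul_of_pos_right _ (by omega)) t
    obtain ⟨s, hs, h3⟩ := arc_side (p := u) (q := u * v) (by omega) (by nlinarith) hrb hF' t t hle
    refine ⟨i + s, ?_, ?_⟩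
    · have e1 : |n' - n| = t := by
        rw [abs_of_nonpos (by omega)]
        omega
      have e2 : |i + (s : ℤ) - i| = s := by
        rw [abs_of_nonneg (by omega)]
        omega
      rw [e1, e2]
      push_cast
      omega
    · change r ≤ dZ (θ * ((u * v : ℕ) : ℝ) ^ (i + (s : ℤ)) * (u : ℝ) ^ n')
      have e : θ * ((u * v : ℕ) : ℝ) ^ (i + (s : ℤ)) * (u : ℝ) ^ n' =
          ((u * v : ℕ) : ℝ) ^ s * (θ * ((u * v : ℕ) : ℝ) ^ i * (u : ℝ) ^ n / (u : ℝ) ^ t) := by
        rw [show n' = n - t by omega, zpow_add₀ hbR.ne', zpow_sub₀ huR.ne', zpow_natCast,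
          zpow_natCast]
        ring
      rw [e]
      exact h3
  · obtain ⟨t, ht⟩ := Int.le.dest h
    have hle : v ^ t ≤ (u * v) ^ t := Nat.pow_le_pow_left (Nat.le_mul_of_pos_left _ (by omega)) t
    obtain ⟨s, hs, h3⟩ := arc_side (p := v) (q := u * v) (by omega) (by nlinarith) hrb hF' t t hle
    refine ⟨i - t + s, ?_, ?_⟩
    · have e1 : |n' - n| = t := by
        rw [abs_of_nonneg (by omega)]
        omega
      have e2 : |i - (t : ℤ) + (s : ℤ) - i| ≤ t := by
        rw [abs_le]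
        constructor <;> omega
      rw [e1]
      push_cast
      linarith
    · change r ≤ dZ (θ * ((u * v : ℕ) : ℝ) ^ (i - (t : ℤ) + (s : ℤ)) * (u : ℝ) ^ n')
      have e : θ * ((u * v : ℕ) : ℝ) ^ (i - (t : ℤ) + (s : ℤ)) * (u : ℝ) ^ n' =
          ((u * v : ℕ) : ℝ) ^ s * (θ * ((u * v : ℕ) : ℝ) ^ i * (u : ℝ) ^ n / (v : ℝ) ^ t) := by
        rw [← ht, zpow_add₀ hbR.ne', zpow_sub₀ hbR.ne', zpow_add₀ huR.ne', zpow_natCast,
          zpow_natCast, zpow_natCast]
        push_cast
        rw [mul_pow]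
        field_simp
      rw [e]
      exact h3

end Pool.Agent.TH461.AL.Ud
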