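import Mathlib
import Pool.Agent.TH461.AL.Dec
import Pool.Agent.TH461.AL.Diag
import Pool.Agent.TH461.AL.Ud
import Pool.Agent.TH461.AL.Lin2
import Pool.Agent.TH461.AL.Lev2

/-!
Project AL: base `u v` and multiples `u ^ n`, `u, v` coprime: the unconditional theorems.
-/

set_option autoImplicit false

open Finset Filter Topology

namespace Pool.Agent.TH461.AL.Dec2

open Pool.Agent.TH461.AL

open Classical in
theorem real_words {u v : ℕ} (hu : 2 ≤ u) (hv : 2 ≤ v) (hco : Nat.Coprime u v) {x : ℝ}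
    (hx : Irrational x) (hL : ¬ Liouville x) :
    ∃ C : ℕ, ∀ (k : ℕ) (ε δ : ℝ), 0 < ε → 0 < δ → ∃ M0 : ℕ, ∀ M : ℕ, M0 ≤ M →
      (((range M).filter (fun n : ℕ => ¬ ∀ W < (u * v) ^ k, (M : ℝ) ^ (1 - ε) ≤
        (((range (C * M)).filter (fun i : ℕ =>
          ⌊((u * v : ℕ) : ℝ) ^ (i + k) * ((u : ℝ) ^ n * x)⌋ % (((u * v : ℕ) : ℤ) ^ k) =
            (W : ℤ))).card : ℝ))).card : ℝ) ≤ δ * M :=
  Dec.nl_words2 Ud.updown Diag.diag Lin2.line2 Lev2.level2 hu hv hco hx hL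

open Classical in
theorem alg_windows {u₀ v₀ : ℕ} (hu : 2 ≤ u₀)
    (hv : 2 ≤ v₀) (hco : Nat.Coprime u₀ v₀) {ξ : ℝ} (hξ : Irrational ξ) (ha : IsAlgebraic ℚ ξ)
    (k R : ℕ) {ε δ η : ℝ} (hε : 0 < ε) (hδ : 0 < δ) (hη : 0 < η) :
    ∃ M0 : ℕ, ∀ M : ℕ, M0 ≤ M → ∀ J : ℕ,
      (((range M).filter (fun t : ℕ => ¬ ∀ u l : ℕ, u + l ≤ R * (J + M) →
        η * ((J : ℝ) + M) ≤ l → ∀ W < (u₀ * v₀) ^ k, (M : ℝ) ^ (1 - ε) ≤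
          (((range (u + l)).filter (fun i : ℕ => u ≤ i ∧ i + k ≤ u + l ∧
            ⌊((u₀ * v₀ : ℕ) : ℝ) ^ (i + k) * ((u₀ : ℝ) ^ (J + t) * ξ)⌋ %
              (((u₀ * v₀ : ℕ) : ℤ) ^ k) = (W : ℤ))).card : ℝ))).card : ℝ) ≤ δ * M :=
  Dec.alg_windows2 Ud.updown Diag.diag Lin2.line2 Lev2.level2 hu hv hco hξ ha k R hε hδ hη

open Classical in
theorem pow_windows {u₀ v₀ : ℕ} (hu : 2 ≤ u₀)
    (hv : 2 ≤ v₀) (hco : Nat.Coprime u₀ v₀) {a : ℕ} (ha : 1 ≤ a) (k : ℕ) {ε δ η : ℝ}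
    (hε : 0 < ε) (hδ : 0 < δ) (hη : 0 < η) :
    ∃ M0 : ℕ, ∀ M : ℕ, M0 ≤ M → ∀ J : ℕ,
      (((range M).filter (fun t : ℕ => ¬ ∀ u l : ℕ,
        u + l ≤ (Nat.digits (u₀ * v₀) (a * u₀ ^ (J + t))).length → η * ((J : ℝ) + M) ≤ l →
          ∀ W < (u₀ * v₀) ^ k, (M : ℝ) ^ (1 - ε) ≤
            (((range (u + l)).filter (fun i : ℕ => u ≤ i ∧ i + k ≤ u + l ∧
              a * u₀ ^ (J + t) / (u₀ * v₀) ^ i % (u₀ * v₀) ^ k = W)).card : ℝ))).card : ℝ)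
        ≤ δ * M :=
  Dec.pow_windows2 Ud.updown Diag.diag Lin2.line2 Lev2.level2 hu hv hco ha k hε hδ hη

end Pool.Agent.TH461.AL.Dec2
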