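import Mathlib
import Pool.Agent.TH461.AL.Stms4
import Pool.Agent.W765.Sta4

/-!
Project AL, fifth part: the lines `θ (w / u) ^ i u ^ j` (`j` fixed), `2 ≤ u < w` coprime, such as the
columns of the automaton which multiplies by `3 / 2` in base 6.  The line `j` is the anti-diagonal
`x + y = j` of the grid `θ w ^ x u ^ y`; the position on the line is `i = x`.
-/

set_option autoImplicit false

open Finset Filter Topology MeasureTheory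

namespace Pool.Agent.TH461.AL

open Pool.Agent.TH461.SST (InT ClusterStmt)
open Pool.Agent.H706R2 (dZ)
open Pool.Agent.H705R2 (Circ)
open Pool.Agent.W765.Sta (Hit Acc0)

/-- the cell at position `i` of the line `j` is far from the integers -/
def Fb (w u : ℕ) (r θ : ℝ) (i j : ℤ) : Prop := r ≤ dZ (θ * (w : ℝ) ^ i * (u : ℝ) ^ (j - i))

/-- J16 -/
def J16 : Prop := ∀ (u w : ℕ) (_ : 2 ≤ u) (_ : u < w) (_ : Nat.Coprime u w),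
  ∃ κ : ℕ, ∀ (r : ℝ) (_ : 0 < r) (_ : ((u : ℝ) + w) * r ≤ 1) (θ : ℝ), UpDown (Fb w u r θ) κ

open Classical in
/-- J17: for all but `δ R` of the anti-diagonals, a cell in no triangle has many cells of its
anti-diagonal in no triangle near it; triangles of bounded total size -/
def AntiStmt : Prop :=
  ∀ (l u K δ lam : ℝ) (_ : 0 < u) (_ : u < l) (_ : 0 < K) (_ : 0 < δ) (_ : 0 < lam),
    ∃ c : ℝ, 0 < c ∧ ∃ R0 : ℕ, ∀ (R : ℕ) (_ : R0 ≤ R)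
    (κ : ℕ) (m n : Fin κ → ℕ) (h : Fin κ → ℝ)
    (_ : ∀ z, (m z : ℝ) * l + (n z : ℝ) * u < h z)
    (_ : ∑ z, ((h z - (m z : ℝ) * l - (n z : ℝ) * u) / u + 1) ≤ K * R),
    ∃ B : Finset ℕ, (B.card : ℝ) ≤ δ * R ∧ ∀ x y : ℕ, x + y ∉ B → lam * R ≤ x →
      lam * R ≤ y → (y : ℝ) + lam * R < R → (∀ z, ¬ InT l u (m z) (n z) (h z) x y) →
      c * R ≤ (((range R).filter (fun y' : ℕ => |(y' : ℝ) - y| ≤ lam * R ∧
        ∀ z, ¬ InT l u (m z) (n z) (h z) (x + y - y') y')).card : ℝ)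

/-- J18 -/
def J18 : Prop := ∀ (u w : ℕ) (_ : 2 ≤ u) (_ : u < w) (_ : Nat.Coprime u w) (r : ℝ) (_ : 0 < r)
  (_ : ((u : ℝ) + w) * r ≤ 1) (_ : AntiStmt) (_ : ClusterStmt w u) (κ : ℕ)
  (_ : ∀ θ : ℝ, UpDown (Fb w u r θ) κ),
    ∃ D : ℕ, LineProp {F | ∃ θ : ℝ, F = Fb w u r θ} D

/-- the times `m` at which no `u ^ a w ^ b x`, `a + b = m`, `x ∈ A`, is in `V` -/
def BadM (u w : ℕ) (A V : Set Circ) : Set ℕ :=
  {m | ∀ x ∈ A, ∀ a b : ℕ, a + b = m → (u ^ a * w ^ b) • x ∉ V}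

open Classical in
/-- J19: a closed set which accumulates at 0 -/
def J19 : Prop := ∀ (u w : ℕ) (_ : 2 ≤ u) (_ : u < w) (_ : Nat.Coprime u w),
  ∃ ρ : ℝ, 0 ≤ ρ ∧ ρ < 1 ∧ ∀ (A : Set Circ) (_ : Acc0 A) (V : Set Circ) (_ : IsOpen V)
    (_ : V.Nonempty) (ε : ℝ) (_ : 0 < ε) (n0 : ℕ), ∃ n : ℕ, n0 ≤ n ∧
      (((Ioc ⌊ρ * n⌋₊ n).filter (fun m => m ∈ BadM u w A V)).card : ℝ) ≤ ε * n

/-- J20: a stationary random closed set which accumulates at 0 is everything -/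
def J20 : Prop := ∀ (u w : ℕ) (_ : 2 ≤ u) (_ : u < w) (_ : Nat.Coprime u w)
  (Ω : Type) [MeasurableSpace Ω] (P : Measure Ω) [IsProbabilityMeasure P] (σ : Ω → Ω)
  (_ : MeasurePreserving σ P P) (A : Ω → Set Circ) (_ : ∀ ω, IsClosed (A ω)) (_ : Hit A)
  (_ : ∀ ω, ∀ x ∈ A ω, u • x ∈ A (σ ω)) (_ : ∀ ω, ∀ x ∈ A ω, w • x ∈ A (σ ω)),
    ∀ᵐ ω ∂P, Acc0 (A ω) → A ω = Set.univ

/-- J21: Furstenberg's theorem for stationary random closed sets, two multiplications in one step -/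
def J21 : Prop := ∀ (u w : ℕ) (_ : 2 ≤ u) (_ : u < w) (_ : Nat.Coprime u w)
  (Ω : Type) [MeasurableSpace Ω] (P : Measure Ω) [IsProbabilityMeasure P] (σ : Ω → Ω)
  (_ : MeasurePreserving σ P P) (F : Ω → Set Circ) (_ : ∀ ω, IsClosed (F ω)) (_ : Hit F)
  (_ : ∀ᵐ ω ∂P, ∀ x ∈ F ω, u • x ∈ F (σ ω)) (_ : ∀ᵐ ω ∂P, ∀ x ∈ F ω, w • x ∈ F (σ ω)),
    ∀ᵐ ω ∂P, (F ω).Finite ∨ F ω = Set.univ

open Classical in
/-- J22: words on the anti-diagonals below a far cell -/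
def WordB (w u D : ℕ) : Prop := ∀ (r : ℝ) (_ : 0 < r) (U : Set UnitAddCircle) (_ : IsOpen U)
  (_ : U.Nonempty) (δ : ℝ) (_ : 0 < δ), ∃ N : ℕ, 1 ≤ N ∧ ∃ T1 : ℕ, ∀ T : ℕ, T1 ≤ T → ∀ θ : ℝ,
    r ≤ dZ (N * θ) → (((range T).filter (fun t : ℕ => ∀ i : ℤ, |i| ≤ D * T →
      ((θ * (w : ℝ) ^ i * (u : ℝ) ^ (-(t : ℤ) - i) : ℝ) : UnitAddCircle) ∉ U)).card : ℝ) ≤ δ * T

/-- J22 -/
def J22 : Prop := ∀ (u w : ℕ) (_ : 2 ≤ u) (_ : u < w) (_ : Nat.Coprime u w) (_ : J21),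
  ∃ D : ℕ, WordB w u D

end Pool.Agent.TH461.AL
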