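import Mathlib
import Pool.Agent.TH461.AL.Stms5
import Pool.Agent.TH959.AL.Avn
import Pool.Agent.TH959.AL.Wey
import Pool.Agent.H705R2.Accum

/-!
# AL-J19: a closed set accumulating at 0 and the times `u ^ a w ^ b`, `a + b = m`
-/

set_option autoImplicit false

open Finset Filter Topology

namespace Pool.Agent.TH461.AL.Acc

open Pool.Agent.TH461.AL

open Pool.Agent.TH959.AL (Zs isClosed_Zs volume_Zs volume_image closed_bound)

open Pool.Agent.H705R2 (Circ)

/-- `log u / log (w / u)` is irrational -/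
lemma order0 {u w : ℕ} (hu : 2 ≤ u) (huw : u < w) (hc : Nat.Coprime u w) :
    addOrderOf ((Real.logb ((w : ℝ) / u) u : ℝ) : Circ) = 0 := by
  rw [addOrderOf_eq_zero_iff, isOfFinAddOrder_iff_nsmul_eq_zero]
  rintro ⟨n, hn, hn0⟩
  rw [← AddCircle.coe_nsmul, AddCircle.coe_eq_zero_iff] at hn0
  obtain ⟨k, hk⟩ := hn0
  simp only [zsmul_eq_mul, mul_one, nsmul_eq_mul] at hk
  have hu1 : (1 : ℝ) < u := by exact_mod_cast (by omega : 1 < u)
  have hu0 : (0 : ℝ) < u := by linarith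
  have hw0 : (0 : ℝ) < w := by exact_mod_cast (by omega : 0 < w)
  have hl1 : (1 : ℝ) < (w : ℝ) / u := by
    rw [one_lt_div hu0]
    exact_mod_cast huw
  have hpos : 0 < Real.logb ((w : ℝ) / u) u := Real.logb_pos hl1 hu1
  have hkpos : (0 : ℝ) < k := by
    rw [hk]
    have : (0 : ℝ) < n := by exact_mod_cast hn
    positivity
  have hk0 : 0 < k := by exact_mod_cast hkpos
  obtain ⟨l, rfl⟩ := Int.eq_ofNat_of_zero_le hk0.le
  have hl0 : 0 < l := by exact_mod_cast hk0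
  have h1 : ((w : ℝ) / u) ^ l = (u : ℝ) ^ n := by
    have h2 : Real.logb ((w : ℝ) / u) (((w : ℝ) / u) ^ l) = Real.logb ((w : ℝ) / u) ((u : ℝ) ^ n) := by
      rw [Real.logb_pow, Real.logb_pow, Real.logb_self_eq_one hl1, mul_one]
      exact_mod_cast hk
    exact Real.logb_injOn_pos hl1 (by simp; positivity) (by simp; positivity) h2
  rw [div_pow, div_eq_iff (by positivity), ← pow_add] at h1
  have h3 : w ^ l = u ^ (n + l) := by exact_mod_cast h1
  have h4 : Nat.Coprime (u ^ (n + l)) (w ^ l) := Nat.Coprime.pow _ _ hc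
  rw [h3, Nat.coprime_self] at h4
  have h5 : 1 < u ^ (n + l) := Nat.one_lt_pow (by omega) (by omega)
  omega

open Classical in
/-- one sign -/
lemma main {u w : ℕ} (hu : 2 ≤ u) (huw : u < w) (hc : Nat.Coprime u w) {V : Set Circ}
    (hV : IsOpen V) (hVn : V.Nonempty) {R : ℝ} (hR : R ≠ 0) {ε : ℝ} (hε : 0 < ε) :
    ∃ n1 : ℕ, ∀ n : ℕ, n1 ≤ n → ∀ ξ : ℝ, 0 < ξ → (u : ℝ) ^ n * ξ ≤ 1 → 1 < (u : ℝ) ^ (n + 1) * ξ →
      (((Ioc ⌊(2 * Real.logb ((w : ℝ) / u) u + 1) / (2 * Real.logb ((w : ℝ) / u) u + 2) * n⌋₊ n).filter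
        (fun m => ∀ a b : ℕ, a + b = m →
          ((u ^ a * w ^ b : ℕ) • (R * ξ) : ℝ) ∉ (fun x : ℝ => (x : Circ)) ⁻¹' V)).card : ℝ) ≤ ε * n := by
  have hu1 : (1 : ℝ) < u := by exact_mod_cast (by omega : 1 < u)
  have hu0 : (0 : ℝ) < u := by linarith
  have hw0 : (0 : ℝ) < w := by exact_mod_cast (by omega : 0 < w)
  set lam : ℝ := (w : ℝ) / u with hlam
  have hl1 : 1 < lam := by
    rw [hlam, one_lt_div hu0]
    exact_mod_cast huw
  have hl0 : 0 < lam := by linarith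
  set α : ℝ := Real.logb lam u with hα
  have hα0 : 0 < α := Real.logb_pos hl1 hu1
  obtain ⟨J, hJ⟩ := volume_Zs hl1 hR hV hVn (half_pos hε)
  have hZ01 : Zs lam R V J ⊆ Set.Icc 0 1 := fun s hs => ⟨hs.1, hs.2.1⟩
  obtain ⟨hKc, hKv⟩ := volume_image (isClosed_Zs hl1 R hV J) hZ01
  obtain ⟨M0, hM0⟩ := closed_bound (order0 hu huw hc) hKc (half_pos hε) (hKv.trans_lt hJ)
  obtain ⟨n2, hn2⟩ := exists_nat_gt (2 * ((J : ℝ) + 1) + 2 * α)
  refine ⟨M0 + n2 + 1, fun n hn ξ hξ h1 h2 => ?_⟩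
  set β : ℝ := Real.logb lam ξ with hβ
  have hn0 : (1 : ℝ) ≤ n := by exact_mod_cast (by omega : 1 ≤ n)
  -- the logarithmic form of the hypotheses
  have g1 : (n : ℝ) * α + β ≤ 0 := by
    have := Real.logb_nonpos hl1 (by positivity) h1
    rwa [Real.logb_mul (by positivity) hξ.ne', Real.logb_pow] at this
  have g2 : 0 < ((n : ℝ) + 1) * α + β := by
    have := Real.logb_pos hl1 h2
    rw [Real.logb_mul (by positivity) hξ.ne', Real.logb_pow] at this
    push_cast at this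
    exact this
  have key : (Ioc ⌊(2 * α + 1) / (2 * α + 2) * n⌋₊ n).filter
      (fun m => ∀ a b : ℕ, a + b = m →
        ((u ^ a * w ^ b : ℕ) • (R * ξ) : ℝ) ∉ (fun x : ℝ => (x : Circ)) ⁻¹' V) ⊆
      (range (n + 1)).filter (fun m => (β : Circ) + m • (α : Circ) ∈
        (fun x : ℝ => (x : Circ)) '' Zs lam R V J) := by
    intro m hm
    rw [mem_filter, mem_Ioc] at hm
    obtain ⟨⟨hm1, hm2⟩, hbad⟩ := hm
    rw [mem_filter, mem_range]
    refine ⟨by omega, ?_⟩
    have hmn : (m : ℝ) ≤ n := by exact_mod_cast hm2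
    have hm1' : (2 * α + 1) / (2 * α + 2) * n < m := Nat.lt_of_floor_lt hm1
    set t : ℝ := m * α + β with ht
    have ht0 : t ≤ 0 := by
      have : (m : ℝ) * α ≤ n * α := by gcongr
      linarith
    have ht1 : (J : ℝ) + 1 ≤ t + m := by
      rw [div_mul_eq_mul_div, div_lt_iff₀ (by positivity)] at hm1'
      have hn3 : (n2 : ℝ) ≤ n := by exact_mod_cast (by omega : n2 ≤ n)
      nlinarith
    refine ⟨Int.fract t, ⟨Int.fract_nonneg t, (Int.fract_lt_one t).le, ?_⟩, ?_⟩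
    · intro j hj
      have hfl : ⌊t⌋ ≤ 0 := by
        have h3 : (⌊t⌋ : ℝ) ≤ 0 := (Int.floor_le t).trans ht0
        exact_mod_cast h3
      obtain ⟨b, hb⟩ := Int.eq_ofNat_of_zero_le (show 0 ≤ -⌊t⌋ + j by omega)
      have hbr : (b : ℝ) = -(⌊t⌋ : ℝ) + j := by
        have := congrArg (fun z : ℤ => (z : ℝ)) hb
        push_cast at this
        exact this.symm
      have hjJ : (j : ℝ) ≤ J := by exact_mod_cast hj
      have hbm : b ≤ m := by
        have h4 : (b : ℝ) < m + 1 := by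
          rw [hbr]
          have := Int.lt_floor_add_one t
          linarith
        have h5 : b < m + 1 := by exact_mod_cast h4
        omega
      obtain ⟨a, ha⟩ := Nat.exists_eq_add_of_le hbm
      have h6 := hbad a b (by omega)
      have h7 : ((u ^ a * w ^ b : ℕ) • (R * ξ) : ℝ) = R * lam ^ (Int.fract t + (j : ℝ)) := by
        have h8 : Int.fract t + (j : ℝ) = (m : ℝ) * α + β + b := by
          rw [hbr, Int.fract]
          rw [ht]
          ring
        rw [h8, Real.rpow_add hl0, Real.rpow_add hl0, mul_comm (m : ℝ) α, Real.rpow_mul hl0.le,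
          hα, hβ, Real.rpow_logb hl0 hl1.ne' hu0, Real.rpow_logb hl0 hl1.ne' hξ,
          Real.rpow_natCast, Real.rpow_natCast, ha, hlam, nsmul_eq_mul]
        push_cast
        rw [div_pow, pow_add]
        field_simp
      rw [h7] at h6
      exact h6
    · show ((Int.fract t : ℝ) : Circ) = (β : Circ) + m • (α : Circ)
      rw [← AddCircle.coe_nsmul, ← AddCircle.coe_add, nsmul_eq_mul]
      have h9 : Int.fract t = (β + m * α) - (⌊t⌋ : ℤ) := by
        rw [Int.fract, ht]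
        ring
      rw [h9, AddCircle.coe_sub]
      have h10 : (((⌊t⌋ : ℤ) : ℝ) : Circ) = 0 := by
        rw [AddCircle.coe_eq_zero_iff]
        exact ⟨⌊t⌋, by simp⟩
      rw [h10, sub_zero]
  have hcard := card_le_card key
  have hb := hM0 (n + 1) (by omega) (β : Circ)
  calc _ ≤ (((range (n + 1)).filter (fun m => (β : Circ) + m • (α : Circ) ∈
        (fun x : ℝ => (x : Circ)) '' Zs lam R V J)).card : ℝ) := by exact_mod_cast hcard
    _ ≤ ε / 2 * ((n + 1 : ℕ) : ℝ) := hb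
    _ ≤ ε * n := by
      push_cast
      nlinarith

theorem acc : J19 := by
  classical
  intro u w hu huw hc
  have hu1 : (1 : ℝ) < u := by exact_mod_cast (by omega : 1 < u)
  have hu0 : (0 : ℝ) < u := by linarith
  have hl1 : (1 : ℝ) < (w : ℝ) / u := by
    rw [one_lt_div hu0]
    exact_mod_cast huw
  have hα0 : 0 < Real.logb ((w : ℝ) / u) u := Real.logb_pos hl1 hu1
  refine ⟨(2 * Real.logb ((w : ℝ) / u) u + 1) / (2 * Real.logb ((w : ℝ) / u) u + 2), by positivity,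
    ?_, ?_⟩
  · rw [div_lt_one (by positivity)]
    linarith
  · intro A hA V hV hVn ε hε n0
    obtain ⟨n1, h1⟩ := main hu huw hc hV hVn (R := 1) one_ne_zero hε
    obtain ⟨n2, h2⟩ := main hu huw hc hV hVn (R := -1) (by norm_num) hε
    set N : ℕ := n0 + n1 + n2 with hN
    obtain ⟨x, hxA, hx0, hxn⟩ := hA (1 / (u : ℝ) ^ (N + 1)) (by positivity)
    obtain ⟨r, hr, hrn, hr2⟩ := Pool.Agent.H705R2.exists_rep x
    have hr0 : 0 < |r| := by
      rw [hrn]; exact norm_pos_iff.2 hx0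
    have hle : 1 ≤ 1 / |r| := by
      rw [le_div_iff₀ hr0, one_mul]
      linarith
    obtain ⟨n, hn1, hn2⟩ := exists_nat_pow_near hle hu1
    rw [le_div_iff₀ hr0] at hn1
    rw [div_lt_iff₀ hr0] at hn2
    have hNn : N ≤ n := by
      by_contra hcon
      push Not at hcon
      have h3 : (u : ℝ) ^ (n + 1) ≤ (u : ℝ) ^ (N + 1) := pow_le_pow_right₀ hu1.le (by omega)
      rw [← hrn, lt_div_iff₀ (by positivity)] at hxn
      nlinarith
    refine ⟨n, by omega, ?_⟩
    have hfin : ∀ R : ℝ, r = R * |r| → (((Ioc ⌊(2 * Real.logb ((w : ℝ) / u) u + 1) /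
        (2 * Real.logb ((w : ℝ) / u) u + 2) * n⌋₊ n).filter
        (fun m => ∀ a b : ℕ, a + b = m →
          ((u ^ a * w ^ b : ℕ) • (R * |r|) : ℝ) ∉ (fun x : ℝ => (x : Circ)) ⁻¹' V)).card : ℝ) ≤
          ε * n → (((Ioc ⌊(2 * Real.logb ((w : ℝ) / u) u + 1) /
        (2 * Real.logb ((w : ℝ) / u) u + 2) * n⌋₊ n).filter
        (fun m => m ∈ BadM u w A V)).card : ℝ) ≤ ε * n := by
      intro R hR h3
      refine le_trans ?_ h3
      have h4 : (Ioc ⌊(2 * Real.logb ((w : ℝ) / u) u + 1) /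
        (2 * Real.logb ((w : ℝ) / u) u + 2) * n⌋₊ n).filter (fun m => m ∈ BadM u w A V) ⊆
        (Ioc ⌊(2 * Real.logb ((w : ℝ) / u) u + 1) /
        (2 * Real.logb ((w : ℝ) / u) u + 2) * n⌋₊ n).filter (fun m => ∀ a b : ℕ, a + b = m →
          ((u ^ a * w ^ b : ℕ) • (R * |r|) : ℝ) ∉ (fun x : ℝ => (x : Circ)) ⁻¹' V) := by
        intro m hm
        rw [mem_filter] at hm ⊢
        refine ⟨hm.1, fun a b hab hmem => ?_⟩
        apply hm.2 x hxA a b hab
        rw [← hr, ← AddCircle.coe_nsmul, hR]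
        exact hmem
      exact_mod_cast card_le_card h4
    rcases le_or_gt 0 r with hrs | hrs
    · exact hfin 1 (by rw [abs_of_nonneg hrs, one_mul]) (h1 n (by omega) |r| hr0 hn1 hn2)
    · exact hfin (-1) (by rw [abs_of_neg hrs]; ring) (h2 n (by omega) |r| hr0 hn1 hn2)

end Pool.Agent.TH461.AL.Acc
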