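import Mathlib
import Pool.Agent.TH461.AL.Core
import Pool.Agent.TH461.AL.Last
import Pool.Agent.TH461.AL.Stms5

/-!
Project AL, fifth part: the core theorem on anti-diagonals, from `MultiProp` and `WordB`.
-/

set_option autoImplicit false

open Finset Filter Topology

namespace Pool.Agent.TH461.AL.Gen4

open Pool.Agent.TH461.AL
open Pool.Agent.H706R2 (dZ)
open Pool.Agent.TH461.AL.Core (mu_ge sizes)

open Classical in
/-- **Core**: cells in `U` on almost all lines -/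
theorem core_b {w u : ℕ} (hu : 2 ≤ u) (huw : u < w) {r : ℝ} (hr : 0 < r) {D1 D2 : ℕ}
    (hD1 : MultiProp {F | ∃ θ : ℝ, F = Fb w u r θ} D1) (hW : WordB w u D2) :
    ∃ D : ℕ, ∀ (U : Set UnitAddCircle) (_ : IsOpen U) (_ : U.Nonempty) (ε δ : ℝ) (_ : 0 < ε)
      (_ : 0 < δ), ∃ N : ℕ, 1 ≤ N ∧ ∀ H : ℕ, ∃ M0 : ℕ, ∀ M : ℕ, M0 ≤ M → ∀ (θ : ℝ) (J a b : ℤ),
        b - a ≤ H * M →
        (∀ t : ℕ, t < M → ∃ i : ℤ, a ≤ i ∧ i ≤ b ∧ Fb w u r (N * θ) i (J + t)) →
          (((range M).filter (fun t : ℕ =>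
            (((Icc (a - D * M) (b + D * M)).filter (fun i : ℤ =>
              ((θ * (w : ℝ) ^ i * (u : ℝ) ^ (J + t - i) : ℝ) : UnitAddCircle) ∈ U)).card : ℝ) <
                (M : ℝ) ^ (1 - ε))).card : ℝ) ≤ δ * M := by
  refine ⟨D1 + D2 + 1, fun U hU hUne ε' δ hε' hδ => ?_⟩
  set ε : ℝ := min ε' 1 with hεdef
  have hε : 0 < ε := lt_min hε' one_pos
  have hε1 : ε ≤ 1 := min_le_right _ _
  obtain ⟨N, hN1, T1, hN⟩ := hW r hr U hU hUne (δ / 20) (by positivity)
  refine ⟨N, hN1, fun H => ?_⟩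
  obtain ⟨C0, hC0⟩ := Last.last D2 T1 (δ / 20) (by positivity)
  obtain ⟨M1, hM1⟩ := hD1 (ε / 3) (by positivity) (δ / 2) (by positivity)
  obtain ⟨M2, hM2⟩ := eventually_atTop.1 (sizes C0 (H + 2 * D1) D2 hε hε1)
  refine ⟨max M1 M2, fun M hM θ J a b hab hfar => ?_⟩
  obtain ⟨hM1', hRM, hlog, hsz⟩ := hM2 M ((le_max_right _ _).trans hM)
  have hMR : (1 : ℝ) ≤ M := by exact_mod_cast hM1'
  have hM0 : (0 : ℝ) < M := by linarith
  set R : ℕ := ⌈(M : ℝ) ^ (ε / 3)⌉₊ with hR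
  have hR1 : 1 ≤ R := by
    rw [hR]
    exact Nat.one_le_iff_ne_zero.2 (Nat.ceil_pos.2 (Real.rpow_pos_of_pos hM0 _)).ne'
  have hR0 : (0 : ℝ) < R := by exact_mod_cast hR1
  set F : ℤ → ℤ → Prop := Fb w u r (N * θ) with hF
  set G : ℤ → ℤ → Prop := fun i j =>
    ((θ * (w : ℝ) ^ i * (u : ℝ) ^ (j - i) : ℝ) : UnitAddCircle) ∈ U with hG
  have hw0 : 0 < w := by omega
  have hpne : (w : ℝ) ≠ 0 := by positivity
  have hqne : (u : ℝ) ≠ 0 := by positivity
  -- the hypothesis of `J8`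
  have hFG : ∀ T : ℕ, T1 ≤ T → ∀ i j : ℤ, F i j →
      (((range T).filter (fun t : ℕ =>
        ¬ ∃ i' : ℤ, i - D2 * T ≤ i' ∧ i' ≤ i + D2 * T ∧ G i' (j - t))).card : ℝ) ≤
          δ / 20 * T := by
    intro T hT i j hij
    have h1 := hN T hT (θ * (w : ℝ) ^ i * (u : ℝ) ^ (j - i)) (by
      have h2 : r ≤ dZ (N * θ * (w : ℝ) ^ i * (u : ℝ) ^ (j - i)) := hij
      have e : (N : ℝ) * (θ * (w : ℝ) ^ i * (u : ℝ) ^ (j - i)) =
          N * θ * (w : ℝ) ^ i * (u : ℝ) ^ (j - i) := by ring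
      rw [e]
      exact h2)
    refine le_trans ?_ h1
    apply Nat.cast_le.2
    apply Finset.card_le_card
    intro t ht
    rw [Finset.mem_filter] at ht ⊢
    refine ⟨ht.1, fun k hk hkU => ht.2 ⟨i + k, ?_, ?_, ?_⟩⟩
    · have h3 := (abs_le.1 hk).1
      linarith
    · have h3 := (abs_le.1 hk).2
      linarith
    · simp only [hG]
      have e : θ * (w : ℝ) ^ (i + k) * (u : ℝ) ^ (j - (t : ℤ) - (i + k)) =
          θ * (w : ℝ) ^ i * (u : ℝ) ^ (j - i) * (w : ℝ) ^ k * (u : ℝ) ^ (-(t : ℤ) - k) := by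
        rw [show j - (t : ℤ) - (i + k) = (j - i) + (-(t : ℤ) - k) by ring, zpow_add₀ hpne,
          zpow_add₀ hqne]
        ring
      rw [e]
      exact hkU
  -- far cells
  set a' : ℤ := a - D1 * M with ha'
  set b' : ℤ := b + D1 * M with hb'
  have h1 := hM1 M ((le_max_left _ _).trans hM) F ⟨N * θ, rfl⟩ J a b hfar
  -- the strips
  set L : ℕ := M / R + 1 with hL
  set Bad : ℕ → Finset ℕ := fun u => (range R).filter (fun t : ℕ =>
      (8 * D2 + 16) * R * ((Icc (a' - (D2 + 1) * R) (b' + (D2 + 1) * R)).filter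
        (fun i => G i ((J + (u * R : ℕ)) + t))).card < mu F R ((J + (u * R : ℕ)) + t) a' b') with hBad
  have hBadc : ∀ u, ((Bad u).card : ℝ) ≤ 5 * (δ / 20) * R := by
    intro u
    refine hC0 F G hFG R (J + (u * R : ℕ)) a' b' ?_
    refine le_trans (Nat.mul_le_mul_left _ (Nat.add_le_add_left (Nat.log_mono_right ?_) _)) hlog
    rw [Int.toNat_le]
    push_cast
    rw [ha', hb']
    linarith
  have hsub : (range M).filter (fun t : ℕ =>
      (((Icc (a - (D1 + D2 + 1 : ℕ) * M) (b + (D1 + D2 + 1 : ℕ) * M)).filter (fun i : ℤ =>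
        ((θ * (w : ℝ) ^ i * (u : ℝ) ^ (J + t - i) : ℝ) : UnitAddCircle) ∈ U)).card : ℝ) <
          (M : ℝ) ^ (1 - ε')) ⊆
      ((range M).filter (fun t : ℕ =>
        (((Icc (a - D1 * M) (b + D1 * M)).filter (fun i => F i (J + t))).card : ℝ)
          < (M : ℝ) ^ (1 - ε / 3))) ∪
      (range L).biUnion (fun u => (Bad u).image (fun v => u * R + v)) := by
    intro t ht
    rw [Finset.mem_filter, Finset.mem_range] at ht
    obtain ⟨htM, ht2⟩ := ht
    rw [Finset.mem_union]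
    by_cases hfew : (((Icc (a - D1 * M) (b + D1 * M)).filter (fun i => F i (J + t))).card : ℝ)
          < (M : ℝ) ^ (1 - ε / 3)
    · left
      rw [Finset.mem_filter, Finset.mem_range]
      exact ⟨htM, hfew⟩
    right
    push Not at hfew
    rw [Finset.mem_biUnion]
    have hdiv : t / R * R + t % R = t := Nat.div_add_mod' t R
    have hmod : t % R < R := Nat.mod_lt _ (by omega)
    refine ⟨t / R, ?_, ?_⟩
    · rw [Finset.mem_range, hL]
      have := Nat.div_le_div_right (c := R) htM.le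
      omega
    rw [Finset.mem_image]
    refine ⟨t % R, ?_, hdiv⟩
    rw [hBad]
    simp only
    rw [Finset.mem_filter, Finset.mem_range]
    refine ⟨hmod, ?_⟩
    have eJ : J + ((t / R * R : ℕ) : ℤ) + ((t % R : ℕ) : ℤ) = J + t := by
      rw [add_assoc, ← Nat.cast_add, hdiv]
    rw [eJ]
    rw [← Nat.cast_lt (α := ℝ)]
    push_cast
    have h2 := mu_ge F hR0.le (J + t) a' b'
    have h3 : (M : ℝ) ^ (1 - ε / 3) ≤ (mu F R (J + t) a' b' : ℝ) :=
      hfew.trans (by exact_mod_cast h2)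
    refine lt_of_lt_of_le ?_ (hsz.trans h3)
    have h4 : (((Icc (a' - (D2 + 1) * R) (b' + (D2 + 1) * R)).filter
        (fun i => G i (J + t))).card : ℝ) < (M : ℝ) ^ (1 - ε) := by
      have h5 : (M : ℝ) ^ (1 - ε') ≤ (M : ℝ) ^ (1 - ε) :=
        Real.rpow_le_rpow_of_exponent_le hMR (by have := min_le_left ε' 1; linarith)
      refine lt_of_le_of_lt ?_ (lt_of_lt_of_le ht2 h5)
      apply Nat.cast_le.2
      apply Finset.card_le_card
      apply Finset.filter_subset_filter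
      have hRMi : (R : ℤ) ≤ M := by exact_mod_cast hRM
      have hD20 : (0 : ℤ) ≤ (D2 : ℤ) + 1 := by positivity
      have h6 : ((D2 : ℤ) + 1) * R ≤ ((D2 : ℤ) + 1) * M := mul_le_mul_of_nonneg_left hRMi hD20
      apply Finset.Icc_subset_Icc
      · rw [ha']; push_cast; linarith
      · rw [hb']; push_cast; linarith
    have h7 : (0 : ℝ) < (8 * (D2 : ℝ) + 16) * R := by positivity
    exact mul_lt_mul_of_pos_left h4 h7
  have hcard := Finset.card_le_card hsub
  have h2 : (((range L).biUnion (fun u => (Bad u).image (fun v => u * R + v))).card : ℝ) ≤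
      L * (5 * (δ / 20) * R) := by
    refine le_trans (Nat.cast_le.2 Finset.card_biUnion_le) ?_
    rw [Nat.cast_sum]
    refine (Finset.sum_le_sum (g := fun _ => 5 * (δ / 20) * (R : ℝ)) fun u _ => ?_).trans ?_
    · exact le_trans (Nat.cast_le.2 Finset.card_image_le) (hBadc u)
    · rw [Finset.sum_const, Finset.card_range, nsmul_eq_mul]
  have h3 : (L : ℝ) * R ≤ 2 * M := by
    have h4 : ((M / R : ℕ) : ℝ) * R ≤ M := by exact_mod_cast Nat.div_mul_le_self M R
    rw [hL]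
    push_cast
    linarith
  refine le_trans (Nat.cast_le.2 hcard) ?_
  refine le_trans (Nat.cast_le.2 (Finset.card_union_le _ _)) ?_
  rw [Nat.cast_add]
  have h5 : (L : ℝ) * (5 * (δ / 20) * R) = δ / 4 * (L * R) := by ring
  have h6 : δ / 4 * ((L : ℝ) * R) ≤ δ / 4 * (2 * M) := mul_le_mul_of_nonneg_left h3 (by positivity)
  linarith

end Pool.Agent.TH461.AL.Gen4
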