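import Mathlib
import Pool.Agent.TH461.AL.Stms5
import Pool.Agent.TH419.FS.RidPow

/-!
Project AL, fifth part: far cells on the lines `m w ^ i u ^ (j - i)`.
-/

set_option autoImplicit false

open Finset Filter Topology

namespace Pool.Agent.TH461.AL.Rid3

open Pool.Agent.TH461.AL
open Pool.Agent.H706R2 (dZ)

/-- a run of near cells -/
lemma run {u w : ℕ} (hu : 2 ≤ u) (_huw : u < w) {r : ℝ} (hr : ((u : ℝ) + w) * r ≤ 1) (z : ℝ)
    (K : ℕ) (h : ∀ s ≤ K, dZ (((w : ℝ) / u) ^ s * z) < r) :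
    (u : ℤ) ^ K * round (((w : ℝ) / u) ^ K * z) = (w : ℤ) ^ K * round z := by
  have hu0 : (0 : ℝ) < u := by positivity
  induction K with
  | zero => simp
  | succ K ih =>
    have ih' := ih (fun s hs => h s (by omega))
    have h1 := h K (by omega)
    have h2 := h (K + 1) le_rfl
    unfold dZ at h1 h2
    set a : ℝ := ((w : ℝ) / u) ^ K * z with ha
    have hb : ((w : ℝ) / u) ^ (K + 1) * z = (w : ℝ) / u * a := by rw [ha, pow_succ]; ring
    rw [hb] at h2 ⊢
    have h3 : (u : ℤ) * round ((w : ℝ) / u * a) = (w : ℤ) * round a := by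
      have h4 : |((u : ℤ) * round ((w : ℝ) / u * a) - (w : ℤ) * round a : ℤ)| < 1 := by
        have h5 : |(((u : ℤ) * round ((w : ℝ) / u * a) - (w : ℤ) * round a : ℤ) : ℝ)| < 1 := by
          have e : (((u : ℤ) * round ((w : ℝ) / u * a) - (w : ℤ) * round a : ℤ) : ℝ) =
              (w : ℝ) * (a - round a) - u * ((w : ℝ) / u * a - round ((w : ℝ) / u * a)) := by
            push_cast
            field_simp
            ring
          rw [e]
          have hw0 : (0 : ℝ) < w := by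
            have : (u : ℝ) < w := by exact_mod_cast _huw
            linarith
          calc |(w : ℝ) * (a - round a) - u * ((w : ℝ) / u * a - round ((w : ℝ) / u * a))| ≤
                |(w : ℝ) * (a - round a)| + |u * ((w : ℝ) / u * a - round ((w : ℝ) / u * a))| :=
                abs_sub _ _
            _ = w * |a - round a| + u * |(w : ℝ) / u * a - round ((w : ℝ) / u * a)| := by
                rw [abs_mul, abs_mul, abs_of_pos hw0, abs_of_pos hu0]
            _ < w * r + u * r := add_lt_add (mul_lt_mul_of_pos_left h1 hw0)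
                (mul_lt_mul_of_pos_left h2 hu0)
            _ ≤ 1 := by linarith
        exact_mod_cast h5
      have h6 := Int.abs_lt_one_iff.1 h4
      linarith
    rw [pow_succ, mul_assoc, h3, pow_succ]
    calc (u : ℤ) ^ K * ((w : ℤ) * round a) = (w : ℤ) * ((u : ℤ) ^ K * round a) := by ring
      _ = (w : ℤ) * ((w : ℤ) ^ K * round z) := by rw [ih']
      _ = _ := by ring

theorem far_window {u w : ℕ} (hu : 2 ≤ u) (huw : u < w) (hco : Nat.Coprime u w) {r : ℝ}
    (hr0 : 0 < r) (hr : ((u : ℝ) + w) * r ≤ 1) {m : ℕ} (hm : 1 ≤ m) {N : ℕ} (hN : 1 ≤ N)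
    (R : ℕ) {η : ℝ} (hη : 0 < η) : ∃ M1 : ℕ, ∀ M : ℕ, M1 ≤ M → ∀ j a b : ℤ, 0 ≤ a → j ≤ a →
      0 ≤ (a : ℝ) * Real.log w - (a - j) * Real.log u → b ≤ R * M → η * M ≤ (b : ℝ) - a →
        ∃ i : ℤ, a ≤ i ∧ i ≤ b ∧ Fb w u r (N * (m : ℝ)) i j := by
  have hw : 2 ≤ w := by omega
  have huR : (2 : ℝ) ≤ u := by exact_mod_cast hu
  have huwR : (u : ℝ) < w := by exact_mod_cast huw
  have hu0 : (0 : ℝ) < u := by linarith
  have hw0 : (0 : ℝ) < w := by linarith
  have hlu : 0 < Real.log u := Real.log_pos (by linarith)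
  have hlw : 0 < Real.log w := Real.log_pos (by linarith)
  have hlam : Real.log u < Real.log w := Real.log_lt_log hu0 huwR
  set lam : ℝ := Real.log w - Real.log u with hlamdef
  have hlam0 : 0 < lam := by rw [hlamdef]; linarith
  have hr1 : r ≤ 1 := by nlinarith
  obtain ⟨n0, hn0⟩ : ∃ n0 : ℕ, n0 = N * m := ⟨_, rfl⟩
  have hn01 : 1 ≤ n0 := by
    rw [hn0]
    exact Nat.mul_pos hN hm
  have hn0R : (n0 : ℝ) = N * m := by rw [hn0]; push_cast; ring
  have hη1 : 0 < η * lam / (2 * (R + 1) * Real.log w) := by positivity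
  obtain ⟨κ, hκ, hrid⟩ := Pool.Agent.TH419.FS.ridout_pow (b := u) (c := w) hu hw hco n0 hn01
    (η * lam / (2 * (R + 1) * Real.log w)) hη1
  have hηl : 0 < η * lam := by positivity
  have hηu : 0 < η * Real.log u := by positivity
  obtain ⟨M1, hM1⟩ := exists_nat_gt ((2 * |Real.log κ| + 1) / (η * lam))
  obtain ⟨M2, hM2⟩ := exists_nat_gt ((Real.log n0 + 1) / (η * Real.log u))
  rw [div_lt_iff₀ hηl] at hM1
  rw [div_lt_iff₀ hηu] at hM2
  refine ⟨max M1 M2, fun M hM j a b ha hja hsize hb hab => ?_⟩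
  have hMR1 : (M1 : ℝ) ≤ M := by exact_mod_cast (le_max_left _ _).trans hM
  have hMR2 : (M2 : ℝ) ≤ M := by exact_mod_cast (le_max_right _ _).trans hM
  have hbig1 : 2 * |Real.log κ| + 1 < M * (η * lam) :=
    lt_of_lt_of_le hM1 (mul_le_mul_of_nonneg_right hMR1 hηl.le)
  have hbig2 : Real.log n0 + 1 < M * (η * Real.log u) :=
    lt_of_lt_of_le hM2 (mul_le_mul_of_nonneg_right hMR2 hηu.le)
  have hlogn0 : 0 ≤ Real.log n0 := Real.log_natCast_nonneg n0
  have habs : 0 ≤ |Real.log κ| := abs_nonneg _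
  have hMpos : 0 < (M : ℝ) := by
    by_contra h
    push Not at h
    have : (M : ℝ) * (η * lam) ≤ 0 := mul_nonpos_of_nonpos_of_nonneg h hηl.le
    linarith
  by_contra hcon
  push Not at hcon
  have hab0 : (0 : ℝ) < (b : ℝ) - a := lt_of_lt_of_le (by positivity) hab
  have hab1 : a < b := by exact_mod_cast sub_pos.1 hab0
  obtain ⟨A, hA⟩ := Int.eq_ofNat_of_zero_le ha
  obtain ⟨ν, hν⟩ := Int.eq_ofNat_of_zero_le (sub_nonneg.2 hja)
  obtain ⟨K, hK⟩ : ∃ K : ℕ, b = a + K := ⟨(b - a).toNat, by omega⟩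
  have hsize' : (u : ℝ) ^ ν ≤ (w : ℝ) ^ A := by
    rw [← Real.log_le_log_iff (by positivity) (by positivity), Real.log_pow, Real.log_pow]
    have h1 : (a : ℝ) = A := by rw [hA]; simp
    have h2 : (a : ℝ) - j = ν := by
      have : ((a - j : ℤ) : ℝ) = ((ν : ℤ) : ℝ) := by rw [hν]
      push_cast at this
      exact this
    rw [h2, h1] at hsize
    linarith
  obtain ⟨z, hz⟩ : ∃ z : ℝ, z = (n0 : ℝ) * (w : ℝ) ^ A / (u : ℝ) ^ ν := ⟨_, rfl⟩
  have hcell : ∀ s : ℕ, ((N : ℝ) * (m : ℝ)) * (w : ℝ) ^ (a + (s : ℤ)) * (u : ℝ) ^ (j - (a + (s : ℤ))) =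
      ((w : ℝ) / u) ^ s * z := by
    intro s
    rw [show j - (a + (s : ℤ)) = -((ν : ℤ) + (s : ℤ)) by omega, zpow_neg, hA,
      show ((A : ℤ) + (s : ℤ)) = ((A + s : ℕ) : ℤ) by push_cast; ring,
      show ((ν : ℤ) + (s : ℤ)) = ((ν + s : ℕ) : ℤ) by push_cast; ring, zpow_natCast, zpow_natCast,
      hz, hn0R, pow_add, pow_add, div_pow]
    field_simp
  have hnear : ∀ s ≤ K, dZ (((w : ℝ) / u) ^ s * z) < r := by
    intro s hs
    have h1 := hcon (a + s) (by omega) (by omega)
    unfold Fb at h1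
    push Not at h1
    rw [hcell s] at h1
    exact h1
  have h1 := run hu huw hr z K hnear
  have h2 := hnear K le_rfl
  have hK1 : (round (((w : ℝ) / u) ^ K * z) : ℝ) = ((w : ℝ) / u) ^ K * round z := by
    have h3 : ((u : ℝ) ^ K) * (round (((w : ℝ) / u) ^ K * z) : ℝ) = (w : ℝ) ^ K * round z := by
      exact_mod_cast h1
    generalize round (((w : ℝ) / u) ^ K * z) = kk at h3 ⊢
    have hup : (0 : ℝ) < (u : ℝ) ^ K := pow_pos hu0 K
    rw [div_pow, div_mul_eq_mul_div, ← h3, eq_div_iff hup.ne']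
    ring
  have h3 : |z - round z| * ((w : ℝ) / u) ^ K < r := by
    unfold dZ at h2
    rw [hK1, ← mul_sub, abs_mul, abs_of_pos (by positivity), mul_comm] at h2
    exact h2
  have hKM : η * M ≤ K := by
    have e : (b : ℝ) - a = K := by
      rw [hK]
      push_cast
      ring
    rw [e] at hab
    exact hab
  have hne : (n0 : ℤ) * (w : ℤ) ^ A ≠ round z * (u : ℤ) ^ ν := by
    intro heq
    -- then all the cells are integers
    have h4 : (n0 : ℤ) * (w : ℤ) ^ (A + K) =
        (u : ℤ) ^ (ν + K) * round (((w : ℝ) / u) ^ K * z) := by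
      calc (n0 : ℤ) * (w : ℤ) ^ (A + K) = ((n0 : ℤ) * (w : ℤ) ^ A) * (w : ℤ) ^ K := by ring
        _ = (u : ℤ) ^ ν * ((w : ℤ) ^ K * round z) := by rw [heq]; ring
        _ = _ := by rw [← h1]; ring
    have hdvd : ((u : ℤ) ^ (ν + K)) ∣ (n0 : ℤ) * (w : ℤ) ^ (A + K) := ⟨_, h4⟩
    have hcop : IsCoprime ((u : ℤ) ^ (ν + K)) ((w : ℤ) ^ (A + K)) :=
      (Nat.isCoprime_iff_coprime.2 hco).pow
    have h5 : ((u : ℤ) ^ (ν + K)) ∣ (n0 : ℤ) := hcop.dvd_of_dvd_mul_right hdvd
    have h6 : u ^ (ν + K) ∣ n0 := by exact_mod_cast h5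
    have h7 : u ^ (ν + K) ≤ n0 := Nat.le_of_dvd hn01 h6
    have h8 : (u : ℝ) ^ K ≤ n0 := by
      refine le_trans ?_ (show ((u ^ (ν + K) : ℕ) : ℝ) ≤ n0 by exact_mod_cast h7)
      push_cast
      exact pow_le_pow_right₀ (by linarith) (by omega)
    have h9 : (K : ℝ) * Real.log u ≤ Real.log n0 := by
      rw [← Real.log_pow]
      exact Real.log_le_log (by positivity) h8
    have h10 : η * M * Real.log u ≤ K * Real.log u := mul_le_mul_of_nonneg_right hKM hlu.le
    linarith
  have h4 := hrid ν A (round z) hsize' hne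
  rw [← hz] at h4
  have hAR : (A : ℝ) ≤ (R + 1) * M := by
    have h5 : (A : ℤ) ≤ R * M := by
      rw [← hA]
      linarith
    have h6 : (A : ℝ) ≤ R * M := by exact_mod_cast h5
    nlinarith
  have h5 : ((w : ℝ) ^ A) ^ (η * lam / (2 * (R + 1) * Real.log w)) ≤
      Real.exp (M * (η * lam) / 2) := by
    rw [Real.rpow_def_of_pos (by positivity), Real.log_pow]
    apply Real.exp_le_exp.2
    have e : (A : ℝ) * Real.log w * (η * lam / (2 * (R + 1) * Real.log w)) =
        A * (η * lam) / (2 * (R + 1)) := by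
      field_simp
    rw [e, div_le_div_iff₀ (by positivity) (by norm_num)]
    have h6 := mul_le_mul_of_nonneg_right hAR hηl.le
    nlinarith
  have hpK : Real.exp (M * (η * lam)) ≤ ((w : ℝ) / u) ^ K := by
    rw [← Real.exp_log (by positivity : 0 < ((w : ℝ) / u) ^ K), Real.log_pow,
      Real.log_div hw0.ne' hu0.ne']
    apply Real.exp_le_exp.2
    calc (M : ℝ) * (η * lam) = η * M * lam := by ring
      _ ≤ K * lam := mul_le_mul_of_nonneg_right hKM hlam0.le
  have h6 : |z - round z| < Real.exp (-(M * (η * lam))) := by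
    rw [Real.exp_neg, ← one_div, lt_div_iff₀ (Real.exp_pos _)]
    calc |z - round z| * Real.exp (M * (η * lam)) ≤ |z - round z| * ((w : ℝ) / u) ^ K :=
          mul_le_mul_of_nonneg_left hpK (abs_nonneg _)
      _ < r := h3
      _ ≤ 1 := hr1
  have h7 : κ < κ := by
    calc κ ≤ ((w : ℝ) ^ A) ^ (η * lam / (2 * (R + 1) * Real.log w)) * |z - round z| := h4
      _ ≤ Real.exp (M * (η * lam) / 2) * |z - round z| :=
          mul_le_mul_of_nonneg_right h5 (abs_nonneg _)
      _ < Real.exp (M * (η * lam) / 2) * Real.exp (-(M * (η * lam))) :=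
          mul_lt_mul_of_pos_left h6 (Real.exp_pos _)
      _ = Real.exp (-(M * (η * lam) / 2)) := by
          rw [← Real.exp_add]
          congr 1
          ring
      _ ≤ Real.exp (Real.log κ) := by
          apply Real.exp_le_exp.2
          have := neg_abs_le (Real.log κ)
          linarith
      _ = κ := Real.exp_log hκ
  exact lt_irrefl _ h7

end Pool.Agent.TH461.AL.Rid3
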