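import Mathlib
import Pool.Agent.TH461.AL.Rid3
import Pool.Agent.TH461.AL.Gen4

/-!
Project AL, fifth part: all windows on almost all lines `m w ^ i u ^ (j - i)`, from the core
statement.
-/

set_option autoImplicit false

open Finset Filter Topology

namespace Pool.Agent.TH461.AL.Col

open Pool.Agent.TH461.AL
open Pool.Agent.H706R2 (dZ)

open Classical in
/-- the core statement -/
def CoreB (w u : ℕ) (r : ℝ) (D : ℕ) : Prop :=
  ∀ (U : Set UnitAddCircle) (_ : IsOpen U) (_ : U.Nonempty) (ε δ : ℝ) (_ : 0 < ε)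
      (_ : 0 < δ), ∃ N : ℕ, 1 ≤ N ∧ ∀ H : ℕ, ∃ M0 : ℕ, ∀ M : ℕ, M0 ≤ M → ∀ (θ : ℝ) (J a b : ℤ),
        b - a ≤ H * M →
        (∀ t : ℕ, t < M → ∃ i : ℤ, a ≤ i ∧ i ≤ b ∧ Fb w u r (N * θ) i (J + t)) →
          (((range M).filter (fun t : ℕ =>
            (((Icc (a - D * M) (b + D * M)).filter (fun i : ℤ =>
              ((θ * (w : ℝ) ^ i * (u : ℝ) ^ (J + t - i) : ℝ) : UnitAddCircle) ∈ U)).card : ℝ) <
                (M : ℝ) ^ (1 - ε))).card : ℝ) ≤ δ * M

lemma size {ε η : ℝ} (hε : 0 < ε) (hη : 0 < η) (hη1 : η ≤ 1) :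
    ∀ᶠ M : ℕ in atTop, (M : ℝ) ^ (1 - ε) ≤ ((⌊η * M⌋₊ : ℕ) : ℝ) ^ (1 - min ε 1 / 2) ∧
      η * M / 2 ≤ ((⌊η * M⌋₊ : ℕ) : ℝ) ∧ 1 ≤ ⌊η * M⌋₊ := by
  set ε' : ℝ := min ε 1 / 2 with hε'
  have hε0 : 0 < ε' := by rw [hε']; have := lt_min hε one_pos; linarith
  have hε1 : ε' ≤ 1 / 2 := by rw [hε']; have := min_le_right ε 1; linarith
  have hε2 : 2 * ε' ≤ ε := by rw [hε']; have := min_le_left ε 1; linarith
  have hcast := tendsto_natCast_atTop_atTop (R := ℝ)
  have ht := (tendsto_rpow_atTop hε0).comp hcast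
  filter_upwards [ht.eventually_ge_atTop (2 / η), hcast.eventually_ge_atTop (2 / η),
    eventually_ge_atTop 1] with M h1 h2 h3
  have hMR : (1 : ℝ) ≤ M := by exact_mod_cast h3
  have hM0 : (0 : ℝ) < M := by linarith
  simp only [Function.comp] at h1
  rw [div_le_iff₀ hη] at h1 h2
  have hfl : η * M < (⌊η * M⌋₊ : ℝ) + 1 := Nat.lt_floor_add_one _
  have hhalf : η * M / 2 ≤ ((⌊η * M⌋₊ : ℕ) : ℝ) := by linarith
  have hone : 1 ≤ ⌊η * M⌋₊ := by
    rw [Nat.one_le_floor_iff]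
    linarith
  refine ⟨?_, hhalf, hone⟩
  have h5 : 0 < (M : ℝ) ^ (1 - 2 * ε') := Real.rpow_pos_of_pos hM0 _
  calc (M : ℝ) ^ (1 - ε) ≤ (M : ℝ) ^ (1 - 2 * ε') :=
        Real.rpow_le_rpow_of_exponent_le hMR (by linarith)
    _ ≤ (η / 2 * (M : ℝ) ^ ε') * (M : ℝ) ^ (1 - 2 * ε') := by
        apply le_mul_of_one_le_left h5.le
        linarith
    _ = η / 2 * (M : ℝ) ^ (1 - ε') := by
        rw [mul_assoc, ← Real.rpow_add hM0]
        ring_nf
    _ ≤ (η / 2) ^ (1 - ε') * (M : ℝ) ^ (1 - ε') := by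
        apply mul_le_mul_of_nonneg_right _ (Real.rpow_nonneg hM0.le _)
        calc η / 2 = (η / 2) ^ (1 : ℝ) := (Real.rpow_one _).symm
          _ ≤ (η / 2) ^ (1 - ε') :=
              Real.rpow_le_rpow_of_exponent_ge (by positivity) (by linarith) (by linarith)
    _ = (η * M / 2) ^ (1 - ε') := by
        rw [← Real.mul_rpow (by positivity) hM0.le]
        ring_nf
    _ ≤ _ := Real.rpow_le_rpow (by positivity) hhalf (by linarith)

open Classical in
theorem windows {u w : ℕ} (hu : 2 ≤ u) (huw : u < w) (hco : Nat.Coprime u w) {r : ℝ}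
    (hr0 : 0 < r) (hr : ((u : ℝ) + w) * r ≤ 1) {D : ℕ} (hD : CoreB w u r D) {m : ℕ} (hm : 1 ≤ m)
    (R : ℕ) (U : Set UnitAddCircle) (hU : IsOpen U) (hUne : U.Nonempty) {ε δ η : ℝ}
    (hε : 0 < ε) (hδ : 0 < δ) (hη0 : 0 < η) :
    ∃ M0 : ℕ, ∀ M : ℕ, M0 ≤ M →
      (((Icc (-(M : ℤ)) M).filter (fun j : ℤ => ¬ ∀ a b : ℤ, 0 ≤ a → j ≤ a →
        0 ≤ (a : ℝ) * Real.log w - (a - j) * Real.log u → b ≤ R * M → η * M ≤ (b : ℝ) - a →
          (M : ℝ) ^ (1 - ε) ≤ (((Icc a b).filter (fun i : ℤ =>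
            (((m : ℝ) * (w : ℝ) ^ i * (u : ℝ) ^ (j - i) : ℝ) : UnitAddCircle) ∈ U)).card :
              ℝ))).card : ℝ) ≤ δ * M := by
  have huR : (2 : ℝ) ≤ u := by exact_mod_cast hu
  have huwR : (u : ℝ) < w := by exact_mod_cast huw
  have hlu : 0 < Real.log u := Real.log_pos (by linarith)
  have hlam : 0 < Real.log w - Real.log u := by
    have := Real.log_lt_log (by linarith) huwR
    linarith
  set η' : ℝ := min η 1 with hη'
  have hη : 0 < η' := lt_min hη0 one_pos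
  have hη1' : η' ≤ 1 := min_le_right _ _
  have hηη : η' ≤ η := min_le_left _ _
  obtain ⟨κ0, hκ0⟩ : ∃ κ0 : ℕ, κ0 = ⌈Real.log u / (Real.log w - Real.log u)⌉₊ + 1 := ⟨_, rfl⟩
  have hκ1 : 1 ≤ κ0 := by omega
  have hκR : Real.log u ≤ κ0 * (Real.log w - Real.log u) := by
    have h1 := Nat.le_ceil (Real.log u / (Real.log w - Real.log u))
    rw [div_le_iff₀ hlam] at h1
    rw [hκ0]
    push_cast
    nlinarith
  obtain ⟨c0, hc0⟩ : ∃ c0 : ℕ, c0 = κ0 + 2 * D + 2 := ⟨_, rfl⟩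
  have hc0R : (c0 : ℝ) = κ0 + 2 * D + 2 := by rw [hc0]; push_cast; ring
  have hc0p : (0 : ℝ) < c0 := by rw [hc0R]; positivity
  set η1 : ℝ := η' / (8 * c0) with hη1
  have hη10 : 0 < η1 := by positivity
  have hc1 : (1 : ℝ) ≤ c0 := by
    have : 1 ≤ c0 := by omega
    exact_mod_cast this
  have hη1c : η1 * c0 = η' / 8 := by rw [hη1]; field_simp
  have hη1le : η1 ≤ 1 := by
    have h1 : η1 * 1 ≤ η1 * c0 := mul_le_mul_of_nonneg_left hc1 hη10.le
    linarith
  set ε' : ℝ := min ε 1 / 2 with hε'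
  have hε0 : 0 < ε' := by rw [hε']; have := lt_min hε one_pos; linarith
  obtain ⟨Q, hQ⟩ : ∃ Q : ℕ, Q = ⌈4 / η1⌉₊ + 1 := ⟨_, rfl⟩
  obtain ⟨K, hK⟩ : ∃ K : ℕ, K = ⌈8 * R / η'⌉₊ + 1 := ⟨_, rfl⟩
  set δ1 : ℝ := δ / ((Q + 1) * (K + 1)) with hδ1
  have hδ10 : 0 < δ1 := by positivity
  obtain ⟨N, hN1, hN⟩ := hD U hU hUne ε' δ1 hε0 hδ10
  obtain ⟨M1, hM1⟩ := hN (4 * c0)
  obtain ⟨M2, hM2⟩ := Rid3.far_window hu huw hco hr0 hr hm hN1 R (η := η' / 8) (by positivity)
  obtain ⟨M3, hM3⟩ := eventually_atTop.1 (size hε hη10 hη1le)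
  obtain ⟨M4, hM4⟩ := exists_nat_gt (2 * (M1 + 1) / η1)
  obtain ⟨M5, hM5⟩ := exists_nat_gt (8 / η')
  refine ⟨max (max M2 M3) (max M4 M5), fun M hM => ?_⟩
  have hMM2 : M2 ≤ M := ((le_max_left _ _).trans (le_max_left _ _)).trans hM
  have hMM3 : M3 ≤ M := ((le_max_right _ _).trans (le_max_left _ _)).trans hM
  have hMM4 : M4 ≤ M := ((le_max_left _ _).trans (le_max_right _ _)).trans hM
  have hMM5 : M5 ≤ M := ((le_max_right _ _).trans (le_max_right _ _)).trans hM
  obtain ⟨hsz, hBhalf, hB1⟩ := hM3 M hMM3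
  set B : ℕ := ⌊η1 * M⌋₊ with hB
  have hMR4 : (M4 : ℝ) ≤ M := by exact_mod_cast hMM4
  have hMR5 : (M5 : ℝ) ≤ M := by exact_mod_cast hMM5
  have h4 := hM4.trans_le hMR4
  have h5 := hM5.trans_le hMR5
  rw [div_lt_iff₀ hη10] at h4
  rw [div_lt_iff₀ hη] at h5
  have hMpos : (0 : ℝ) < M := by
    have : (0 : ℝ) < 8 := by norm_num
    by_contra hcon
    push Not at hcon
    have := mul_nonpos_of_nonpos_of_nonneg hcon hη.le
    linarith
  have hBM : (B : ℝ) ≤ η1 * M := Nat.floor_le (by positivity)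
  have hBM1 : M1 ≤ B := by
    have : (M1 : ℝ) ≤ B := by linarith
    exact_mod_cast this
  have hB0 : 0 < B := hB1
  have hBR : (0 : ℝ) < B := by exact_mod_cast hB0
  set G : ℕ := ⌊η' * M / 4⌋₊ with hG
  have hGle : (G : ℝ) ≤ η' * M / 4 := Nat.floor_le (by positivity)
  have hGge : η' / 8 * M ≤ G := by
    have h6 : η' * M / 4 < G + 1 := Nat.lt_floor_add_one _
    linarith
  have hGR : (0 : ℝ) < G := lt_of_lt_of_le (by positivity) hGge
  have hG0 : 0 < G := by exact_mod_cast hGR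
  have hcB : (c0 : ℝ) * B ≤ η' / 8 * M := by
    calc (c0 : ℝ) * B ≤ c0 * (η1 * M) := mul_le_mul_of_nonneg_left hBM hc0p.le
      _ = (η1 * c0) * M := by ring
      _ = _ := by rw [hη1c]
  -- the far cells of the block `q` in the window `k`
  set J : ℕ → ℤ := fun q => -(M : ℤ) + q * B with hJ
  set cond : ℕ → ℕ → Prop := fun q k => ∀ t : ℕ, t < B → ∃ i : ℤ, ((k * G : ℕ) : ℤ) ≤ i ∧
    i ≤ ((k * G + G : ℕ) : ℤ) ∧ Fb w u r (N * (m : ℝ)) i (J q + t) with hcond
  set E : ℕ → ℕ → Finset ℤ := fun q k => if cond q k then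
    ((range B).filter (fun t : ℕ =>
      (((Icc (((k * G : ℕ) : ℤ) - D * B) (((k * G + G : ℕ) : ℤ) + D * B)).filter (fun i : ℤ =>
        (((m : ℝ) * (w : ℝ) ^ i * (u : ℝ) ^ (J q + t - i) : ℝ) : UnitAddCircle) ∈ U)).card : ℝ) <
          (B : ℝ) ^ (1 - ε'))).image (fun t : ℕ => J q + t) else ∅ with hE
  have hEcard : ∀ q k, ((E q k).card : ℝ) ≤ δ1 * B := by
    intro q k
    rw [hE]
    simp only
    split_ifs with hc
    · refine le_trans (Nat.cast_le.2 Finset.card_image_le) ?_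
      refine hM1 B hBM1 (m : ℝ) (J q) ((k * G : ℕ) : ℤ) ((k * G + G : ℕ) : ℤ) ?_ hc
      have h6 : (G : ℝ) ≤ ((4 * c0 : ℕ) : ℝ) * B := by
        have h7 : η' * M / 4 = 4 * c0 * (η1 * M / 2) := by
          have : 4 * (c0 : ℝ) * (η1 * M / 2) = 2 * (η1 * c0) * M := by ring
          rw [this, hη1c]
          ring
        push_cast
        calc (G : ℝ) ≤ η' * M / 4 := hGle
          _ = 4 * c0 * (η1 * M / 2) := h7
          _ ≤ 4 * c0 * B := mul_le_mul_of_nonneg_left hBhalf (by positivity)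
      have h7 : G ≤ 4 * c0 * B := by exact_mod_cast h6
      have h8 : ((G : ℕ) : ℤ) ≤ ((4 * c0 : ℕ) : ℤ) * B := by exact_mod_cast h7
      push_cast at h8 ⊢
      linarith
    · simp only [Finset.card_empty, Nat.cast_zero]
      positivity
  have hsub : (Icc (-(M : ℤ)) M).filter (fun j : ℤ => ¬ ∀ a b : ℤ, 0 ≤ a → j ≤ a →
        0 ≤ (a : ℝ) * Real.log w - (a - j) * Real.log u → b ≤ R * M → η * M ≤ (b : ℝ) - a →
          (M : ℝ) ^ (1 - ε) ≤ (((Icc a b).filter (fun i : ℤ =>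
            (((m : ℝ) * (w : ℝ) ^ i * (u : ℝ) ^ (j - i) : ℝ) : UnitAddCircle) ∈ U)).card : ℝ)) ⊆
      (range (Q + 1)).biUnion (fun q => (range (K + 1)).biUnion (fun k => E q k)) := by
    intro j hj
    rw [Finset.mem_filter, Finset.mem_Icc] at hj
    obtain ⟨⟨hj1, hj2⟩, hj3⟩ := hj
    push Not at hj3
    obtain ⟨a, b, ha0, hja, hsize, hbR, hab, hfew⟩ := hj3
    have hab' : η' * M ≤ (b : ℝ) - a := (mul_le_mul_of_nonneg_right hηη hMpos.le).trans hab
    -- the block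
    obtain ⟨s, hs⟩ := Int.eq_ofNat_of_zero_le (show 0 ≤ j + M by linarith)
    have hs2 : s ≤ 2 * M := by omega
    set q : ℕ := s / B with hq
    set t : ℕ := s % B with ht
    have htB : t < B := Nat.mod_lt _ hB0
    have hst : (s : ℤ) = q * B + t := by
      have := Nat.div_add_mod' s B
      exact_mod_cast this.symm
    have hjq : J q + t = j := by
      simp only [hJ]
      linarith
    have hqQ : q < Q + 1 := by
      have h6 : (q : ℝ) * B ≤ 2 * M := by
        have : q * B ≤ 2 * M := (Nat.div_mul_le_self s B).trans hs2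
        exact_mod_cast this
      have h7 : (q : ℝ) * (η1 * M / 2) ≤ 2 * M :=
        (mul_le_mul_of_nonneg_left hBhalf (Nat.cast_nonneg _)).trans h6
      have h8 : (q : ℝ) ≤ 4 / η1 := by
        rw [le_div_iff₀ hη10]
        have h9 : ((q : ℝ) * η1) * M ≤ 4 * M := by nlinarith
        exact le_of_mul_le_mul_right h9 hMpos
      have h9 : (q : ℝ) ≤ (⌈4 / η1⌉₊ : ℕ) := h8.trans (Nat.le_ceil _)
      have h10 : q ≤ ⌈4 / η1⌉₊ := by exact_mod_cast h9
      omega
    -- the window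
    obtain ⟨A, hA⟩ := Int.eq_ofNat_of_zero_le ha0
    set X : ℕ := A + (κ0 + D) * B with hX
    set k : ℕ := X / G + 1 with hk
    have hkG1 : X ≤ k * G := by
      have h6 := Nat.div_add_mod' X G
      have h7 := Nat.mod_lt X hG0
      rw [hk, add_mul, one_mul]
      omega
    have hkG2 : k * G ≤ X + G := by
      have h6 := Nat.div_mul_le_self X G
      rw [hk, add_mul, one_mul]
      omega
    have hAR : (a : ℝ) = A := by rw [hA]; simp
    have hend : ((k * G + G + D * B : ℕ) : ℝ) ≤ b := by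
      have h6 : ((k * G + G + D * B : ℕ) : ℝ) ≤ ((A + (κ0 + D) * B + G + G + D * B : ℕ) : ℝ) := by
        have : k * G + G + D * B ≤ A + (κ0 + D) * B + G + G + D * B := by omega
        exact_mod_cast this
      refine h6.trans ?_
      push_cast
      have h7 : ((κ0 : ℝ) + 2 * D) * B ≤ c0 * B := by
        apply mul_le_mul_of_nonneg_right _ hBR.le
        rw [hc0R]
        linarith
      have h8 : (A : ℝ) + (κ0 + D) * B + G + G + D * B = A + (κ0 + 2 * D) * B + 2 * G := by ring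
      rw [h8, ← hAR]
      linarith
    have hendZ : ((k * G + G + D * B : ℕ) : ℤ) ≤ b := by exact_mod_cast hend
    have hkK : k < K + 1 := by
      have h6 : (k : ℝ) * G ≤ R * M := by
        have h7 : ((k * G : ℕ) : ℤ) ≤ R * M := by
          have h8 : ((k * G : ℕ) : ℤ) ≤ ((k * G + G + D * B : ℕ) : ℤ) := by
            exact_mod_cast (by omega : k * G ≤ k * G + G + D * B)
          exact h8.trans (hendZ.trans hbR)
        have h8 : k * G ≤ R * M := by exact_mod_cast h7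
        exact_mod_cast h8
      have h7 : (k : ℝ) * (η' / 8 * M) ≤ R * M :=
        (mul_le_mul_of_nonneg_left hGge (Nat.cast_nonneg _)).trans h6
      have h8 : (k : ℝ) ≤ 8 * R / η' := by
        rw [le_div_iff₀ hη]
        have h9 : ((k : ℝ) * η') * M ≤ (8 * R) * M := by nlinarith
        exact le_of_mul_le_mul_right h9 hMpos
      have h9 : (k : ℝ) ≤ (⌈8 * R / η'⌉₊ : ℕ) := h8.trans (Nat.le_ceil _)
      have h10 : k ≤ ⌈8 * R / η'⌉₊ := by exact_mod_cast h9
      omega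
    rw [Finset.mem_biUnion]
    refine ⟨q, Finset.mem_range.2 hqQ, ?_⟩
    rw [Finset.mem_biUnion]
    refine ⟨k, Finset.mem_range.2 hkK, ?_⟩
    have hXZ : a + κ0 * B + D * B ≤ ((k * G : ℕ) : ℤ) := by
      have h6 : ((A + (κ0 + D) * B : ℕ) : ℤ) ≤ ((k * G : ℕ) : ℤ) := by exact_mod_cast hkG1
      push_cast at h6 ⊢
      rw [hA]
      nlinarith
    have hDB : (0 : ℤ) ≤ (D : ℤ) * B := by positivity
    have hκB : (B : ℤ) ≤ κ0 * B := by
      have : (1 : ℤ) ≤ κ0 := by exact_mod_cast hκ1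
      have hB' : (0 : ℤ) ≤ B := Int.natCast_nonneg _
      nlinarith
    have hc : cond q k := by
      intro t' ht'
      set j' : ℤ := J q + t' with hj'
      have hj'1 : j' ≤ j + B := by
        rw [hj', ← hjq]
        have : (t' : ℤ) < B := by exact_mod_cast ht'
        have h0 : (0 : ℤ) ≤ t := Int.natCast_nonneg _
        linarith
      have hj'2 : j - B ≤ j' := by
        rw [hj', ← hjq]
        have : (t : ℤ) < B := by exact_mod_cast htB
        have h0 : (0 : ℤ) ≤ t' := Int.natCast_nonneg _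
        linarith
      have hj'2R : (j : ℝ) - B ≤ j' := by exact_mod_cast hj'2
      refine hM2 M hMM2 j' ((k * G : ℕ) : ℤ) ((k * G + G : ℕ) : ℤ) (Int.natCast_nonneg _) ?_ ?_ ?_ ?_
      · linarith
      · have hXR : (a : ℝ) + κ0 * B ≤ ((k * G : ℕ) : ℤ) := by
          have h6 : a + κ0 * B ≤ ((k * G : ℕ) : ℤ) := by linarith
          exact_mod_cast h6
        set a' : ℝ := (((k * G : ℕ) : ℤ) : ℝ) with ha'
        have e1 : a' * Real.log w - (a' - j') * Real.log u =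
            a' * (Real.log w - Real.log u) + j' * Real.log u := by ring
        have e2 : (a : ℝ) * Real.log w - (a - j) * Real.log u =
            a * (Real.log w - Real.log u) + j * Real.log u := by ring
        rw [e1]
        rw [e2] at hsize
        have h6 : (a + κ0 * B : ℝ) * (Real.log w - Real.log u) ≤
            a' * (Real.log w - Real.log u) := mul_le_mul_of_nonneg_right hXR hlam.le
        have h7 : ((j : ℝ) - B) * Real.log u ≤ j' * Real.log u :=
          mul_le_mul_of_nonneg_right hj'2R hlu.le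
        have h8 : Real.log u * B ≤ κ0 * (Real.log w - Real.log u) * B :=
          mul_le_mul_of_nonneg_right hκR hBR.le
        nlinarith
      · have h8 : ((k * G + G : ℕ) : ℤ) ≤ ((k * G + G + D * B : ℕ) : ℤ) := by
          exact_mod_cast (by omega : k * G + G ≤ k * G + G + D * B)
        exact h8.trans (hendZ.trans hbR)
      · push_cast
        linarith
    simp only [hE, if_pos hc]
    rw [Finset.mem_image]
    refine ⟨t, Finset.mem_filter.2 ⟨Finset.mem_range.2 htB, ?_⟩, hjq⟩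
    refine lt_of_le_of_lt ?_ (hfew.trans_le hsz)
    apply Nat.cast_le.2
    apply Finset.card_le_card
    intro i hi
    rw [Finset.mem_filter, Finset.mem_Icc] at hi ⊢
    obtain ⟨⟨hi1, hi2⟩, hi3⟩ := hi
    refine ⟨⟨?_, ?_⟩, ?_⟩
    · have : (0 : ℤ) ≤ κ0 * B := by positivity
      linarith
    · push_cast at hendZ hi2
      linarith
    · rw [hjq] at hi3
      exact hi3
  refine le_trans (Nat.cast_le.2 (Finset.card_le_card hsub)) ?_
  refine le_trans (Nat.cast_le.2 Finset.card_biUnion_le) ?_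
  rw [Nat.cast_sum]
  refine (Finset.sum_le_sum (g := fun _ => ((K : ℝ) + 1) * (δ1 * B)) fun q _ => ?_).trans ?_
  · refine le_trans (Nat.cast_le.2 Finset.card_biUnion_le) ?_
    rw [Nat.cast_sum]
    refine (Finset.sum_le_sum (g := fun _ => δ1 * (B : ℝ)) fun k _ => hEcard q k).trans ?_
    rw [Finset.sum_const, Finset.card_range, nsmul_eq_mul]
    push_cast
    exact le_rfl
  · rw [Finset.sum_const, Finset.card_range, nsmul_eq_mul]
    push_cast
    have h6 : ((Q : ℝ) + 1) * (((K : ℝ) + 1) * (δ1 * B)) = δ * B := by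
      rw [hδ1]
      field_simp
    rw [h6]
    apply mul_le_mul_of_nonneg_left _ hδ.le
    calc (B : ℝ) ≤ η1 * M := hBM
      _ ≤ 1 * M := mul_le_mul_of_nonneg_right hη1le hMpos.le
      _ = M := one_mul _

end Pool.Agent.TH461.AL.Col
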