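import Mathlib
import Pool.Agent.TH461.AL.Stms5
import Pool.Agent.H165R3.BPE

set_option autoImplicit false

open Finset Filter Topology MeasureTheory

namespace Pool.Agent.TH461.AL.Cr

open Pool.Agent.TH461.AL

section

variable {Ω : Type} [MeasurableSpace Ω]

open Classical in
/-- real analysis: a density along the orbit excludes thin windows -/
lemma window {S : ℕ → ℝ} {g ρ : ℝ} (hg : 0 < g) (h0 : 0 ≤ ρ) (h1 : ρ < 1)
    (hSn : ∀ n : ℕ, S n ≤ n)
    (hS : Tendsto (fun n : ℕ => (n : ℝ)⁻¹ * S n) atTop (𝓝 g)) :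
    ∃ n0 : ℕ, ∀ n : ℕ, n0 ≤ n → g * (1 - ρ) / 4 * n < S (n + 1) - S (⌊ρ * n⌋₊ + 1) := by
  set η := g * (1 - ρ) / 16 with hη
  have hη0 : 0 < η := by
    have : 0 < g * (1 - ρ) := mul_pos hg (by linarith)
    positivity
  obtain ⟨N, hN⟩ := eventually_atTop.1 ((Metric.tendsto_nhds.1 hS) η hη0)
  have hN' : ∀ n : ℕ, N ≤ n → 0 < n → |S n - g * n| ≤ η * n := by
    intro n hn hn0
    have h2 := hN n hn
    rw [Real.dist_eq] at h2
    have hn1 : (0 : ℝ) < n := by exact_mod_cast hn0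
    have h3 : S n - g * n = n * ((n : ℝ)⁻¹ * S n - g) := by
      field_simp
    rw [h3, abs_mul, abs_of_pos hn1, mul_comm]
    exact mul_le_mul_of_nonneg_right h2.le hn1.le
  have hup : ∀ k : ℕ, S k ≤ (g + η) * k + N := by
    intro k
    by_cases hk : N ≤ k ∧ 0 < k
    · have h2 := (abs_le.1 (hN' k hk.1 hk.2)).2
      have : (0 : ℝ) ≤ N := Nat.cast_nonneg _
      nlinarith
    · have h2 : k ≤ N := by
        by_contra h3
        exact hk ⟨by omega, by omega⟩
      have h3 : (k : ℝ) ≤ N := by exact_mod_cast h2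
      have h4 : 0 ≤ (g + η) * k := by positivity
      linarith [hSn k]
  obtain ⟨n1, hn1⟩ := exists_nat_gt ((g + η + N) / (g * (1 - ρ) * (5 / 8)))
  refine ⟨max N n1 + 1, fun n hn => ?_⟩
  have hnN : N ≤ n := (le_max_left N n1).trans (by omega)
  have hnn1 : n1 ≤ n := (le_max_right N n1).trans (by omega)
  have hn0 : (0 : ℝ) ≤ n := Nat.cast_nonneg _
  have h2 := (abs_le.1 (hN' (n + 1) (by omega) (by omega))).1
  have h3 := hup (⌊ρ * n⌋₊ + 1)
  have h4 : ((⌊ρ * n⌋₊ : ℕ) : ℝ) ≤ ρ * n := Nat.floor_le (by positivity)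
  have hpos : 0 < g * (1 - ρ) * (5 / 8) := by
    have : 0 < g * (1 - ρ) := mul_pos hg (by linarith)
    positivity
  have h5 : g + η + N < g * (1 - ρ) * (5 / 8) * n := by
    rw [div_lt_iff₀ hpos] at hn1
    have h6 : (n1 : ℝ) ≤ n := by exact_mod_cast hnn1
    nlinarith
  push_cast at h2 h3
  have h7 : (g + η) * ((⌊ρ * n⌋₊ : ℕ) : ℝ) ≤ (g + η) * (ρ * n) :=
    mul_le_mul_of_nonneg_left h4 (by positivity)
  have h8 : η * ρ * n ≤ η * n := by nlinarith [mul_nonneg hη0.le hn0]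
  nlinarith

/-- a set of returns with positive density along almost every orbit -/
lemma recurD {P : Measure Ω} [IsProbabilityMeasure P] {σ : Ω → Ω} (hσ : MeasurePreserving σ P P)
    {B : Set Ω} (hB : MeasurableSet B) {ρ : ℝ} (h0 : 0 ≤ ρ) (h1 : ρ < 1)
    (H : ∀ ω ∈ B, ∀ ε : ℝ, 0 < ε → ∀ n0 : ℕ, ∃ n : ℕ, n0 ≤ n ∧
      ∑ m ∈ Finset.Ioc ⌊ρ * n⌋₊ n, B.indicator (fun _ => (1 : ℝ)) (σ^[m] ω) ≤ ε * n) :
    P B = 0 := by
  set f : Ω → ℝ := B.indicator (fun _ => (1 : ℝ)) with hf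
  have hfm : Measurable f := measurable_const.indicator hB
  have hfb : ∀ x, |f x| ≤ 1 := by
    intro x
    rw [hf]
    by_cases hx : x ∈ B
    · simp [hx]
    · simp [hx]
  have hf0 : ∀ x, 0 ≤ f x := fun x => Set.indicator_nonneg (fun _ _ => zero_le_one) x
  have hbir := Pool.Agent.H165R3.BPE.birkhoff hσ f hfm 1 hfb
  set g : Ω → ℝ := P[f | MeasurableSpace.invariants σ] with hg
  have hle := MeasurableSpace.invariants_le σ
  have hfi : Integrable f P := by
    refine Integrable.of_bound hfm.aestronglyMeasurable 1 ?_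
    filter_upwards with x
    rw [Real.norm_eq_abs]
    exact hfb x
  have hgm : Measurable[MeasurableSpace.invariants σ] g := stronglyMeasurable_condExp.measurable
  set N : Set Ω := {x | g x ≤ 0} with hN
  have hNm : MeasurableSet[MeasurableSpace.invariants σ] N := by
    exact measurableSet_le hgm measurable_const
  have hNm' : MeasurableSet N := hle _ hNm
  have hint : ∫ x in N, f x ∂P ≤ 0 := by
    rw [← setIntegral_condExp hle hfi hNm]
    exact setIntegral_nonpos hNm' (fun x hx => hx)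
  have hPN : P (B ∩ N) = 0 := by
    have h2 : ∫ x in N, f x ∂P = P.real (B ∩ N) := by
      rw [hf, setIntegral_indicator hB, setIntegral_const, smul_eq_mul, mul_one,
        Set.inter_comm]
    rw [h2] at hint
    have h3 : P.real (B ∩ N) = 0 := le_antisymm hint measureReal_nonneg
    exact (measureReal_eq_zero_iff).1 h3
  have hnot : ∀ᵐ ω ∂P, ω ∉ B ∩ N := by
    rw [ae_iff]
    simpa using hPN
  have hfin : ∀ᵐ ω ∂P, ω ∉ B := by
    filter_upwards [hbir, hnot] with ω hω h2 hωB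
    have hg0 : 0 < g ω := by
      by_contra h3
      exact h2 ⟨hωB, not_lt.1 h3⟩
    obtain ⟨n0, hn0⟩ := window (S := fun n => ∑ k ∈ Finset.range n, f (σ^[k] ω)) hg0 h0 h1
      (fun n => by
        refine (Finset.sum_le_card_nsmul _ _ 1 (fun k _ => (le_abs_self _).trans (hfb _))).trans ?_
        simp) hω
    obtain ⟨n, hn, hn'⟩ := H ω hωB (g ω * (1 - ρ) / 4) (by
      have : 0 < g ω * (1 - ρ) := mul_pos hg0 (by linarith)
      positivity) n0
    have h4 := hn0 n hn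
    have hfl : ⌊ρ * n⌋₊ + 1 ≤ n + 1 := by
      have : ⌊ρ * n⌋₊ ≤ n := Nat.floor_le_of_le (by
        have : (0 : ℝ) ≤ n := Nat.cast_nonneg _
        nlinarith)
      omega
    have h5 : ∑ m ∈ Finset.Ioc ⌊ρ * n⌋₊ n, f (σ^[m] ω) =
        ∑ k ∈ Finset.range (n + 1), f (σ^[k] ω) - ∑ k ∈ Finset.range (⌊ρ * n⌋₊ + 1), f (σ^[k] ω) := by
      rw [eq_sub_iff_add_eq, add_comm]
      have h6 : Finset.Ioc ⌊ρ * n⌋₊ n = Finset.Ico (⌊ρ * n⌋₊ + 1) (n + 1) := by
        ext k
        simp only [Finset.mem_Ioc, Finset.mem_Ico]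
        omega
      rw [h6, Finset.sum_range_add_sum_Ico _ hfl]
    rw [h5] at hn'
    linarith
  have h7 := ae_iff.1 hfin
  simpa using h7

open Pool.Agent.H705R2 (Circ)
open Pool.Agent.W765.Sta (Hit Acc0 measurable_acc0 iterate_mem)

theorem core2 (h : J19) : J20 := by
  classical
  intro u w hu huw hcop Ω _ P _ σ hσ A hA hm hu' hw'
  obtain ⟨ρ, hρ0, hρ1, h19⟩ := h u w hu huw hcop
  obtain ⟨b, hbc, hbe, hb⟩ := TopologicalSpace.exists_countable_basis Circ
  have hnull : ∀ V ∈ b, P {ω | Acc0 (A ω) ∧ ¬ (A ω ∩ V).Nonempty} = 0 := by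
    intro V hV
    have hVo : IsOpen V := hb.isOpen hV
    have hVn : V.Nonempty := Set.nonempty_iff_ne_empty.2 (fun h0 => hbe (h0 ▸ hV))
    refine recurD hσ ((measurable_acc0 hm).inter (hm V hVo).compl) hρ0 hρ1 ?_
    rintro ω ⟨h1, h2⟩ ε hε n0
    obtain ⟨n, hn, hn'⟩ := h19 (A ω) h1 V hVo hVn ε hε n0
    refine ⟨n, hn, le_trans ?_ hn'⟩
    rw [Finset.card_filter]
    push_cast
    apply Finset.sum_le_sum
    intro m _
    by_cases hmB : σ^[m] ω ∈ {ω | Acc0 (A ω) ∧ ¬ (A ω ∩ V).Nonempty}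
    · have hbad : m ∈ BadM u w (A ω) V := by
        intro x hx a b' hab hxV
        refine hmB.2 ⟨_, ?_, hxV⟩
        have h3 := iterate_mem hw' b' _ _ (iterate_mem hu' a ω x hx)
        rw [← Function.iterate_add_apply, smul_smul] at h3
        have h4 : b' + a = m := by omega
        rw [h4, mul_comm] at h3
        exact h3
      rw [if_pos hbad]
      exact Set.indicator_le_self' (fun _ _ => zero_le_one) _ |>.trans le_rfl
    · rw [Set.indicator_of_notMem hmB]
      split_ifs <;> norm_num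
  have hall : ∀ᵐ ω ∂P, ∀ V ∈ b, ¬ (Acc0 (A ω) ∧ ¬ (A ω ∩ V).Nonempty) := by
    rw [ae_ball_iff hbc]
    intro V hV
    rw [ae_iff]
    simpa using hnull V hV
  filter_upwards [hall] with ω hω hacc
  have hd : Dense (A ω) := by
    rw [hb.dense_iff]
    intro V hV _
    by_contra hcon
    refine hω V hV ⟨hacc, ?_⟩
    rw [Set.inter_comm]; exact hcon
  rw [← (hA ω).closure_eq]
  exact hd.closure_eq

end

end Pool.Agent.TH461.AL.Cr
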