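import Mathlib
import Pool.Agent.TH461.AL.Stms5

/-!
Project AL, job J21: Furstenberg's theorem for stationary random closed sets, when both
multiplications advance the time by one step.
-/

set_option autoImplicit false

open Filter Topology MeasureTheory Set

namespace Pool.Agent.TH461.AL.Fs

open Pool.Agent.TH461.AL
open Pool.Agent.H705R2 (Circ torsion_countable)
open Pool.Agent.W765.Sta

variable {Ω : Type} [MeasurableSpace Ω]

/-- the event that a random closed set has at least `k` points -/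
lemma measurable_card {F : Ω → Set Circ} (hF : ∀ ω, IsClosed (F ω)) (hm : Hit F) (k : ℕ) :
    MeasurableSet {ω | ∃ t : Finset Circ, t.card = k ∧ (t : Set Circ) ⊆ F ω} := by
  classical
  have heq : {ω | ∃ t : Finset Circ, t.card = k ∧ (t : Set Circ) ⊆ F ω} = ⋃ m : ℕ,
      {ω | ∃ z ∈ {z : Fin k → Circ | ∀ i j, i ≠ j → 1 / ((m : ℝ) + 1) ≤ dist (z i) (z j)},
        ∀ i, z i ∈ F ω} := by
    ext ω
    simp only [mem_ofPred_eq, mem_iUnion]
    constructor
    · rintro ⟨t, htc, hts⟩
      let e := t.equivFinOfCardEq htc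
      let z : Fin k → Circ := fun i => (e.symm i : Circ)
      have hzinj : ∀ i j, i ≠ j → z i ≠ z j := by
        intro i j hij h
        exact hij (e.symm.injective (Subtype.ext h))
      have hpair : ∀ i j : Fin k, ∃ m : ℕ, i ≠ j → 1 / ((m : ℝ) + 1) ≤ dist (z i) (z j) := by
        intro i j
        by_cases hij : i = j
        · exact ⟨0, fun h => absurd hij h⟩
        · obtain ⟨m, hm⟩ := exists_nat_one_div_lt (dist_pos.2 (hzinj i j hij))
          exact ⟨m, fun _ => hm.le⟩
      choose mm hmm using hpair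
      refine ⟨Finset.univ.sup fun i => Finset.univ.sup fun j => mm i j, z, ?_, fun i => ?_⟩
      · intro i j hij
        refine le_trans ?_ (hmm i j hij)
        apply one_div_le_one_div_of_le (by positivity)
        have h1 : mm i j ≤ Finset.univ.sup fun i => Finset.univ.sup fun j => mm i j :=
          (Finset.le_sup (f := fun j => mm i j) (Finset.mem_univ j)).trans
            (Finset.le_sup (f := fun i => Finset.univ.sup fun j => mm i j) (Finset.mem_univ i))
        have h2 : (mm i j : ℝ) ≤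
            ((Finset.univ.sup fun i => Finset.univ.sup fun j => mm i j : ℕ) : ℝ) := by
          exact_mod_cast h1
        linarith
      · exact hts (e.symm i).2
    · rintro ⟨m, z, hzd, hzF⟩
      have hinj : Function.Injective z := by
        intro i j hij
        by_contra hne
        have h1 := hzd i j hne
        rw [hij, dist_self] at h1
        have : (0 : ℝ) < 1 / ((m : ℝ) + 1) := by positivity
        linarith
      refine ⟨Finset.univ.image z, ?_, ?_⟩
      · rw [Finset.card_image_of_injective _ hinj, Finset.card_univ, Fintype.card_fin]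
      · intro x hx
        rw [Finset.mem_coe, Finset.mem_image] at hx
        obtain ⟨i, -, rfl⟩ := hx
        exact hzF i
  rw [heq]
  refine MeasurableSet.iUnion fun m => ?_
  refine measurable_exists hF hm ?_ (fun (i : Fin k) (z : Fin k → Circ) => z i)
    (fun i => continuous_apply i)
  have : {z : Fin k → Circ | ∀ i j, i ≠ j → 1 / ((m : ℝ) + 1) ≤ dist (z i) (z j)} =
      ⋂ i, ⋂ j, ⋂ (_ : i ≠ j), {z : Fin k → Circ | 1 / ((m : ℝ) + 1) ≤ dist (z i) (z j)} := by
    ext z; simp
  rw [this]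
  refine isClosed_iInter fun i => isClosed_iInter fun j => isClosed_iInter fun _ => ?_
  exact isClosed_le continuous_const ((continuous_apply i).dist (continuous_apply j))

lemma both_mem {u w : ℕ} {σ : Ω → Ω} {G : Ω → Set Circ}
    (hu : ∀ ω, ∀ x ∈ G ω, u • x ∈ G (σ ω)) (hw : ∀ ω, ∀ x ∈ G ω, w • x ∈ G (σ ω))
    (a b : ℕ) (ω : Ω) {x : Circ} (hx : x ∈ G ω) : (u ^ a * w ^ b) • x ∈ G (σ^[a + b] ω) := by
  have h1 : w ^ b • x ∈ G (σ^[b] ω) := by
    exact iterate_mem hw b ω x hx
  have h2 : u ^ a • (w ^ b • x) ∈ G (σ^[a] (σ^[b] ω)) := by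
    exact iterate_mem hu a (σ^[b] ω) _ h1
  rw [mul_smul, Function.iterate_add_apply]
  exact h2

/-- a stationary random closed set: where it is finite, all its points are torsion points -/
lemma fin_tors {u w : ℕ} (h2 : 2 ≤ u) (huw : u < w) {P : Measure Ω} [IsProbabilityMeasure P]
    {σ : Ω → Ω} (hσ : MeasurePreserving σ P P) {G : Ω → Set Circ} (hG : ∀ ω, IsClosed (G ω))
    (hm : Hit G) (hu : ∀ ω, ∀ x ∈ G ω, u • x ∈ G (σ ω)) (hw : ∀ ω, ∀ x ∈ G ω, w • x ∈ G (σ ω)) :
    ∀ᵐ ω ∂P, (G ω).Finite → ∀ x ∈ G ω, IsOfFinAddOrder x := by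
  classical
  have hrec : ∀ᵐ ω ∂P, ∀ K : ℕ, ω ∈ {ω | ∃ t : Finset Circ, t.card = K ∧ (t : Set Circ) ⊆ G ω}ᶜ →
      ∃ᶠ n in atTop, σ^[n] ω ∈ {ω | ∃ t : Finset Circ, t.card = K ∧ (t : Set Circ) ⊆ G ω}ᶜ := by
    rw [ae_all_iff]
    intro K
    exact hσ.conservative.ae_mem_imp_frequently_image_mem
      (measurable_card hG hm K).compl.nullMeasurableSet
  filter_upwards [hrec] with ω hω hfin x hx
  by_contra hno
  have hinj : Function.Injective (fun n : ℕ => n • x) := injective_nsmul_iff_not_isOfFinAddOrder.2 hno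
  set K := hfin.toFinset.card with hK
  have hmem : ω ∈ {ω | ∃ t : Finset Circ, t.card = K + 1 ∧ (t : Set Circ) ⊆ G ω}ᶜ := by
    rintro ⟨t, htc, hts⟩
    have h1 : t ⊆ hfin.toFinset := by
      intro y hy
      rw [Set.Finite.mem_toFinset]
      exact hts hy
    have h3 := Finset.card_le_card h1
    omega
  obtain ⟨n, hn1, hn2⟩ := (frequently_atTop.1 (hω (K + 1) hmem)) K
  apply hn2
  -- the points `u ^ a w ^ (n - a) x`
  have hanti : ∀ a b : ℕ, a < b → b ≤ n → u ^ b * w ^ (n - b) < u ^ a * w ^ (n - a) := by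
    intro a b hab hbn
    obtain ⟨c, rfl⟩ : ∃ c, b = a + c := ⟨b - a, by omega⟩
    have hc : c ≠ 0 := by omega
    have e1 : n - a = c + (n - (a + c)) := by omega
    rw [e1, pow_add, pow_add, mul_assoc]
    have h3 : u ^ c < w ^ c := Nat.pow_lt_pow_left huw hc
    have hup : 0 < u ^ a := by positivity
    have hwp : 0 < w ^ (n - (a + c)) := by
      have : 0 < w := by omega
      positivity
    exact Nat.mul_lt_mul_of_pos_left (Nat.mul_lt_mul_of_pos_right h3 hwp) hup
  have hInjOn : Set.InjOn (fun a : ℕ => (u ^ a * w ^ (n - a)) • x) (Finset.range (n + 1) : Finset ℕ) := by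
    intro a ha b hb hab
    simp only [Finset.coe_range, mem_Iio] at ha hb
    have h3 : u ^ a * w ^ (n - a) = u ^ b * w ^ (n - b) := hinj hab
    rcases lt_trichotomy a b with h | h | h
    · have := hanti a b h (by omega); omega
    · exact h
    · have := hanti b a h (by omega); omega
  have hcard : ((Finset.range (n + 1)).image (fun a : ℕ => (u ^ a * w ^ (n - a)) • x)).card = n + 1 := by
    rw [Finset.card_image_of_injOn hInjOn, Finset.card_range]
  obtain ⟨t, hts, htc⟩ := Finset.exists_subset_card_eq (show K + 1 ≤ _ from by rw [hcard]; omega)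
  refine ⟨t, htc, ?_⟩
  intro y hy
  have h4 := hts hy
  rw [Finset.mem_image] at h4
  obtain ⟨a, ha, rfl⟩ := h4
  rw [Finset.mem_range] at ha
  have h5 := both_mem hu hw a (n - a) ω hx
  rwa [show a + (n - a) = n by omega] at h5

lemma hit_L {F : Ω → Set Circ} (hF : ∀ ω, IsClosed (F ω)) (hm : Hit F) (τ : Circ) (r : ℕ) :
    Hit (L F τ r) := by
  refine hit_of_closed fun C hC => ?_
  have h := measurable_exists hF hm (E := C) hC (ι := Fin (r + 1))
    (fun l z => z + (l : ℕ) • τ) (fun l => by fun_prop)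
  convert h using 1
  ext ω
  simp only [mem_ofPred_eq]
  constructor
  · rintro ⟨y, hy, hyC⟩; exact ⟨y, hyC, hy⟩
  · rintro ⟨y, hyC, hy⟩; exact ⟨y, hy, hyC⟩

/-- a stationary random closed set which is infinite contains a torsion point -/
theorem exists_torsion' (h : J20) {u w : ℕ} (h2 : 2 ≤ u) (huw : u < w) (hcop : Nat.Coprime u w)
    {P : Measure Ω} [IsProbabilityMeasure P] {σ : Ω → Ω} (hσ : MeasurePreserving σ P P)
    {G : Ω → Set Circ} (hG : ∀ ω, IsClosed (G ω)) (hm : Hit G)
    (hu : ∀ ω, ∀ x ∈ G ω, u • x ∈ G (σ ω)) (hw : ∀ ω, ∀ x ∈ G ω, w • x ∈ G (σ ω)) :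
    ∀ᵐ ω ∂P, (G ω).Infinite → ∃ t ∈ G ω, IsOfFinAddOrder t := by
  have hcore : ∀ N : ℕ, Nat.Coprime (u * w) N → 0 < N → ∀ r : ℕ, ∀ᵐ ω ∂P,
      (Acc0 (D G (tau N) r ω) → D G (tau N) r ω = univ) ∧
      ((L G (tau N) r ω).Finite → ∀ x ∈ L G (tau N) r ω, IsOfFinAddOrder x) := by
    intro N hN hN0 r
    set m := Nat.totient N with hmdef
    have hm0 : 0 < m := Nat.totient_pos.2 hN0
    have huN : u ^ m • tau N = tau N := pow_smul_eq (Nat.Coprime.coprime_mul_right hN) (smul_tau hN0)
    have hwN : w ^ m • tau N = tau N := pow_smul_eq (Nat.Coprime.coprime_mul_left hN) (smul_tau hN0)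
    have h2u : 2 ≤ u ^ m := h2.trans (Nat.le_self_pow hm0.ne' u)
    have hlt : u ^ m < w ^ m := Nat.pow_lt_pow_left huw hm0.ne'
    have hc : Nat.Coprime (u ^ m) (w ^ m) := Nat.Coprime.pow _ _ hcop
    have hum : ∀ ω, ∀ x ∈ G ω, u ^ m • x ∈ G (σ^[m] ω) := iterate_mem hu m
    have hwm : ∀ ω, ∀ x ∈ G ω, w ^ m • x ∈ G (σ^[m] ω) := iterate_mem hw m
    have k1 := h (u ^ m) (w ^ m) h2u hlt hc Ω P (σ^[m]) (hσ.iterate m) (D G (tau N) r)
      (isClosed_D hG _ _) (hit_D hG hm _ _) (fun ω x hx => smul_mem_D (hum ω) huN hx)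
      (fun ω x hx => smul_mem_D (hwm ω) hwN hx)
    have k2 := fin_tors h2u hlt (hσ.iterate m) (isClosed_L hG (tau N) r) (hit_L hG hm (tau N) r)
      (fun ω x hx => smul_mem_L (hum ω) huN hx) (fun ω x hx => smul_mem_L (hwm ω) hwN hx)
    filter_upwards [k1, k2] with ω h1 h3
    exact ⟨h1, h3⟩
  have hall : ∀ᵐ ω ∂P, ∀ N : ℕ, ∀ r : ℕ, Nat.Coprime (u * w) N → 0 < N →
      (Acc0 (D G (tau N) r ω) → D G (tau N) r ω = univ) ∧
      ((L G (tau N) r ω).Finite → ∀ x ∈ L G (tau N) r ω, IsOfFinAddOrder x) := by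
    rw [ae_all_iff]; intro N
    rw [ae_all_iff]; intro r
    by_cases h1 : Nat.Coprime (u * w) N
    · by_cases h3 : 0 < N
      · filter_upwards [hcore N h1 h3 r] with ω hω _ _ using hω
      · exact Eventually.of_forall fun ω _ h4 => absurd h4 h3
    · exact Eventually.of_forall fun ω h3 => absurd h3 h1
  filter_upwards [hall] with ω hω hinf
  by_contra hcon
  push Not at hcon
  -- all the sets `L` are infinite
  have hL : ∀ N : ℕ, Nat.Coprime (u * w) N → 0 < N → ∀ r : ℕ, (L G (tau N) r ω).Infinite := by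
    intro N hN hN0 r
    induction r with
    | zero =>
      have : L G (tau N) 0 ω = G ω := by
        ext y
        simp [L]
      rw [this]; exact hinf
    | succ r ih =>
      have h1 := (hω N r hN hN0).1 (acc0_of_infinite ih)
      have h3 : tau N ∈ D G (tau N) r ω := by rw [h1]; trivial
      obtain ⟨y, hy, y', hy', he⟩ := h3
      have hy'' : y ∈ L G (tau N) (r + 1) ω := by
        intro l
        rcases Nat.lt_or_ge (l : ℕ) (r + 1) with hl | hl
        · exact hy ⟨l, hl⟩
        · have hl' : (l : ℕ) = r + 1 := by omega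
          have h3 := hy' ⟨r, by omega⟩
          have h4 : y + (l : ℕ) • tau N = y' + (r : ℕ) • tau N := by
            rw [hl', succ_nsmul]
            have : y' = y + tau N := by rw [he]; abel
            rw [this]; abel
          rw [h4]; exact h3
      intro hfin
      have h0 := hy'' 0
      have h5 : y ∈ G ω := by simpa using h0
      exact hcon y h5 ((hω N (r + 1) hN hN0).2 hfin y hy'')
  have h2w : 2 ≤ w := by omega
  -- hence the set is dense
  have hdense : Dense (G ω) := by
    rw [Metric.dense_iff]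
    intro z ε hε
    obtain ⟨n, hn⟩ := exists_nat_one_div_lt hε
    obtain ⟨N, hN1, hN2⟩ : ∃ N : ℕ, n + 1 ≤ N ∧ Nat.Coprime (u * w) N := by
      refine ⟨u * w * (n + 1) + 1, by nlinarith [Nat.mul_le_mul h2 h2w], ?_⟩
      rw [mul_comm (u * w) (n + 1)]
      simp
    have hN0 : 0 < N := by omega
    obtain ⟨y, hy⟩ := (hL N hN2 hN0 (N - 1)).nonempty
    obtain ⟨s, hs⟩ := QuotientAddGroup.mk_surjective (z - y)
    have hNR : (0 : ℝ) < N := by exact_mod_cast hN0
    set f := Int.fract s with hf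
    have hfs : ((f : ℝ) : Circ) = z - y := by
      rw [← hs, hf]
      rw [← Int.self_sub_floor, AddCircle.coe_sub]
      have h2 : (((⌊s⌋ : ℤ) : ℝ) : Circ) = 0 := by
        rw [AddCircle.coe_eq_zero_iff]; exact ⟨⌊s⌋, by simp⟩
      rw [h2, sub_zero]
    have hf0 : 0 ≤ f := Int.fract_nonneg s
    have hf1 : f < 1 := Int.fract_lt_one s
    set l := ⌊f * N⌋₊ with hl
    have hl1 : (l : ℝ) ≤ f * N := Nat.floor_le (by positivity)
    have hl2 : f * N < l + 1 := Nat.lt_floor_add_one _
    have hlN : l < N := by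
      have : (l : ℝ) < N := lt_of_le_of_lt hl1 (by nlinarith)
      exact_mod_cast this
    refine ⟨y + l • tau N, ?_, hy ⟨l, by omega⟩⟩
    rw [Metric.mem_ball, dist_comm, dist_eq_norm]
    have h5 : z - (y + l • tau N) = ((f - l / N : ℝ) : Circ) := by
      rw [AddCircle.coe_sub, hfs]
      unfold tau
      rw [← AddCircle.coe_nsmul, nsmul_eq_mul, mul_one_div]
      abel
    rw [h5]
    have h6 : ‖((f - l / N : ℝ) : Circ)‖ ≤ |f - l / N| := by
      have := Pool.Agent.H847R3.XpXq.dist_coe_le (f - l / N) 0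
      rw [AddCircle.coe_zero, dist_zero_right, sub_zero] at this
      exact this
    have h7 : |f - l / N| ≤ 1 / N := by
      rw [abs_of_nonneg (by rw [sub_nonneg, div_le_iff₀ hNR]; exact hl1)]
      rw [sub_le_iff_le_add, ← add_div, le_div_iff₀ hNR]
      linarith
    have h8 : 1 / (N : ℝ) ≤ 1 / ((n : ℝ) + 1) :=
      one_div_le_one_div_of_le (by positivity) (by exact_mod_cast hN1)
    linarith
  have huniv : G ω = univ := by
    rw [← (hG ω).closure_eq]; exact hdense.closure_eq
  exact hcon 0 (by rw [huniv]; trivial) (IsOfFinAddOrder.zero)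

/-- a stationary random closed set which accumulates at a fixed torsion point of order prime to
`u w` is everything -/
theorem acc_torsion' (h : J20) {u w : ℕ} (h2 : 2 ≤ u) (huw : u < w) (hcop : Nat.Coprime u w)
    {P : Measure Ω} [IsProbabilityMeasure P] {σ : Ω → Ω} (hσ : MeasurePreserving σ P P)
    {F : Ω → Set Circ} (hF : ∀ ω, IsClosed (F ω)) (hm : Hit F)
    (hu : ∀ ω, ∀ x ∈ F ω, u • x ∈ F (σ ω)) (hw : ∀ ω, ∀ x ∈ F ω, w • x ∈ F (σ ω))
    {d : ℕ} (hd0 : 0 < d) (hd : Nat.Coprime (u * w) d) {t : Circ} (ht : d • t = 0) :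
    ∀ᵐ ω ∂P, t ∈ Der F ω → F ω = univ := by
  set m := Nat.totient d with hmdef
  have hm0 : 0 < m := Nat.totient_pos.2 hd0
  have hut : u ^ m • t = t := pow_smul_eq (Nat.Coprime.coprime_mul_right hd) ht
  have hwt : w ^ m • t = t := pow_smul_eq (Nat.Coprime.coprime_mul_left hd) ht
  have h2u : 2 ≤ u ^ m := h2.trans (Nat.le_self_pow hm0.ne' u)
  have hlt : u ^ m < w ^ m := Nat.pow_lt_pow_left huw hm0.ne'
  have hc : Nat.Coprime (u ^ m) (w ^ m) := Nat.Coprime.pow _ _ hcop
  have hcont : Continuous (fun v : Circ => v + t) := by fun_prop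
  have hA : ∀ ω, IsClosed ((fun v : Circ => v + t) ⁻¹' F ω) := fun ω => (hF ω).preimage hcont
  have hmA : Hit (fun ω => (fun v : Circ => v + t) ⁻¹' F ω) := by
    intro V hV
    have : {ω | ((fun v : Circ => v + t) ⁻¹' F ω ∩ V).Nonempty} =
        {ω | (F ω ∩ (fun v : Circ => v - t) ⁻¹' V).Nonempty} := by
      ext ω
      constructor
      · rintro ⟨v, hv, hvV⟩
        exact ⟨v + t, hv, by simpa using hvV⟩
      · rintro ⟨v, hv, hvV⟩
        exact ⟨v - t, by simpa using hv, hvV⟩
    rw [this]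
    exact hm _ (hV.preimage (by fun_prop))
  have hcr := h (u ^ m) (w ^ m) h2u hlt hc Ω P (σ^[m]) (hσ.iterate m)
    (fun ω => (fun v : Circ => v + t) ⁻¹' F ω) hA hmA ?_ ?_
  · filter_upwards [hcr] with ω hω htF
    have hacc : Acc0 ((fun v : Circ => v + t) ⁻¹' F ω) := by
      intro ε hε
      obtain ⟨x, hx, hxt, hd⟩ := htF ε hε
      refine ⟨x - t, by simpa using hx, sub_ne_zero.2 hxt, ?_⟩
      rwa [← dist_eq_norm]
    have h1 := hω hacc
    refine eq_univ_of_forall fun y => ?_
    have : y - t ∈ (fun v : Circ => v + t) ⁻¹' F ω := by rw [h1]; trivial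
    simpa using this
  · intro ω x hx
    have := iterate_mem hu m ω _ hx
    simp only [mem_preimage] at this ⊢
    rwa [smul_add, hut] at this
  · intro ω x hx
    have := iterate_mem hw m ω _ hx
    simp only [mem_preimage] at this ⊢
    rwa [smul_add, hwt] at this

/-- Furstenberg's theorem for stationary random closed sets, two multiplications in one step -/
theorem stationary' (h : J20) {u w : ℕ} (h2 : 2 ≤ u) (huw : u < w) (hcop : Nat.Coprime u w)
    {P : Measure Ω} [IsProbabilityMeasure P] {σ : Ω → Ω} (hσ : MeasurePreserving σ P P)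
    {F : Ω → Set Circ} (hF : ∀ ω, IsClosed (F ω)) (hm : Hit F)
    (hu : ∀ ω, ∀ x ∈ F ω, u • x ∈ F (σ ω)) (hw : ∀ ω, ∀ x ∈ F ω, w • x ∈ F (σ ω)) :
    ∀ᵐ ω ∂P, (F ω).Finite ∨ F ω = univ := by
  have h2w : 2 ≤ w := by omega
  have hD1 : ∀ ω, ∀ x ∈ Der F ω, u • x ∈ Der F (σ ω) := fun ω x hx =>
    smul_mem_Der (by omega) (hu ω) hx
  have hD2 : ∀ ω, ∀ x ∈ Der F ω, w • x ∈ Der F (σ ω) := fun ω x hx =>
    smul_mem_Der (by omega) (hw ω) hx
  have e1 := exists_torsion' h h2 huw hcop hσ (isClosed_Der F) (hit_Der hF hm) hD1 hD2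
  have e1' := fin_tors h2 huw hσ (isClosed_Der F) (hit_Der hF hm) hD1 hD2
  -- the full set
  set T : Set Ω := {ω | F ω = univ} with hT
  have hTm : MeasurableSet T := by
    obtain ⟨b, hbc, hbe, hb⟩ := TopologicalSpace.exists_countable_basis Circ
    have : T = ⋂ V ∈ b, {ω | (F ω ∩ V).Nonempty} := by
      ext ω
      simp only [hT, mem_ofPred_eq, mem_iInter]
      constructor
      · intro h1 V hV
        rw [h1, univ_inter]
        exact nonempty_iff_ne_empty.2 (fun h0 => hbe (h0 ▸ hV))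
      · intro h1
        have hd : Dense (F ω) := by
          rw [hb.dense_iff]
          intro V hV _
          rw [inter_comm]; exact h1 V hV
        rw [← (hF ω).closure_eq]; exact hd.closure_eq
    rw [this]
    exact MeasurableSet.biInter hbc fun V hV => hm V (hb.isOpen hV)
  have hTsub : T ⊆ σ ⁻¹' T := by
    intro ω hω
    have hω' : F ω = univ := hω
    change F (σ ω) = univ
    refine eq_univ_of_forall fun y => ?_
    obtain ⟨z, hz⟩ : ∃ z : Circ, w • z = y := by
      obtain ⟨r, rfl⟩ := QuotientAddGroup.mk_surjective y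
      refine ⟨((r / w : ℝ) : Circ), ?_⟩
      rw [← AddCircle.coe_nsmul, nsmul_eq_mul]
      have : (w : ℝ) ≠ 0 := by
        have : 0 < w := by omega
        positivity
      congr 1
      field_simp
    rw [← hz]
    exact hw ω z (by rw [hω']; trivial)
  have hTback : ∀ᵐ ω ∂P, σ ω ∈ T → ω ∈ T := by
    have h1 : P (σ ⁻¹' T \ T) = 0 := by
      rw [measure_sdiff hTsub hTm.nullMeasurableSet (measure_ne_top P T),
        hσ.measure_preimage hTm.nullMeasurableSet, tsub_self]
    rw [ae_iff]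
    refine measure_mono_null ?_ h1
    intro ω hω
    simp only [mem_ofPred_eq, Classical.not_imp] at hω
    exact hω
  have hTback' : ∀ᵐ ω ∂P, ∀ a : ℕ, σ^[a] ω ∈ T → ω ∈ T := by
    rw [ae_all_iff]
    intro a
    induction a with
    | zero => exact Eventually.of_forall fun ω hω => hω
    | succ a ih =>
      have h2 := (hσ.iterate a).quasiMeasurePreserving.ae hTback
      filter_upwards [ih, h2] with ω h3 h4 h5
      rw [Function.iterate_succ_apply'] at h5
      exact h3 (h4 h5)
  -- torsion points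
  have e2 : ∀ᵐ ω ∂P, ∀ a : ℕ, ∀ t ∈ {v : Circ | IsOfFinAddOrder v}, ∀ d : ℕ, 0 < d →
      Nat.Coprime (u * w) d → d • t = 0 → t ∈ Der F (σ^[a] ω) → F (σ^[a] ω) = univ := by
    rw [ae_all_iff]; intro a
    rw [ae_ball_iff torsion_countable]; intro t _
    rw [ae_all_iff]; intro d
    by_cases h1 : 0 < d
    · by_cases h3 : Nat.Coprime (u * w) d
      · by_cases h4 : d • t = 0
        · have h5 := acc_torsion' h h2 huw hcop hσ hF hm hu hw h1 h3 h4
          have h6 := (hσ.iterate a).quasiMeasurePreserving.ae h5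
          filter_upwards [h6] with ω hω _ _ _ using hω
        · exact Eventually.of_forall fun ω _ _ h5 => absurd h5 h4
      · exact Eventually.of_forall fun ω _ h4 => absurd h4 h3
    · exact Eventually.of_forall fun ω h3 => absurd h3 h1
  filter_upwards [e1, e1', e2, hTback'] with ω h1 h1' h3 h4
  by_cases hfin : (F ω).Finite
  · left; exact hfin
  right
  -- a torsion point in the derived set
  obtain ⟨t, htD, ht⟩ : ∃ t ∈ Der F ω, IsOfFinAddOrder t := by
    by_cases hDinf : (Der F ω).Infinite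
    · exact h1 hDinf
    · rw [Set.not_infinite] at hDinf
      obtain ⟨z, -, hz⟩ := Set.Infinite.exists_accPt_of_subset_isCompact (s := F ω)
        (K := univ) hfin isCompact_univ (subset_univ _)
      have hzD : z ∈ Der F ω := mem_Der_of_accPt Subset.rfl hz
      exact ⟨z, hzD, h1' hDinf z hzD⟩
  obtain ⟨a, d, hd1, hd2, hd3⟩ := Pool.Agent.H847R3.XpXq.exists_coprime (m := u * w)
    (by nlinarith) ht
  have h5 : ((u * w) ^ a) • t ∈ Der F (σ^[a + a] ω) := by
    rw [mul_pow]
    exact both_mem hD1 hD2 a a ω htD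
  have h7 : IsOfFinAddOrder (((u * w) ^ a) • t) :=
    isOfFinAddOrder_iff_nsmul_eq_zero.2 ⟨d, by omega, hd2⟩
  exact h4 (a + a) (h3 (a + a) _ h7 d (by omega) hd3 hd2 h5)

theorem furst (h : J20) : J21 := by
  classical
  intro u w h2 huw hcop Ω _ P _ σ hσ F hF hm hp' hq'
  obtain ⟨Z, hZsub, hZm, hZ0⟩ := exists_measurable_superset_of_null (ae_iff.1 (hp'.and hq'))
  set G : Set Ω := ⋂ n : ℕ, (σ^[n]) ⁻¹' Zᶜ with hG
  have hGm : MeasurableSet G := MeasurableSet.iInter fun n => (hσ.iterate n).measurable hZm.compl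
  have hGae : ∀ᵐ ω ∂P, ω ∈ G := by
    have : ∀ᵐ ω ∂P, ∀ n : ℕ, σ^[n] ω ∈ Zᶜ := by
      rw [ae_all_iff]; intro n
      have h0 : ∀ᵐ ω ∂P, ω ∈ Zᶜ := by
        rw [ae_iff]; simpa using hZ0
      exact (hσ.iterate n).quasiMeasurePreserving.ae h0
    filter_upwards [this] with ω hω
    rw [hG, mem_iInter]; exact hω
  have hGσ : ∀ ω ∈ G, σ ω ∈ G := by
    intro ω hω
    rw [hG, mem_iInter] at hω ⊢
    intro n
    have := hω (n + 1)
    rwa [mem_preimage, Function.iterate_succ_apply] at this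
  have hGood : ∀ ω ∈ G, (∀ x ∈ F ω, u • x ∈ F (σ ω)) ∧ ∀ x ∈ F ω, w • x ∈ F (σ ω) := by
    intro ω hω
    rw [hG, mem_iInter] at hω
    have h0 : ω ∉ Z := by simpa using hω 0
    by_contra hcon
    exact h0 (hZsub hcon)
  have key := stationary' h h2 huw hcop hσ (F := fun ω => if ω ∈ G then F ω else ∅) ?_ ?_ ?_ ?_
  · filter_upwards [key, hGae] with ω h1 h3
    simpa [h3] using h1
  · intro ω
    by_cases hω : ω ∈ G
    · simp [hω, hF ω]
    · simp [hω]
  · intro V hV
    have : {ω | ((if ω ∈ G then F ω else ∅) ∩ V).Nonempty} = G ∩ {ω | (F ω ∩ V).Nonempty} := by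
      ext ω
      by_cases hω : ω ∈ G
      · simp [hω]
      · simp [hω]
    rw [this]
    exact hGm.inter (hm V hV)
  · intro ω x hx
    by_cases hω : ω ∈ G
    · simp only [hω, if_true, hGσ ω hω] at hx ⊢
      exact (hGood ω hω).1 x hx
    · simp [hω] at hx
  · intro ω x hx
    by_cases hω : ω ∈ G
    · simp only [hω, if_true, hGσ ω hω] at hx ⊢
      exact (hGood ω hω).2 x hx
    · simp [hω] at hx

end Pool.Agent.TH461.AL.Fs
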