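import Mathlib
import Pool.Agent.TH461.AL.Stms5

/-! Project AL, part 5: from a far cell to a far cell of any other anti-diagonal. -/

set_option autoImplicit false

open Finset Filter Topology

namespace Pool.Agent.TH461.AL.Ud3

open Pool.Agent.TH461.AL

open Pool.Agent.H706R2 (dZ dZ_le_of_int)

theorem int_eq_of_lt {a b : ℤ} (h : |(a : ℝ) - b| < 1) : a = b := by
  have h1 : |a - b| < 1 := by
    have : ((|a - b| : ℤ) : ℝ) < 1 := by
      push_cast
      exact h
    exact_mod_cast this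
  rw [Int.abs_lt_one_iff] at h1
  omega

theorem step_up {u w : ℕ} (hu : 2 ≤ u) (hc : Nat.Coprime u w) {r : ℝ}
    (hr : ((u : ℝ) + w) * r ≤ 1) {z : ℝ} (hz : r ≤ dZ z) :
    r ≤ dZ ((u : ℝ) * z) ∨ r ≤ dZ ((w : ℝ) * z) := by
  by_contra hcon
  push Not at hcon
  obtain ⟨h1, h2⟩ := hcon
  have hr0 : 0 < r := lt_of_le_of_lt (abs_nonneg _) h1
  have huR : (2 : ℝ) ≤ u := by exact_mod_cast hu
  have hu0 : (0 : ℝ) < u := by linarith
  have hwR : (0 : ℝ) ≤ w := Nat.cast_nonneg w
  change |(u : ℝ) * z - round ((u : ℝ) * z)| < r at h1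
  change |(w : ℝ) * z - round ((w : ℝ) * z)| < r at h2
  set k := round ((u : ℝ) * z) with hk
  set l := round ((w : ℝ) * z) with hl
  have h3 : (w : ℤ) * k = (u : ℤ) * l := by
    apply int_eq_of_lt
    push_cast
    have e : (w : ℝ) * k - u * l = u * (w * z - l) - w * (u * z - k) := by ring
    rw [e]
    calc |(u : ℝ) * (w * z - l) - w * (u * z - k)|
        ≤ |(u : ℝ) * (w * z - l)| + |(w : ℝ) * (u * z - k)| := abs_sub _ _
      _ = u * |(w : ℝ) * z - l| + w * |(u : ℝ) * z - k| := by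
          rw [abs_mul, abs_mul, abs_of_pos hu0, abs_of_nonneg hwR]
      _ < u * r + w * r :=
          add_lt_add_of_lt_of_le (mul_lt_mul_of_pos_left h2 hu0)
            (mul_le_mul_of_nonneg_left h1.le hwR)
      _ = ((u : ℝ) + w) * r := by ring
      _ ≤ 1 := hr
  have hcop : IsCoprime (u : ℤ) (w : ℤ) := Nat.isCoprime_iff_coprime.mpr hc
  have h4 : (u : ℤ) ∣ k := hcop.dvd_of_dvd_mul_left (Dvd.intro _ h3.symm)
  obtain ⟨k', hk'⟩ := h4
  have h5 : dZ z ≤ |z - k'| := dZ_le_of_int z k'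
  have h6 : (u : ℝ) * |z - k'| < r := by
    have e : (u : ℝ) * z - k = u * (z - k') := by
      rw [hk']
      push_cast
      ring
    rw [e, abs_mul, abs_of_pos hu0] at h1
    exact h1
  have h7 : |z - k'| ≤ (u : ℝ) * |z - k'| := le_mul_of_one_le_left (abs_nonneg _) (by linarith)
  linarith

theorem up {u w : ℕ} (hu : 2 ≤ u) (hw : 0 < w) (hc : Nat.Coprime u w) {r : ℝ}
    (hr : ((u : ℝ) + w) * r ≤ 1) (θ : ℝ) (t : ℕ) : ∀ i n : ℤ, Fb w u r θ i n →
    ∃ s : ℕ, s ≤ t ∧ Fb w u r θ (i + s) (n + t) := by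
  have huR : (u : ℝ) ≠ 0 := by
    have : 0 < u := by omega
    exact_mod_cast this.ne'
  have hwR : (w : ℝ) ≠ 0 := by exact_mod_cast hw.ne'
  induction t with
  | zero =>
    intro i n h
    exact ⟨0, le_rfl, by simpa using h⟩
  | succ t ih =>
    intro i n h
    obtain ⟨s, hs, h1⟩ := ih i n h
    unfold Fb at h1
    rcases step_up hu hc hr h1 with h2 | h2
    · refine ⟨s, by omega, ?_⟩
      unfold Fb
      have e : θ * (w : ℝ) ^ (i + (s : ℤ)) * (u : ℝ) ^ (n + ((t + 1 : ℕ) : ℤ) - (i + s)) =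
          (u : ℝ) * (θ * (w : ℝ) ^ (i + (s : ℤ)) * (u : ℝ) ^ (n + (t : ℤ) - (i + s))) := by
        rw [show n + ((t + 1 : ℕ) : ℤ) - (i + s) = (n + (t : ℤ) - (i + s)) + 1 by push_cast; ring,
          zpow_add_one₀ huR]
        ring
      rw [e]
      exact h2
    · refine ⟨s + 1, by omega, ?_⟩
      unfold Fb
      have e : θ * (w : ℝ) ^ (i + ((s + 1 : ℕ) : ℤ)) *
          (u : ℝ) ^ (n + ((t + 1 : ℕ) : ℤ) - (i + ((s + 1 : ℕ) : ℤ))) =
          (w : ℝ) * (θ * (w : ℝ) ^ (i + (s : ℤ)) * (u : ℝ) ^ (n + (t : ℤ) - (i + s))) := by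
        rw [show n + ((t + 1 : ℕ) : ℤ) - (i + ((s + 1 : ℕ) : ℤ)) = n + (t : ℤ) - (i + s) by
            push_cast; ring,
          show i + ((s + 1 : ℕ) : ℤ) = (i + (s : ℤ)) + 1 by push_cast; ring, zpow_add_one₀ hwR]
        ring
      rw [e]
      exact h2

theorem down {u w K : ℕ} (hu : 2 ≤ u) (huw : u < w) (hK : (w : ℝ) ≤ ((w : ℝ) / u) ^ K)
    {r : ℝ} (hr : ((u : ℝ) + w) * r ≤ 1) (θ : ℝ) (t : ℕ) (i n : ℤ)
    (h : Fb w u r θ i n) :
    ∃ b : ℕ, b ≤ K * t ∧ Fb w u r θ (i - t + b) (n - t) := by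
  have hu0 : (0 : ℝ) < u := by
    have : 0 < u := by omega
    exact_mod_cast this
  have hw0 : (0 : ℝ) < w := by
    have : 0 < w := by omega
    exact_mod_cast this
  by_contra hcon
  push Not at hcon
  set z : ℕ → ℝ := fun b => θ * (w : ℝ) ^ (i - t + (b : ℤ)) * (u : ℝ) ^ (n - t - (i - t + (b : ℤ)))
    with hz
  have h1 : ∀ b : ℕ, b ≤ K * t → |z b - round (z b)| < r := by
    intro b hb
    have h2 := hcon b hb
    unfold Fb at h2
    exact not_le.1 h2
  have hstep : ∀ b : ℕ, (u : ℝ) * z (b + 1) = w * z b := by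
    intro b
    simp only [hz]
    rw [show i - (t : ℤ) + ((b + 1 : ℕ) : ℤ) = (i - t + (b : ℤ)) + 1 by push_cast; ring,
      zpow_add_one₀ hw0.ne',
      show n - (t : ℤ) - (i - t + (b : ℤ)) = (n - t - (i - t + (b : ℤ) + 1)) + 1 by ring,
      zpow_add_one₀ hu0.ne']
    ring
  have hk : ∀ b : ℕ, b + 1 ≤ K * t → (u : ℝ) * round (z (b + 1)) = w * round (z b) := by
    intro b hb
    have h2 := h1 (b + 1) hb
    have h3 := h1 b (by omega)
    have h4 : (u : ℤ) * round (z (b + 1)) = (w : ℤ) * round (z b) := by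
      apply int_eq_of_lt
      push_cast
      have e : (u : ℝ) * round (z (b + 1)) - w * round (z b) =
          w * (z b - round (z b)) - u * (z (b + 1) - round (z (b + 1))) := by
        have := hstep b
        linear_combination this
      rw [e]
      calc |(w : ℝ) * (z b - round (z b)) - u * (z (b + 1) - round (z (b + 1)))|
          ≤ |(w : ℝ) * (z b - round (z b))| + |(u : ℝ) * (z (b + 1) - round (z (b + 1)))| :=
            abs_sub _ _
        _ = w * |z b - round (z b)| + u * |z (b + 1) - round (z (b + 1))| := by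
            rw [abs_mul, abs_mul, abs_of_pos hu0, abs_of_pos hw0]
        _ < w * r + u * r :=
            add_lt_add (mul_lt_mul_of_pos_left h3 hw0) (mul_lt_mul_of_pos_left h2 hu0)
        _ = ((u : ℝ) + w) * r := by ring
        _ ≤ 1 := hr
    exact_mod_cast h4
  have he : ∀ b : ℕ, b ≤ K * t →
      z b - round (z b) = ((w : ℝ) / u) ^ b * (z 0 - round (z 0)) := by
    intro b
    induction b with
    | zero =>
      intro _
      simp
    | succ b ih =>
      intro hb
      have h2 := ih (by omega)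
      have h3 := hstep b
      have h4 := hk b hb
      have h5 : (u : ℝ) * (z (b + 1) - round (z (b + 1))) = w * (z b - round (z b)) := by
        linear_combination h3 - h4
      rw [h2] at h5
      rw [pow_succ]
      field_simp
      linear_combination h5
  have h2 := h1 (K * t) le_rfl
  rw [he (K * t) le_rfl, abs_mul, abs_of_nonneg (by positivity), pow_mul] at h2
  have h3 : (w : ℝ) ^ t ≤ (((w : ℝ) / u) ^ K) ^ t := pow_le_pow_left₀ hw0.le hK t
  have h4 : (w : ℝ) ^ t * |z 0 - round (z 0)| < r :=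
    lt_of_le_of_lt (mul_le_mul_of_nonneg_right h3 (abs_nonneg _)) h2
  have h5 : θ * (w : ℝ) ^ i * (u : ℝ) ^ (n - i) = (w : ℝ) ^ t * z 0 := by
    simp only [hz]
    rw [show n - (t : ℤ) - (i - t + ((0 : ℕ) : ℤ)) = n - i by push_cast; ring,
      show i - (t : ℤ) + ((0 : ℕ) : ℤ) = i - t by push_cast; ring, zpow_sub₀ hw0.ne', zpow_natCast]
    field_simp
  have h6 : r ≤ dZ ((w : ℝ) ^ t * z 0) := by
    rw [← h5]
    exact h
  have h7 := dZ_le_of_int ((w : ℝ) ^ t * z 0) ((w : ℤ) ^ t * round (z 0))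
  have h8 : |(w : ℝ) ^ t * z 0 - (((w : ℤ) ^ t * round (z 0) : ℤ) : ℝ)| =
      (w : ℝ) ^ t * |z 0 - round (z 0)| := by
    push_cast
    rw [← mul_sub, abs_mul, abs_of_pos (by positivity)]
  rw [h8] at h7
  linarith

theorem updown3 : J16 := by
  intro u w hu huw hc
  have hu0 : (0 : ℝ) < u := by
    have : 0 < u := by omega
    exact_mod_cast this
  have h1 : (1 : ℝ) < (w : ℝ) / u := by
    rw [one_lt_div hu0]
    exact_mod_cast huw
  obtain ⟨K, hK⟩ := pow_unbounded_of_one_lt (w : ℝ) h1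
  refine ⟨K + 1, fun r _ hrb θ i n hF n' => ?_⟩
  rcases le_total n' n with h | h
  · obtain ⟨t, ht⟩ := Int.le.dest h
    obtain ⟨b, hb, h3⟩ := down hu huw hK.le hrb θ t i n hF
    refine ⟨i - t + b, ?_, ?_⟩
    · have e1 : |n' - n| = t := by
        rw [abs_of_nonpos (by omega)]
        omega
      rw [e1]
      have hb' : (b : ℤ) ≤ K * t := by exact_mod_cast hb
      have ht0 : (0 : ℤ) ≤ t := Int.natCast_nonneg t
      have hKt : (0 : ℤ) ≤ (K : ℤ) * t := by positivity
      push_cast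
      rw [abs_le]
      constructor <;> nlinarith
    · rw [show n' = n - t by omega]
      exact h3
  · obtain ⟨t, ht⟩ := Int.le.dest h
    obtain ⟨s, hs, h3⟩ := up hu (by omega) hc hrb θ t i n hF
    refine ⟨i + s, ?_, ?_⟩
    · have e1 : |n' - n| = t := by
        rw [abs_of_nonneg (by omega)]
        omega
      have e2 : |i + (s : ℤ) - i| = s := by
        rw [abs_of_nonneg (by omega)]
        omega
      rw [e1, e2]
      have hs' : (s : ℤ) ≤ t := by exact_mod_cast hs
      have hKt : (0 : ℤ) ≤ (K : ℤ) * t := by positivity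
      push_cast
      nlinarith
    · rw [← ht]
      exact h3

end Pool.Agent.TH461.AL.Ud3
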