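import Mathlib
import Pool.Agent.TH461.AL.Col
import Pool.Agent.TH461.AL.Ud3
import Pool.Agent.TH461.AL.Anti
import Pool.Agent.TH461.AL.Lin3
import Pool.Agent.TH461.AL.Acc
import Pool.Agent.TH461.AL.Cr
import Pool.Agent.TH461.AL.Fs
import Pool.Agent.TH461.AL.Lev2
import Pool.Agent.TH461.AL.Mul
import Pool.Agent.TH461.SST.Main
import Pool.Agent.TH461.AL.Nl

/-!
Project AL, fifth part: the theorem on all windows of almost all lines `m w ^ i u ^ (j - i)`.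
-/

set_option autoImplicit false

open Finset Filter Topology

namespace Pool.Agent.TH461.AL.Fin5

open Pool.Agent.TH461.AL

theorem exists_coreB (h22 : J22) {u w : ℕ} (hu : 2 ≤ u) (huw : u < w) (hco : Nat.Coprime u w) :
    ∃ (r : ℝ) (D : ℕ), 0 < r ∧ ((u : ℝ) + w) * r ≤ 1 ∧ Col.CoreB w u r D := by
  have hu0 : (0 : ℝ) < (u : ℝ) + w := by positivity
  set r : ℝ := 1 / ((u : ℝ) + w) with hr
  have hr0 : 0 < r := by positivity
  have hr1 : ((u : ℝ) + w) * r ≤ 1 := by rw [hr, mul_one_div, div_self hu0.ne']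
  obtain ⟨κ, hκ⟩ := Ud3.updown3 u w hu huw hco
  have hud : ∀ θ : ℝ, UpDown (Fb w u r θ) κ := fun θ => hκ r hr0 hr1 θ
  obtain ⟨D, hD⟩ := Lin3.line3 u w hu huw hco r hr0 hr1 Anti.anti
    (Pool.Agent.TH461.SST.Main.cluster (by omega) hu hco.symm) κ hud
  have hlev := Lev2.level2 {F | ∃ θ : ℝ, F = Fb w u r θ} D κ hD (by
    rintro F ⟨θ, rfl⟩
    exact hud θ)
  have hmul := Mul.multi _ _ hlev
  obtain ⟨D2, hW⟩ := h22 u w hu huw hco (Fs.furst (Cr.core2 Acc.acc))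
  obtain ⟨D', hD'⟩ := Gen4.core_b hu huw hr0 hmul hW
  exact ⟨r, D', hr0, hr1, hD'⟩

open Classical in
theorem windows5 (h22 : J22) {u w : ℕ} (hu : 2 ≤ u) (huw : u < w) (hco : Nat.Coprime u w) {m : ℕ}
    (hm : 1 ≤ m) (R : ℕ) (U : Set UnitAddCircle) (hU : IsOpen U) (hUne : U.Nonempty)
    {ε δ η : ℝ} (hε : 0 < ε) (hδ : 0 < δ) (hη0 : 0 < η) :
    ∃ M0 : ℕ, ∀ M : ℕ, M0 ≤ M →
      (((Icc (-(M : ℤ)) M).filter (fun j : ℤ => ¬ ∀ a b : ℤ, 0 ≤ a → j ≤ a →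
        0 ≤ (a : ℝ) * Real.log w - (a - j) * Real.log u → b ≤ R * M → η * M ≤ (b : ℝ) - a →
          (M : ℝ) ^ (1 - ε) ≤ (((Icc a b).filter (fun i : ℤ =>
            (((m : ℝ) * (w : ℝ) ^ i * (u : ℝ) ^ (j - i) : ℝ) : UnitAddCircle) ∈ U)).card :
              ℝ))).card : ℝ) ≤ δ * M := by
  obtain ⟨r, D, hr0, hr1, hD⟩ := exists_coreB h22 hu huw hco
  exact Col.windows hu huw hco hr0 hr1 hD hm R U hU hUne hε hδ hη0

end Pool.Agent.TH461.AL.Fin5
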