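import Mathlib
import Pool.Agent.TH461.AL.Fin5


/-!
Project AL, fifth part: every word at almost every position, in all long time windows.
-/

set_option autoImplicit false

open Finset Filter Topology

namespace Pool.Agent.TH461.AL.ColW

open Pool.Agent.TH461.AL
open Pool.Agent.TH461.AL.Nl (UW isOpen_UW nonempty_UW word_of_mem)

open Classical in
lemma union (N : ℕ) (S : ℕ → ℕ → Finset ℤ) {c : ℝ}
    (h : ∀ W < N, ∃ M0 : ℕ, ∀ M : ℕ, M0 ≤ M → ((S W M).card : ℝ) ≤ c * M) :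
    ∃ M0 : ℕ, ∀ M : ℕ, M0 ≤ M → ((((range N).biUnion fun W => S W M)).card : ℝ) ≤ N * (c * M) := by
  have h' : ∀ W : ℕ, ∃ M0 : ℕ, W < N → ∀ M : ℕ, M0 ≤ M → ((S W M).card : ℝ) ≤ c * M := by
    intro W
    by_cases hW : W < N
    · obtain ⟨M0, hM0⟩ := h W hW
      exact ⟨M0, fun _ => hM0⟩
    · exact ⟨0, fun hW' => absurd hW' hW⟩
  choose f hf using h'
  refine ⟨(range N).sup f, fun M hM => ?_⟩
  refine le_trans (Nat.cast_le.2 Finset.card_biUnion_le) ?_
  rw [Nat.cast_sum]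
  refine (Finset.sum_le_sum (g := fun _ => c * (M : ℝ)) fun W hW => ?_).trans ?_
  · exact hf W (Finset.mem_range.1 hW) M ((Finset.le_sup hW).trans hM)
  · rw [Finset.sum_const, Finset.card_range, nsmul_eq_mul]

open Classical in
/-- the words of `L` digits in base `b = u w` at the places `p` of `m / b ^ k (w / u) ^ n` -/
theorem columns (h22 : J22) {u w : ℕ} (hu : 2 ≤ u) (huw : u < w) (hco : Nat.Coprime u w) {m : ℕ}
    (hm : 1 ≤ m) (k L R : ℕ) {ε κ δ : ℝ} (hε : 0 < ε) (hκ : 0 < κ) (hδ : 0 < δ) :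
    ∃ M0 : ℕ, ∀ M : ℕ, M0 ≤ M →
      (((Icc (-(M : ℤ)) M).filter (fun p : ℤ => ¬ ∀ s l : ℕ, p ≤ s →
        0 ≤ (s : ℝ) * Real.log ((w : ℝ) / u) + p * Real.log (u * w : ℕ) → s + l ≤ R * M →
          ε * M ≤ l → ∀ W < (u * w) ^ L, (M : ℝ) ^ (1 - κ) ≤
            (((Ico s (s + l)).filter (fun n : ℕ =>
              ⌊((u * w : ℕ) : ℝ) ^ (p + L - 1) * (((w : ℝ) / u) ^ n * ((m : ℝ) / (u * w : ℕ) ^ k))⌋ %
                (((u * w : ℕ) : ℤ) ^ L) = (W : ℤ))).card : ℝ))).card : ℝ) ≤ δ * M := by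
  have huR : (2 : ℝ) ≤ u := by exact_mod_cast hu
  have huwR : (u : ℝ) < w := by exact_mod_cast huw
  have hu0 : (0 : ℝ) < u := by linarith
  have hw0 : (0 : ℝ) < w := by linarith
  have hlu : 0 < Real.log u := Real.log_pos (by linarith)
  have hlw : 0 < Real.log w := Real.log_pos (by linarith)
  obtain ⟨b, hb⟩ : ∃ b : ℕ, b = u * w := ⟨_, rfl⟩
  rw [← hb]
  have hb2 : 2 ≤ b := by rw [hb]; nlinarith
  have hbR : (b : ℝ) = u * w := by rw [hb]; push_cast; ring
  have hb0 : (0 : ℝ) < b := by positivity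
  have hlb : Real.log b = Real.log u + Real.log w := by
    rw [hbR, Real.log_mul hu0.ne' hw0.ne']
  have hll : Real.log ((w : ℝ) / u) = Real.log w - Real.log u := Real.log_div hw0.ne' hu0.ne'
  have hlam : 0 < Real.log w - Real.log u := by
    have := Real.log_lt_log hu0 huwR
    linarith
  rw [hll]
  set lam : ℝ := Real.log w - Real.log u with hlamdef
  set κ' : ℝ := min κ 1 with hκ'
  have hκ0 : 0 < κ' := lt_min hκ one_pos
  have hκ1 : κ' ≤ 1 := min_le_right _ _
  have hbL : (0 : ℝ) < (b : ℝ) ^ L := by positivity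
  obtain ⟨s0, hs0⟩ : ∃ s0 : ℕ, s0 = ⌈(k + 2) * Real.log b / lam⌉₊ := ⟨_, rfl⟩
  have hs0R : (k + 2) * Real.log b ≤ s0 * lam := by
    have h1 := Nat.le_ceil ((k + 2) * Real.log b / lam)
    rw [div_le_iff₀ hlam] at h1
    rw [hs0]
    exact h1
  set δ' : ℝ := δ / (3 * (b : ℝ) ^ L) with hδ'
  have hδ0 : 0 < δ' := by positivity
  set S : ℕ → ℕ → Finset ℤ := fun W M => (Icc (-(M : ℤ)) M).filter (fun p : ℤ => ∃ s l : ℕ,
      p ≤ s ∧ 0 ≤ (s : ℝ) * lam + p * Real.log b ∧ s + l ≤ R * M ∧ ε * M ≤ l ∧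
        (((Ico s (s + l)).filter (fun n : ℕ =>
              ⌊(b : ℝ) ^ (p + L - 1) * (((w : ℝ) / u) ^ n * ((m : ℝ) / (b : ℝ) ^ k))⌋ %
                ((b : ℤ) ^ L) = (W : ℤ))).card : ℝ) < (M : ℝ) ^ (1 - κ)) with hS
  obtain ⟨M0, hM0⟩ := union (b ^ L) S (c := 3 * δ') (by
    intro W hW
    obtain ⟨M1, hM1⟩ := Fin5.windows5 h22 hu huw hco hm (R + 1) (UW b L W) (isOpen_UW b L W)
      (nonempty_UW hb2 L W) hκ0 hδ0 (η := ε / 6) (by positivity)
    obtain ⟨M2, hM2⟩ := exists_nat_ge (((s0 : ℝ) + 1) / (ε / 2))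
    refine ⟨max (max M1 M2) (2 * k + 4), fun M hM => ?_⟩
    have hMM1 : M1 ≤ M := ((le_max_left _ _).trans (le_max_left _ _)).trans hM
    have hMM2 : M2 ≤ M := ((le_max_right _ _).trans (le_max_left _ _)).trans hM
    have hMk : 2 * k + 4 ≤ M := (le_max_right _ _).trans hM
    have hMR2 : (M2 : ℝ) ≤ M := by exact_mod_cast hMM2
    have h2 := hM2.trans hMR2
    rw [div_le_iff₀ (by positivity)] at h2
    have hM1' : (1 : ℝ) ≤ M := by
      have : 1 ≤ M := by omega
      exact_mod_cast this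
    have h3 := hM1 (3 * M) (by omega)
    have e3 : δ' * ((3 * M : ℕ) : ℝ) = 3 * δ' * M := by push_cast; ring
    rw [e3] at h3
    refine le_trans ?_ h3
    apply Nat.cast_le.2
    refine Finset.card_le_card_of_injOn (fun p : ℤ => 2 * (p - 2 - k)) ?_ ?_
    · intro p hp
      simp only [hS, Finset.coe_filter, Set.mem_ofPred_eq, Finset.mem_Icc] at hp
      obtain ⟨⟨hp1, hp2⟩, s, l, hps, hsz, hsl, hl, hfew⟩ := hp
      simp only [Finset.coe_filter, Set.mem_ofPred_eq, Finset.mem_Icc]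
      refine ⟨⟨by push_cast; omega, by push_cast; omega⟩, ?_⟩
      intro hall
      obtain ⟨q, hq⟩ : ∃ q : ℤ, q = p - 2 - k := ⟨_, rfl⟩
      rw [← hq] at hall
      have hqR : (q : ℝ) = p - 2 - k := by rw [hq]; push_cast; ring
      -- the size condition
      have hsz' : 0 ≤ ((s : ℝ) + s0) * lam + q * Real.log b := by
        rw [hqR]
        nlinarith
      have hlb0 : 0 < Real.log b := by rw [hlb]; linarith
      have ha0 : (0 : ℤ) ≤ (s : ℤ) + s0 + q := by
        by_contra hcon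
        push Not at hcon
        have h4 : (s : ℝ) + s0 + q < 0 := by exact_mod_cast hcon
        have h5 : (0 : ℝ) ≤ (s : ℝ) + s0 := by positivity
        have h6 : ((s : ℝ) + s0 + q) * Real.log b < 0 := mul_neg_of_neg_of_pos h4 hlb0
        have h7 : ((s : ℝ) + s0) * lam ≤ ((s : ℝ) + s0) * Real.log b := by
          apply mul_le_mul_of_nonneg_left _ h5
          rw [hlb, hlamdef]
          linarith
        nlinarith
      have h4 := hall ((s : ℤ) + s0 + q) ((s : ℤ) + l - 1 + q) ha0 (by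
          have h5 : (0 : ℤ) ≤ s0 := Int.natCast_nonneg _
          have h6 : (0 : ℤ) ≤ k := Int.natCast_nonneg _
          omega) (by
          have e1 : (((s : ℤ) + s0 + q : ℤ) : ℝ) * Real.log w -
              ((((s : ℤ) + s0 + q : ℤ) : ℝ) - ((2 * q : ℤ) : ℝ)) * Real.log u =
              ((s : ℝ) + s0) * lam + q * Real.log b := by
            rw [hlb, hlamdef]
            push_cast
            ring
          rw [e1]
          exact hsz') (by
          have h5 : ((s + l : ℕ) : ℤ) ≤ ((R * M : ℕ) : ℤ) := by exact_mod_cast hsl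
          push_cast at h5 ⊢
          have h6 : (0 : ℤ) ≤ k := Int.natCast_nonneg _
          have h7 : (0 : ℤ) ≤ (R : ℤ) * M := by positivity
          have h8 : (0 : ℤ) ≤ (M : ℤ) := Int.natCast_nonneg _
          nlinarith) (by
          push_cast
          nlinarith)
      have h5 : (M : ℝ) ^ (1 - κ) ≤ ((3 * M : ℕ) : ℝ) ^ (1 - κ') := by
        calc (M : ℝ) ^ (1 - κ) ≤ (M : ℝ) ^ (1 - κ') :=
              Real.rpow_le_rpow_of_exponent_le hM1' (by have := min_le_left κ 1; linarith)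
          _ ≤ _ := Real.rpow_le_rpow (by positivity) (by push_cast; linarith) (by linarith)
      refine absurd (h5.trans h4) (not_le.2 (lt_of_le_of_lt ?_ hfew))
      apply Nat.cast_le.2
      refine Finset.card_le_card_of_injOn (fun i : ℤ => (i - q).toNat) ?_ ?_
      · intro i hi
        simp only [Finset.coe_filter, Set.mem_ofPred_eq, Finset.mem_Icc] at hi
        obtain ⟨⟨hi1, hi2⟩, hi3⟩ := hi
        simp only [Finset.coe_filter, Set.mem_ofPred_eq, Finset.mem_Ico]
        obtain ⟨n, hn⟩ := Int.eq_ofNat_of_zero_le (show 0 ≤ i - q by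
          have h6 : (0 : ℤ) ≤ s0 := Int.natCast_nonneg _
          have h7 : (0 : ℤ) ≤ s := Int.natCast_nonneg _
          linarith)
        rw [hn]
        simp only [Int.toNat_natCast]
        refine ⟨⟨by omega, by omega⟩, ?_⟩
        have h6 := word_of_mem hb2 hW hi3
        have e1 : (b : ℝ) ^ (p + L - 1) * (((w : ℝ) / u) ^ n * ((m : ℝ) / (b : ℝ) ^ k)) =
            (b : ℝ) ^ (L + 1) * ((m : ℝ) * (w : ℝ) ^ i * (u : ℝ) ^ (2 * q - i)) := by
          rw [show i = q + n by omega, show 2 * q - (q + n) = q - (n : ℤ) by ring,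
            zpow_add₀ hw0.ne', zpow_sub₀ hu0.ne', zpow_natCast, zpow_natCast,
            show p + L - 1 = q + ((L + 1 : ℕ) : ℤ) + (k : ℤ) by push_cast; omega,
            zpow_add₀ hb0.ne', zpow_add₀ hb0.ne', zpow_natCast, zpow_natCast, div_pow]
          have e2 : (b : ℝ) ^ q = (u : ℝ) ^ q * (w : ℝ) ^ q := by
            rw [hbR, mul_zpow]
          rw [e2]
          field_simp
        rw [e1]
        exact h6
      · intro i hi i' hi' h
        simp only [Finset.coe_filter, Set.mem_ofPred_eq, Finset.mem_Icc] at hi hi'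
        obtain ⟨⟨hi1, hi2⟩, hi3⟩ := hi
        obtain ⟨⟨hi4, hi5⟩, hi6⟩ := hi'
        simp only at h
        omega
    · intro p _ p' _ h
      simp only at h
      omega)
  refine ⟨M0, fun M hM => ?_⟩
  have h1 := hM0 M hM
  have e1 : ((b ^ L : ℕ) : ℝ) * (3 * δ' * M) = δ * M := by
    rw [hδ']
    push_cast
    field_simp
  rw [e1] at h1
  refine le_trans ?_ h1
  apply Nat.cast_le.2
  apply Finset.card_le_card
  intro p hp
  rw [Finset.mem_filter] at hp
  obtain ⟨hp1, hp2⟩ := hp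
  push Not at hp2
  obtain ⟨s, l, h2, h3, h4, h5, W, hW, h6⟩ := hp2
  rw [Finset.mem_biUnion]
  refine ⟨W, Finset.mem_range.2 hW, ?_⟩
  simp only [hS, Finset.mem_filter]
  exact ⟨hp1, s, l, h2, h3, h4, h5, h6⟩

end Pool.Agent.TH461.AL.ColW
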