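import Mathlib
import Pool.Agent.TH419.FS.Core

/-!
Project AL, fifth part: a long piece of an anti-diagonal near a finite set starts near a torsion point.
-/

set_option autoImplicit false

open MeasureTheory Filter Topology Set TopologicalSpace

namespace Pool.Agent.TH461.AL.Wb

open Pool.Agent.H705R2 Pool.Agent.W765.Sta Pool.Agent.W765.KB Pool.Agent.W765.Det

lemma sep {u w : ℕ} {E : Set Circ} (hfin : E.Finite) :
    ∃ η > 0, ∀ x ∈ E, ∀ y ∈ E, dist (u • y) (w • x) < η → u • y = w • x := by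
  set S : Set (Circ × Circ) := (E ×ˢ E) ∩ {z | u • z.2 ≠ w • z.1} with hS
  have hSf : S.Finite := (hfin.prod hfin).inter_of_left _
  rcases S.eq_empty_or_nonempty with h0 | h0
  · refine ⟨1, one_pos, fun x hx y hy _ => ?_⟩
    by_contra hne
    have : ((x, y) : Circ × Circ) ∈ S := ⟨⟨hx, hy⟩, hne⟩
    rw [h0] at this
    exact this
  · obtain ⟨z, hz, hmin⟩ := Set.exists_min_image S (fun z => dist (u • z.2) (w • z.1)) hSf h0
    refine ⟨dist (u • z.2) (w • z.1), dist_pos.2 hz.2, fun x hx y hy hlt => ?_⟩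
    by_contra hne
    have := hmin ((x, y) : Circ × Circ) ⟨⟨hx, hy⟩, hne⟩
    simp only at this
    linarith

lemma dist_nsmul_le (n : ℕ) (x y : Circ) : dist (n • x) (n • y) ≤ n * dist x y := by
  rw [dist_eq_norm, dist_eq_norm, ← nsmul_sub]
  exact norm_nsmul_le

lemma shadowB {u w : ℕ} (hu : 2 ≤ u) (huw : u < w) {E : Set Circ} (hfin : E.Finite) :
    ∃ c > 0, ∃ n0 : ℕ, ∀ (z : ℕ → Circ) (J : ℕ), n0 ≤ J → (∀ b, u • z (b + 1) = w • z b) →
      (∀ b ≤ J, z b ∈ Metric.thickening c E) →
      ∃ n : ℕ, 1 ≤ n ∧ n ≤ n0 ∧ ∃ e : Circ, n • e = 0 ∧ ((w : ℝ) / u) ^ J * dist (z 0) e < c := by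
  obtain ⟨η, hη, hsep⟩ := sep (u := u) (w := w) hfin
  have hu0 : (0 : ℝ) < u := by positivity
  have hw2 : 2 ≤ w := by omega
  have hw0 : (0 : ℝ) < w := by positivity
  have huwR : (u : ℝ) < w := by exact_mod_cast huw
  refine ⟨min (η / (u + w)) (1 / (2 * w)), by positivity, w ^ hfin.toFinset.card, ?_⟩
  set c : ℝ := min (η / (u + w)) (1 / (2 * w)) with hc
  intro z J hJ hz hzE
  have hcη : (u + w) * c ≤ η := by
    have : c ≤ η / ((u : ℝ) + w) := min_le_left _ _
    rw [le_div_iff₀ (by positivity)] at this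
    linarith
  have hcw : c ≤ 1 / (2 * w) := min_le_right _ _
  have hcu : c ≤ 1 / (2 * u) := by
    refine hcw.trans ?_
    apply one_div_le_one_div_of_le (by positivity)
    linarith
  have hex : ∀ b, ∃ e : Circ, b ≤ J → e ∈ E ∧ dist (z b) e < c := by
    intro b
    by_cases hb : b ≤ J
    · obtain ⟨e, he, h⟩ := Metric.mem_thickening_iff.1 (hzE b hb)
      exact ⟨e, fun _ => ⟨he, h⟩⟩
    · exact ⟨0, fun h => absurd h hb⟩
  choose e he using hex
  -- the points of `E` form a piece of an anti-diagonal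
  have hstep : ∀ b, b + 1 ≤ J → u • e (b + 1) = w • e b := by
    intro b hb
    obtain ⟨h1, h2⟩ := he b (by omega)
    obtain ⟨h3, h4⟩ := he (b + 1) hb
    apply hsep _ h1 _ h3
    have h5 := dist_nsmul_le u (z (b + 1)) (e (b + 1))
    have h6 := dist_nsmul_le w (z b) (e b)
    rw [hz b] at h5
    have h7 := dist_triangle_left (u • e (b + 1)) (w • e b) (w • z b)
    have h8 : (u : ℝ) * dist (z (b + 1)) (e (b + 1)) < u * c := mul_lt_mul_of_pos_left h4 hu0
    have h9 : (w : ℝ) * dist (z b) (e b) < w * c := mul_lt_mul_of_pos_left h2 hw0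
    linarith
  have hdev : ∀ b, b ≤ J → dist (z b) (e b) = ((w : ℝ) / u) ^ b * dist (z 0) (e 0) := by
    intro b
    induction b with
    | zero => intro _; simp
    | succ b ih =>
      intro hb
      have h1 := ih (by omega)
      obtain ⟨-, h2⟩ := he b (by omega)
      obtain ⟨-, h4⟩ := he (b + 1) hb
      rw [dist_eq_norm] at h2 h4
      have h5 := norm_smul_eq (p := u) (by omega) (h4.trans_le hcu)
      have h6 := norm_smul_eq (p := w) (by omega) (h2.trans_le hcw)
      have h7 : u • (z (b + 1) - e (b + 1)) = w • (z b - e b) := by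
        rw [nsmul_sub, nsmul_sub, hz b, hstep b hb]
      rw [h7, h6] at h5
      rw [← dist_eq_norm, ← dist_eq_norm] at h5
      rw [pow_succ, mul_right_comm, ← h1]
      field_simp
      linarith
  -- a coincidence
  have hlt : hfin.toFinset.card < w ^ hfin.toFinset.card := Nat.lt_pow_self (by omega)
  obtain ⟨a, b, hab, hb, hE⟩ : ∃ a b : ℕ, a < b ∧ b ≤ hfin.toFinset.card ∧ e a = e b := by
    have hmap : ∀ b ∈ Finset.range (hfin.toFinset.card + 1), e b ∈ hfin.toFinset := by
      intro b hb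
      rw [Finset.mem_range] at hb
      exact hfin.mem_toFinset.2 (he b (by omega)).1
    obtain ⟨a, ha, b, hb, hne, hE⟩ := Finset.exists_ne_map_eq_of_card_lt_of_maps_to
      (by rw [Finset.card_range]; omega) hmap
    rw [Finset.mem_range] at ha hb
    rcases lt_or_gt_of_ne hne with h | h
    · exact ⟨a, b, h, by omega, hE⟩
    · exact ⟨b, a, h, by omega, hE.symm⟩
  have hpow : ∀ k a, a + k ≤ J → u ^ k • e (a + k) = w ^ k • e a := by
    intro k
    induction k with
    | zero => intro a _; simp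
    | succ k ih =>
      intro a ha
      have h1 := hstep (a + k) (by omega)
      have h2 := ih a (by omega)
      rw [pow_succ, mul_smul, ← add_assoc, h1, smul_comm, h2, pow_succ', mul_smul]
  obtain ⟨k, rfl⟩ : ∃ k, b = a + k := ⟨b - a, by omega⟩
  have hk : 1 ≤ k := by omega
  have hwk : u ^ k < w ^ k := Nat.pow_lt_pow_left huw (by omega)
  refine ⟨w ^ a * (w ^ k - u ^ k), ?_, ?_, e 0, ?_, ?_⟩
  · exact Nat.mul_pos (by positivity) (by omega)
  · calc w ^ a * (w ^ k - u ^ k) ≤ w ^ a * w ^ k := Nat.mul_le_mul_left _ (Nat.sub_le _ _)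
      _ = w ^ (a + k) := (pow_add _ _ _).symm
      _ ≤ _ := Nat.pow_le_pow_right (by omega) hb
  · have h1 := hpow a 0 (by omega)
    rw [zero_add] at h1
    have h2 := hpow k a (by omega)
    rw [← hE] at h2
    have h3 : (w ^ k - u ^ k) • e a = 0 := by
      have h4 : (w ^ k - u ^ k) • e a + u ^ k • e a = w ^ k • e a := by
        rw [← add_smul, Nat.sub_add_cancel hwk.le]
      rw [h2] at h4
      exact add_eq_right.1 h4
    rw [mul_comm, mul_smul, ← h1, smul_comm, h3, smul_zero]
  · rw [← hdev J le_rfl]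
    exact (he J le_rfl).2

end Pool.Agent.TH461.AL.Wb
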