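import Mathlib
import Pool.Agent.TH461.AL.Stms5
import Pool.Agent.TH461.AL.WbA

/-!
Project AL, fifth part: pieces of anti-diagonals, sequential form.
-/

set_option autoImplicit false

open Filter Topology MeasureTheory Set TopologicalSpace

namespace Pool.Agent.TH461.AL.Wb

open Pool.Agent.TH461.AL
open Pool.Agent.H705R2 Pool.Agent.W765.Sta Pool.Agent.W765.KB Pool.Agent.W765.Det

/-- a piece of an anti-diagonal -/
def pc (u w : ℕ) (y : Circ) (K m : ℕ) : Hyp :=
  ⟨⟨(fun j : ℕ => (w ^ (K - j) * u ^ j) • y) '' Iic m, ((Set.finite_Iic m).image _).isCompact⟩,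
    ⟨_, 0, Nat.zero_le _, rfl⟩⟩

lemma coe_pc (u w : ℕ) (y : Circ) (K m : ℕ) :
    (pc u w y K m : Set Circ) = (fun j : ℕ => (w ^ (K - j) * u ^ j) • y) '' Iic m := rfl

/-- the map on sequences -/
def mulS (w : ℕ) : (ℕ → Hyp) → (ℕ → Hyp) := fun ω k => mulq w (ω k)

lemma continuous_mulS (w : ℕ) : Continuous (mulS w) :=
  continuous_pi fun k => (continuous_mulq w).comp (continuous_apply k)

lemma mulS_iterate (w i : ℕ) (ω : ℕ → Hyp) (k : ℕ) : (mulS w)^[i] ω k = (mulq w)^[i] (ω k) := by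
  induction i generalizing ω with
  | zero => rfl
  | succ i ih => rw [Function.iterate_succ_apply, Function.iterate_succ_apply, ih]; rfl

lemma coe_iterate_pc (u w : ℕ) (y : Circ) (K m i : ℕ) :
    (((mulq w)^[i] (pc u w y K m) : Hyp) : Set Circ) =
      (fun j : ℕ => w ^ i • (w ^ (K - j) * u ^ j) • y) '' Iic m := by
  rw [coe_iterate, coe_pc, image_image]

/-- the union of the pieces -/
def FF (ω : ℕ → Hyp) : Set Circ := closure (⋃ k : ℕ, (ω k : Set Circ))

lemma FF_inter (ω : ℕ → Hyp) {V : Set Circ} (hV : IsOpen V) :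
    (FF ω ∩ V).Nonempty ↔ ∃ k, ((ω k : Set Circ) ∩ V).Nonempty := by
  constructor
  · rintro ⟨y, hy, hyV⟩
    obtain ⟨z, hzV, hz⟩ := mem_closure_iff.1 hy V hV hyV
    obtain ⟨k, hk⟩ := mem_iUnion.1 hz
    exact ⟨k, z, hk, hzV⟩
  · rintro ⟨k, z, hz, hzV⟩
    exact ⟨z, subset_closure (mem_iUnion.2 ⟨k, hz⟩), hzV⟩

lemma isOpen_hit {V : Set Circ} (hV : IsOpen V) :
    IsOpen {ω : ℕ → Hyp | ∃ k, ((ω k : Set Circ) ∩ V).Nonempty} := by
  have : {ω : ℕ → Hyp | ∃ k, ((ω k : Set Circ) ∩ V).Nonempty} =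
      ⋃ k, (fun ω : ℕ → Hyp => ω k) ⁻¹' {A : Hyp | ((A : Set Circ) ∩ V).Nonempty} := by
    ext ω
    simp only [mem_ofPred_eq, mem_iUnion, mem_preimage]
  rw [this]
  exact isOpen_iUnion fun k =>
    (NonemptyCompacts.isOpen_inter_nonempty_of_isOpen hV).preimage (continuous_apply k)

open Classical in
theorem core_seqB {u w : ℕ} (hu : 2 ≤ u) (huw : u < w) (hco : Nat.Coprime u w) (h21 : J21)
    {U : Set Circ} (hU : IsOpen U) (hUne : U.Nonempty) {δ : ℝ} (hδ : 0 < δ) (y : ℕ → Circ)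
    (n J s : ℕ → ℕ) (hn0 : ∀ L, 0 < n L) (hnt : Tendsto n atTop atTop)
    (hst : Tendsto s atTop atTop)
    (hfar : ∀ E : Set Circ, E.Finite → ∃ c : ℝ, 0 < c ∧ ∀ᶠ L in atTop, ∀ i < n L,
      ∃ j ≤ J L, w ^ i • (w ^ (J L + s L - j) * u ^ j) • y L ∉ Metric.thickening c E) :
    ∃ L, (((Finset.range (n L)).filter (fun i => ∀ j ≤ J L + s L,
      w ^ i • (w ^ (J L + s L - j) * u ^ j) • y L ∉ U)).card : ℝ) ≤ δ * n L := by
  by_contra hcon
  push Not at hcon
  set z : ℕ → ℕ → Hyp := fun L k => pc u w (y L) (J L + s L) (J L + min k (s L)) with hz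
  have hzi : ∀ L i k, ((((mulS w)^[0 + i] (z L)) k : Hyp) : Set Circ) =
      (fun j : ℕ => w ^ i • (w ^ (J L + s L - j) * u ^ j) • y L) '' Iic (J L + min k (s L)) := by
    intro L i k
    rw [zero_add, mulS_iterate, hz, coe_iterate_pc]
  obtain ⟨P, hP, hPi, hPG⟩ := kb2 (continuous_mulS w) z (fun _ => 0) n hnt hn0
  -- multiplication by `u`
  have hsub : ∀ᵐ ω : ℕ → Hyp ∂P, ∀ k : ℕ, ∀ a ∈ (ω k : Set Circ),
      u • a ∈ (mulS w ω (k + 1) : Set Circ) := by
    rw [ae_all_iff]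
    intro k
    have hcl : IsClosed {ω : ℕ → Hyp | ∀ a ∈ (ω k : Set Circ),
        u • a ∈ (mulS w ω (k + 1) : Set Circ)} := by
      have hc : Continuous (fun ω : ℕ → Hyp => (ω k, mulS w ω (k + 1))) :=
        (continuous_apply k).prodMk ((continuous_apply (k + 1)).comp (continuous_mulS w))
      exact (Pool.Agent.TH419.FS.isClosed_pair u).preimage hc
    rw [ae_iff]
    refine le_antisymm (hPG _ hcl.isOpen_compl 0 ?_) zero_le
    filter_upwards [hst.eventually_ge_atTop (k + 1)] with L hL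
    rw [emp_eq_zero hcl.isOpen_compl.measurableSet]
    intro i hi
    refine hi ?_
    simp only [mem_ofPred_eq]
    have e1 : mulS w ((mulS w)^[0 + i] (z L)) (k + 1) = (mulS w)^[0 + (i + 1)] (z L) (k + 1) := by
      rw [← add_assoc, Function.iterate_succ_apply' (mulS w) (0 + i)]
    rw [e1, hzi, hzi]
    rintro _ ⟨j, hj, rfl⟩
    rw [mem_Iic] at hj
    have hmin1 : min k (s L) = k := by omega
    have hmin2 : min (k + 1) (s L) = k + 1 := by omega
    rw [hmin1] at hj
    refine ⟨j + 1, ?_, ?_⟩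
    · rw [mem_Iic, hmin2]
      omega
    · simp only
      rw [smul_smul, smul_smul, smul_smul]
      congr 1
      have e2 : J L + s L - j = (J L + s L - (j + 1)) + 1 := by omega
      rw [e2, pow_succ, pow_succ, pow_succ]
      ring
  -- the generated set is infinite
  have hinf : P {ω : ℕ → Hyp | (FF ω).Finite} = 0 := by
    refine measure_null_of_locally_null _ ?_
    rintro ω hω
    simp only [mem_ofPred_eq] at hω
    obtain ⟨c, hc, hL⟩ := hfar _ hω
    have hc0 : Continuous (fun ω' : ℕ → Hyp => ω' 0) := continuous_apply 0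
    have hop1 : IsOpen {A : Hyp | (A : Set Circ) ⊆ Metric.thickening c (FF ω)} :=
      NonemptyCompacts.isOpen_subsets_of_isOpen
        (Metric.isOpen_thickening (δ := c) (E := FF ω))
    have hopen : IsOpen {ω' : ℕ → Hyp | (ω' 0 : Set Circ) ⊆ Metric.thickening c (FF ω)} :=
      hop1.preimage hc0
    refine ⟨_, mem_nhdsWithin_of_mem_nhds (hopen.mem_nhds ?_), ?_⟩
    · simp only [mem_ofPred_eq]
      refine Subset.trans ?_ (Metric.self_subset_thickening hc _)
      exact (subset_iUnion (fun k => (ω k : Set Circ)) 0).trans subset_closure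
    refine le_antisymm (hPG _ hopen 0 ?_) zero_le
    filter_upwards [hL] with L hL
    rw [emp_apply hopen.measurableSet, Finset.filter_false_of_mem, Finset.card_empty]
    · simp
    intro i hi hmem
    rw [Finset.mem_range] at hi
    obtain ⟨j, hj, hnot⟩ := hL i hi
    simp only [mem_ofPred_eq] at hmem
    rw [hzi] at hmem
    exact hnot (hmem ⟨j, mem_Iic.2 (by omega), rfl⟩)
  have hhit : Hit (fun ω : ℕ → Hyp => FF ω) := by
    intro V hV
    have : {ω : ℕ → Hyp | (FF ω ∩ V).Nonempty} =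
        {ω : ℕ → Hyp | ∃ k, ((ω k : Set Circ) ∩ V).Nonempty} := by
      ext ω
      simp only [mem_ofPred_eq, FF_inter ω hV]
    rw [this]
    exact (isOpen_hit hV).measurableSet
  have hst := h21 u w hu huw hco (ℕ → Hyp) P (mulS w) hPi FF (fun ω => isClosed_closure) hhit
    (by
      filter_upwards [hsub] with ω hω
      intro x hx
      refine map_mem_closure (continuous_nsmul u) hx ?_
      intro a ha
      obtain ⟨k, hk⟩ := mem_iUnion.1 ha
      exact mem_iUnion.2 ⟨k + 1, hω k a hk⟩)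
    (Eventually.of_forall fun ω x hx => by
      refine map_mem_closure (continuous_nsmul w) hx ?_
      intro a ha
      obtain ⟨k, hk⟩ := mem_iUnion.1 ha
      exact mem_iUnion.2 ⟨k, a, hk, rfl⟩)
  have hinf' : ∀ᵐ ω : ℕ → Hyp ∂P, ¬ (FF ω).Finite := by
    rw [ae_iff]; simpa using hinf
  have hG : IsOpen {ω : ℕ → Hyp | ∃ k, ((ω k : Set Circ) ∩ U).Nonempty} := isOpen_hit hU
  have hall : ∀ᵐ ω ∂P, ω ∈ {ω : ℕ → Hyp | ∃ k, ((ω k : Set Circ) ∩ U).Nonempty} := by
    filter_upwards [hst, hinf'] with ω h1 h3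
    rcases h1 with h1 | h1
    · exact absurd h1 h3
    · refine (FF_inter ω hU).1 ?_
      rw [h1, univ_inter]
      exact hUne
  have h1 : P {ω : ℕ → Hyp | ∃ k, ((ω k : Set Circ) ∩ U).Nonempty} = 1 :=
    (mem_ae_iff_prob_eq_one hG.measurableSet).1 hall
  have h2 := hPG _ hG (ENNReal.ofReal (1 - δ)) (Eventually.of_forall fun L => ?_)
  · rw [h1] at h2
    have : ENNReal.ofReal (1 - δ) < 1 := by
      rw [ENNReal.ofReal_lt_one]; linarith
    exact absurd h2 (not_le.2 this)
  · rw [emp_apply hG.measurableSet]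
    have h3 := Finset.card_filter_add_card_filter_not (s := Finset.range (n L))
      (fun i => ∀ j ≤ J L + s L, w ^ i • (w ^ (J L + s L - j) * u ^ j) • y L ∉ U)
    rw [Finset.card_range] at h3
    have h4 : ((Finset.range (n L)).filter (fun i => (mulS w)^[0 + i] (z L) ∈
        {ω : ℕ → Hyp | ∃ k, ((ω k : Set Circ) ∩ U).Nonempty})).card ≤
        ((Finset.range (n L)).filter (fun i => ¬ ∀ j ≤ J L + s L,
          w ^ i • (w ^ (J L + s L - j) * u ^ j) • y L ∉ U)).card := by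
      apply Finset.card_le_card
      intro i hi
      rw [Finset.mem_filter] at hi ⊢
      refine ⟨hi.1, fun hcon2 => ?_⟩
      obtain ⟨k, x, hx, hxU⟩ := hi.2
      rw [hzi] at hx
      obtain ⟨j, hj, rfl⟩ := hx
      rw [mem_Iic] at hj
      exact hcon2 j (by omega) hxU
    have h5 := hcon L
    set a := ((Finset.range (n L)).filter (fun i => ∀ j ≤ J L + s L,
      w ^ i • (w ^ (J L + s L - j) * u ^ j) • y L ∉ U)).card with ha
    set b := ((Finset.range (n L)).filter (fun i => ¬ ∀ j ≤ J L + s L,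
      w ^ i • (w ^ (J L + s L - j) * u ^ j) • y L ∉ U)).card with hb
    have hnR : (0 : ℝ) < n L := by exact_mod_cast hn0 L
    have h6 : (b : ℝ) / n L ≤ 1 - δ := by
      have h7 : (a : ℝ) + b = n L := by exact_mod_cast h3
      rw [div_le_iff₀ hnR]; nlinarith
    refine le_trans (mul_le_mul_right (Nat.cast_le.2 h4) _) ?_
    calc ((n L : ENNReal))⁻¹ * b = ENNReal.ofReal ((b : ℝ) / n L) := by
          rw [ENNReal.ofReal_div_of_pos hnR, ENNReal.ofReal_natCast, ENNReal.ofReal_natCast,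
            ENNReal.div_eq_inv_mul]
      _ ≤ ENNReal.ofReal (1 - δ) := ENNReal.ofReal_le_ofReal h6

end Pool.Agent.TH461.AL.Wb
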