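import Mathlib
import Pool.Agent.TH461.AL.Stms5
import Pool.Agent.TH461.AL.WbB
import Pool.Agent.TH461.AL.Wd

/-!
Project AL, fifth part: words on the anti-diagonals below a far cell.
-/

set_option autoImplicit false

open Filter Topology MeasureTheory Set TopologicalSpace

namespace Pool.Agent.TH461.AL.WbC

open Pool.Agent.TH461.AL
open Pool.Agent.H706R2 (dZ)
open Pool.Agent.H705R2 Pool.Agent.W765.Sta Pool.Agent.W765.KB Pool.Agent.W765.Det
open Pool.Agent.TH461.AL.Wd (far card_refl)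
open Pool.Agent.TH461.AL.Wb (shadowB core_seqB)

/-- the points of the piece -/
lemma elem {u w : ℕ} (hu : 0 < u) (hw : 0 < w) (θ : ℝ) {T t J s j : ℕ} (ht : t < T)
    (hj : j ≤ J + s) :
    w ^ (T - 1 - t) • (w ^ (J + s - j) * u ^ j) •
        (((θ / ((w : ℝ) ^ (T - 1 + s) * (u : ℝ) ^ J) : ℝ)) : Circ) =
      ((θ * (w : ℝ) ^ ((J : ℤ) - j - t) * (u : ℝ) ^ ((j : ℤ) - J) : ℝ) : Circ) := by
  have hu0 : (0 : ℝ) < u := by exact_mod_cast hu
  have hw0 : (0 : ℝ) < w := by exact_mod_cast hw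
  rw [← AddCircle.coe_nsmul, ← AddCircle.coe_nsmul, nsmul_eq_mul, nsmul_eq_mul]
  congr 1
  push_cast
  have e1 : (w : ℝ) ^ ((J : ℤ) - j - t) =
      (w : ℝ) ^ (T - 1 - t) * (w : ℝ) ^ (J + s - j) / (w : ℝ) ^ (T - 1 + s) := by
    rw [eq_div_iff (by positivity), ← zpow_natCast, ← zpow_natCast, ← zpow_natCast,
      ← zpow_add₀ hw0.ne', ← zpow_add₀ hw0.ne']
    congr 1
    omega
  have e2 : (u : ℝ) ^ ((j : ℤ) - J) = (u : ℝ) ^ j / (u : ℝ) ^ J := by
    rw [zpow_sub₀ hu0.ne', zpow_natCast, zpow_natCast]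
  rw [e1, e2]
  field_simp

/-- the start of the piece -/
lemma elem0 {w : ℕ} (hw : 0 < w) (θ : ℝ) {T t : ℕ} (ht : t < T) :
    w ^ (T - 1 - t) • (((θ / (w : ℝ) ^ (T - 1) : ℝ)) : Circ) =
      ((θ * (w : ℝ) ^ (-(t : ℤ)) : ℝ) : Circ) := by
  have h := elem (u := 1) one_pos hw θ (J := 0) (s := 0) (j := 0) ht le_rfl
  simp only [Nat.cast_one, one_zpow, mul_one, Nat.add_zero, Nat.sub_zero, pow_zero,
    one_smul, Nat.cast_zero, sub_zero, zero_sub] at h
  exact h

open Classical in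
theorem wordb : J22 := by
  intro u w hu huw hco h21
  have hu0 : (0 : ℝ) < u := by positivity
  have hw2 : 2 ≤ w := by omega
  have hw0 : (0 : ℝ) < w := by positivity
  have hw1 : (1 : ℝ) ≤ w := by exact_mod_cast (by omega : 1 ≤ w)
  have hratio : 1 < (w : ℝ) / u := by
    rw [lt_div_iff₀ hu0, one_mul]
    exact_mod_cast huw
  obtain ⟨D0, hD0⟩ := pow_unbounded_of_one_lt ((w : ℝ) ^ 2) hratio
  have hD01 : 1 ≤ D0 := by
    by_contra h
    have : D0 = 0 := by omega
    rw [this, pow_zero] at hD0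
    have : (1 : ℝ) ≤ (w : ℝ) ^ 2 := one_le_pow₀ hw1
    linarith
  refine ⟨D0 + 2, ?_⟩
  intro r hr U hU hUne δ hδ
  by_contra hcon
  push Not at hcon
  choose T hT θ hθ hcard using fun L : ℕ => hcon L.factorial (Nat.factorial_pos L)
    (L * L.factorial + L + 4)
  have hT0 : ∀ L, 0 < T L := fun L => by have := hT L; omega
  have hTt : Tendsto T atTop atTop :=
    tendsto_atTop_mono (fun L => by have := hT L; simp only [id]; omega) tendsto_id
  have hsqt : Tendsto (fun L => Nat.sqrt (T L)) atTop atTop := by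
    refine tendsto_atTop.2 fun r => ?_
    filter_upwards [hTt.eventually_ge_atTop (r * r)] with L hL
    exact Nat.le_sqrt.2 hL
  obtain ⟨L, hL⟩ := core_seqB hu huw hco h21 hU hUne hδ
    (fun L => (((θ L / ((w : ℝ) ^ (T L - 1 + Nat.sqrt (T L)) * (u : ℝ) ^ (D0 * T L)) : ℝ)) : Circ))
    T (fun L => D0 * T L) (fun L => Nat.sqrt (T L)) hT0 hTt hsqt
    (by
      intro E hE
      obtain ⟨c, hc, n0, hsh⟩ := shadowB hu huw hE
      refine ⟨c, hc, ?_⟩
      have h0 : ∀ᶠ L : ℕ in atTop, c / r ≤ L := tendsto_natCast_atTop_atTop.eventually_ge_atTop _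
      filter_upwards [eventually_ge_atTop n0, h0] with L h1 h2
      intro i hi
      by_contra hcon2
      push Not at hcon2
      obtain ⟨t, ht, rfl⟩ : ∃ t, t < T L ∧ i = T L - 1 - t := ⟨T L - 1 - i, by omega, by omega⟩
      have hTJ : T L ≤ D0 * T L := Nat.le_mul_of_pos_left _ hD01
      obtain ⟨n, hn1, hn2, e, hne, hdist⟩ := hsh
        (fun b : ℕ => ((θ L * (w : ℝ) ^ ((b : ℤ) - t) * (u : ℝ) ^ (-(b : ℤ)) : ℝ) : Circ))
        (D0 * T L) (by have := hT L; omega) (by
          intro b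
          rw [← AddCircle.coe_nsmul, ← AddCircle.coe_nsmul, nsmul_eq_mul, nsmul_eq_mul]
          congr 1
          push_cast
          rw [show ((b : ℤ) + 1 - t) = ((b : ℤ) - t) + 1 by ring, zpow_add_one₀ hw0.ne',
            zpow_neg, zpow_neg, zpow_add_one₀ hu0.ne']
          field_simp) (by
          intro b hb
          have h3 := hcon2 (D0 * T L - b) (Nat.sub_le _ _)
          rw [elem (by omega) (by omega) (θ L) ht (by omega)] at h3
          have e1 : (((D0 * T L : ℕ) : ℤ) - ((D0 * T L - b : ℕ) : ℤ) - (t : ℤ)) = (b : ℤ) - t := by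
            omega
          have e2 : (((D0 * T L - b : ℕ) : ℤ) - ((D0 * T L : ℕ) : ℤ)) = -(b : ℤ) := by omega
          rw [e1, e2] at h3
          exact h3)
      have h3 : L.factorial • e = 0 := by
        obtain ⟨k, hk⟩ := Nat.dvd_factorial hn1 (hn2.trans h1)
        rw [hk, mul_comm, mul_smul, hne, smul_zero]
      have h4 := far (T := T L) (i := T L - 1 - t) hw2 (by omega) (hθ L) h3
      rw [elem0 (by omega) (θ L) ht] at h4
      simp only [Nat.cast_zero, zero_sub, neg_zero, zpow_zero, mul_one] at hdist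
      set d : ℝ := dist ((θ L * (w : ℝ) ^ (-(t : ℤ)) : ℝ) : Circ) e with hd
      have hd0 : 0 ≤ d := dist_nonneg
      have h5 : (w : ℝ) ^ T L * (w : ℝ) ^ T L ≤ ((w : ℝ) / u) ^ (D0 * T L) := by
        rw [pow_mul, ← mul_pow, ← sq]
        exact pow_le_pow_left₀ (by positivity) hD0.le _
      have h6 : ((L : ℝ) * L.factorial) ≤ (w : ℝ) ^ T L := by
        have h7 : L * L.factorial ≤ w ^ T L := by
          have := hT L
          have h8 : T L < w ^ T L := Nat.lt_pow_self (by omega)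
          omega
        exact_mod_cast h7
      have h7 : (L : ℝ) * r ≤ ((w : ℝ) / u) ^ (D0 * T L) * d := by
        calc (L : ℝ) * r ≤ L * ((w : ℝ) ^ T L * L.factorial * d) :=
              mul_le_mul_of_nonneg_left h4 (Nat.cast_nonneg _)
          _ = (w : ℝ) ^ T L * (L * L.factorial) * d := by ring
          _ ≤ (w : ℝ) ^ T L * (w : ℝ) ^ T L * d := by gcongr
          _ ≤ _ := by gcongr
      rw [div_le_iff₀ hr] at h2
      linarith)
  refine absurd hL (not_le.2 (lt_of_lt_of_le (hcard L) ?_))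
  apply Nat.cast_le.2
  refine card_refl fun t ht h j hj => ?_
  rw [elem (by omega) (by omega) (θ L) ht hj]
  have h1 := h ((((D0 * T L : ℕ)) : ℤ) - j - t) (by
    have h2 := Nat.sqrt_le_self (T L)
    rw [abs_le]
    push_cast
    constructor <;> nlinarith)
  have e1 : (-(t : ℤ) - ((((D0 * T L : ℕ)) : ℤ) - j - t)) = (j : ℤ) - ((D0 * T L : ℕ) : ℤ) := by ring
  rw [e1] at h1
  exact h1

end Pool.Agent.TH461.AL.WbC
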