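import Mathlib
import Pool.Agent.TH461.AL.Stms5
import Pool.Agent.W765.Det
import Pool.Agent.W765.KB2

/-!
Project AL: words on the anti-diagonals below a far cell (`J22`).  The map of the hyperspace is
`A ↦ u A ∪ w A`; the piece at time `i` is the image of the first one under the `i`-th iterate.
-/

set_option autoImplicit false

open Filter Topology MeasureTheory Set TopologicalSpace

namespace Pool.Agent.TH461.AL.Wb

open Pool.Agent.TH461.AL
open Pool.Agent.H706R2 (dZ)
open Pool.Agent.H705R2 Pool.Agent.W765.Sta Pool.Agent.W765.KB Pool.Agent.W765.Det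

/-- the two multiplications in one step -/
noncomputable def two (u w : ℕ) (A : Hyp) : Hyp := mulq u A ⊔ mulq w A

lemma continuous_two (u w : ℕ) : Continuous (two u w) :=
  (continuous_mulq u).sup (continuous_mulq w)

lemma coe_two (u w : ℕ) (A : Hyp) : ((two u w A : Hyp) : Set Circ) =
    (fun x : Circ => u • x) '' A ∪ (fun x : Circ => w • x) '' A := rfl

lemma pow_mem_iter (u w : ℕ) (A : Hyp) (i : ℕ) : ∀ x : Circ, x ∈ (A : Set Circ) →
    w ^ i • x ∈ (((two u w)^[i] A : Hyp) : Set Circ) := by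
  induction i with
  | zero => intro x hx; simpa using hx
  | succ i ih =>
    intro x hx
    rw [Function.iterate_succ_apply', coe_two]
    right
    exact ⟨w ^ i • x, ih x hx, by simp only [pow_succ', mul_smul]⟩

lemma mem_iter (u w : ℕ) (A : Hyp) (i : ℕ) : ∀ x : Circ,
    x ∈ (((two u w)^[i] A : Hyp) : Set Circ) →
      ∃ a c : ℕ, a + c = i ∧ ∃ y ∈ (A : Set Circ), x = (w ^ a * u ^ c) • y := by
  induction i with
  | zero => intro x hx; exact ⟨0, 0, rfl, x, hx, by simp⟩
  | succ i ih =>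
    intro x hx
    rw [Function.iterate_succ_apply', coe_two] at hx
    rcases hx with ⟨z, hz, rfl⟩ | ⟨z, hz, rfl⟩
    · obtain ⟨a, c, hac, y, hy, rfl⟩ := ih z hz
      refine ⟨a, c + 1, by omega, y, hy, ?_⟩
      simp only [← mul_smul]
      congr 1
      ring
    · obtain ⟨a, c, hac, y, hy, rfl⟩ := ih z hz
      refine ⟨a + 1, c, by omega, y, hy, ?_⟩
      simp only [← mul_smul]
      congr 1
      ring

/-- the points of a finite set are separated -/
lemma sep {E : Set Circ} (hfin : E.Finite) :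
    ∃ η > 0, ∀ x ∈ E, ∀ y ∈ E, dist x y < η → x = y := by
  by_contra hcon
  push Not at hcon
  have hfin2 : (E ×ˢ E).Finite := hfin.prod hfin
  set D : Set ℝ := (fun z : Circ × Circ => dist z.1 z.2) '' ((E ×ˢ E) ∩ {z | z.1 ≠ z.2}) with hD
  have hDfin : D.Finite := (hfin2.inter_of_left _).image _
  obtain ⟨x, hx, y, hy, hxy, hne⟩ := hcon 1 one_pos
  have hDne : D.Nonempty := ⟨_, (x, y), ⟨⟨hx, hy⟩, hne⟩, rfl⟩
  obtain ⟨m, hm, hmin⟩ := Set.exists_min_image D id hDfin hDne
  obtain ⟨z, ⟨⟨hz1, hz2⟩, hz3⟩, rfl⟩ := hm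
  obtain ⟨x', hx', y', hy', hxy', hne'⟩ := hcon (dist z.1 z.2) (dist_pos.2 hz3)
  have h1 := hmin (dist x' y') ⟨(x', y'), ⟨⟨hx', hy'⟩, hne'⟩, rfl⟩
  simp only [id] at h1
  linarith

open Classical in
/-- a long chain close to a finite set starts very close to a point of bounded order -/
lemma chain {u w : ℕ} (hu : 2 ≤ u) (huw : u < w) {E : Set Circ} (hfin : E.Finite) :
    ∃ c > 0, ∃ n : ℕ, 1 ≤ n ∧ ∃ J0 : ℕ, ∀ (z : ℕ → Circ) (J : ℕ), J0 ≤ J →
      (∀ b < J, u • z (b + 1) = w • z b) → (∀ b ≤ J, z b ∈ Metric.thickening c E) →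
        ∃ e : Circ, n • e = 0 ∧ ((w : ℝ) / u) ^ J * dist (z 0) e < c := by
  obtain ⟨η, hη, hsep⟩ := sep ((hfin.image (fun x : Circ => u • x)).union
    (hfin.image (fun x : Circ => w • x)))
  have hu0 : (0 : ℝ) < u := by positivity
  have hw0 : (0 : ℝ) < w := by exact_mod_cast (by omega : 0 < w)
  have huwR : (u : ℝ) < w := by exact_mod_cast huw
  have hmin0 : (0 : ℝ) < min (η / ((u : ℝ) + w)) (1 / (2 * w)) :=
    lt_min (by positivity) (by positivity)
  refine ⟨min (η / ((u : ℝ) + w)) (1 / (2 * w)), hmin0,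
    ∏ e ∈ hfin.toFinset.filter (fun e => addOrderOf e ≠ 0), addOrderOf e, ?_,
    hfin.toFinset.card, ?_⟩
  · refine Nat.one_le_iff_ne_zero.2 (Finset.prod_ne_zero_iff.2 fun e he => ?_)
    exact (Finset.mem_filter.1 he).2
  intro z J hJ hz hzE
  set c := min (η / ((u : ℝ) + w)) (1 / (2 * w)) with hc
  have hcη : ((u : ℝ) + w) * c ≤ η := by
    have : c ≤ η / ((u : ℝ) + w) := min_le_left _ _
    rw [le_div_iff₀ (by positivity)] at this
    linarith
  have hc2 : c ≤ 1 / (2 * w) := min_le_right _ _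
  have hc3 : c ≤ 1 / (2 * u) := hc2.trans
    (one_div_le_one_div_of_le (by positivity) (by linarith))
  have hex : ∀ b, ∃ e, b ≤ J → e ∈ E ∧ dist (z b) e < c := by
    intro b
    by_cases hb : b ≤ J
    · obtain ⟨e, he1, he2⟩ := Metric.mem_thickening_iff.1 (hzE b hb)
      exact ⟨e, fun _ => ⟨he1, he2⟩⟩
    · exact ⟨0, fun h => absurd h hb⟩
  choose e he using hex
  have du : ∀ b ≤ J, dist (u • z b) (u • e b) = u * dist (z b) (e b) := by
    intro b hb
    rw [dist_eq_norm, dist_eq_norm, ← nsmul_sub]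
    refine norm_smul_eq (by omega) ?_
    rw [← dist_eq_norm]
    exact lt_of_lt_of_le (he b hb).2 hc3
  have dw : ∀ b ≤ J, dist (w • z b) (w • e b) = w * dist (z b) (e b) := by
    intro b hb
    rw [dist_eq_norm, dist_eq_norm, ← nsmul_sub]
    refine norm_smul_eq (by omega) ?_
    rw [← dist_eq_norm]
    exact lt_of_lt_of_le (he b hb).2 hc2
  have key1 : ∀ b < J, u • e (b + 1) = w • e b := by
    intro b hb
    refine hsep _ (Or.inl ⟨_, (he (b + 1) hb).1, rfl⟩) _ (Or.inr ⟨_, (he b hb.le).1, rfl⟩) ?_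
    calc dist (u • e (b + 1)) (w • e b) ≤ dist (u • z (b + 1)) (u • e (b + 1))
          + dist (u • z (b + 1)) (w • e b) := dist_triangle_left _ _ _
      _ = u * dist (z (b + 1)) (e (b + 1)) + w * dist (z b) (e b) := by
          rw [du (b + 1) hb, hz b hb, dw b hb.le]
      _ < u * c + w * c := by
          have h1 := mul_lt_mul_of_pos_left (he (b + 1) hb).2 hu0
          have h2 := mul_lt_mul_of_pos_left (he b hb.le).2 hw0
          linarith
      _ ≤ η := by linarith
  have key2 : ∀ b ≤ J, ((w : ℝ) / u) ^ b * dist (z 0) (e 0) = dist (z b) (e b) := by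
    intro b
    induction b with
    | zero => intro _; simp
    | succ b ih =>
      intro hb
      have h1 := ih (by omega)
      have h2 := du (b + 1) hb
      rw [hz b hb, key1 b hb, dw b (by omega)] at h2
      rw [pow_succ', mul_assoc, h1, div_mul_eq_mul_div, h2]
      field_simp
  have key3 : ∀ b k : ℕ, b + k ≤ J → u ^ k • e (b + k) = w ^ k • e b := by
    intro b k
    induction k with
    | zero => intro _; simp
    | succ k ih =>
      intro hk
      have h1 := ih (by omega)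
      rw [pow_succ, mul_smul, ← add_assoc, key1 (b + k) (by omega), smul_comm, h1, pow_succ',
        mul_smul]
  -- the order
  obtain ⟨b, hb, b', hb', hne, hbb⟩ := Finset.exists_ne_map_eq_of_card_lt_of_maps_to
    (s := Finset.range (J + 1)) (t := hfin.toFinset) (f := e) (by rw [Finset.card_range]; omega)
    (fun b hb => by
      have hb1 : b ≤ J := by
        have := Finset.mem_range.1 (Finset.mem_coe.1 hb)
        omega
      exact Finset.mem_coe.2 (hfin.mem_toFinset.2 (he b hb1).1))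
  have horder : ∀ b b' : ℕ, b < b' → b' ≤ J → e b = e b' → addOrderOf (e 0) ≠ 0 := by
    intro b b' hlt hle hbb
    have h1 := key3 b (b' - b) (by omega)
    have h2 : b + (b' - b) = b' := by omega
    rw [h2, ← hbb] at h1
    have h3 := key3 0 b (by omega)
    rw [zero_add] at h3
    have hpow : u ^ (b' - b) < w ^ (b' - b) := Nat.pow_lt_pow_left huw (by omega)
    have h4 : (w ^ (b' - b) - u ^ (b' - b)) • e b = 0 := by
      have h40 : (w ^ (b' - b) - u ^ (b' - b)) • e b + u ^ (b' - b) • e b = w ^ (b' - b) • e b := by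
        rw [← add_smul, Nat.sub_add_cancel hpow.le]
      rw [h1] at h40
      exact add_eq_right.1 h40
    have h5 : ((w ^ (b' - b) - u ^ (b' - b)) * w ^ b) • e 0 = 0 := by
      rw [mul_smul, ← h3, smul_comm, h4, smul_zero]
    have h6 := addOrderOf_dvd_of_nsmul_eq_zero h5
    intro h0
    rw [h0, zero_dvd_iff] at h6
    have h7 : 0 < (w ^ (b' - b) - u ^ (b' - b)) * w ^ b :=
      Nat.mul_pos (by omega) (Nat.pow_pos (by omega))
    omega
  have hord : addOrderOf (e 0) ≠ 0 := by
    rw [Finset.mem_range] at hb hb'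
    rcases lt_or_gt_of_ne hne with h | h
    · exact horder b b' h (by omega) hbb
    · exact horder b' b h (by omega) hbb.symm
  refine ⟨e 0, ?_, ?_⟩
  · rw [← addOrderOf_dvd_iff_nsmul_eq_zero]
    exact Finset.dvd_prod_of_mem _ (Finset.mem_filter.2
      ⟨hfin.mem_toFinset.2 (he 0 (Nat.zero_le _)).1, hord⟩)
  · rw [key2 J le_rfl]
    exact (he J le_rfl).2

/-- the distance from a point of bounded order -/
lemma far {q : ℕ} (hq : 2 ≤ q) {r θ : ℝ} {F T i : ℕ} (hi : i < T) (hr : r ≤ dZ (F * θ))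
    {e : Circ} (he : F • e = 0) :
    r ≤ (q : ℝ) ^ T * F * dist (q ^ i • (((θ / (q : ℝ) ^ (T - 1) : ℝ)) : Circ)) e := by
  have hq0 : (0 : ℝ) < q := by positivity
  have hq1 : (1 : ℝ) ≤ q := by exact_mod_cast (by omega : 1 ≤ q)
  set y : Circ := (((θ / (q : ℝ) ^ (T - 1) : ℝ)) : Circ) with hy
  have e1 : ((F * θ : ℝ) : Circ) = (q ^ (T - 1 - i) * F) • (q ^ i • y) := by
    rw [hy, ← AddCircle.coe_nsmul, ← AddCircle.coe_nsmul, nsmul_eq_mul, nsmul_eq_mul]
    congr 1
    push_cast
    have e2 : (q : ℝ) ^ (T - 1 - i) * (q : ℝ) ^ i = (q : ℝ) ^ (T - 1) := by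
      rw [← pow_add]
      congr 1
      omega
    have e3 : (q : ℝ) ^ (T - 1) ≠ 0 := by positivity
    calc (F : ℝ) * θ = F * ((q : ℝ) ^ (T - 1) * (θ / (q : ℝ) ^ (T - 1))) := by
          rw [mul_div_cancel₀ _ e3]
      _ = (q : ℝ) ^ (T - 1 - i) * F * ((q : ℝ) ^ i * (θ / (q : ℝ) ^ (T - 1))) := by
          rw [← e2]
          ring
  have e2 : ‖((F * θ : ℝ) : Circ)‖ = dZ (F * θ) := by
    unfold dZ
    exact UnitAddCircle.norm_eq
  have e3 : (q ^ (T - 1 - i) * F) • (q ^ i • y) = (q ^ (T - 1 - i) * F) • (q ^ i • y - e) := by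
    rw [smul_sub, mul_smul _ F e, he, smul_zero, sub_zero]
  rw [← e2, e1, e3] at hr
  refine hr.trans (norm_nsmul_le.trans ?_)
  rw [← dist_eq_norm]
  refine mul_le_mul_of_nonneg_right ?_ dist_nonneg
  push_cast
  refine mul_le_mul_of_nonneg_right ?_ (by positivity)
  exact pow_le_pow_right₀ hq1 (by omega)

lemma card_refl {T : ℕ} {P Q : ℕ → Prop} {dP : DecidablePred P} {dQ : DecidablePred Q}
    (h : ∀ t < T, P t → Q (T - 1 - t)) :
    ((Finset.range T).filter P).card ≤ ((Finset.range T).filter Q).card := by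
  refine Finset.card_le_card_of_injOn (fun t => T - 1 - t) ?_ ?_
  · intro t ht
    obtain ⟨ht1, ht2⟩ := Finset.mem_filter.1 (Finset.mem_coe.1 ht)
    rw [Finset.mem_range] at ht1
    exact Finset.mem_coe.2 (Finset.mem_filter.2 ⟨Finset.mem_range.2 (by simp only; omega),
      h t ht1 ht2⟩)
  · intro a ha b hb hab
    have h1 := Finset.mem_range.1 (Finset.mem_filter.1 (Finset.mem_coe.1 ha)).1
    have h2 := Finset.mem_range.1 (Finset.mem_filter.1 (Finset.mem_coe.1 hb)).1
    simp only at hab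
    omega

/-- the first piece -/
noncomputable def first (z : ℕ → Circ) (J : ℕ) : Hyp :=
  ⟨⟨z '' Iic J, ((Set.finite_Iic J).image _).isCompact⟩, ⟨_, 0, Nat.zero_le _, rfl⟩⟩

lemma coe_first (z : ℕ → Circ) (J : ℕ) : ((first z J : Hyp) : Set Circ) = z '' Iic J := rfl

open Classical in
theorem wordb : J22 := by
  intro u w hu huw hcop hJ
  have hw2 : 2 ≤ w := by omega
  have hu0 : (0 : ℝ) < u := by positivity
  have hw0 : (0 : ℝ) < w := by exact_mod_cast (by omega : 0 < w)
  have huwR : (u : ℝ) < w := by exact_mod_cast huw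
  obtain ⟨D0, hD0⟩ := pow_unbounded_of_one_lt ((w : ℝ) ^ 2) ((one_lt_div hu0).2 huwR)
  refine ⟨D0 + 1, ?_⟩
  intro r hr U hU hUne δ hδ
  by_contra hcon
  push Not at hcon
  choose T hT θ hθ hcard using fun L : ℕ => hcon L.factorial (Nat.factorial_pos L)
    (L * L.factorial + L + 1)
  have hT0 : ∀ L, 0 < T L := fun L => by have := hT L; omega
  have hTt : Tendsto T atTop atTop :=
    tendsto_atTop_mono (fun L => by have := hT L; simp only [id]; omega) tendsto_id
  set z : ℕ → ℕ → Circ := fun L b =>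
    ((θ L / (w : ℝ) ^ (T L - 1) * ((w : ℝ) / u) ^ b : ℝ) : Circ) with hz
  set A0 : ℕ → Hyp := fun L => first (z L) ((D0 + 1) * T L) with hA0
  obtain ⟨P, hP, hPi, hPG⟩ := kb2 (continuous_two u w) A0 (fun _ => 0) T hTt hT0
  have hst := hJ u w hu huw hcop Hyp P (two u w) hPi (fun A : Hyp => (A : Set Circ))
    (fun A => A.isCompact.isClosed) hit_coe
    (ae_of_all _ fun A x hx => Or.inl ⟨x, hx, rfl⟩)
    (ae_of_all _ fun A x hx => Or.inr ⟨x, hx, rfl⟩)
  -- not finite
  have hinf : P {A : Hyp | (A : Set Circ).Finite} = 0 := by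
    refine measure_null_of_locally_null _ ?_
    rintro E hE
    simp only [mem_ofPred_eq] at hE
    obtain ⟨c, hc, n, hn, J0, hch⟩ := chain hu huw hE
    have hopen : IsOpen {A : Hyp | (A : Set Circ) ⊆ Metric.thickening c (E : Set Circ)} :=
      NonemptyCompacts.isOpen_subsets_of_isOpen
        (Metric.isOpen_thickening (δ := c) (E := (E : Set Circ)))
    refine ⟨_, mem_nhdsWithin_of_mem_nhds (hopen.mem_nhds
      (Metric.self_subset_thickening hc _)), ?_⟩
    refine le_antisymm (hPG _ hopen 0 ?_) zero_le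
    have h0 : ∀ᶠ L : ℕ in atTop, c / r ≤ L :=
      tendsto_natCast_atTop_atTop.eventually_ge_atTop _
    filter_upwards [eventually_ge_atTop n, h0, hTt.eventually_ge_atTop J0] with L h1 h2 h3
    rw [emp_apply hopen.measurableSet, Finset.filter_false_of_mem, Finset.card_empty]
    · simp
    intro i hi hmem
    rw [Finset.mem_range] at hi
    rw [zero_add] at hmem
    simp only [mem_ofPred_eq] at hmem
    obtain ⟨e, hne, hlt⟩ := hch (fun b => w ^ i • z L b) ((D0 + 1) * T L)
      (h3.trans (Nat.le_mul_of_pos_left _ (Nat.succ_pos _)))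
      (fun b _ => by
        simp only [hz]
        rw [smul_comm u, smul_comm w]
        congr 1
        rw [← AddCircle.coe_nsmul, ← AddCircle.coe_nsmul, nsmul_eq_mul, nsmul_eq_mul]
        congr 1
        rw [pow_succ]
        field_simp)
      (fun b hb => hmem (pow_mem_iter u w (A0 L) i _ ⟨b, hb, rfl⟩))
    have h4 : L.factorial • e = 0 := by
      obtain ⟨k, hk⟩ := Nat.dvd_factorial hn h1
      rw [hk, mul_comm, mul_smul, hne, smul_zero]
    have h5 := far (T := T L) hw2 hi (hθ L) h4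
    have e0 : z L 0 = ((θ L / (w : ℝ) ^ (T L - 1) : ℝ) : Circ) := by
      simp only [hz, pow_zero, mul_one]
    simp only [e0] at hlt
    set d := dist (w ^ i • ((θ L / (w : ℝ) ^ (T L - 1) : ℝ) : Circ)) e with hd
    have hd0 : 0 ≤ d := dist_nonneg
    have h6 : (w : ℝ) ^ (T L) * (w : ℝ) ^ (T L) ≤ ((w : ℝ) / u) ^ ((D0 + 1) * T L) := by
      rw [← mul_pow, pow_mul]
      refine pow_le_pow_left₀ (by positivity) ?_ _
      have h7 : (1 : ℝ) ≤ (w : ℝ) / u := ((one_lt_div hu0).2 huwR).le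
      calc (w : ℝ) * w = (w : ℝ) ^ 2 := by ring
        _ ≤ ((w : ℝ) / u) ^ D0 := hD0.le
        _ ≤ ((w : ℝ) / u) ^ (D0 + 1) := pow_le_pow_right₀ h7 (Nat.le_succ _)
    have h7 : ((L : ℝ) * L.factorial) ≤ (w : ℝ) ^ (T L) := by
      have h8 : L * L.factorial ≤ w ^ (T L) := by
        have h9 : T L < w ^ (T L) := Nat.lt_pow_self (by omega)
        have := hT L
        omega
      exact_mod_cast h8
    rw [div_le_iff₀ hr] at h2
    have h8 : (w : ℝ) ^ (T L) * ((w : ℝ) ^ (T L) * d) < c := by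
      refine lt_of_le_of_lt ?_ hlt
      rw [← mul_assoc]
      exact mul_le_mul_of_nonneg_right h6 hd0
    have h9 : (L : ℝ) * L.factorial * ((w : ℝ) ^ (T L) * d) < c :=
      lt_of_le_of_lt (mul_le_mul_of_nonneg_right h7 (by positivity)) h8
    have h10 : (L : ℝ) * r ≤ (L : ℝ) * L.factorial * ((w : ℝ) ^ (T L) * d) := by
      have := mul_le_mul_of_nonneg_left h5 (Nat.cast_nonneg (α := ℝ) L)
      linarith
    linarith
  have hinf' : ∀ᵐ A : Hyp ∂P, ¬ (A : Set Circ).Finite := by
    rw [ae_iff]; simpa using hinf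
  have hG : IsOpen {A : Hyp | ((A : Set Circ) ∩ U).Nonempty} :=
    NonemptyCompacts.isOpen_inter_nonempty_of_isOpen hU
  have hall : ∀ᵐ A ∂P, A ∈ {A : Hyp | ((A : Set Circ) ∩ U).Nonempty} := by
    filter_upwards [hst, hinf'] with A h1 h3
    rcases h1 with h1 | h1
    · exact absurd h1 h3
    · obtain ⟨x, hx⟩ := hUne
      refine ⟨x, ?_, hx⟩
      rw [h1]
      exact mem_univ x
  have h1 : P {A : Hyp | ((A : Set Circ) ∩ U).Nonempty} = 1 :=
    (mem_ae_iff_prob_eq_one hG.measurableSet).1 hall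
  have h2 := hPG _ hG (ENNReal.ofReal (1 - δ)) (Eventually.of_forall fun L => ?_)
  · rw [h1] at h2
    have : ENNReal.ofReal (1 - δ) < 1 := by
      rw [ENNReal.ofReal_lt_one]; linarith
    exact absurd h2 (not_le.2 this)
  · rw [emp_apply hG.measurableSet]
    have h3 := Finset.card_filter_add_card_filter_not (s := Finset.range (T L))
      (fun i => (two u w)^[0 + i] (A0 L) ∈ {A : Hyp | ((A : Set Circ) ∩ U).Nonempty})
    rw [Finset.card_range] at h3
    have h4 : ((Finset.range (T L)).filter (fun t : ℕ => ∀ i : ℤ, |i| ≤ ((D0 + 1 : ℕ) : ℤ) * T L →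
        ((θ L * (w : ℝ) ^ i * (u : ℝ) ^ (-(t : ℤ) - i) : ℝ) : UnitAddCircle) ∉ U)).card ≤
        ((Finset.range (T L)).filter (fun i => ¬ (two u w)^[0 + i] (A0 L) ∈
          {A : Hyp | ((A : Set Circ) ∩ U).Nonempty})).card := by
      refine card_refl fun t ht h hmem => ?_
      rw [zero_add] at hmem
      simp only [mem_ofPred_eq] at hmem
      obtain ⟨x, hx, hxU⟩ := hmem
      obtain ⟨a, b, hab, y, hy, rfl⟩ := mem_iter u w (A0 L) _ x hx
      obtain ⟨k, hk, rfl⟩ := hy
      rw [mem_Iic] at hk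
      have hkZ : (k : ℤ) ≤ ((D0 + 1 : ℕ) : ℤ) * T L := by exact_mod_cast hk
      refine h ((a : ℤ) + k - (T L - 1 : ℕ)) ?_ ?_
      · have e1 : (T L : ℤ) ≤ ((D0 + 1 : ℕ) : ℤ) * T L := by
          have : T L ≤ (D0 + 1) * T L := Nat.le_mul_of_pos_left _ (Nat.succ_pos _)
          exact_mod_cast this
        have e2 : a ≤ T L - 1 := by omega
        rw [abs_le]
        constructor
        · omega
        · omega
      · have e1 : ((w ^ a * u ^ b) • z L k) =
            ((θ L * (w : ℝ) ^ ((a : ℤ) + k - (T L - 1 : ℕ)) *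
              (u : ℝ) ^ (-(t : ℤ) - ((a : ℤ) + k - (T L - 1 : ℕ))) : ℝ) : Circ) := by
          simp only [hz]
          rw [← AddCircle.coe_nsmul, nsmul_eq_mul]
          congr 1
          have e2 : -(t : ℤ) - ((a : ℤ) + k - (T L - 1 : ℕ)) = (b : ℤ) - k := by omega
          rw [e2, zpow_sub₀ hw0.ne', zpow_add₀ hw0.ne', zpow_sub₀ hu0.ne', zpow_natCast,
            zpow_natCast, zpow_natCast, zpow_natCast, zpow_natCast, div_pow]
          push_cast
          field_simp
        rw [← e1]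
        exact hxU
    have h5 := hcard L
    set a := ((Finset.range (T L)).filter (fun i => (two u w)^[0 + i] (A0 L) ∈
        {A : Hyp | ((A : Set Circ) ∩ U).Nonempty})).card with ha
    set b := ((Finset.range (T L)).filter (fun i => ¬ (two u w)^[0 + i] (A0 L) ∈
        {A : Hyp | ((A : Set Circ) ∩ U).Nonempty})).card with hb
    have hnR : (0 : ℝ) < T L := by exact_mod_cast hT0 L
    have h6 : (a : ℝ) / T L ≤ 1 - δ := by
      have h7 : (a : ℝ) + b = T L := by exact_mod_cast h3
      have h8 : δ * T L < b := lt_of_lt_of_le h5 (by exact_mod_cast h4)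
      rw [div_le_iff₀ hnR]; nlinarith
    calc ((T L : ENNReal))⁻¹ * a = ENNReal.ofReal ((a : ℝ) / T L) := by
          rw [ENNReal.ofReal_div_of_pos hnR, ENNReal.ofReal_natCast, ENNReal.ofReal_natCast,
            ENNReal.div_eq_inv_mul]
      _ ≤ ENNReal.ofReal (1 - δ) := ENNReal.ofReal_le_ofReal h6

end Pool.Agent.TH461.AL.Wb
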